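import Pool.Agent.Lev.Stm5

set_option autoImplicit false

open Polynomial Metric Set Filter Topology

namespace Pool.Agent.Lev

namespace J_C

theorem main (hBasics : Basics) (h_rigid : S_rigid) :
    S_C := by
  rintro d F G hF hd hG hInv hSpec c r w u hr hwu ⟨C, hC⟩ hu t g ht hgd hg
  by_contra hcon
  push Not at hcon
  obtain ⟨r₁, hr₁⟩ : ∃ r₁ : ℝ, r₁ = 3 * r / 4 := ⟨_, rfl⟩
  have hr₁pos : 0 < r₁ := by rw [hr₁]; linarith
  have hr₁lt : r₁ < r := by rw [hr₁]; linarith
  have hr₁ge : r / 2 ≤ r₁ := by rw [hr₁]; linarith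
  have claim : ∀ n : ℕ, ∃ k, n ≤ k ∧ ∃ i j : Fin (t k), i ≠ j ∧
      ∀ x ∈ ball c r₁, ‖g k i x - g k j x‖ ≤ 1 / ((n : ℝ) + 1) := by
    intro n
    by_contra hn
    push Not at hn
    obtain ⟨ε, hεd⟩ : ∃ ε : ℝ, ε = 1 / ((n : ℝ) + 1) := ⟨_, rfl⟩
    rw [← hεd] at hn
    have hε : 0 < ε := by rw [hεd]; positivity
    obtain ⟨f, -, hf⟩ := exists_seq_of_forall_finset_exists
      (fun _ : (Σ k : ℕ, Fin (t k)) => True)
      (fun a b => ∃ x ∈ ball c r₁, ε / 2 ≤ ‖g a.1 a.2 x - g b.1 b.2 x‖) (by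
        intro s _
        obtain ⟨k, hk2, hk1⟩ :=
          ((ht.eventually_gt_atTop s.card).and (eventually_ge_atTop n)).exists
        by_contra hno
        push Not at hno
        have h1 : ∀ i : Fin (t k), ∃ a ∈ s, ∀ x ∈ ball c r₁,
            ‖g a.1 a.2 x - g k i x‖ < ε / 2 := fun i => hno ⟨k, i⟩ trivial
        choose a ha1 ha2 using h1
        obtain ⟨i, -, j, -, hij, haij⟩ := Finset.exists_ne_map_eq_of_card_lt_of_maps_to
          (s := Finset.univ) (t := s) (f := a) (by simpa using hk2) (fun i _ => ha1 i)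
        obtain ⟨x, hx, hx2⟩ := hn k hk1 i j hij
        have h3 := ha2 i x hx
        have h4 := ha2 j x hx
        rw [← haij] at h4
        have h5 : ‖g k i x - g k j x‖ ≤
            ‖g (a i).1 (a i).2 x - g k i x‖ + ‖g (a i).1 (a i).2 x - g k j x‖ := by
          have h6 : g k i x - g k j x =
              (g (a i).1 (a i).2 x - g k j x) - (g (a i).1 (a i).2 x - g k i x) := by abel
          rw [h6, add_comm]
          exact norm_sub_le _ _
        linarith)
    obtain ⟨φ, hφ, A, hA1, hA2, hA3, -⟩ := hBasics.gmontel hG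
      (a := fun n => g (f n).1 (f n).2) (c := c) (r := r) (M := C) hr (fun n => hgd _ _)
      (fun n z hz => ⟨(hg _ _ z hz).1, by rw [(hg _ _ z hz).2]; exact hC _ z hz⟩)
    have hunif := (tendstoLocallyUniformlyOn_iff_tendstoUniformlyOn_of_compact
      (isCompact_closedBall c r₁)).1 (hA3.mono (closedBall_subset_ball hr₁lt))
    rw [Metric.tendstoUniformlyOn_iff] at hunif
    obtain ⟨N, hN⟩ := eventually_atTop.1 (hunif (ε / 4) (by positivity))
    have h1 := hN N le_rfl
    have h2 := hN (N + 1) (Nat.le_succ N)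
    obtain ⟨x, hx, hx2⟩ := hf (φ N) (φ (N + 1)) (hφ (Nat.lt_succ_self N))
    have h3 := h1 x (ball_subset_closedBall hx)
    have h4 := h2 x (ball_subset_closedBall hx)
    have h5 := dist_triangle_left (g (f (φ N)).1 (f (φ N)).2 x)
      (g (f (φ (N + 1))).1 (f (φ (N + 1))).2 x) (A x)
    rw [← dist_eq_norm] at hx2
    linarith
  choose K hK I J hIJ hclose using claim
  obtain ⟨σ, hσ, A, hA1, hA2, hA3, hA4⟩ := hBasics.gmontel hG
    (a := fun n => g (K n) (I n)) (c := c) (r := r) (M := C) hr (fun n => hgd _ _)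
    (fun n z hz => ⟨(hg _ _ z hz).1, by rw [(hg _ _ z hz).2]; exact hC _ z hz⟩)
  have hKσ : Tendsto (fun n => K (σ n)) atTop atTop :=
    tendsto_atTop_mono (fun n => hK (σ n)) hσ.tendsto_atTop
  have hGA : ∀ x ∈ ball c r, G (A x) = u x := by
    intro x hx
    have h1 : Tendsto (fun n => G (g (K (σ n)) (I (σ n)) x)) atTop (𝓝 (G (A x))) :=
      hA4.tendsto_at hx
    have h2 : Tendsto (fun n => w (K (σ n)) x) atTop (𝓝 (u x)) :=
      (hwu.tendsto_at hx).comp hKσ
    have h3 : (fun n => G (g (K (σ n)) (I (σ n)) x)) = fun n => w (K (σ n)) x := by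
      funext n
      exact (hg _ _ x hx).2
    rw [h3] at h1
    exact tendsto_nhds_unique h1 h2
  have hsub : ball c r₁ ⊆ ball c r := ball_subset_ball hr₁lt.le
  have hφ1 : TendstoLocallyUniformlyOn (fun n => g (K (σ n)) (I (σ n))) A atTop (ball c r₁) :=
    hA3.mono hsub
  have hψ1 : TendstoLocallyUniformlyOn (fun n => g (K (σ n)) (J (σ n))) A atTop (ball c r₁) := by
    have hunif := (tendstoLocallyUniformlyOn_iff_tendstoUniformlyOn_of_compact
      (isCompact_closedBall c r₁)).1 (hA3.mono (closedBall_subset_ball hr₁lt))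
    apply TendstoUniformlyOn.tendstoLocallyUniformlyOn
    rw [Metric.tendstoUniformlyOn_iff] at hunif ⊢
    intro ε hε
    have h1 := hunif (ε / 2) (by positivity)
    have h2 : ∀ᶠ n : ℕ in atTop, 1 / ((σ n : ℝ) + 1) < ε / 2 := by
      have h3 : Tendsto (fun n : ℕ => 1 / ((n : ℝ) + 1)) atTop (𝓝 0) :=
        tendsto_one_div_add_atTop_nhds_zero_nat
      exact (h3.comp hσ.tendsto_atTop).eventually (gt_mem_nhds (by positivity))
    filter_upwards [h1, h2] with n hn1 hn2 x hx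
    have h3 := hn1 x (ball_subset_closedBall hx)
    have h4 := hclose (σ n) x hx
    rw [← dist_eq_norm] at h4
    have h5 := dist_triangle (A x) (g (K (σ n)) (I (σ n)) x) (g (K (σ n)) (J (σ n)) x)
    linarith
  have hnRH : ¬ RH (fun z => G (A z)) (ball c r₁) := by
    intro h
    apply hu
    exact (h.mono (ball_subset_ball hr₁ge)).congr fun z hz =>
      (hGA z (ball_subset_ball (by linarith) hz)).symm
  obtain ⟨n, hn⟩ := h_rigid d F G hF hd hG hInv hSpec
    (fun n => g (K (σ n)) (I (σ n))) (fun n => g (K (σ n)) (J (σ n))) A c r₁ hr₁pos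
    (fun n => (hgd _ _).mono hsub) (fun n => (hgd _ _).mono hsub) (hA1.mono hsub)
    (fun n z hz => ⟨(hg _ _ z (hsub hz)).1, (hg _ _ z (hsub hz)).1⟩)
    (fun z hz => hA2 z (hsub hz)) hφ1 hψ1
    (fun n z hz => by rw [(hg _ _ z (hsub hz)).2, (hg _ _ z (hsub hz)).2]) hnRH
  obtain ⟨x, hx, hx2⟩ := hcon (K (σ n)) (I (σ n)) (J (σ n)) (hIJ (σ n))
  apply hx2
  have hdiff : DifferentiableOn ℂ (fun x => wd (g (K (σ n)) (I (σ n)) x) (g (K (σ n)) (J (σ n)) x))
      (ball c r) := by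
    unfold wd
    have h1 := hgd (K (σ n)) (I (σ n))
    have h2 := hgd (K (σ n)) (J (σ n))
    exact ((h1.fst).mul (h2.snd)).sub ((h1.snd).mul (h2.fst))
  exact hBasics.ident hr₁pos hsub hdiff hn x hx

end J_C

end Pool.Agent.Lev
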