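import Pool.Agent.Lev.Stm5

set_option autoImplicit false

open Polynomial Metric Set Filter Topology

namespace Pool.Agent.Lev

namespace J_KK


/-! pseudo-division -/
theorem pdiv {R : Type} [CommRing R] (P : Polynomial R) (hP : 1 ≤ P.natDegree) :
    ∀ (n : ℕ) (A : Polynomial R), A.natDegree < n → ∃ (k : ℕ) (Q Rm : Polynomial R),
      C (P.leadingCoeff ^ k) * A = P * Q + Rm ∧ Rm.natDegree < P.natDegree := by
  intro n
  induction n with
  | zero => intro A hA; omega
  | succ n ih =>
    intro A hA
    by_cases hlt : A.natDegree < P.natDegree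
    · exact ⟨0, 0, A, by simp, hlt⟩
    · push Not at hlt
      have hApos : 1 ≤ A.natDegree := hP.trans hlt
      set B := C P.leadingCoeff * A - P * (C A.leadingCoeff * X ^ (A.natDegree - P.natDegree))
        with hB
      have hBdeg : B.natDegree < A.natDegree := by
        have h1 : B.natDegree ≤ A.natDegree := by
          refine (natDegree_sub_le _ _).trans (max_le ?_ ?_)
          · exact (natDegree_C_mul_le _ _)
          · refine natDegree_mul_le.trans ?_
            have := natDegree_C_mul_X_pow_le A.leadingCoeff (A.natDegree - P.natDegree)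
            omega
        have h2 : B.coeff A.natDegree = 0 := by
          have e : A.natDegree = P.natDegree + (A.natDegree - P.natDegree) := by omega
          rw [hB, coeff_sub, coeff_C_mul]
          have h3 : (P * (C A.leadingCoeff * X ^ (A.natDegree - P.natDegree))).coeff A.natDegree =
              P.leadingCoeff * A.leadingCoeff := by
            rw [mul_comm (C A.leadingCoeff) _, ← mul_assoc, coeff_mul_C]
            congr 1
            conv_lhs => rw [e]
            have e' : P.natDegree + (A.natDegree - P.natDegree) - P.natDegree =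
              A.natDegree - P.natDegree := by omega
            rw [e', coeff_mul_X_pow]
            rfl
          rw [h3]
          rw [show A.coeff A.natDegree = A.leadingCoeff from rfl]
          ring
        rcases Nat.lt_or_ge B.natDegree A.natDegree with h | h
        · exact h
        · exfalso
          have h4 : B.natDegree = A.natDegree := le_antisymm h1 h
          have h5 : B.leadingCoeff = 0 := by
            unfold leadingCoeff
            rw [h4, h2]
          rw [leadingCoeff_eq_zero] at h5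
          rw [h5, natDegree_zero] at h4
          omega
      obtain ⟨k, Q, Rm, h6, h7⟩ := ih B (by omega)
      refine ⟨k + 1, Q + C (P.leadingCoeff ^ k) * (C A.leadingCoeff *
        X ^ (A.natDegree - P.natDegree)), Rm, ?_, h7⟩
      have h8 : C P.leadingCoeff * A = B +
        P * (C A.leadingCoeff * X ^ (A.natDegree - P.natDegree)) := by rw [hB]; ring
      rw [pow_succ, C_mul, mul_assoc, h8, mul_add, h6]
      ring

/-! Bezout -/
theorem bez (P : Polynomial (Polynomial ℂ)) (m : Multiset ℂ) :
    ∃ S U : Polynomial (Polynomial ℂ), C ((m.map fun t => eval (C t) P).prod) =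
      P * S + (m.map fun t => (X - C (C t) : Polynomial (Polynomial ℂ))).prod * U := by
  induction m using Multiset.induction_on with
  | empty => exact ⟨0, 1, by simp⟩
  | cons t m ih =>
    obtain ⟨S, U, h⟩ := ih
    obtain ⟨G, hG⟩ : (X - C (C t) : Polynomial (Polynomial ℂ)) ∣ P - C (eval (C t) P) := by
      rw [dvd_iff_isRoot]
      simp [IsRoot]
    have hG' : C (eval (C t) P) = P - (X - C (C t)) * G := by rw [← hG]; ring
    rw [Multiset.map_cons, Multiset.prod_cons, Multiset.map_cons, Multiset.prod_cons, C_mul, h, hG']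
    refine ⟨P * S + (m.map fun t => (X - C (C t) : Polynomial (Polynomial ℂ))).prod * U -
      (X - C (C t)) * G * S, -(G * U), ?_⟩
    ring

theorem bf_eval {d : ℕ} {q : ℂ[X]} (hq : q.natDegree ≤ d) {v : ℂ × ℂ} (hv : v.2 ≠ 0) :
    bf d q v = v.2 ^ d * q.eval (v.1 / v.2) := by
  unfold bf
  rw [eval_eq_sum_range' (Nat.lt_succ_of_le hq), Finset.mul_sum]
  refine Finset.sum_congr rfl fun i hi => ?_
  have hi' : i ≤ d := Nat.lt_succ_iff.1 (Finset.mem_range.1 hi)
  have e : v.2 ^ d = v.2 ^ i * v.2 ^ (d - i) := by rw [← pow_add]; congr 1; omega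
  rw [e, div_pow]
  field_simp

/-- shrinking balls -/
theorem shrink (hB : Basics) {ι : Type} (s : Finset ι) (f : ι → ℂ → ℂ) (c : ℂ) (r : ℝ)
    (hd : ∀ i ∈ s, DifferentiableOn ℂ (f i) (ball c r))
    (hn : ∀ i ∈ s, ∃ x ∈ ball c r, f i x ≠ 0) (c' : ℂ) (r' : ℝ) (hr' : 0 < r')
    (hsub : ball c' r' ⊆ ball c r) :
    ∃ (c'' : ℂ) (r'' : ℝ), 0 < r'' ∧ ball c'' r'' ⊆ ball c' r' ∧
      ∀ i ∈ s, ∀ x ∈ ball c'' r'', f i x ≠ 0 := by
  classical
  induction s using Finset.induction_on with
  | empty => exact ⟨c', r', hr', subset_rfl, fun i hi => absurd hi (Finset.notMem_empty i)⟩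
  | insert i s hi ih =>
    obtain ⟨c1, r1, h1, h2, h3⟩ := ih (fun i hi => hd i (Finset.mem_insert_of_mem hi))
      (fun i hi => hn i (Finset.mem_insert_of_mem hi))
    have hsub1 : ball c1 r1 ⊆ ball c r := h2.trans hsub
    obtain ⟨z, hz, hfz⟩ : ∃ z ∈ ball c1 r1, f i z ≠ 0 := by
      by_contra hcon
      push Not at hcon
      obtain ⟨x, hx, hfx⟩ := hn i (Finset.mem_insert_self i s)
      exact hfx (hB.ident h1 hsub1 (hd i (Finset.mem_insert_self i s)) hcon x hx)
    have hc : ContinuousOn (f i) (ball c1 r1) :=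
      ((hd i (Finset.mem_insert_self i s)).continuousOn).mono hsub1
    have hopen : IsOpen (ball c1 r1 ∩ (f i) ⁻¹' {0}ᶜ) :=
      hc.isOpen_inter_preimage isOpen_ball isOpen_compl_singleton
    obtain ⟨ρ, hρ, hρs⟩ := Metric.isOpen_iff.1 hopen z ⟨hz, hfz⟩
    refine ⟨z, ρ, hρ, fun x hx => h2 (hρs hx).1, fun j hj x hx => ?_⟩
    rcases Finset.mem_insert.1 hj with hj | hj
    · subst hj
      exact (hρs hx).2
    · exact h3 j hj x (hρs hx).1

theorem ball_infinite (c : ℂ) {r : ℝ} (hr : 0 < r) : (ball c r).Infinite :=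
  infinite_of_mem_nhds c (ball_mem_nhds c hr)

theorem poly_zero_of_ball {q : ℂ[X]} {c : ℂ} {r : ℝ} (hr : 0 < r)
    (h : ∀ x ∈ ball c r, q.eval x = 0) : q = 0 :=
  eq_zero_of_infinite_isRoot q ((ball_infinite c hr).mono fun x hx => h x hx)


theorem bf_zero_snd {d : ℕ} {q : ℂ[X]} {v : ℂ × ℂ} (hv : v.2 = 0) :
    bf d q v = q.coeff d * v.1 ^ d := by
  unfold bf
  rw [Finset.sum_range_succ, Finset.sum_eq_zero (fun i hi => ?_)]
  · simp
  · have : d - i ≠ 0 := by have := Finset.mem_range.1 hi; omega
    rw [hv, zero_pow this, mul_zero]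

theorem core (P : Polynomial (Polynomial ℂ)) (hdeg : 1 ≤ P.natDegree) (N D0 : ℂ[X])
    (hD0 : D0 = (D0.roots.map fun t => X - C t).prod)
    (hroots : ∀ t ∈ D0.roots, eval (C t) P ≠ 0) (c : ℂ) (r : ℝ) (hr : 0 < r)
    (y : ℂ → Fin P.natDegree → ℂ) (hinj : ∀ x ∈ ball c r, Function.Injective (y x))
    (hP0 : ∀ x ∈ ball c r, ∀ i, P.evalEval x (y x i) = 0)
    (hW : ∀ x ∈ ball c r, ∀ i j,
      N.eval (y x i) * D0.eval (y x j) = D0.eval (y x i) * N.eval (y x j)) :
    ∃ a b : ℂ[X], a ≠ 0 ∧
      P ∣ C a * N.map (C : ℂ →+* ℂ[X]) - C b * D0.map (C : ℂ →+* ℂ[X]) := by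
  obtain ⟨S, U, hSU⟩ := bez P D0.roots
  set cc := (D0.roots.map fun t => eval (C t) P).prod with hcc
  have hcc0 : cc ≠ 0 := by
    rw [hcc]
    intro h
    rw [Multiset.prod_eq_zero_iff] at h
    obtain ⟨t, ht, h0⟩ := Multiset.mem_map.1 h
    exact hroots t ht h0
  have hD : (D0.roots.map fun t => (X - C (C t) : Polynomial (Polynomial ℂ))).prod =
      D0.map (C : ℂ →+* ℂ[X]) := by
    conv_rhs => rw [hD0]
    rw [Polynomial.map_multiset_prod, Multiset.map_map]
    congr 1
    refine Multiset.map_congr rfl fun t _ => ?_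
    simp
  rw [hD] at hSU
  obtain ⟨k, Q, Rm, hQ, hRm⟩ := pdiv P hdeg _ (N.map (C : ℂ →+* ℂ[X]) * U) (Nat.lt_succ_self _)
  set a := P.leadingCoeff ^ k * cc with ha
  have hlc : P.leadingCoeff ≠ 0 := by
    rw [Ne, leadingCoeff_eq_zero]
    rintro h0
    rw [h0] at hdeg
    simp at hdeg
  have ha0 : a ≠ 0 := mul_ne_zero (pow_ne_zero _ hlc) hcc0
  have hmain : C a * N.map (C : ℂ →+* ℂ[X]) - D0.map (C : ℂ →+* ℂ[X]) * Rm =
      P * (C (P.leadingCoeff ^ k) * N.map (C : ℂ →+* ℂ[X]) * S +
        D0.map (C : ℂ →+* ℂ[X]) * Q) := by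
    rw [ha, C_mul, hSU]
    linear_combination (D0.map (C : ℂ →+* ℂ[X])) * hQ
  have key : ∀ x ∈ ball c r, ∀ j, 1 ≤ j → (Rm.coeff j * a).eval x = 0 := by
    intro x hx j hj
    rw [eval_mul]
    by_cases hax : a.eval x = 0
    · rw [hax, mul_zero]
    have hccx : cc.eval x ≠ 0 := by
      intro h; apply hax; rw [ha, eval_mul, h, mul_zero]
    have e1 : ∀ i, D0.eval (y x i) ≠ 0 := by
      intro i h
      have := congrArg (fun T : Polynomial (Polynomial ℂ) => T.evalEval x (y x i)) hSU
      simp only [evalEval_C, evalEval_add, evalEval_mul, hP0 x hx i, evalEval_map_C, h,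
        zero_mul, add_zero] at this
      exact hccx this
    have e2 : ∀ i, a.eval x * N.eval (y x i) = D0.eval (y x i) * Rm.evalEval x (y x i) := by
      intro i
      have := congrArg (fun T : Polynomial (Polynomial ℂ) => T.evalEval x (y x i)) hmain
      simp only [evalEval_C, evalEval_sub, evalEval_mul, hP0 x hx i, evalEval_map_C,
        zero_mul] at this
      linear_combination this
    have e3 : ∀ i j, Rm.evalEval x (y x i) = Rm.evalEval x (y x j) := by
      intro i j
      have h5 := hW x hx i j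
      apply mul_left_cancel₀ (mul_ne_zero (e1 i) (e1 j))
      linear_combination (a.eval x) * h5 - (D0.eval (y x j)) * e2 i + (D0.eval (y x i)) * e2 j
    let i0 : Fin P.natDegree := ⟨0, hdeg⟩
    have e4 : Rm.map (evalRingHom x) - C (Rm.evalEval x (y x i0)) = 0 := by
      refine eq_zero_of_natDegree_lt_card_of_eval_eq_zero _ (hinj x hx) (fun i => ?_) ?_
      · rw [eval_sub, eval_C, Polynomial.map_evalRingHom_eval, e3 i i0, sub_self]
      · rw [Fintype.card_fin]
        refine lt_of_le_of_lt (natDegree_sub_le _ _) (max_lt ?_ ?_)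
        · exact lt_of_le_of_lt natDegree_map_le hRm
        · rw [natDegree_C]; exact hdeg
    have e5 := congrArg (fun q : ℂ[X] => q.coeff j) e4
    simp only [coeff_sub, coeff_map, coeff_zero, coeff_C, coe_evalRingHom] at e5
    rw [if_neg (by omega), sub_zero] at e5
    rw [e5, zero_mul]
  have hRmC : Rm = C (Rm.coeff 0) := by
    ext1 j
    rw [coeff_C]
    split_ifs with hj
    · rw [hj]
    · have := poly_zero_of_ball hr (fun x hx => key x hx j (by omega))
      exact (mul_eq_zero.1 this).resolve_right ha0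
  refine ⟨a, Rm.coeff 0, ha0, ?_⟩
  rw [← hRmC]
  exact ⟨_, by rw [← hmain]; ring⟩

theorem main (hBasics : Basics) (h_lf : S_lf) (h_pol : S_pol) (h_uniq : S_uniq) (h_sep : S_sep) (h_rel : S_rel) :
    S_KK := by
  intro ω₁ ω₂ θ₁ θ₂ hE1 hE2 P hirr hdeg hPrel c r g hr hgd hg hgne W
  obtain ⟨hfld, hdg, hcomp, huni⟩ := h_rel ω₁ ω₂ θ₁ θ₂ hE1 hE2
  constructor
  · rintro ⟨V, hV⟩ i j x hx
    by_cases hW : 1 ≤ dg W
    · have hV1 : 1 ≤ dg V := (hdg V W hV).2 hW
      have hPR : PRel (pol V W) θ₁ θ₂ := (h_pol.1 ω₁ ω₂ θ₁ θ₂ hE1 hE2 V W).1 hV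
      have hdvd : P ∣ pol V W := (h_uniq ω₁ ω₂ θ₁ θ₂ hE1 hE2).1 P (pol V W) hirr hPrel hPR
      have hk : ∀ i, wd (lf V (x, 1)) (lf W (g i x)) = 0 := fun i =>
        (h_pol.2 V W hV1 hW).2 P hdvd x (g i x) (hg i x hx).2 (hg i x hx).1
      exact wd_trans ((h_lf V).2 (x, 1) (prod_one_ne x)) (wd_symm (hk i)) (hk j)
    · have h0 : dg W = 0 := by omega
      simp only [lf, h0, bf, wd, zero_add, Finset.range_one, Finset.sum_singleton, pow_zero,
        mul_one, Nat.sub_self]
      ring
  · intro hall
    by_cases hW : 1 ≤ dg W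
    swap
    · have h0 : dg W = 0 := by omega
      have h1 : W.num.natDegree = 0 := by
        have := le_max_left W.num.natDegree W.denom.natDegree
        unfold dg at h0; omega
      have h2 : W.denom.natDegree = 0 := by
        have := le_max_right W.num.natDegree W.denom.natDegree
        unfold dg at h0; omega
      have h3 : W.denom = 1 := by
        have := eq_C_of_natDegree_eq_zero h2
        have hm := RatFunc.monic_denom W
        have h4 : W.denom.coeff 0 = 1 := by
          have := hm.coeff_natDegree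
          rwa [h2] at this
        rw [this, h4, C_1]
      have h5 : W = RatFunc.C (W.num.coeff 0) := by
        conv_lhs => rw [← RatFunc.num_div_denom W, h3, eq_C_of_natDegree_eq_zero h1]
        simp
      rw [h5]
      exact hfld.1 _
    -- the roots of the denominator
    have hroots : ∀ t ∈ W.denom.roots, eval (C t) P ≠ 0 := by
      intro t _ h0
      have hd : (X - C (C t) : Polynomial (Polynomial ℂ)) ∣ P := by
        rw [dvd_iff_isRoot]; exact h0
      obtain ⟨Q, hQ⟩ := hd
      rcases hirr.isUnit_or_isUnit hQ with hu | hu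
      · exact not_isUnit_X_sub_C _ hu
      · obtain ⟨Q', hQ'⟩ := hu.exists_right_inv
        apply hE2.nc
        refine ⟨t, ?_⟩
        filter_upwards [hPrel] with z hz
        rw [hQ, evalEval_mul] at hz
        have h3 := congrArg (fun T : Polynomial (Polynomial ℂ) => T.evalEval (θ₁ z) (θ₂ z)) hQ'
        simp only [evalEval_mul, evalEval_one] at h3
        rcases mul_eq_zero.1 hz with h4 | h4
        · simp only [evalEval_sub, evalEval_X, evalEval_C, eval_C] at h4
          exact sub_eq_zero.1 h4
        · rw [h4, zero_mul] at h3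
          exact absurd h3 zero_ne_one
    -- the good ball
    have hlc : P.leadingCoeff ≠ 0 := by
      rw [Ne, leadingCoeff_eq_zero]
      rintro h0
      rw [h0] at hdeg
      simp at hdeg
    obtain ⟨c1, r1, hr1, hsub1, hne1⟩ := shrink hBasics (Finset.univ : Finset (Fin P.natDegree))
      (fun i x => (g i x).2) c r (fun i _ => (hgd i).snd) (fun i _ => by
        by_contra hcon
        push Not at hcon
        apply hlc
        refine poly_zero_of_ball (c := c) hr fun (x : ℂ) (hx : x ∈ ball c r) => ?_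
        have h1 := (hg i x hx).2
        rw [bf_zero_snd (hcon x hx), coeff_map] at h1
        rcases mul_eq_zero.1 h1 with h2 | h2
        · exact h2
        · exfalso
          exact (hg i x hx).1 (Prod.ext (pow_eq_zero_iff (by omega) |>.1 h2) (hcon x hx))) c r hr
      subset_rfl
    obtain ⟨c2, r2, hr2, hsub2, hne2⟩ := shrink hBasics
      ((Finset.univ : Finset (Fin P.natDegree × Fin P.natDegree)).filter fun ij => ij.1 ≠ ij.2)
      (fun ij x => wd (g ij.1 x) (g ij.2 x)) c r
      (fun ij _ => ((hgd ij.1).fst.mul (hgd ij.2).snd).sub ((hgd ij.1).snd.mul (hgd ij.2).fst))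
      (fun ij hij => hgne ij.1 ij.2 (Finset.mem_filter.1 hij).2) c1 r1 hr1 hsub1
    have hsub : ball c2 r2 ⊆ ball c r := hsub2.trans hsub1
    have hsnd : ∀ x ∈ ball c2 r2, ∀ i, (g i x).2 ≠ 0 := fun x hx i =>
      hne1 i (Finset.mem_univ i) x (hsub2 hx)
    obtain ⟨a, b, ha, Z, hZ⟩ := core P hdeg W.num W.denom
      (by
        have := IsAlgClosed.splits W.denom
        exact this.eq_prod_roots_of_monic (RatFunc.monic_denom W)) hroots c2 r2 hr2
      (fun x i => (g i x).1 / (g i x).2)
      (fun x hx i j hij => by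
        by_contra hne
        have h1 := hne2 (i, j) (Finset.mem_filter.2 ⟨Finset.mem_univ _, hne⟩) x hx
        apply h1
        have h2 := hsnd x hx i
        have h3 := hsnd x hx j
        simp only at hij
        rw [div_eq_div_iff h2 h3] at hij
        simp only [wd]
        linear_combination hij)
      (fun x hx i => by
        have h1 := (hg i x (hsub hx)).2
        rw [bf_eval natDegree_map_le (hsnd x hx i), Polynomial.map_evalRingHom_eval] at h1
        exact (mul_eq_zero.1 h1).resolve_left (pow_ne_zero _ (hsnd x hx i)))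
      (fun x hx i j => by
        have h1 := hall i j x (hsub hx)
        have hi := hsnd x hx i
        have hj := hsnd x hx j
        simp only [lf, wd] at h1
        have hn : W.num.natDegree ≤ dg W := le_max_left _ _
        have hdn : W.denom.natDegree ≤ dg W := le_max_right _ _
        rw [bf_eval hn hi, bf_eval hdn hi, bf_eval hn hj, bf_eval hdn hj] at h1
        have h2 : (g i x).2 ^ dg W * (g j x).2 ^ dg W ≠ 0 :=
          mul_ne_zero (pow_ne_zero _ hi) (pow_ne_zero _ hj)
        apply mul_left_cancel₀ h2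
        linear_combination h1)
    -- conclusion
    let V : RatFunc ℂ := algebraMap ℂ[X] (RatFunc ℂ) b / algebraMap ℂ[X] (RatFunc ℂ) a
    have hVnd : V.num * a = b * V.denom := (RatFunc.num_mul_eq_mul_denom_iff ha).2 rfl
    have hP1 : P ∣ C a * pol V W := by
      refine ⟨-(C V.denom * Z), ?_⟩
      have h1 : (C V.num : Polynomial (Polynomial ℂ)) * C a = C b * C V.denom := by
        rw [← C_mul, ← C_mul, hVnd]
      unfold pol
      linear_combination (W.denom.map (C : ℂ →+* ℂ[X])) * h1 - C V.denom * hZ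
    have hP2 : P ∣ pol V W := by
      have hprime : Prime P := hirr.prime
      rcases hprime.dvd_or_dvd hP1 with h | h
      · exfalso
        have := natDegree_le_of_dvd h (C_ne_zero.2 ha)
        rw [natDegree_C] at this
        omega
      · exact h
    have hPR : PRel (pol V W) θ₁ θ₂ := by
      obtain ⟨T, hT⟩ := hP2
      unfold PRel
      filter_upwards [hPrel] with z hz
      rw [hT, evalEval_mul, hz, zero_mul]
    exact ⟨V, (h_pol.1 ω₁ ω₂ θ₁ θ₂ hE1 hE2 V W).2 hPR⟩

end J_KK

end Pool.Agent.Lev
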