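import Pool.Agent.Lev.Stm5

set_option autoImplicit false

open Polynomial Metric Set Filter Topology

namespace Pool.Agent.Lev

namespace J_LI2

theorem main (h_LI : S_LI) (h_inv : S_inv) :
    S_LI2 := by
  classical
  intro H K A z₀ ρ hρ hH hK hA hHA hKA hwd
  have hmt : MapsTo (fun ζ : ℂ => z₀ + ζ) (ball 0 ρ) (ball z₀ ρ) := by
    intro ζ hζ
    rw [mem_ball_zero_iff] at hζ
    rw [mem_ball, dist_eq_norm]
    simpa using hζ
  have hct : ContinuousOn (fun ζ : ℂ => z₀ + ζ) (ball 0 ρ) := by fun_prop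
  have hdt : DifferentiableOn ℂ (fun ζ : ℂ => z₀ + ζ) (ball 0 ρ) := by fun_prop
  set A' : ℂ → ℂ × ℂ := fun ζ => A (z₀ + ζ) with hA'
  have hA'd : DifferentiableOn ℂ A' (ball 0 ρ) := hA.comp hdt hmt
  have hH'd : ∀ i, DifferentiableOn ℂ (fun ζ => H i (z₀ + ζ)) (ball 0 ρ) :=
    fun i => (hH i).comp hdt hmt
  have hK'd : ∀ i, DifferentiableOn ℂ (fun ζ => K i (z₀ + ζ)) (ball 0 ρ) :=
    fun i => (hK i).comp hdt hmt
  have tH : TendstoLocallyUniformlyOn (fun i ζ => H i (z₀ + ζ)) A' atTop (ball 0 ρ) :=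
    hHA.comp _ hmt hct
  have tK : TendstoLocallyUniformlyOn (fun i ζ => K i (z₀ + ζ)) A' atTop (ball 0 ρ) :=
    hKA.comp _ hmt hct
  have hA'0 : A' 0 = A z₀ := by simp [hA']
  have hdA' : deriv A' 0 = deriv A z₀ := by
    have := deriv_comp_const_add (f := A) z₀ 0
    simpa [hA'] using this
  have hwd' : wd (A' 0) (deriv A' 0) ≠ 0 := by rw [hA'0, hdA']; exact hwd
  obtain ⟨ρ₁, hρ₁, hρ₁', i₁, a, da, ma, ta, ea⟩ :=
    h_LI (fun i ζ => H i (z₀ + ζ)) A' ρ hρ hH'd hA'd tH hwd'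
  obtain ⟨ρ₂, hρ₂, hρ₂', i₂, b, db, mb, tb, eb⟩ :=
    h_LI (fun i ζ => K i (z₀ + ζ)) A' ρ hρ hK'd hA'd tK hwd'
  obtain ⟨i₃, c, dc, mc, tc, ec⟩ := h_inv b ρ₂ (ρ₂ / 2) (by positivity) (by linarith) db tb
  have hne : A' 0 ≠ 0 := by
    intro h0
    apply hwd'
    rw [h0]
    simp [wd]
  have hcA : ContinuousAt A' 0 :=
    (hA'd.differentiableAt (ball_mem_nhds 0 hρ)).continuousAt
  obtain ⟨ε, hε, hεn⟩ := Metric.eventually_nhds_iff_ball.1 (hcA.eventually_ne hne)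
  set σ : ℝ := min (ρ₂ / 2) ε with hσ
  have hσ0 : 0 < σ := lt_min (by positivity) hε
  have hσ2 : σ ≤ ρ₂ / 2 := min_le_left _ _
  have hσε : σ ≤ ε := min_le_right _ _
  obtain ⟨i₄, hi₄⟩ := eventually_atTop.1 (Metric.tendstoUniformlyOn_iff.1 ta (σ / 2) (by positivity))
  set ρ' : ℝ := min ρ₁ (σ / 2) with hρ'
  have hρ'0 : 0 < ρ' := lt_min hρ₁ (by positivity)
  have hρ'1 : ρ' ≤ ρ₁ := min_le_left _ _
  have hρ'2 : ρ' ≤ σ / 2 := min_le_right _ _
  have hρ'ρ : ρ' ≤ ρ := hρ'1.trans hρ₁'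
  have hclose : ∀ i ≥ i₄, ∀ w ∈ ball (0 : ℂ) ρ', a i w ∈ ball (0 : ℂ) σ := by
    intro i hi w hw
    have h1 := hi₄ i hi w (ball_subset_ball hρ'1 hw)
    rw [mem_ball_zero_iff] at hw ⊢
    rw [dist_eq_norm] at h1
    have h2 : ‖a i w‖ ≤ ‖w‖ + ‖id w - a i w‖ := by
      have : a i w = w - (id w - a i w) := by simp
      calc ‖a i w‖ = ‖w - (id w - a i w)‖ := by rw [← this]
        _ ≤ _ := norm_sub_le _ _
    linarith
  have hsub : ∀ ζ ∈ ball z₀ ρ', ζ - z₀ ∈ ball (0 : ℂ) ρ' := by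
    intro ζ hζ
    rw [mem_ball_zero_iff]
    rwa [mem_ball, dist_eq_norm] at hζ
  set i₀ : ℕ := max (max i₁ i₂) (max i₃ i₄) with hi₀
  have hi1 : i₁ ≤ i₀ := (le_max_left _ _).trans (le_max_left _ _)
  have hi2 : i₂ ≤ i₀ := (le_max_right _ _).trans (le_max_left _ _)
  have hi3 : i₃ ≤ i₀ := (le_max_left _ _).trans (le_max_right _ _)
  have hi4 : i₄ ≤ i₀ := (le_max_right _ _).trans (le_max_right _ _)
  refine ⟨ρ', hρ'0, hρ'ρ, i₀,
    fun i ζ => if i₀ ≤ i then z₀ + c i (a i (ζ - z₀)) else ζ, ?_, ?_, ?_, ?_⟩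
  · intro i
    by_cases hi : i₀ ≤ i
    · simp only [hi, if_true]
      apply DifferentiableOn.const_add
      apply (dc i).comp
      · apply (da i).comp
        · fun_prop
        · intro ζ hζ
          exact ball_subset_ball hρ'1 (hsub ζ hζ)
      · intro ζ hζ
        exact ball_subset_ball hσ2 (hclose i (hi4.trans hi) _ (hsub ζ hζ))
    · simp only [hi, if_false]
      exact differentiableOn_id
  · intro i ζ hζ
    by_cases hi : i₀ ≤ i
    · simp only [hi, if_true]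
      have h1 := mc i (ball_subset_ball hσ2 (hclose i (hi4.trans hi) _ (hsub ζ hζ)))
      exact hmt (ball_subset_ball hρ₂' h1)
    · simp only [hi, if_false]
      exact ball_subset_ball hρ'ρ hζ
  · rw [Metric.tendstoUniformlyOn_iff]
    intro η hη
    filter_upwards [Metric.tendstoUniformlyOn_iff.1 ta (η / 2) (by positivity),
      Metric.tendstoUniformlyOn_iff.1 tc (η / 2) (by positivity), eventually_ge_atTop i₀]
      with i h1 h2 hi ζ hζ
    simp only [hi, if_true]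
    have k1 := h1 (ζ - z₀) (ball_subset_ball hρ'1 (hsub ζ hζ))
    have k2 := h2 (a i (ζ - z₀)) (ball_subset_ball hσ2 (hclose i (hi4.trans hi) _ (hsub ζ hζ)))
    rw [dist_eq_norm] at k1 k2 ⊢
    simp only [id] at k1 k2 ⊢
    have e : ζ - (z₀ + c i (a i (ζ - z₀)))
        = (ζ - z₀ - a i (ζ - z₀)) + (a i (ζ - z₀) - c i (a i (ζ - z₀))) := by ring
    rw [e]
    exact (norm_add_le _ _).trans_lt (by linarith)
  · intro i hi ζ hζ
    have hi : i₀ ≤ i := hi
    simp only [hi, if_true]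
    have hw := hsub ζ hζ
    have haw := hclose i (hi4.trans hi) _ hw
    have haw2 := ball_subset_ball hσ2 haw
    have hx := mc i haw2
    have e1 := eb i (hi2.trans hi) _ hx
    rw [ec i (hi3.trans hi) _ haw2] at e1
    have e2 := ea i (hi1.trans hi) _ (ball_subset_ball hρ'1 hw)
    have e3 : z₀ + (ζ - z₀) = ζ := by ring
    simp only [e3] at e2
    exact wd_trans (hεn _ (ball_subset_ball hσε haw)) (wd_symm e1) e2

end J_LI2

end Pool.Agent.Lev
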