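import Pool.Agent.Lev.Stm4

set_option autoImplicit false

open Polynomial Metric Set Filter Topology

namespace Pool.Agent.Lev

namespace J_ST

/-- sums over disjoint subsets -/
theorem sum_finsum_le {ι : Type} [Fintype ι] (F : Set ℂ) (f : ℂ → ℕ)
    (hfin : {z | z ∈ F ∧ f z ≠ 0}.Finite) (A : ι → Set ℂ) (hA : ∀ i, A i ⊆ F)
    (hdis : ∀ i j, i ≠ j → Disjoint (A i) (A j)) :
    ∑ i, ∑ᶠ z ∈ A i, f z ≤ ∑ᶠ z ∈ F, f z := by
  classical
  have key : ∀ B : Set ℂ, B ⊆ F → ∑ᶠ z ∈ B, f z = ∑ z ∈ hfin.toFinset, if z ∈ B then f z else 0 := by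
    intro B hB
    rw [finsum_mem_def, finsum_eq_sum_of_support_subset (s := hfin.toFinset)]
    · refine Finset.sum_congr rfl fun z _ => ?_
      by_cases hz : z ∈ B
      · rw [Set.indicator_of_mem hz, if_pos hz]
      · rw [Set.indicator_of_notMem hz, if_neg hz]
    · intro z hz
      rw [Function.mem_support] at hz
      have hzB : z ∈ B := by
        by_contra h
        exact hz (Set.indicator_of_notMem h _)
      rw [Set.indicator_of_mem hzB] at hz
      simp only [Set.Finite.coe_toFinset]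
      exact ⟨hB hzB, hz⟩
  rw [key F subset_rfl]
  simp_rw [fun i => key (A i) (hA i)]
  rw [Finset.sum_comm]
  refine Finset.sum_le_sum fun z hz => ?_
  have hz' : z ∈ F := by
    have := (Set.Finite.mem_toFinset hfin).mp hz
    exact this.1
  rw [if_pos hz']
  by_cases h : ∃ i, z ∈ A i
  · obtain ⟨i, hi⟩ := h
    rw [Finset.sum_eq_single i]
    · rw [if_pos hi]
    · intro j _ hj
      rw [if_neg]
      intro hzj
      exact Set.disjoint_left.mp (hdis j i hj) hzj hi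
    · intro h; exact absurd (Finset.mem_univ i) h
  · refine le_of_eq_of_le ?_ (Nat.zero_le _)
    refine Finset.sum_eq_zero fun i _ => ?_
    rw [if_neg fun hi => h ⟨i, hi⟩]

theorem bf_smul (d : ℕ) (p : ℂ[X]) (c : ℂ) (v : ℂ × ℂ) : bf d p (c • v) = c ^ d * bf d p v := by
  unfold bf
  rw [Finset.mul_sum]
  refine Finset.sum_congr rfl fun i hi => ?_
  have hi' : i ≤ d := Nat.lt_succ_iff.mp (Finset.mem_range.mp hi)
  simp only [Prod.smul_fst, Prod.smul_snd, smul_eq_mul, mul_pow]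
  have : c ^ d = c ^ i * c ^ (d - i) := by
    rw [← pow_add, Nat.add_sub_cancel' hi']
  rw [this]
  ring

theorem bf_one (d : ℕ) (p : ℂ[X]) (hp : p.natDegree ≤ d) (y : ℂ) : bf d p (y, 1) = p.eval y := by
  unfold bf
  rw [Polynomial.eval_eq_sum_range' (Nat.lt_succ_of_le hp)]
  refine Finset.sum_congr rfl fun i _ => ?_
  simp

/-- the form vanishes on a lift of a root -/
theorem bf_of_wd (d : ℕ) (p : ℂ[X]) (hp : p.natDegree ≤ d) (y : ℂ) (v : ℂ × ℂ)
    (h : wd v (y, 1) = 0) (h0 : p.eval y = 0) : bf d p v = 0 := by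
  obtain ⟨c, rfl⟩ := exists_smul_of_wd (prod_one_ne y) (wd_symm h)
  rw [bf_smul, bf_one d p hp, h0, mul_zero]

theorem ball_infinite (x : ℂ) (r : ℝ) (hr : 0 < r) : (ball x r).Infinite :=
  infinite_of_mem_nhds x (ball_mem_nhds x hr)

theorem main (h_nf : S_nf) (h_fib : S_fib) (h_sheet : S_sheet) (h_char : S_char) (h_mlift : S_mlift) :
    S_ST := by
  classical
  intro ω₁ ω₂ θ₁' θ₂' E1' E2' P hP hdeg hrel' M c ρ hρ hM hdis
  obtain ⟨θ₁, E1, nf1, eq1⟩ := h_nf ω₁ ω₂ θ₁' E1'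
  obtain ⟨θ₂, E2, nf2, eq2⟩ := h_nf ω₁ ω₂ θ₂' E2'
  have hrel : PRel P θ₁ θ₂ := by
    unfold PRel at hrel' ⊢
    filter_upwards [hrel', eq1, eq2] with z hz h1 h2
    rw [h1, h2]; exact hz
  obtain ⟨k, hk, hp, S, hS⟩ := h_char ω₁ ω₂ θ₁ θ₂ E1 E2 nf1 nf2 P hP hdeg hrel
  obtain ⟨hp1, -, hcf, hcs⟩ := h_fib ω₁ ω₂ θ₁ E1
  have hP0 : P ≠ 0 := hP.ne_zero
  have hlc : P.leadingCoeff ≠ 0 := by rwa [Ne, leadingCoeff_eq_zero]
  -- choice of the centres
  have hch : ∀ i : Fin M, ∃ x, x ∈ ball (c i) (ρ / 4) ∧ x ∉ S ∪ P.leadingCoeff.roots.toFinset := by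
    intro i
    obtain ⟨x, hx1, hx2⟩ := (ball_infinite (c i) (ρ / 4) (by linarith)).exists_notMem_finset
      (S ∪ P.leadingCoeff.roots.toFinset)
    exact ⟨x, hx1, hx2⟩
  choose x hx1 hx2 using hch
  set R : ℝ := 3 * ρ / 4 with hR
  have hR0 : 0 < R := by rw [hR]; linarith
  have hsub : ∀ i, ball (x i) R ⊆ ball (c i) ρ := by
    intro i
    apply ball_subset_ball'
    have := mem_ball.mp (hx1 i)
    rw [hR]; linarith
  let A : Fin M → Set ℂ := fun i => {z | z ∈ FD ω₁ ω₂ ∧ AnalyticAt ℂ θ₁ z ∧ θ₁ z ∈ ball (x i) R}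
  have hAdis : ∀ i j, i ≠ j → Disjoint (A i) (A j) := by
    intro i j hij
    rw [Set.disjoint_left]
    rintro z ⟨_, _, h1⟩ ⟨_, _, h2⟩
    exact Set.disjoint_left.mp (hdis i j hij) (hsub i h1) (hsub j h2)
  have hfin : {z | z ∈ FD ω₁ ω₂ ∧ (ordZ (deriv θ₁) z).toNat ≠ 0}.Finite := by
    refine hcf.subset ?_
    rintro z ⟨h1, h2⟩
    refine ⟨h1, fun h => h2 ?_⟩
    rw [h]; rfl
  have hsum := sum_finsum_le (FD ω₁ ω₂) (fun z => (ordZ (deriv θ₁) z).toNat) hfin A
    (fun i z hz => hz.1) hAdis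
  obtain ⟨s, hs⟩ : ∃ s : Fin M, M * ∑ᶠ z ∈ A s, (ordZ (deriv θ₁) z).toNat ≤ 2 * dgE ω₁ ω₂ θ₁ := by
    by_contra hcon
    push Not at hcon
    have h1 : ∑ i : Fin M, 2 * dgE ω₁ ω₂ θ₁
        < ∑ i : Fin M, M * ∑ᶠ z ∈ A i, (ordZ (deriv θ₁) z).toNat := by
      refine Finset.sum_lt_sum_of_nonempty ?_ fun i _ => hcon i
      exact ⟨⟨0, hM⟩, Finset.mem_univ _⟩
    rw [Finset.sum_const, Finset.card_univ, Fintype.card_fin, smul_eq_mul,
      show ∑ i : Fin M, M * ∑ᶠ z ∈ A i, (ordZ (deriv θ₁) z).toNat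
        = M * ∑ i : Fin M, ∑ᶠ z ∈ A i, (ordZ (deriv θ₁) z).toNat from (Finset.mul_sum _ _ _).symm]
      at h1
    have h2 := Nat.lt_of_mul_lt_mul_left h1
    omega
  have hxs : x s ∉ S := fun h => hx2 s (Finset.mem_union_left _ h)
  have hxl : eval (x s) P.leadingCoeff ≠ 0 := by
    intro h
    apply hx2 s
    apply Finset.mem_union_right
    rw [Multiset.mem_toFinset, mem_roots hlc]
    exact h
  obtain ⟨Sg, hSg1, hSg2, hSg3, hSg4⟩ := h_sheet ω₁ ω₂ θ₁ E1 nf1 (x s) R hR0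
    (fun z hz1 hz2 => ((hS (x s) hxs).1 z hz1 hz2).1)
  let Y : Finset ℂ := Sg.image θ₂
  have hroot : ∀ y ∈ Y, P.evalEval (x s) y = 0 := by
    intro y hy
    obtain ⟨z, hz, rfl⟩ := Finset.mem_image.mp hy
    exact ((hS (x s) hxs).1 z (hSg2 z hz).1 (hSg2 z hz).2).2.2
  have hcard : Sg.card ≤ k * Y.card := by
    refine Finset.card_le_mul_card_image Sg k fun y hy => ?_
    have h1 := (hS (x s) hxs).2 y (hroot y hy)
    have hfinite : {z | z ∈ FD ω₁ ω₂ ∧ AnalyticAt ℂ θ₁ z ∧ θ₁ z = x s ∧ θ₂ z = y}.Finite := by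
      by_contra hinf
      have := Set.Infinite.ncard hinf
      omega
    rw [← h1, ← Set.ncard_coe_finset]
    refine Set.ncard_le_ncard ?_ hfinite
    intro z hz
    rw [Finset.mem_coe, Finset.mem_filter] at hz
    exact ⟨hSg1 hz.1, (hSg2 z hz.1).1, (hSg2 z hz.1).2, hz.2⟩
  have hmapdeg : ∀ w : ℂ, (P.map (evalRingHom w)).natDegree ≤ P.natDegree := fun w =>
    natDegree_map_le
  have hmap0 : P.map (evalRingHom (x s)) ≠ 0 := by
    intro h
    apply hxl
    have : (P.map (evalRingHom (x s))).coeff P.natDegree = 0 := by rw [h]; simp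
    rw [coeff_map] at this
    simpa using this
  have hYt : Y.card ≤ P.natDegree := by
    have h1 : Y ⊆ (P.map (evalRingHom (x s))).roots.toFinset := by
      intro y hy
      rw [Multiset.mem_toFinset, mem_roots hmap0, IsRoot, map_evalRingHom_eval]
      exact hroot y hy
    calc Y.card ≤ (P.map (evalRingHom (x s))).roots.toFinset.card := Finset.card_le_card h1
      _ ≤ Multiset.card (P.map (evalRingHom (x s))).roots := Multiset.toFinset_card_le _
      _ ≤ (P.map (evalRingHom (x s))).natDegree := card_roots' _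
      _ ≤ P.natDegree := hmapdeg _
  -- the branches
  have hbr : ∀ y : Y, ∃ g : ℂ → ℂ × ℂ,
      DifferentiableOn ℂ g (ball (c s) (ρ / 2)) ∧
      (∀ w ∈ ball (c s) (ρ / 2), g w ≠ 0 ∧
        bf P.natDegree (P.map (evalRingHom w)) (g w) = 0) ∧
      wd (g (x s)) (y.1, 1) = 0 := by
    rintro ⟨y, hy⟩
    obtain ⟨z, hz, hzy⟩ := Finset.mem_image.mp hy
    obtain ⟨σ, ⟨hσd, hσ⟩, hσz⟩ := hSg4 z hz
    have hσa : ∀ w ∈ ball (x s) R, AnalyticAt ℂ σ w := fun w hw =>
      hσd.analyticAt (isOpen_ball.mem_nhds hw)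
    have hmer : MeromorphicOn (θ₂ ∘ σ) (ball (x s) R) := fun w hw =>
      (E2.mer (σ w) (Set.mem_univ _)).comp_analyticAt (hσa w hw)
    have hd : dist (x s) (c s) < ρ / 4 := mem_ball.mp (hx1 s)
    obtain ⟨g, hg1, hg2, hg3, -⟩ := h_mlift (θ₂ ∘ σ) (x s) R (ρ / 2 + dist (x s) (c s))
      (by positivity) (by rw [hR]; linarith) hmer
    have hb1 : ball (x s) (ρ / 2 + dist (x s) (c s)) ⊆ ball (x s) R :=
      ball_subset_ball (by rw [hR]; linarith)
    have hb2 : ball (c s) (ρ / 2) ⊆ ball (x s) (ρ / 2 + dist (x s) (c s)) := by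
      apply ball_subset_ball'
      rw [dist_comm]
    have hgood : ∀ w ∈ ball (x s) R, w ∉ S → AnalyticAt ℂ (θ₂ ∘ σ) w ∧
        P.evalEval w ((θ₂ ∘ σ) w) = 0 := by
      intro w hw hwS
      have h1 := (hS w hwS).1 (σ w) (hσ w hw).1 (hσ w hw).2
      exact ⟨h1.2.1.comp (hσa w hw), h1.2.2⟩
    have hΦ : ∀ w ∈ ball (x s) (ρ / 2 + dist (x s) (c s)), w ∉ S →
        bf P.natDegree (P.map (evalRingHom w)) (g w) = 0 := by
      intro w hw hwS
      have h1 := hgood w (hb1 hw) hwS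
      refine bf_of_wd _ _ (hmapdeg w) ((θ₂ ∘ σ) w) (g w) (hg3 w hw h1.1) ?_
      rw [map_evalRingHom_eval]
      exact h1.2
    refine ⟨g, hg1.mono hb2, fun w hw => ⟨hg2 w (hb2 hw), ?_⟩, ?_⟩
    · -- continuity
      have hw' := hb2 hw
      have hcg : ContinuousAt g w :=
        (hg1.differentiableAt (isOpen_ball.mem_nhds hw')).continuousAt
      have hcont : ContinuousAt
          (fun w => bf P.natDegree (P.map (evalRingHom w)) (g w)) w := by
        unfold bf
        simp only [coeff_map, coe_evalRingHom]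
        refine tendsto_finsetSum _ fun i _ => ?_
        have h1 : ContinuousAt (fun w : ℂ => eval w (P.coeff i)) w :=
          (P.coeff i).continuous.continuousAt
        have h2 : ContinuousAt (fun w => (g w).1) w := hcg.fst
        have h3 : ContinuousAt (fun w => (g w).2) w := hcg.snd
        exact (h1.mul (h2.pow i)).mul (h3.pow _)
      have hev : ∀ᶠ v in 𝓝[≠] w, bf P.natDegree (P.map (evalRingHom v)) (g v) = 0 := by
        have h1 : ∀ᶠ v in 𝓝[≠] w, v ∈ ball (x s) (ρ / 2 + dist (x s) (c s)) :=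
          eventually_nhdsWithin_of_eventually_nhds (isOpen_ball.mem_nhds hw')
        have h2 : ∀ᶠ v in 𝓝[≠] w, v ∉ S := by
          have h3 : ((↑S : Set ℂ) \ {w})ᶜ ∈ 𝓝 w := by
            apply IsOpen.mem_nhds
            · exact ((S.finite_toSet.subset Set.sdiff_subset).isClosed).isOpen_compl
            · intro h; exact h.2 rfl
          filter_upwards [eventually_nhdsWithin_of_eventually_nhds h3,
            eventually_mem_nhdsWithin] with v hv1 hv2 hvS
          exact hv1 ⟨hvS, hv2⟩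
        filter_upwards [h1, h2] with v hv1 hv2
        exact hΦ v hv1 hv2
      have ht1 : Tendsto (fun v => bf P.natDegree (P.map (evalRingHom v)) (g v)) (𝓝[≠] w)
          (𝓝 (bf P.natDegree (P.map (evalRingHom w)) (g w))) :=
        hcont.tendsto.mono_left nhdsWithin_le_nhds
      have ht2 : Tendsto (fun v => bf P.natDegree (P.map (evalRingHom v)) (g v)) (𝓝[≠] w)
          (𝓝 0) := by
        refine Tendsto.congr' ?_ tendsto_const_nhds
        filter_upwards [hev] with v hv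
        exact hv.symm
      exact tendsto_nhds_unique ht1 ht2
    · have hmem : x s ∈ ball (x s) (ρ / 2 + dist (x s) (c s)) :=
        mem_ball_self (by positivity)
      have h1 := hg3 (x s) hmem (hgood (x s) (hb1 hmem) hxs).1
      have h2 : (θ₂ ∘ σ) (x s) = y := by
        rw [Function.comp_apply, hσz, hzy]
      rw [h2] at h1
      exact h1
  choose g hg1 hg2 hg3 using hbr
  refine ⟨s, Y.card, fun i => g (Y.equivFin.symm i), ?_, hYt, fun i => hg1 _, fun i => hg2 _, ?_⟩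
  · -- counting
    have hM' : M * dgE ω₁ ω₂ θ₁ ≤ M * (k * Y.card) + 4 * dgE ω₁ ω₂ θ₁ := by
      have h1 : dgE ω₁ ω₂ θ₁ ≤ k * Y.card + 2 * ∑ᶠ z ∈ A s, (ordZ (deriv θ₁) z).toNat := by
        have h2 := hSg3
        have h3 : ∑ᶠ z ∈ A s, (ordZ (deriv θ₁) z).toNat =
          ∑ᶠ z ∈ {z | z ∈ FD ω₁ ω₂ ∧ AnalyticAt ℂ θ₁ z ∧ θ₁ z ∈ ball (x s) R},
            (ordZ (deriv θ₁) z).toNat := rfl
        rw [h3]
        omega
      calc M * dgE ω₁ ω₂ θ₁
          ≤ M * (k * Y.card + 2 * ∑ᶠ z ∈ A s, (ordZ (deriv θ₁) z).toNat) :=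
            Nat.mul_le_mul_left _ h1
        _ = M * (k * Y.card) + 2 * (M * ∑ᶠ z ∈ A s, (ordZ (deriv θ₁) z).toNat) := by ring
        _ ≤ M * (k * Y.card) + 2 * (2 * dgE ω₁ ω₂ θ₁) := by gcongr
        _ = _ := by ring
    rcases Nat.lt_or_ge M 4 with h4 | h4
    · have : M - 4 = 0 := by omega
      rw [this, zero_mul]
      exact Nat.zero_le _
    · obtain ⟨m, rfl⟩ := Nat.exists_eq_add_of_le h4
      rw [Nat.add_sub_cancel_left]
      rw [hp] at hM'
      have h5 : k * (m * P.natDegree) ≤ k * (Y.card * (4 + m)) := by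
        nlinarith [hM']
      exact Nat.le_of_mul_le_mul_left h5 (by omega)
  · intro i j hij
    refine ⟨x s, ?_, ?_⟩
    · have := mem_ball.mp (hx1 s)
      exact mem_ball.mpr (by linarith)
    · intro hw
      have hxc : x s ∈ ball (c s) (ρ / 2) := by
        have := mem_ball.mp (hx1 s)
        exact mem_ball.mpr (by linarith)
      have h1 := hg3 (Y.equivFin.symm i)
      have h2 := hg3 (Y.equivFin.symm j)
      have n1 := (hg2 (Y.equivFin.symm i) (x s) hxc).1
      have n2 := (hg2 (Y.equivFin.symm j) (x s) hxc).1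
      have h3 : wd ((Y.equivFin.symm i).1, 1) ((Y.equivFin.symm j).1, 1) = 0 :=
        wd_trans n1 (wd_symm h1) (wd_trans n2 hw h2)
      apply hij
      have h4 : (Y.equivFin.symm i).1 = (Y.equivFin.symm j).1 := by
        simp only [wd] at h3
        linear_combination h3
      exact Y.equivFin.symm.injective (Subtype.ext h4)

end J_ST

end Pool.Agent.Lev
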