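import Pool.Agent.Lev.Stm5

set_option autoImplicit false

open Polynomial Metric Set Filter Topology

namespace Pool.Agent.Lev

namespace J_bdd

theorem inv_iter {b : ℕ} {H : ℂ × ℂ → ℂ × ℂ} {G : ℂ × ℂ → ℝ} (hH : IsLift b H)
    (hG : Inv G b H) : ∀ (m : ℕ) (v : ℂ × ℂ), v ≠ 0 → G (H^[m] v) = (b : ℝ) ^ m * G v := by
  intro m
  induction m with
  | zero => intro v _; simp
  | succ m ih =>
    intro v hv
    rw [Function.iterate_succ_apply, ih (H v) (hH.2 v hv), hG v hv, pow_succ]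
    ring

theorem main (hBasics : Basics) (h_lf : S_lf) (h_level : S_level) (h_uniq : S_uniq) (h_many : S_many) (h_lim : S_lim) (h_dir : S_dir) (h_C : S_C) :
    S_bdd := by
  intro A B h2a h2b hns
  have hF : IsLift (dg A) (lf A) := h_lf A
  have hH : IsLift (dg B) (lf B) := h_lf B
  obtain ⟨GA, hGA, hIA⟩ := hBasics.green hF h2a
  obtain ⟨GB, hGB, hIB⟩ := hBasics.green hH h2b
  obtain ⟨ρ, hρ, c, hdisj, hnr⟩ := h_many GA hGA 5
  by_contra hcon
  push Not at hcon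
  have step1 : ∀ k : ℕ, ∃ (n m : ℕ) (s : Fin 5) (t : ℕ) (g : Fin t → ℂ → ℂ × ℂ),
      Lvl (dg A) (dg B) n m ∧ k ≤ t ∧
      (∀ i, DifferentiableOn ℂ (g i) (ball (c s) (ρ / 2))) ∧
      (∀ i, ∀ x ∈ ball (c s) (ρ / 2), g i x ≠ 0 ∧ (lf B)^[m] (g i x) = (lf A)^[n] (x, 1)) ∧
      ∀ i j, i ≠ j → ∃ x ∈ ball (c s) (ρ / 2), wd (g i x) (g j x) ≠ 0 := by
    intro k
    obtain ⟨n, m, hl, ω₁, ω₂, θ₁, θ₂, hE1, hE2, hrel, P, hP, hPR, hdeg⟩ := hcon (5 * k)
    obtain ⟨P', hP', -, hPR', -, hlev⟩ := h_level A B h2a h2b n m ω₁ ω₂ θ₁ θ₂ hE1 hE2 hrel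
    obtain ⟨hu, -, -⟩ := h_uniq ω₁ ω₂ θ₁ θ₂ hE1 hE2
    have hd1 : P ∣ P' := hu P P' hP hPR hPR'
    have hle : P.natDegree ≤ P'.natDegree := Polynomial.natDegree_le_of_dvd hd1 hP'.ne_zero
    obtain ⟨s, t, g, h1, -, h3, h4, h5⟩ := hlev 5 c ρ hρ (by norm_num) hdisj
    refine ⟨n, m, s, t, g, hl, ?_, h3, fun i x hx => ⟨(h4 i x hx).1, (h4 i x hx).2.1⟩, h5⟩
    omega
  choose n m s t g hl ht hg1 hg2 hg3 using step1
  have hb1 : 1 < dg B := h2b
  have step2 : ∀ k, k ≤ dg B ^ m k := by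
    intro k
    refine (ht k).trans ?_
    refine h_dir (dg B ^ m k) ((lf B)^[m k]) (hBasics.iter hH (m k))
      (Nat.one_le_pow _ _ (by omega)) (c (s k)) (ρ / 2) (t k) (g k) (by positivity) (hg1 k)
      (fun i x hx => (hg2 k i x hx).1) ?_ (hg3 k)
    intro i j x hx
    rw [(hg2 k i x hx).2, (hg2 k j x hx).2]
    exact wd_self _
  have step3 : Tendsto m atTop atTop := by
    rw [tendsto_atTop_atTop]
    intro M
    refine ⟨dg B ^ M + 1, fun k hk => ?_⟩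
    by_contra hlt
    push Not at hlt
    have h1 : dg B ^ m k ≤ dg B ^ M := Nat.pow_le_pow_right (by omega) hlt.le
    have h2 := step2 k
    omega
  have step4 : ∃ s0 : Fin 5, ∃ᶠ k in atTop, s k = s0 := by
    by_contra hc
    push Not at hc
    have h1 : ∀ᶠ k : ℕ in atTop, ∀ s0, s k ≠ s0 := by
      rw [Filter.eventually_all]
      intro s0
      exact hc s0
    obtain ⟨k, hk⟩ := h1.exists
    exact hk _ rfl
  obtain ⟨s0, hs0⟩ := step4
  obtain ⟨σ, hσ, hσs⟩ := Filter.extraction_of_frequently_atTop hs0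
  obtain ⟨φ, hφ, γ, hγ, hlim⟩ := h_lim (dg A) (dg B) (lf A) GA GB hF h2a h2b hGA hGB hIA
    (fun k => n (σ k)) (fun k => m (σ k)) (fun k => hl (σ k)) (step3.comp hσ.tendsto_atTop)
  obtain ⟨hunif, C, hC⟩ := hlim (‖c s0‖ + ρ)
  have hsub : ball (c s0) (ρ / 2) ⊆ ball 0 (‖c s0‖ + ρ) := by
    intro x hx
    rw [mem_ball_zero_iff]
    rw [mem_ball, dist_eq_norm] at hx
    calc ‖x‖ = ‖(x - c s0) + c s0‖ := by rw [sub_add_cancel]
      _ ≤ ‖x - c s0‖ + ‖c s0‖ := norm_add_le _ _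
      _ < ‖c s0‖ + ρ := by linarith
  have hbpos : (0 : ℝ) < dg B := by
    have : 0 < dg B := by omega
    exact_mod_cast this
  obtain ⟨k, i, j, hij, hwd⟩ := h_C (dg B) (lf B) GB hH h2b hGB hIB hns (c s0) (ρ / 2)
    (fun (k : ℕ) (x : ℂ) => GB ((lf A)^[n (σ (φ k))] (x, 1)) / (dg B : ℝ) ^ (m (σ (φ k))))
    (fun x => γ * GA (x, 1)) (by positivity) (hunif.mono hsub)
    ⟨C, fun k x hx => hC k x (hsub hx)⟩ (by
      intro hRH
      apply hnr s0
      have h1 := hRH.const_mul γ⁻¹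
      have h2 : ρ / 2 / 2 = ρ / 4 := by ring
      rw [h2] at h1
      refine h1.congr fun z _ => ?_
      have hγ0 : γ ≠ 0 := by linarith
      field_simp)
    (fun k => t (σ (φ k))) (fun k => g (σ (φ k))) (by
      refine tendsto_atTop_mono (f := fun k => σ (φ k)) (fun k => ht _) ?_
      exact hσ.tendsto_atTop.comp hφ.tendsto_atTop) (by
      intro k i
      have h1 := hg1 (σ (φ k)) i
      rwa [hσs] at h1) (by
      intro k i x hx
      have h1 := hg2 (σ (φ k)) i x (by rw [hσs]; exact hx)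
      refine ⟨h1.1, ?_⟩
      have h2 := inv_iter hH hIB (m (σ (φ k))) (g (σ (φ k)) i x) h1.1
      rw [h1.2] at h2
      rw [h2]
      field_simp)
  obtain ⟨x, hx, hx'⟩ := hg3 (σ (φ k)) i j hij
  rw [hσs] at hx
  exact hx' (hwd x hx)

end J_bdd

end Pool.Agent.Lev
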