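import Pool.Agent.Lev.Stm4

set_option autoImplicit false

open Polynomial Metric Set Filter Topology

namespace Pool.Agent.Lev

namespace J_char

/-- representatives in the fundamental domain -/
theorem exists_rep {ω₁ ω₂ : ℂ} (hl : LinearIndependent ℝ ![ω₁, ω₂]) :
    ∃ rep : ℂ → ℂ, (∀ z, rep z ∈ FD ω₁ ω₂ ∧
      ∃ m n : ℤ, z = rep z + (m : ℂ) * ω₁ + (n : ℂ) * ω₂) ∧
      ∀ z w, w ∈ FD ω₁ ω₂ → (∃ m n : ℤ, z = w + (m : ℂ) * ω₁ + (n : ℂ) * ω₂) → rep z = w := by
  have hind := LinearIndependent.pair_iff.1 hl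
  have huniq : ∀ w w' : ℂ, w ∈ FD ω₁ ω₂ → w' ∈ FD ω₁ ω₂ →
      ∀ m n : ℤ, w = w' + (m : ℂ) * ω₁ + (n : ℂ) * ω₂ → w = w' := by
    rintro w w' ⟨s, t, hs0, hs1, ht0, ht1, rfl⟩ ⟨s', t', hs0', hs1', ht0', ht1', rfl⟩ m n h
    have h2 : (s - s' - m) • ω₁ + (t - t' - n) • ω₂ = 0 := by
      rw [Complex.real_smul, Complex.real_smul]
      push_cast
      linear_combination h
    obtain ⟨h3, h4⟩ := hind _ _ h2
    have hm : m = 0 := by
      have h0 : (m : ℝ) = s - s' := by linarith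
      have h5 : (-1 : ℝ) < m := by rw [h0]; linarith
      have h6 : (m : ℝ) < 1 := by rw [h0]; linarith
      have h7 : -1 < m := by exact_mod_cast h5
      have h8 : m < 1 := by exact_mod_cast h6
      omega
    have hn : n = 0 := by
      have h0 : (n : ℝ) = t - t' := by linarith
      have h5 : (-1 : ℝ) < n := by rw [h0]; linarith
      have h6 : (n : ℝ) < 1 := by rw [h0]; linarith
      have h7 : -1 < n := by exact_mod_cast h5
      have h8 : n < 1 := by exact_mod_cast h6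
      omega
    subst hm hn
    simpa using h
  have hspan : Submodule.span ℝ (Set.range ![ω₁, ω₂]) = ⊤ :=
    hl.span_eq_top_of_card_eq_finrank' (by simp)
  have hex : ∀ z, ∃ w ∈ FD ω₁ ω₂, ∃ m n : ℤ, z = w + (m : ℂ) * ω₁ + (n : ℂ) * ω₂ := by
    intro z
    have hz : z ∈ Submodule.span ℝ ({ω₁, ω₂} : Set ℂ) := by
      have h1 : z ∈ Submodule.span ℝ (Set.range ![ω₁, ω₂]) := by rw [hspan]; trivial
      rwa [Matrix.range_cons, Matrix.range_cons, Matrix.range_empty, union_empty,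
        singleton_union] at h1
    obtain ⟨a, b, hab⟩ := Submodule.mem_span_pair.1 hz
    refine ⟨((Int.fract a : ℝ) : ℂ) * ω₁ + ((Int.fract b : ℝ) : ℂ) * ω₂,
      ⟨Int.fract a, Int.fract b, Int.fract_nonneg _, Int.fract_lt_one _, Int.fract_nonneg _,
        Int.fract_lt_one _, rfl⟩, ⌊a⌋, ⌊b⌋, ?_⟩
    rw [← hab, Complex.real_smul, Complex.real_smul]
    have ha : (a : ℂ) = ((Int.fract a : ℝ) : ℂ) + ((⌊a⌋ : ℤ) : ℂ) := by
      rw [← Complex.ofReal_intCast, ← Complex.ofReal_add, Int.fract_add_floor]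
    have hb : (b : ℂ) = ((Int.fract b : ℝ) : ℂ) + ((⌊b⌋ : ℤ) : ℂ) := by
      rw [← Complex.ofReal_intCast, ← Complex.ofReal_add, Int.fract_add_floor]
    linear_combination ω₁ * ha + ω₂ * hb
  choose rep hrep1 hrep2 using hex
  refine ⟨rep, fun z => ⟨hrep1 z, hrep2 z⟩, ?_⟩
  rintro z w hw ⟨m, n, hmn⟩
  obtain ⟨m', n', hmn'⟩ := hrep2 z
  refine huniq _ _ (hrep1 z) hw (m - m') (n - n') ?_
  push_cast
  linear_combination hmn - hmn'

theorem per_lat {ω₁ ω₂ : ℂ} {θ : ℂ → ℂ} (h1 : ∀ z, θ (z + ω₁) = θ z)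
    (h2 : ∀ z, θ (z + ω₂) = θ z) (m n : ℤ) (z : ℂ) :
    θ (z + ((m : ℂ) * ω₁ + (n : ℂ) * ω₂)) = θ z := by
  have p1 : Function.Periodic θ ω₁ := h1
  have p2 : Function.Periodic θ ω₂ := h2
  rw [← add_assoc, (p2.int_mul n) _, (p1.int_mul m) _]

theorem an_shift {θ : ℂ → ℂ} {c : ℂ} (h : ∀ z, θ (z + c) = θ z) {z : ℂ} :
    AnalyticAt ℂ θ (z + c) ↔ AnalyticAt ℂ θ z := by
  constructor
  · intro ha
    have e : θ = fun w => θ (w + c) := by funext w; exact (h w).symm
    rw [e]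
    exact AnalyticAt.fun_comp (g := θ) (f := fun w => w + c) ha
      (analyticAt_id.add analyticAt_const)
  · intro ha
    have e : θ = fun w => θ (w - c) := by
      funext w
      have := h (w - c)
      rw [sub_add_cancel] at this
      exact this
    rw [e]
    refine AnalyticAt.fun_comp (g := θ) (f := fun w => w - c) ?_ (analyticAt_id.sub analyticAt_const)
    simpa using ha

theorem deriv_shift {θ : ℂ → ℂ} {c : ℂ} (h : ∀ z, θ (z + c) = θ z) (z : ℂ) :
    deriv θ (z + c) = deriv θ z := by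
  have e : (fun w => θ (w + c)) = θ := by funext w; exact h w
  rw [← deriv_comp_add_const, e]

theorem ordZ_deriv_ne {ω₁ ω₂ : ℂ} {θ : ℂ → ℂ} (hE : Ell ω₁ ω₂ θ) {z : ℂ} (hz : AnalyticAt ℂ θ z)
    (hd : deriv θ z = 0) : ordZ (deriv θ) z ≠ 0 := by
  have hda : AnalyticAt ℂ (deriv θ) z := hz.deriv
  have h1 : analyticOrderAt (deriv θ) z ≠ 0 := hda.analyticOrderAt_ne_zero.2 hd
  have h2 : analyticOrderAt (deriv θ) z ≠ ⊤ := by
    intro htop
    have h3 := hz.analyticOrderAt_deriv_add_one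
    rw [htop, top_add] at h3
    have h4 : ∀ᶠ w in 𝓝 z, θ w - θ z = 0 := analyticOrderAt_eq_top.1 h3.symm
    have hmer : MeromorphicOn (fun w => θ w - θ z) Set.univ :=
      fun w _ => (hE.mer w (mem_univ w)).fun_sub (MeromorphicAt.const _ _)
    have h5 : meromorphicOrderAt (fun w => θ w - θ z) z = ⊤ :=
      meromorphicOrderAt_eq_top_iff.2 (h4.filter_mono nhdsWithin_le_nhds)
    have h6 : ∀ w, meromorphicOrderAt (fun w => θ w - θ z) w = ⊤ := by
      intro w
      by_contra hw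
      exact hmer.meromorphicOrderAt_ne_top_of_isPreconnected isPreconnected_univ (mem_univ w)
        (mem_univ z) hw h5
    apply hE.nc
    refine ⟨θ z, ?_⟩
    change {w | θ w = θ z} ∈ codiscrete ℂ
    rw [mem_codiscrete]
    intro w
    rw [disjoint_principal_right, compl_compl]
    have := meromorphicOrderAt_eq_top_iff.1 (h6 w)
    filter_upwards [this] with y hy
    exact sub_eq_zero.1 hy
  rw [ordZ, hda.meromorphicOrderAt_eq]
  obtain ⟨n, hn⟩ := ENat.ne_top_iff_exists.1 h2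
  rw [← hn] at h1 ⊢
  have hn0 : n ≠ 0 := by
    rintro rfl
    exact h1 rfl
  simpa using hn0

theorem continuousAt_evalEval (P : Polynomial (Polynomial ℂ)) {f g : ℂ → ℂ} {z : ℂ}
    (hf : ContinuousAt f z) (hg : ContinuousAt g z) :
    ContinuousAt (fun w => P.evalEval (f w) (g w)) z := by
  have e : (fun w => P.evalEval (f w) (g w)) = fun w =>
      ∑ i ∈ Finset.range (P.natDegree + 1), (P.coeff i).eval (f w) * (g w) ^ i := by
    funext w
    rw [← map_evalRingHom_eval, Polynomial.eval_eq_sum_range'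
      (lt_of_le_of_lt natDegree_map_le (Nat.lt_succ_self _))]
    refine Finset.sum_congr rfl fun i _ => ?_
    rw [coeff_map, coe_evalRingHom]
  rw [e]
  refine tendsto_finsetSum _ fun i _ => ?_
  exact ((P.coeff i).continuous.continuousAt.comp hf).mul (hg.pow i)

theorem main (h_fib : S_fib) (h_locsec : S_locsec) (h_rat : S_rat) (h_irr : S_irr) (h_sep : S_sep) :
    S_char := by
  intro ω₁ ω₂ θ₁ θ₂ hE1 hE2 hN1 hN2 P hP hdeg hrel
  obtain ⟨rep, hrep, hrepu⟩ := exists_rep hE1.lin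
  have hr1 : ∀ z, θ₁ (rep z) = θ₁ z := by
    intro z
    obtain ⟨m, n, h⟩ := (hrep z).2
    have := per_lat hE1.per1 hE1.per2 m n (rep z)
    rw [← add_assoc, ← h] at this
    exact this.symm
  have hr2 : ∀ z, θ₂ (rep z) = θ₂ z := by
    intro z
    obtain ⟨m, n, h⟩ := (hrep z).2
    have := per_lat hE2.per1 hE2.per2 m n (rep z)
    rw [← add_assoc, ← h] at this
    exact this.symm
  have hra1 : ∀ z, AnalyticAt ℂ θ₁ (rep z) ↔ AnalyticAt ℂ θ₁ z := by
    intro z
    obtain ⟨m, n, h⟩ := (hrep z).2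
    have := an_shift (fun w => per_lat hE1.per1 hE1.per2 m n w) (z := rep z)
    rw [← add_assoc, ← h] at this
    exact this.symm
  have hra2 : ∀ z, AnalyticAt ℂ θ₂ (rep z) ↔ AnalyticAt ℂ θ₂ z := by
    intro z
    obtain ⟨m, n, h⟩ := (hrep z).2
    have := an_shift (fun w => per_lat hE2.per1 hE2.per2 m n w) (z := rep z)
    rw [← add_assoc, ← h] at this
    exact this.symm
  have hrd : ∀ z, deriv θ₁ (rep z) = deriv θ₁ z := by
    intro z
    obtain ⟨m, n, h⟩ := (hrep z).2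
    have := deriv_shift (fun w => per_lat hE1.per1 hE1.per2 m n w) (rep z)
    rw [← add_assoc, ← h] at this
    exact this.symm
  -- the exceptional set
  have hfin : ({z | z ∈ FD ω₁ ω₂ ∧ ordZ (deriv θ₁) z ≠ 0} ∪
      {z | z ∈ FD ω₁ ω₂ ∧ ordZ (fun w => θ₂ w - 0) z ≠ 0}).Finite :=
    (h_fib ω₁ ω₂ θ₁ hE1).2.2.1.union ((h_fib ω₁ ω₂ θ₂ hE2).2.1 0).1
  set S₀ : Finset ℂ := (hfin.image θ₁).toFinset with hS₀
  have hgood : ∀ x, x ∉ S₀ → ∀ z, AnalyticAt ℂ θ₁ z → θ₁ z = x →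
      deriv θ₁ z ≠ 0 ∧ AnalyticAt ℂ θ₂ z ∧ P.evalEval x (θ₂ z) = 0 := by
    intro x hx z hz hzx
    have hx' : ∀ w, w ∈ FD ω₁ ω₂ → θ₁ w = x →
        ordZ (deriv θ₁) w = 0 ∧ ordZ (fun w => θ₂ w - 0) w = 0 := by
      intro w hw hwx
      constructor
      · by_contra hc
        apply hx
        rw [hS₀, Set.Finite.mem_toFinset]
        exact ⟨w, Or.inl ⟨hw, hc⟩, hwx⟩
      · by_contra hc
        apply hx
        rw [hS₀, Set.Finite.mem_toFinset]
        exact ⟨w, Or.inr ⟨hw, hc⟩, hwx⟩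
    have hw := hx' (rep z) (hrep z).1 ((hr1 z).trans hzx)
    have hA2 : AnalyticAt ℂ θ₂ z := by
      rw [← hra2]
      rw [← (hN2 (mem_univ (rep z))).meromorphicOrderAt_nonneg_iff_analyticAt]
      have h2 := hw.2
      simp only [sub_zero] at h2
      rw [ordZ] at h2
      by_contra hneg
      rw [not_le] at hneg
      have hnt : meromorphicOrderAt θ₂ (rep z) ≠ ⊤ := ne_top_of_lt hneg
      obtain ⟨n, hn⟩ := WithTop.ne_top_iff_exists.1 hnt
      rw [← hn] at h2 hneg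
      rw [WithTop.untop₀_coe] at h2
      rw [h2] at hneg
      exact lt_irrefl _ hneg
    refine ⟨?_, hA2, ?_⟩
    · intro hd
      exact ordZ_deriv_ne hE1 ((hra1 z).2 hz) ((hrd z).trans hd) hw.1
    · have hc : ContinuousAt (fun w => P.evalEval (θ₁ w) (θ₂ w)) z :=
        continuousAt_evalEval P hz.continuousAt hA2.continuousAt
      have hev : ∀ᶠ w in 𝓝[≠] z, P.evalEval (θ₁ w) (θ₂ w) = 0 := by
        have h3 : {w | P.evalEval (θ₁ w) (θ₂ w) = 0} ∈ codiscrete ℂ := hrel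
        rw [mem_codiscrete] at h3
        have := h3 z
        rw [disjoint_principal_right, compl_compl] at this
        exact this
      have h4 : Tendsto (fun w => P.evalEval (θ₁ w) (θ₂ w)) (𝓝[≠] z)
          (𝓝 (P.evalEval (θ₁ z) (θ₂ z))) := hc.tendsto.mono_left nhdsWithin_le_nhds
      have h5 : Tendsto (fun w => P.evalEval (θ₁ w) (θ₂ w)) (𝓝[≠] z) (𝓝 0) :=
        tendsto_const_nhds.congr' (hev.mono fun w hw => hw.symm)
      have h6 := tendsto_nhds_unique h4 h5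
      rwa [hzx] at h6
  set p := dgE ω₁ ω₂ θ₁ with hp
  let Φ : ℂ → Set ℂ := fun x => {z | z ∈ FD ω₁ ω₂ ∧ AnalyticAt ℂ θ₁ z ∧ θ₁ z = x}
  let χ : ℂ → ℂ[X] := fun x => ∏ᶠ z ∈ Φ x, (X - C (θ₂ z))
  -- local sections
  have hloc : ∀ x₁, x₁ ∉ S₀ → ∃ r > 0, ∃ s : Fin p → ℂ → ℂ, (∀ i, Sec θ₁ (s i) (ball x₁ r)) ∧
      ∀ x ∈ ball x₁ r, BijOn (fun i => rep (s i x)) univ (Φ x) := by
    intro x₁ hx₁
    obtain ⟨r, hr, s, hs, hs2⟩ := h_locsec ω₁ ω₂ θ₁ hE1 hN1 x₁
      (fun z hz hzx => (hgood x₁ hx₁ z hz hzx).1)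
    refine ⟨r, hr, s, hs, fun x hx => ⟨?_, ?_, ?_⟩⟩
    · intro i _
      obtain ⟨h1, h2⟩ := (hs i).2 x hx
      exact ⟨(hrep _).1, (hra1 _).2 h1, (hr1 _).trans h2⟩
    · intro i _ j _ hij
      have hij' : rep (s i x) = rep (s j x) := hij
      obtain ⟨h1, h2⟩ := (hs i).2 x hx
      obtain ⟨m, n, h3⟩ := (hrep (s i x)).2
      obtain ⟨m', n', h4⟩ := (hrep (s j x)).2
      have hu := hs2 x hx (rep (s i x)) ((hra1 _).2 h1) ((hr1 _).trans h2)
      refine hu.unique ⟨-m, -n, ?_⟩ ⟨-m', -n', ?_⟩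
      · push_cast; linear_combination -h3
      · rw [hij']; push_cast; linear_combination -h4
    · rintro z ⟨hz1, hz2, hz3⟩
      obtain ⟨i, ⟨m, n, hmn⟩, -⟩ := hs2 x hx z hz2 hz3
      refine ⟨i, mem_univ _, hrepu _ _ hz1 ⟨-m, -n, ?_⟩⟩
      push_cast; linear_combination -hmn
  have hchi : ∀ x (s : Fin p → ℂ → ℂ), BijOn (fun i => rep (s i x)) univ (Φ x) →
      χ x = ∏ i, (X - C (θ₂ (s i x))) := by
    intro x s hb
    have h1 := finprod_mem_eq_of_bijOn (f := fun i => (X - C (θ₂ (s i x)) : ℂ[X]))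
      (g := fun z => (X - C (θ₂ z) : ℂ[X])) (fun i => rep (s i x)) hb
      (fun i _ => by simp only [hr2])
    rw [finprod_mem_univ, finprod_eq_prod_of_fintype] at h1
    exact h1.symm
  obtain ⟨q, hq0, D, hD⟩ := h_rat S₀ p χ P hP.ne_zero (by
    intro x₁ hx₁
    obtain ⟨r, hr, s, hs, hb⟩ := hloc x₁ hx₁
    have hopen : IsOpen ((S₀ : Set ℂ)ᶜ) := S₀.finite_toSet.isClosed.isOpen_compl
    obtain ⟨r', hr', hsub⟩ := Metric.isOpen_iff.1 hopen x₁ hx₁
    refine ⟨min r r', lt_min hr hr', fun i x => θ₂ (s i x), ?_, ?_⟩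
    · intro i x hx
      have hxr : x ∈ ball x₁ r := ball_subset_ball (min_le_left _ _) hx
      have hxS : x ∉ S₀ := hsub (ball_subset_ball (min_le_right _ _) hx)
      obtain ⟨h1, h2⟩ := (hs i).2 x hxr
      have h3 := (hgood x hxS _ h1 h2).2.1
      have h4 : DifferentiableAt ℂ (s i) x :=
        ((hs i).1 x hxr).differentiableAt (isOpen_ball.mem_nhds hxr)
      exact (h3.differentiableAt.comp x h4).differentiableWithinAt
    · intro x hx hxS
      exact hchi x s (hb x (ball_subset_ball (min_le_left _ _) hx))) (by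
    intro x hx y hy
    obtain ⟨r, hr, s, hs, hb⟩ := hloc x hx
    have hxr : x ∈ ball x r := mem_ball_self hr
    rw [hchi x s (hb x hxr), eval_prod, Finset.prod_eq_zero_iff] at hy
    obtain ⟨i, -, hi⟩ := hy
    rw [eval_sub, eval_X, eval_C, sub_eq_zero] at hi
    obtain ⟨h1, h2⟩ := (hs i).2 x hxr
    rw [hi]
    exact (hgood x hx _ h1 h2).2.2)
  have hmonic : ∀ x, x ∉ S₀ → (χ x).Monic ∧ (χ x).natDegree = p := by
    intro x hx
    obtain ⟨r, hr, s, hs, hb⟩ := hloc x hx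
    rw [hchi x s (hb x (mem_ball_self hr))]
    refine ⟨monic_prod_of_monic _ _ fun i _ => monic_X_sub_C _, ?_⟩
    rw [natDegree_prod_of_monic _ _ fun i _ => monic_X_sub_C _]
    simp
  have hex : ∀ S : Finset ℂ, ∃ x : ℂ, x ∉ S := fun S => Infinite.exists_notMem_finset S
  classical
  have hD0 : D ≠ 0 := by
    rintro rfl
    obtain ⟨x, hx⟩ := hex (S₀ ∪ q.roots.toFinset)
    rw [Finset.notMem_union] at hx
    have h1 := hD x hx.1
    rw [Polynomial.map_zero] at h1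
    have hqx : q.eval x ≠ 0 := by
      intro h
      apply hx.2
      rw [Multiset.mem_toFinset, mem_roots hq0]
      exact h
    rcases mul_eq_zero.1 h1 with h | h
    · exact hqx (C_eq_zero.1 h)
    · exact (hmonic x hx.1).1.ne_zero h
  obtain ⟨k, u, v, hu0, hv0, huv⟩ := h_irr P D hP hdeg hD0 ⟨S₀ ∪ q.roots.toFinset, by
    intro x hx y hy
    rw [Finset.notMem_union] at hx
    have hqx : q.eval x ≠ 0 := by
      intro h
      apply hx.2
      rw [Multiset.mem_toFinset, mem_roots hq0]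
      exact h
    rw [← map_evalRingHom_eval, ← hD x hx.1, eval_mul, eval_C] at hy
    have h2 := (mul_eq_zero.1 hy).resolve_left hqx
    obtain ⟨r, hr, s, hs, hb⟩ := hloc x hx.1
    have hxr : x ∈ ball x r := mem_ball_self hr
    rw [hchi x s (hb x hxr), eval_prod, Finset.prod_eq_zero_iff] at h2
    obtain ⟨i, -, hi⟩ := h2
    rw [eval_sub, eval_X, eval_C, sub_eq_zero] at hi
    obtain ⟨h1, h2⟩ := (hs i).2 x hxr
    rw [hi]
    exact (hgood x hx.1 _ h1 h2).2.2⟩
  obtain ⟨S₁, hS₁⟩ := h_sep P hP hdeg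
  set S : Finset ℂ := S₀ ∪ S₁ ∪ q.roots.toFinset ∪ u.roots.toFinset ∪ v.roots.toFinset with hS
  have hfac : ∀ x, x ∉ S → x ∉ S₀ ∧ x ∉ S₁ ∧ q.eval x ≠ 0 ∧ u.eval x ≠ 0 ∧ v.eval x ≠ 0 := by
    intro x hx
    rw [hS] at hx
    simp only [Finset.notMem_union] at hx
    obtain ⟨⟨⟨⟨h1, h2⟩, h3⟩, h4⟩, h5⟩ := hx
    refine ⟨h1, h2, ?_, ?_, ?_⟩
    · intro h; apply h3; rw [Multiset.mem_toFinset, mem_roots hq0]; exact h
    · intro h; apply h4; rw [Multiset.mem_toFinset, mem_roots hu0]; exact h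
    · intro h; apply h5; rw [Multiset.mem_toFinset, mem_roots hv0]; exact h
  have hkey : ∀ x, x ∉ S → C (u.eval x * q.eval x) * χ x =
      C (v.eval x) * (P.map (evalRingHom x)) ^ k := by
    intro x hx
    obtain ⟨h1, h2, h3, h4, h5⟩ := hfac x hx
    have h6 := congrArg (Polynomial.map (evalRingHom x)) huv
    simp only [Polynomial.map_mul, Polynomial.map_pow, Polynomial.map_C, coe_evalRingHom] at h6
    rw [← h6, ← hD x h1, C_mul, mul_assoc]
  have hdegk : p = k * P.natDegree := by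
    obtain ⟨x, hx⟩ := hex S
    obtain ⟨h1, h2, h3, h4, h5⟩ := hfac x hx
    have h6 := congrArg natDegree (hkey x hx)
    rw [natDegree_C_mul (mul_ne_zero h4 h3), natDegree_C_mul h5, natDegree_pow,
      (hmonic x h1).2, (hS₁ x h2).1] at h6
    exact h6
  have hk : 1 ≤ k := by
    rcases Nat.eq_zero_or_pos k with h | h
    · exfalso
      have h1 := (h_fib ω₁ ω₂ θ₁ hE1).1
      rw [← hp, hdegk, h, zero_mul] at h1
      omega
    · exact h
  refine ⟨k, hk, hdegk, S, fun x hx => ?_⟩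
  obtain ⟨h1, h2, h3, h4, h5⟩ := hfac x hx
  refine ⟨fun z hz hzx => hgood x h1 z hz hzx, fun y hy => ?_⟩
  obtain ⟨r, hr, s, hs, hb⟩ := hloc x h1
  have hb' := hb x (mem_ball_self hr)
  have hroots := congrArg roots (hkey x hx)
  rw [roots_C_mul _ (mul_ne_zero h4 h3), roots_C_mul _ h5, roots_pow] at hroots
  have hPx : P.map (evalRingHom x) ≠ 0 := by
    intro h
    have := (hS₁ x h2).1
    rw [h, natDegree_zero] at this
    omega
  have hcount : (χ x).roots.count y = k := by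
    rw [hroots, Multiset.count_nsmul, Multiset.count_eq_one_of_mem (hS₁ x h2).2, mul_one]
    rw [mem_roots hPx, IsRoot.def, map_evalRingHom_eval]
    exact hy
  have hrχ : (χ x).roots = (Finset.univ.val : Multiset (Fin p)).map fun i => θ₂ (s i x) := by
    rw [hchi x s hb']
    have := roots_multiset_prod_X_sub_C
      ((Finset.univ.val : Multiset (Fin p)).map fun i => θ₂ (s i x))
    rw [Multiset.map_map] at this
    exact this
  rw [hrχ, Multiset.count_map] at hcount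
  have hset : {z | z ∈ FD ω₁ ω₂ ∧ AnalyticAt ℂ θ₁ z ∧ θ₁ z = x ∧ θ₂ z = y} =
      (fun i => rep (s i x)) '' ((Finset.univ.filter fun i : Fin p => y = θ₂ (s i x) :
        Finset (Fin p)) : Set (Fin p)) := by
    ext z
    constructor
    · rintro ⟨hz1, hz2, hz3, hz4⟩
      obtain ⟨i, -, hi⟩ := hb'.surjOn ⟨hz1, hz2, hz3⟩
      refine ⟨i, ?_, hi⟩
      simp only [Finset.coe_filter, Finset.mem_univ, true_and, mem_setOf_eq]
      have hi' : rep (s i x) = z := hi
      rw [← hr2, hi', hz4]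
    · rintro ⟨i, hi, rfl⟩
      simp only [Finset.coe_filter, Finset.mem_univ, true_and, mem_setOf_eq] at hi
      obtain ⟨hz1, hz2, hz3⟩ := hb'.mapsTo (mem_univ i)
      exact ⟨hz1, hz2, hz3, (hr2 _).trans hi.symm⟩
  rw [hset, ncard_image_of_injOn (hb'.injOn.mono (subset_univ _)), ncard_coe_finset]
  exact hcount

end J_char

end Pool.Agent.Lev
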