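import Pool.Agent.Lev.Stm4

set_option autoImplicit false

open Polynomial Metric Set Filter Topology

namespace Pool.Agent.Lev

namespace J_cnt

/-- local normal form -/
theorem normal_form (θ : ℂ → ℂ) (c : ℂ) (e : ℕ) (he : 0 < e) (g : ℂ → ℂ) (hg : AnalyticAt ℂ g c)
    (hg0 : g c ≠ 0) (hθ : ∀ᶠ z in 𝓝 c, θ z - θ c = (z - c) ^ e • g z) :
    ∃ φ : ℂ → ℂ, ∃ ψ : ℂ → ℂ, ∀ᶠ z in 𝓝 c, ψ (φ z) = z ∧ θ z - θ c = φ z ^ e := by
  obtain ⟨w0, hw0⟩ := IsAlgClosed.exists_pow_nat_eq (g c) he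
  have hw00 : w0 ≠ 0 := by
    rintro rfl
    rw [zero_pow he.ne'] at hw0
    exact hg0 hw0.symm
  have heC : (e : ℂ) ≠ 0 := by exact_mod_cast he.ne'
  have hgc1 : g c / g c = 1 := div_self hg0
  have hquot : AnalyticAt ℂ (fun z => g z / g c) c := hg.div_const
  have hlog : AnalyticAt ℂ (fun z => Complex.log (g z / g c)) c :=
    hquot.clog (by rw [hgc1]; exact Complex.one_mem_slitPlane)
  let v : ℂ → ℂ := fun z => w0 * Complex.exp (Complex.log (g z / g c) / e)
  have hv : AnalyticAt ℂ v c := analyticAt_const.mul ((hlog.div_const).cexp')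
  have hvc : v c = w0 := by simp [v, hgc1]
  have hve : ∀ᶠ z in 𝓝 c, v z ^ e = g z := by
    have hne : ∀ᶠ z in 𝓝 c, g z / g c ≠ 0 :=
      hquot.continuousAt.eventually_ne (by rw [hgc1]; exact one_ne_zero)
    filter_upwards [hne] with z hz
    show (w0 * Complex.exp (Complex.log (g z / g c) / e)) ^ e = g z
    rw [mul_pow, hw0, ← Complex.exp_nat_mul, mul_div_cancel₀ _ heC, Complex.exp_log hz,
      mul_div_cancel₀ _ hg0]
  let φ : ℂ → ℂ := fun z => (z - c) * v z
  have hφd : HasStrictDerivAt φ w0 c := by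
    have h1 : HasStrictDerivAt (fun z : ℂ => z - c) 1 c := (hasStrictDerivAt_id c).sub_const c
    have h2 : HasStrictDerivAt v (deriv v c) c := hv.hasStrictDerivAt
    have h3 := h1.mul h2
    have h4 : 1 * v c + (c - c) * deriv v c = w0 := by rw [hvc]; ring
    rw [h4] at h3
    exact h3
  refine ⟨φ, hφd.localInverse φ w0 c hw00, ?_⟩
  filter_upwards [hφd.eventually_left_inverse hw00, hve, hθ] with z h1 h2 h3
  refine ⟨h1, ?_⟩
  rw [h3, ← h2, smul_eq_mul, ← mul_pow]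

/-- two sections over a ball which agree at one point agree at the center -/
theorem sec_unique (θ s t : ℂ → ℂ) (x₀ : ℂ) (r : ℝ) (hr : 0 < r) (hs : Sec θ s (ball x₀ r))
    (ht : Sec θ t (ball x₀ r)) (x₂ : ℂ) (hx₂ : x₂ ∈ ball x₀ r) (h : s x₂ = t x₂) :
    s x₀ = t x₀ := by
  have hsa : AnalyticOnNhd ℂ s (ball x₀ r) := hs.1.analyticOnNhd isOpen_ball
  have hta : AnalyticOnNhd ℂ t (ball x₀ r) := ht.1.analyticOnNhd isOpen_ball
  have hball : ∀ᶠ x in 𝓝 x₂, x ∈ ball x₀ r := isOpen_ball.mem_nhds hx₂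
  have hθa : AnalyticAt ℂ θ (s x₂) := (hs.2 x₂ hx₂).1
  have hθd : HasStrictDerivAt θ (deriv θ (s x₂)) (s x₂) := hθa.hasStrictDerivAt
  have hsd : HasDerivAt s (deriv s x₂) x₂ := (hsa x₂ hx₂).differentiableAt.hasDerivAt
  have hprod : deriv θ (s x₂) * deriv s x₂ = 1 := by
    have h1 : HasDerivAt (θ ∘ s) (deriv θ (s x₂) * deriv s x₂) x₂ :=
      HasDerivAt.comp x₂ hθd.hasDerivAt hsd
    have h2 : HasDerivAt (θ ∘ s) 1 x₂ := by
      refine (hasDerivAt_id x₂).congr_of_eventuallyEq ?_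
      filter_upwards [hball] with x hx
      exact (hs.2 x hx).2
    exact h1.unique h2
  have hne : deriv θ (s x₂) ≠ 0 := left_ne_zero_of_mul_eq_one hprod
  have hinv := hθd.eventually_left_inverse hne
  have hsc : Tendsto s (𝓝 x₂) (𝓝 (s x₂)) := (hsa x₂ hx₂).continuousAt
  have htc : Tendsto t (𝓝 x₂) (𝓝 (s x₂)) := by rw [h]; exact (hta x₂ hx₂).continuousAt
  have hev : s =ᶠ[𝓝 x₂] t := by
    filter_upwards [hball, hsc.eventually hinv, htc.eventually hinv] with x hx h1 h2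
    rw [(hs.2 x hx).2] at h1
    rw [(ht.2 x hx).2] at h2
    rw [← h1, ← h2]
  have := hsa.eqOn_of_preconnected_of_eventuallyEq hta (convex_ball x₀ r).isPreconnected hx₂ hev
  exact this (mem_ball_self hr)

theorem main :
    S_cnt := by
  intro θ c x₀ r hθ hord hr hx₁ n s hs hlim hdist
  -- the orders
  have hmer := hθ.deriv.meromorphicOrderAt_eq
  have htop : analyticOrderAt (deriv θ) c ≠ ⊤ := by
    intro h
    rw [h] at hmer
    exact hord (by rw [hmer]; rfl)
  obtain ⟨m, hm⟩ := ENat.ne_top_iff_exists.1 htop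
  have hordZ : ordZ (deriv θ) c = (m : ℤ) := by
    unfold ordZ
    rw [hmer, ← hm]
    rfl
  rw [hordZ]
  have hsub : analyticOrderAt (fun z => θ z - θ c) c = ((m + 1 : ℕ) : ℕ∞) := by
    have h1 := hθ.analyticOrderAt_deriv_add_one
    rw [← hm] at h1
    rw [← h1]
    push_cast
    rfl
  have hsa : AnalyticAt ℂ (fun z => θ z - θ c) c := hθ.sub analyticAt_const
  obtain ⟨g, hg, hg0, hgθ⟩ := hsa.analyticOrderAt_eq_natCast.1 hsub
  obtain ⟨φ, ψ, hφ⟩ := normal_form θ c (m + 1) (Nat.succ_pos m) g hg hg0 hgθ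
  -- the point
  have hne : (𝓝[ball x₀ r] (θ c)).NeBot := by
    rw [← mem_closure_iff_nhdsWithin_neBot, closure_ball x₀ hr.ne', mem_closedBall, dist_eq_norm]
    exact hx₁.le
  have hev : ∀ᶠ x in 𝓝[ball x₀ r] (θ c), x ∈ ball x₀ r ∧
      ∀ i, ψ (φ (s i x)) = s i x ∧ θ (s i x) - θ c = φ (s i x) ^ (m + 1) := by
    refine eventually_mem_nhdsWithin.and ?_
    rw [eventually_all]
    exact fun i => (hlim i).eventually hφ
  obtain ⟨x₂, hx₂, hall⟩ := hev.exists
  -- counting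
  classical
  have hcard : Fintype.card (Fin n) ≤
      (Polynomial.nthRoots (m + 1) (x₂ - θ c)).toFinset.card := by
    rw [← Finset.card_univ]
    refine Finset.card_le_card_of_injOn (fun i => φ (s i x₂)) ?_ ?_
    · intro i _
      rw [Finset.mem_coe, Multiset.mem_toFinset, Polynomial.mem_nthRoots (Nat.succ_pos m)]
      rw [← (hall i).2, ((hs i).2 x₂ hx₂).2]
    · intro i _ k _ hik
      by_contra hne'
      apply hdist i k hne'
      apply sec_unique θ (s i) (s k) x₀ r hr (hs i) (hs k) x₂ hx₂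
      have h1 : φ (s i x₂) = φ (s k x₂) := hik
      rw [← (hall i).1, h1, (hall k).1]
  have h2 : n ≤ m + 1 := by
    rw [Fintype.card_fin] at hcard
    exact hcard.trans ((Multiset.toFinset_card_le _).trans (Polynomial.card_nthRoots _ _))
  exact_mod_cast h2

end J_cnt

end Pool.Agent.Lev
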