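import Pool.Agent.Lev.Stm5

set_option autoImplicit false

open Polynomial Metric Set Filter Topology

namespace Pool.Agent.Lev

namespace J_critfin

theorem bf_one (d : ℕ) (p : ℂ[X]) (hp : p.natDegree ≤ d) (t : ℂ) : bf d p (t, 1) = p.eval t := by
  unfold bf
  rw [Polynomial.eval_eq_sum_range' (Nat.lt_succ_of_le hp)]
  simp

theorem lf_one (V : RatFunc ℂ) (t : ℂ) : lf V (t, 1) = (V.num.eval t, V.denom.eval t) := by
  unfold lf
  rw [bf_one (dg V) V.num (le_max_left _ _), bf_one (dg V) V.denom (le_max_right _ _)]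

noncomputable def Wr (V : RatFunc ℂ) : ℂ[X] :=
  V.num * derivative V.denom - V.denom * derivative V.num

theorem jac_one (hB : Basics) (h_lf : S_lf) (V : RatFunc ℂ) (z : ℂ) :
    jac (lf V) (z, 1) = -((dg V : ℂ) * (Wr V).eval z) := by
  have h3' : HasDerivAt (fun t : ℂ => ((t:ℂ), (1:ℂ))) ((1:ℂ), (0:ℂ)) z :=
    HasDerivAt.prodMk (hasDerivAt_id z) (hasDerivAt_const z 1)
  have h := hB.jac_curve (h_lf V) (a := fun t => ((t:ℂ), (1:ℂ))) (z := z) h3'.differentiableAt
  have h1 : (fun t : ℂ => lf V ((fun t => ((t:ℂ), (1:ℂ))) t)) =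
      fun t => (V.num.eval t, V.denom.eval t) := funext fun t => lf_one V t
  have h2 : deriv (fun t : ℂ => (V.num.eval t, V.denom.eval t)) z =
      ((derivative V.num).eval z, (derivative V.denom).eval z) :=
    (HasDerivAt.prodMk (V.num.hasDerivAt z) (V.denom.hasDerivAt z)).deriv
  have h3 : deriv (fun t : ℂ => ((t:ℂ), (1:ℂ))) z = (1, 0) := h3'.deriv
  rw [h1, h2, h3] at h
  change (dg V : ℂ) * wd (lf V (z, 1)) _ = jac (lf V) (z, 1) * _ at h
  rw [lf_one] at h
  simp only [wd] at h
  unfold Wr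
  rw [eval_sub, eval_mul, eval_mul]
  linear_combination h

theorem Wr_ne (hB : Basics) (h_lf : S_lf) (V : RatFunc ℂ) (hV : 1 ≤ dg V) : Wr V ≠ 0 := by
  intro h0
  obtain ⟨C, hC0, hC⟩ := hB.crit_fin (h_lf V) hV
  have h1 : ∀ z : ℂ, ∃ c ∈ C, wd (z, 1) c = 0 := by
    intro z
    apply hC _ (prod_one_ne z)
    rw [jac_one hB h_lf, h0]
    simp
  have h2 : (Set.univ : Set ℂ) ⊆ ((C.image (fun c => c.1 / c.2) : Finset ℂ) : Set ℂ) := by
    intro z _
    obtain ⟨c, hc, hw⟩ := h1 z
    rw [Finset.mem_coe, Finset.mem_image]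
    refine ⟨c, hc, ?_⟩
    simp only [wd, one_mul] at hw
    have hc2 : c.2 ≠ 0 := by
      intro h
      apply hC0 c hc
      rw [h, mul_zero, zero_sub, neg_eq_zero] at hw
      exact Prod.ext hw h
    rw [div_eq_iff hc2]
    linear_combination -hw
  exact Set.infinite_univ ((Finset.finite_toSet _).subset h2)

theorem Wr_deg (V : RatFunc ℂ) (hV : 1 ≤ dg V) : (Wr V).natDegree ≤ 2 * dg V - 1 := by
  have h1 : V.num.natDegree ≤ dg V := le_max_left _ _
  have h2 : V.denom.natDegree ≤ dg V := le_max_right _ _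
  have h3 : (derivative V.num).natDegree ≤ V.num.natDegree - 1 := natDegree_derivative_le _
  have h4 : (derivative V.denom).natDegree ≤ V.denom.natDegree - 1 := natDegree_derivative_le _
  unfold Wr
  refine (natDegree_sub_le _ _).trans ?_
  refine max_le ?_ ?_
  · refine natDegree_mul_le.trans ?_
    omega
  · refine natDegree_mul_le.trans ?_
    omega

theorem card_roots_filter (p : ℂ[X]) (hp : p ≠ 0) (s : Finset ℂ) (P : ℂ → Prop) [DecidablePred P]
    (h : ∀ z ∈ s, P z → p.eval z = 0) : (s.filter P).card ≤ p.natDegree := by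
  have h1 : s.filter P ⊆ p.roots.toFinset := by
    intro z hz
    rw [Finset.mem_filter] at hz
    rw [Multiset.mem_toFinset, mem_roots hp]
    exact h z hz.1 hz.2
  calc (s.filter P).card ≤ p.roots.toFinset.card := Finset.card_le_card h1
    _ ≤ p.roots.card := Multiset.toFinset_card_le _
    _ ≤ p.natDegree := card_roots' p

theorem main (hBasics : Basics) (h_lf : S_lf) (h_dgcp : S_dgcp) (h_lfcp : S_lfcp) (h_lfinj : S_lfinj) :
    S_critfin := by
  classical
  intro Y T D hY hT hs
  obtain ⟨s, hcard, hs⟩ := hs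
  obtain ⟨C, hC0, hC⟩ := hBasics.crit_fin (h_lf T) hT
  set SS : Set (RatFunc ℂ) := {V : RatFunc ℂ | 1 ≤ dg V ∧ dg V ≤ D ∧ ∃ U, 1 ≤ dg U ∧ cp U Y = cp T V}
    with hSS
  -- the code
  let code : RatFunc ℂ → (s → Option C) := fun V z =>
    if h : jac (lf T) (lf V ((z : ℂ), 1)) = 0 ∧ lf V ((z : ℂ), 1) ≠ 0 then
      some ⟨(hC _ h.2 h.1).choose, (hC _ h.2 h.1).choose_spec.1⟩ else none
  have hcode : ∀ V (z : s) (c : C), code V z = some c → wd (lf V ((z:ℂ), 1)) c = 0 := by
    intro V z c h
    simp only [code] at h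
    split_ifs at h with h1
    rw [Option.some.injEq] at h
    rw [← h]
    exact (hC _ h1.2 h1.1).choose_spec.2
  have hlfne : ∀ (V : RatFunc ℂ) (z : ℂ), lf V (z, 1) ≠ 0 := fun V z =>
    (h_lf V).2 _ (prod_one_ne z)
  have hgood : ∀ V ∈ SS, ∀ z ∈ s, jac (lf V) (z, 1) ≠ 0 → jac (lf T) (lf V (z, 1)) = 0 := by
    rintro V ⟨hV1, hVD, U, hU, hUV⟩ z hz hj
    obtain ⟨c₁, hc₁, e₁⟩ := h_lfcp U Y hY
    obtain ⟨c₂, hc₂, e₂⟩ := h_lfcp T V hV1
    have hκ : c₁ / c₂ ≠ 0 := div_ne_zero hc₁ hc₂
    have hA := hBasics.csmul (h_lf U) hκ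
    have heq : (fun v => (fun w => (c₁ / c₂) • lf U w) (lf Y v)) = fun v => lf T (lf V v) := by
      funext v
      have h1 := e₁ v
      have h2 := e₂ v
      rw [hUV, h2] at h1
      change (c₁ / c₂) • lf U (lf Y v) = lf T (lf V v)
      rw [div_eq_mul_inv, mul_comm, mul_smul, ← h1, smul_smul, inv_mul_cancel₀ hc₂, one_smul]
    have j1 := hBasics.jac_comp (hBasics.diff hA) (hBasics.diff (h_lf Y)) (z, 1)
    have j2 := hBasics.jac_comp (hBasics.diff (h_lf T)) (hBasics.diff (h_lf V)) (z, 1)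
    rw [heq, hs z hz, mul_zero] at j1
    rw [j1] at j2
    exact (mul_eq_zero.mp j2.symm).resolve_right hj
  have hinj : Set.InjOn code SS := by
    intro V hV V' hV' hcc
    have hV1 : 1 ≤ dg V := hV.1
    have hVD : dg V ≤ D := hV.2.1
    have hVD' : dg V' ≤ D := hV'.2.1
    let P : ℂ[X] := V.num * V'.denom - V.denom * V'.num
    have hbad : (s.filter (fun z => jac (lf V) (z, 1) = 0)).card ≤ 2 * D - 1 := by
      refine (card_roots_filter (Wr V) (Wr_ne hBasics h_lf V hV1) s _ ?_).trans
        ((Wr_deg V hV1).trans (by omega))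
      intro z _ hz
      rw [jac_one hBasics h_lf, neg_eq_zero, mul_eq_zero] at hz
      rcases hz with h | h
      · exfalso
        have : dg V = 0 := by exact_mod_cast h
        omega
      · exact h
    have hcnt : 2 * D + 1 < (s.filter (fun z => ¬ jac (lf V) (z, 1) = 0)).card := by
      have := Finset.card_filter_add_card_filter_not (s := s) (fun z => jac (lf V) (z, 1) = 0)
      omega
    have hPz : ∀ z ∈ s, ¬ jac (lf V) (z, 1) = 0 → P.eval z = 0 := by
      intro z hz hj
      have hT0 := hgood V hV z hz hj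
      have hsome : ∃ c : C, code V ⟨z, hz⟩ = some c := by
        simp only [code]
        rw [dif_pos ⟨hT0, hlfne V z⟩]
        exact ⟨_, rfl⟩
      obtain ⟨c, hc⟩ := hsome
      have w1 := hcode V ⟨z, hz⟩ c hc
      have w2 := hcode V' ⟨z, hz⟩ c (by rw [← hcc]; exact hc)
      have w3 := wd_trans (hC0 c c.2) w1 (wd_symm w2)
      change wd (lf V (z, 1)) (lf V' (z, 1)) = 0 at w3
      rw [lf_one, lf_one] at w3
      simp only [wd] at w3
      simp only [P, eval_sub, eval_mul]
      exact w3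
    have hP0 : P = 0 := by
      by_contra hne
      have h1 := card_roots_filter P hne s (fun z => ¬ jac (lf V) (z, 1) = 0) hPz
      have h2 : P.natDegree ≤ 2 * D := by
        refine (natDegree_sub_le _ _).trans ?_
        have a1 : V.num.natDegree ≤ dg V := le_max_left _ _
        have a2 : V.denom.natDegree ≤ dg V := le_max_right _ _
        have a3 : V'.num.natDegree ≤ dg V' := le_max_left _ _
        have a4 : V'.denom.natDegree ≤ dg V' := le_max_right _ _
        refine max_le ?_ ?_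
        · refine natDegree_mul_le.trans ?_
          omega
        · refine natDegree_mul_le.trans ?_
          omega
      omega
    apply h_lfinj
    apply hBasics.prop_inf (h_lf V) (h_lf V') (s := Set.univ) Set.infinite_univ
    intro z _
    rw [lf_one, lf_one]
    have : P.eval z = 0 := by rw [hP0, eval_zero]
    simp only [P, eval_sub, eval_mul] at this
    simp only [wd]
    exact this
  exact Set.Finite.of_finite_image (Set.toFinite _) hinj

end J_critfin

end Pool.Agent.Lev
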