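import Pool.Agent.Lev.Stm5

set_option autoImplicit false

open Polynomial Metric Set Filter Topology

namespace Pool.Agent.Lev

namespace J_critgrow


theorem ex_wd {v : ℂ × ℂ} (hv : v ≠ 0) : ∃ e : ℂ × ℂ, wd v e ≠ 0 := by
  by_cases h : v.1 = 0
  · refine ⟨(1, 0), ?_⟩
    have h2 : v.2 ≠ 0 := fun h2 => hv (Prod.ext h h2)
    simpa [wd] using h2
  · refine ⟨(0, 1), ?_⟩
    simpa [wd] using h

theorem curve_deriv (c e : ℂ × ℂ) (t : ℂ) : HasDerivAt (fun t : ℂ => t • c + e) c t := by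
  have := ((hasDerivAt_id t).smul_const c).add_const e
  simpa using this

theorem poly_rep (hB : Basics) {d : ℕ} {F : ℂ × ℂ → ℂ × ℂ} (hF : IsLift d F) (hd : 1 ≤ d)
    {y : ℂ × ℂ} (hy : y ≠ 0) (c e : ℂ × ℂ) :
    ∃ P : ℂ[X], P.natDegree ≤ d ∧ P.coeff d = wd (F c) y ∧ ∀ t, P.eval t = wd (F (t • c + e)) y := by
  obtain ⟨k, _, ζ, _, h⟩ := hB.factor hF hd hy
  have hdeg : ∀ i ∈ (Finset.univ : Finset (Fin d)),
      (C (wd c (ζ i)) * X + C (wd e (ζ i)) : ℂ[X]).natDegree ≤ 1 := fun i _ => natDegree_linear_le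
  refine ⟨C k * ∏ i, (C (wd c (ζ i)) * X + C (wd e (ζ i))), ?_, ?_, ?_⟩
  · refine (natDegree_C_mul_le _ _).trans ((natDegree_prod_le _ _).trans ?_)
    refine (Finset.sum_le_sum hdeg).trans ?_
    simp
  · rw [coeff_C_mul]
    have h1 := coeff_prod_of_natDegree_le (s := (Finset.univ : Finset (Fin d)))
      (f := fun i => (C (wd c (ζ i)) * X + C (wd e (ζ i)) : ℂ[X])) (n := 1) hdeg
    rw [Finset.card_univ, Fintype.card_fin, mul_one] at h1
    rw [h1, h]
    congr 1
    refine Finset.prod_congr rfl fun i _ => ?_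
    simp
  · intro t
    rw [h, eval_mul, eval_C, eval_prod]
    congr 1
    refine Finset.prod_congr rfl fun i _ => ?_
    simp only [eval_add, eval_mul, eval_C, eval_X, wd, Prod.fst_add, Prod.snd_add, Prod.smul_fst,
      Prod.smul_snd, smul_eq_mul]
    ring

theorem wd_hasDeriv {f : ℂ → ℂ × ℂ} {f' : ℂ × ℂ} {t : ℂ} (h : HasDerivAt f f' t) (y : ℂ × ℂ) :
    HasDerivAt (fun t => wd (f t) y) (wd f' y) t := by
  have h1 : HasDerivAt (fun t => (f t).1) f'.1 t := h.fst
  have h2 : HasDerivAt (fun t => (f t).2) f'.2 t := h.snd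
  unfold wd
  exact (h1.mul_const _).fun_sub (h2.mul_const _)

/-- a critical direction different from a given one -/
theorem crit2 (hB : Basics) {d : ℕ} {F : ℂ × ℂ → ℂ × ℂ} (hF : IsLift d F) (hd : 2 ≤ d)
    {c : ℂ × ℂ} (hc : c ≠ 0) : ∃ v, v ≠ 0 ∧ jac F v = 0 ∧ wd v c ≠ 0 := by
  obtain ⟨e, he⟩ := ex_wd hc
  have hFc : F c ≠ 0 := hF.2 c hc
  obtain ⟨y, hy⟩ := ex_wd hFc
  have hy0 : y ≠ 0 := by
    rintro rfl
    apply hy
    simp [wd]
  obtain ⟨h, hh1, hh2, hh3⟩ := poly_rep hB hF (by omega) hFc c e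
  obtain ⟨k, hk1, hk2, hk3⟩ := poly_rep hB hF (by omega) hy0 c e
  rw [wd_self] at hh2
  have hh0 : h ≠ 0 := by
    intro h0
    obtain ⟨κ, hκ, ζ, hζ1, hζ⟩ := hB.factor hF (by omega) hFc
    have hz : ∀ t : ℂ, ∃ i, wd (t • c + e) (ζ i) = 0 := by
      intro t
      have h1 := hh3 t
      rw [h0, eval_zero, hζ] at h1
      have h2 := (mul_eq_zero.1 h1.symm).resolve_left hκ
      obtain ⟨i, _, hi⟩ := Finset.prod_eq_zero_iff.1 h2
      exact ⟨i, hi⟩
    choose φ hφ using hz
    obtain ⟨t, t', hne, heq⟩ := Finite.exists_ne_map_eq_of_infinite φ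
    have hζ0 : ζ (φ t) ≠ 0 := by
      intro h0'
      have := hζ1 (φ t)
      rw [h0', norm_zero] at this
      exact zero_ne_one this
    have h1 := hφ t
    have h2 := hφ t'
    rw [← heq] at h2
    have h3 := wd_trans hζ0 h1 (wd_symm h2)
    have h4 : wd (t • c + e) (t' • c + e) = (t - t') * wd c e := by
      simp only [wd, Prod.fst_add, Prod.snd_add, Prod.smul_fst, Prod.smul_snd, smul_eq_mul]; ring
    rw [h4] at h3
    rcases mul_eq_zero.1 h3 with h5 | h5
    · exact hne (sub_eq_zero.1 h5)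
    · exact he h5
  obtain ⟨m, hm⟩ : ∃ m, m = h.natDegree := ⟨_, rfl⟩
  have hlead : h.coeff m ≠ 0 := by
    rw [hm]
    exact leadingCoeff_ne_zero.2 hh0
  have hmd : m < d := by
    rcases lt_or_eq_of_le hh1 with h1 | h1
    · omega
    · exfalso
      apply hlead
      rw [hm, h1, hh2]
  have hkd : k.coeff d ≠ 0 := by rw [hk2]; exact hy
  obtain ⟨Wp, hWp⟩ : ∃ Wp : ℂ[X], Wp = h * derivative k - k * derivative h := ⟨_, rfl⟩
  have hcoef : Wp.coeff (m + (d - 1)) ≠ 0 := by
    have e1 : (h * derivative k).coeff (m + (d - 1)) = h.coeff m * (k.coeff d * d) := by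
      rw [coeff_mul_add_eq_of_natDegree_le (by omega) ((natDegree_derivative_le k).trans (by omega)),
        coeff_derivative]
      have : d - 1 + 1 = d := by omega
      rw [this]
      congr 2
      have h2 : ((d - 1 : ℕ) : ℂ) + 1 = ((d - 1 + 1 : ℕ) : ℂ) := by push_cast; ring
      rw [h2, this]
    have e2 : (k * derivative h).coeff (m + (d - 1)) = k.coeff d * (h.coeff m * m) := by
      rcases Nat.eq_zero_or_pos m with h0 | h0
      · have h1 : derivative h = 0 := by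
          rw [eq_C_of_natDegree_eq_zero (hm.symm.trans h0)]
          simp
        rw [h1, h0]
        simp
      · have h1 : m + (d - 1) = d + (m - 1) := by omega
        rw [h1, coeff_mul_add_eq_of_natDegree_le hk1 ((natDegree_derivative_le h).trans (by omega)),
          coeff_derivative]
        have : m - 1 + 1 = m := by omega
        rw [this]
        congr 2
        have h2 : ((m - 1 : ℕ) : ℂ) + 1 = ((m - 1 + 1 : ℕ) : ℂ) := by push_cast; ring
        rw [h2, this]
    rw [hWp, coeff_sub, e1, e2]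
    have h3 : h.coeff m * (k.coeff d * d) - k.coeff d * (h.coeff m * m)
        = h.coeff m * k.coeff d * ((d : ℂ) - m) := by ring
    rw [h3]
    refine mul_ne_zero (mul_ne_zero hlead hkd) ?_
    rw [sub_ne_zero]
    intro h4
    have : d = m := by exact_mod_cast h4
    omega
  have hroot : ∃ t, Wp.eval t = 0 := by
    have hdeg : Wp.degree ≠ 0 := by
      intro h0
      have h1 : Wp.natDegree = 0 := natDegree_eq_of_degree_eq_some h0
      apply hcoef
      apply coeff_eq_zero_of_natDegree_lt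
      omega
    exact IsAlgClosed.exists_root Wp hdeg
  obtain ⟨t, ht⟩ := hroot
  have ha := curve_deriv c e t
  have hFd : HasDerivAt (fun t : ℂ => F (t • c + e)) (deriv (fun t : ℂ => F (t • c + e)) t) t := by
    have : DifferentiableAt ℂ (fun t : ℂ => F (t • c + e)) t :=
      DifferentiableAt.comp t ((hB.diff hF) _) ha.differentiableAt
    exact this.hasDerivAt
  have hv0 : t • c + e ≠ 0 := by
    intro h0
    apply he
    have : wd (t • c + e) c = 0 := by rw [h0]; simp [wd]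
    have h5 : wd (t • c + e) c = - wd c e := by
      simp only [wd, Prod.fst_add, Prod.snd_add, Prod.smul_fst, Prod.smul_snd, smul_eq_mul]; ring
    rw [h5] at this
    exact neg_eq_zero.1 this
  have hwc : wd (t • c + e) c = - wd c e := by
    simp only [wd, Prod.fst_add, Prod.snd_add, Prod.smul_fst, Prod.smul_snd, smul_eq_mul]; ring
  refine ⟨t • c + e, hv0, ?_, ?_⟩
  · have hD1 : (derivative h).eval t = wd (deriv (fun t : ℂ => F (t • c + e)) t) (F c) := by
      have h1 := wd_hasDeriv hFd (F c)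
      have h2 : (fun t : ℂ => wd (F (t • c + e)) (F c)) = fun t => h.eval t := by
        funext t; rw [hh3]
      rw [h2] at h1
      exact (h.hasDerivAt t).unique h1
    have hD2 : (derivative k).eval t = wd (deriv (fun t : ℂ => F (t • c + e)) t) y := by
      have h1 := wd_hasDeriv hFd y
      have h2 : (fun t : ℂ => wd (F (t • c + e)) y) = fun t => k.eval t := by
        funext t; rw [hk3]
      rw [h2] at h1
      exact (k.hasDerivAt t).unique h1
    rw [hWp, eval_sub, eval_mul, eval_mul, hh3, hk3, hD1, hD2] at ht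
    have hpl : wd (F (t • c + e)) (deriv (fun t : ℂ => F (t • c + e)) t) * wd (F c) y = 0 := by
      rw [← ht]
      simp only [wd]
      ring
    have hz := (mul_eq_zero.1 hpl).resolve_right hy
    have hjc := hB.jac_curve hF ha.differentiableAt
    rw [hz, mul_zero, ha.deriv, hwc] at hjc
    exact (mul_eq_zero.1 hjc.symm).resolve_right (neg_ne_zero.2 he)
  · rw [hwc]
    exact neg_ne_zero.2 he

/-- the critical directions are invariant under scaling -/
theorem jac_smul (hB : Basics) {d : ℕ} {F : ℂ × ℂ → ℂ × ℂ} (hF : IsLift d F) (hd : 1 ≤ d)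
    {μ : ℂ} (hμ : μ ≠ 0) {v : ℂ × ℂ} (hv : v ≠ 0) (h : jac F v = 0) : jac F (μ • v) = 0 := by
  obtain ⟨e, he⟩ := ex_wd hv
  have hd0 : (d : ℂ) ≠ 0 := by
    have : d ≠ 0 := by omega
    exact_mod_cast this
  have hb : HasDerivAt (fun t : ℂ => t • e + v) e 0 := curve_deriv e v 0
  have ha : HasDerivAt (fun t : ℂ => μ • (t • e + v)) (μ • e) 0 := hb.const_smul μ
  have h1 := hB.jac_curve hF hb.differentiableAt
  have h2 := hB.jac_curve hF ha.differentiableAt
  have hb0 : (0 : ℂ) • e + v = v := by simp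
  simp only [hb0] at h1 h2
  rw [h, zero_mul] at h1
  have h3 := (mul_eq_zero.1 h1).resolve_left hd0
  have hFd : DifferentiableAt ℂ (fun t : ℂ => F (t • e + v)) 0 :=
    DifferentiableAt.comp 0 ((hB.diff hF) _) hb.differentiableAt
  have h4 : (fun t : ℂ => F (μ • (t • e + v))) = fun t : ℂ => μ ^ d • F (t • e + v) := by
    funext t
    exact hB.smul hF μ _
  have h5 : deriv (fun t : ℂ => F (μ • (t • e + v))) 0 = μ ^ d • deriv (fun t : ℂ => F (t • e + v)) 0 := by
    rw [h4]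
    exact (hFd.hasDerivAt.const_smul (μ ^ d)).deriv
  rw [h5, hB.smul hF, wd_smul_left, wd_smul_right, h3, mul_zero, mul_zero, mul_zero, ha.deriv,
    wd_smul_left, wd_smul_right] at h2
  have h6 : μ * (μ * wd v e) ≠ 0 := mul_ne_zero hμ (mul_ne_zero hμ he)
  exact (mul_eq_zero.1 h2.symm).resolve_right h6

theorem jac_par (hB : Basics) {d : ℕ} {F : ℂ × ℂ → ℂ × ℂ} (hF : IsLift d F) (hd : 1 ≤ d)
    {v w : ℂ × ℂ} (hv : v ≠ 0) (hw : w ≠ 0) (hvw : wd v w = 0) (h : jac F v = 0) : jac F w = 0 := by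
  obtain ⟨c, rfl⟩ := exists_smul_of_wd hv hvw
  have hc : c ≠ 0 := by
    rintro rfl
    simp at hw
  exact jac_smul hB hF hd hc hv h

/-- critical for some iterate -/
def CD (F : ℂ × ℂ → ℂ × ℂ) (v : ℂ × ℂ) : Prop := ∃ i, jac (F^[i]) v = 0

theorem CD_par (hB : Basics) {d : ℕ} {F : ℂ × ℂ → ℂ × ℂ} (hF : IsLift d F) (hd : 2 ≤ d)
    {v w : ℂ × ℂ} (hv : v ≠ 0) (hw : w ≠ 0) (hvw : wd v w = 0) (h : CD F v) : CD F w := by
  obtain ⟨i, hi⟩ := h
  exact ⟨i, jac_par hB (hB.iter hF i) (Nat.one_le_pow _ _ (by omega)) hv hw hvw hi⟩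

theorem CD_pre (hB : Basics) {d : ℕ} {F : ℂ × ℂ → ℂ × ℂ} (hF : IsLift d F)
    {w : ℂ × ℂ} (h : CD F (F w)) : CD F w := by
  obtain ⟨i, hi⟩ := h
  refine ⟨i + 1, ?_⟩
  have h1 : F^[i + 1] = fun v => F^[i] (F v) := by
    funext v; rw [Function.iterate_succ_apply]
  rw [h1, hB.jac_comp (hB.diff (hB.iter hF i)) (hB.diff hF), hi, zero_mul]

theorem jac_mono (hB : Basics) {d : ℕ} {F : ℂ × ℂ → ℂ × ℂ} (hF : IsLift d F)
    {v : ℂ × ℂ} {i j : ℕ} (hij : i ≤ j) (h : jac (F^[i]) v = 0) : jac (F^[j]) v = 0 := by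
  induction j, hij using Nat.le_induction with
  | base => exact h
  | succ j _ ih =>
    have h1 : F^[j + 1] = fun v => F (F^[j] v) := by
      funext v; rw [Function.iterate_succ_apply']
    rw [h1, hB.jac_comp (hB.diff hF) (hB.diff (hB.iter hF j)), ih, mul_zero]

open Classical in
/-- normal form of a direction -/
noncomputable def nf (v : ℂ × ℂ) : ℂ × ℂ := if v.2 = 0 then (1, 0) else (v.1 / v.2, 1)

theorem nf_ne (v : ℂ × ℂ) : nf v ≠ 0 := by
  unfold nf
  split_ifs
  · intro h; exact one_ne_zero (congrArg Prod.fst h)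
  · intro h; exact one_ne_zero (congrArg Prod.snd h)

theorem wd_nf (v : ℂ × ℂ) : wd v (nf v) = 0 := by
  unfold nf
  split_ifs with h
  · simp [wd, h]
  · simp only [wd]
    field_simp
    ring

theorem nf_eq_iff {v w : ℂ × ℂ} (hv : v ≠ 0) (hw : w ≠ 0) : nf v = nf w ↔ wd v w = 0 := by
  constructor
  · intro h
    have h1 := wd_nf v
    have h2 := wd_symm (wd_nf w)
    rw [h] at h1
    exact wd_trans (nf_ne w) h1 h2
  · intro h
    obtain ⟨c, rfl⟩ := exists_smul_of_wd hv h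
    have hc : c ≠ 0 := by
      rintro rfl
      simp at hw
    unfold nf
    by_cases h2 : v.2 = 0
    · simp [h2]
    · have h3 : (c • v).2 ≠ 0 := by simp [hc, h2]
      rw [if_neg h2, if_neg h3]
      simp only [Prod.smul_fst, Prod.smul_snd, smul_eq_mul]
      rw [mul_div_mul_left _ _ hc]

theorem main (hBasics : Basics) (h_TR : S_TR) (h_exctwo : S_exctwo) :
    S_critgrow := by
  intro d F hF hd hPow N
  by_contra hcon
  push Not at hcon
  have hB := hBasics
  -- no large finite sets of critical points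
  have hsmall : ∀ i, ∀ s : Finset ℂ, (∀ z ∈ s, jac (F^[i]) (z, 1) = 0) → s.card < N := by
    intro i s hs
    obtain ⟨j, hj, hj'⟩ := hcon i
    by_contra hN
    obtain ⟨z, hz, hz'⟩ := hj' s (not_lt.1 hN)
    exact hz' (jac_mono hB hF hj (hs z hz))
  have hZfin : {z : ℂ | CD F (z, 1)}.Finite := by
    by_contra hinf
    obtain ⟨s, hs, hcard⟩ := Set.Infinite.exists_subset_card_eq hinf N
    have h1 : ∀ z : ℂ, ∃ i, z ∈ s → jac (F^[i]) (z, 1) = 0 := by
      intro z
      by_cases hz : z ∈ s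
      · obtain ⟨i, hi⟩ := hs hz
        exact ⟨i, fun _ => hi⟩
      · exact ⟨0, fun h => absurd h hz⟩
    choose φ hφ using h1
    have h2 := hsmall (s.sup φ) s (fun z hz => jac_mono hB hF (Finset.le_sup hz) (hφ z hz))
    omega
  -- the finite set of critical directions
  have hSfin : {c : ℂ × ℂ | c ≠ 0 ∧ CD F c ∧ nf c = c}.Finite := by
    refine ((hZfin.image (fun z : ℂ => ((z, 1) : ℂ × ℂ))).union (Set.finite_singleton ((1, 0) : ℂ × ℂ))).subset ?_
    rintro c ⟨_, hc2, hc3⟩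
    by_cases h : c.2 = 0
    · right
      have : nf c = (1, 0) := by unfold nf; rw [if_pos h]
      rw [← hc3, this]
      rfl
    · left
      have h1 : nf c = (c.1 / c.2, 1) := by unfold nf; rw [if_neg h]
      refine ⟨c.1 / c.2, ?_, ?_⟩
      · show CD F (c.1 / c.2, 1)
        rw [← h1, hc3]
        exact hc2
      · show (c.1 / c.2, 1) = c
        rw [← h1, hc3]
  obtain ⟨S, hS⟩ : ∃ S : Finset (ℂ × ℂ), ∀ c, c ∈ S ↔ c ≠ 0 ∧ CD F c ∧ nf c = c :=
    ⟨hSfin.toFinset, fun c => by simp⟩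
  have hnfS : ∀ v, v ≠ 0 → CD F v → nf v ∈ S := by
    intro v hv hcd
    rw [hS]
    refine ⟨nf_ne v, CD_par hB hF hd hv (nf_ne v) (wd_nf v) hcd, ?_⟩
    exact ((nf_eq_iff hv (nf_ne v)).2 (wd_nf v)).symm
  have hSeq : ∀ c ∈ S, ∀ c' ∈ S, wd c c' = 0 → c = c' := by
    intro c hc c' hc' h
    rw [hS] at hc hc'
    rw [← hc.2.2, ← hc'.2.2]
    exact (nf_eq_iff hc.1 hc'.1).2 h
  have hF0 : F 0 = 0 := by
    have := hB.smul hF 0 0
    rw [smul_zero, zero_pow (by omega), zero_smul] at this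
    exact this
  choose w hw using fun c : ℂ × ℂ => hB.surj hF (by omega) c
  have hw0 : ∀ c, c ≠ 0 → w c ≠ 0 := by
    intro c hc h0
    have := hw c
    rw [h0, hF0] at this
    exact hc this.symm
  have hmaps : ∀ c ∈ S, nf (w c) ∈ S := by
    intro c hc
    have hc' := (hS c).1 hc
    refine hnfS _ (hw0 c hc'.1) (CD_pre hB hF ?_)
    rw [hw]
    exact hc'.2.1
  have hpar : ∀ a b : ℂ × ℂ, a ≠ 0 → wd a b = 0 → wd (F a) (F b) = 0 := by
    intro a b ha hab
    obtain ⟨c, rfl⟩ := exists_smul_of_wd ha hab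
    rw [hB.smul hF, wd_smul_right, wd_self, mul_zero]
  have hinj : ∀ c ∈ S, ∀ c' ∈ S, nf (w c) = nf (w c') → c = c' := by
    intro c hc c' hc' h
    have hc1 := ((hS c).1 hc).1
    have hc1' := ((hS c').1 hc').1
    rw [nf_eq_iff (hw0 c hc1) (hw0 c' hc1')] at h
    have := hpar _ _ (hw0 c hc1) h
    rw [hw, hw] at this
    exact hSeq c hc c' hc' this
  have hsurj : ∀ c ∈ S, ∃ c' ∈ S, nf (w c') = c := by
    have := Finset.surjOn_of_injOn_of_card_le (s := S) (t := S) (fun c => nf (w c))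
      (fun c hc => hmaps c hc) (fun c hc c' hc' h => hinj c hc c' hc' h) le_rfl
    intro c hc
    obtain ⟨c', hc', h⟩ := this hc
    exact ⟨c', hc', h⟩
  have huniq : ∀ c ∈ S, ∀ x, x ≠ 0 → wd (F x) c = 0 → wd x (nf (w c)) = 0 := by
    intro c hc x hx hxc
    have hc' := (hS c).1 hc
    have hFx : F x ≠ 0 := hF.2 x hx
    have h1 : CD F (F x) := CD_par hB hF hd hc'.1 hFx (wd_symm hxc) hc'.2.1
    have h2 := hnfS x hx (CD_pre hB hF h1)
    obtain ⟨c'', hc'', h3⟩ := hsurj _ h2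
    have hc''1 := ((hS c'').1 hc'').1
    have h4 : wd (w c'') x = 0 := (nf_eq_iff (hw0 c'' hc''1) hx).1 h3
    have h5 := hpar _ _ (hw0 c'' hc''1) h4
    rw [hw] at h5
    have h6 : wd c'' c = 0 := wd_trans hFx h5 hxc
    have h7 := hSeq c'' hc'' c hc h6
    rw [← h7, h3]
    exact wd_nf x
  have hcard : S.card ≤ 2 := by
    by_contra h
    rw [not_le, Finset.two_lt_card] at h
    obtain ⟨a, ha, b, hb, c, hc, hab, hac, hbc⟩ := h
    have h0 : ∀ x ∈ S, x ≠ 0 := fun x hx => ((hS x).1 hx).1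
    rcases h_TR d F hF hd a b c (nf (w a)) (nf (w b)) (nf (w c)) (h0 a ha) (h0 b hb) (h0 c hc)
      (nf_ne _) (nf_ne _) (nf_ne _) (huniq a ha) (huniq b hb) (huniq c hc) with h1 | h1 | h1
    · exact hab (hSeq a ha b hb h1)
    · exact hbc (hSeq b hb c hc h1)
    · exact hac (hSeq a ha c hc h1)
  have hexc : ∀ c ∈ S, Exc F c := by
    intro c hc
    have hc1 := ((hS c).1 hc).1
    refine ⟨hc1, fun x hx hxc => ?_⟩
    have hFx : F x ≠ 0 := hF.2 x hx
    have h1 := huniq c hc (F x) hFx hxc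
    have h2 := huniq _ (hmaps c hc) x hx h1
    have h3 : nf (w (nf (w c))) = c := by
      by_cases h4 : nf (w c) = c
      · rw [h4, h4]
      · by_contra h5
        have h6 : nf (w (nf (w c))) ≠ nf (w c) := by
          intro h7
          exact h4 (hinj _ (hmaps c hc) c hc h7)
        have h8 : 2 < S.card := by
          rw [Finset.two_lt_card]
          exact ⟨c, hc, nf (w c), hmaps c hc, nf (w (nf (w c))), hmaps _ (hmaps c hc),
            fun h => h4 h.symm, fun h => h5 h.symm, fun h => h6 h.symm⟩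
        omega
    rwa [h3] at h2
  obtain ⟨v1, hv1, hj1, _⟩ := crit2 hB hF hd (prod_one_ne 0)
  obtain ⟨v2, hv2, hj2, hv12⟩ := crit2 hB hF hd hv1
  have hc1 : nf v1 ∈ S := hnfS v1 hv1 ⟨1, by rwa [Function.iterate_one]⟩
  have hc2 : nf v2 ∈ S := hnfS v2 hv2 ⟨1, by rwa [Function.iterate_one]⟩
  have hne : wd (nf v1) (nf v2) ≠ 0 := by
    intro h
    apply hv12
    have h1 : wd v2 (nf v2) = 0 := wd_nf v2
    have h2 : wd v2 (nf v1) = 0 := wd_trans (nf_ne v2) h1 (wd_symm h)
    exact wd_trans (nf_ne v1) h2 (wd_symm (wd_nf v1))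
  exact hPow (h_exctwo d F hF hd _ _ (hexc _ hc1) (hexc _ hc2) hne)

end J_critgrow

end Pool.Agent.Lev
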