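import Pool.Agent.Lev.Stm5

set_option autoImplicit false

open Polynomial Metric Set Filter Topology

namespace Pool.Agent.Lev

namespace J_critpow

theorem jac_smul {F : ℂ × ℂ → ℂ × ℂ} (hF : Differentiable ℂ F) (κ : ℂ) (v : ℂ × ℂ) :
    jac (fun v => κ • F v) v = κ ^ 2 * jac F v := by
  have h : fderiv ℂ (fun v => κ • F v) v = κ • fderiv ℂ F v :=
    ((hF v).hasFDerivAt.const_smul κ).fderiv
  unfold jac
  rw [h]
  simp only [wd, _root_.smul_apply, Prod.smul_fst, Prod.smul_snd, smul_eq_mul]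
  ring

theorem jac_cp (hB : Basics) (h_lf : S_lf) (h_lfcp : S_lfcp) (f g : RatFunc ℂ) (hg : 1 ≤ dg g) :
    ∃ c : ℂ, c ≠ 0 ∧ ∀ v, jac (lf (cp f g)) v = c * (jac (lf f) (lf g v) * jac (lf g) v) := by
  obtain ⟨c, hc, h⟩ := h_lfcp f g hg
  refine ⟨c^2, pow_ne_zero 2 hc, fun v => ?_⟩
  have h1 : lf (cp f g) = fun v => c • (fun v => lf f (lf g v)) v := funext h
  have hd : Differentiable ℂ (fun v => lf f (lf g v)) :=
    (hB.diff (h_lf f)).comp (hB.diff (h_lf g))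
  rw [h1, jac_smul hd, hB.jac_comp (hB.diff (h_lf f)) (hB.diff (h_lf g))]

theorem bf_one {n : ℕ} {p : ℂ[X]} (hp : p.natDegree ≤ n) (t : ℂ) : bf n p (t, 1) = p.eval t := by
  unfold bf
  rw [Polynomial.eval_eq_sum_range' (Nat.lt_succ_of_le hp)]
  apply Finset.sum_congr rfl
  intro i _
  simp

theorem lf_one (W : RatFunc ℂ) (t : ℂ) : lf W (t, 1) = (W.num.eval t, W.denom.eval t) := by
  unfold lf
  have h1 : W.num.natDegree ≤ dg W := le_max_left _ _
  have h2 : W.denom.natDegree ≤ dg W := le_max_right _ _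
  rw [bf_one h1, bf_one h2]

theorem jac_eval (hB : Basics) (h_lf : S_lf) (W : RatFunc ℂ) (z : ℂ) :
    (dg W : ℂ) * (W.num * derivative W.denom - W.denom * derivative W.num).eval z =
      - jac (lf W) (z, 1) := by
  have ha : HasDerivAt (fun t : ℂ => ((t, 1) : ℂ × ℂ)) (1, 0) z :=
    (hasDerivAt_id z).prodMk (hasDerivAt_const z (1:ℂ))
  have h1 := hB.jac_curve (h_lf W) (a := fun t : ℂ => ((t, 1) : ℂ × ℂ)) (z := z)
    ha.differentiableAt
  have hb : HasDerivAt (fun t : ℂ => lf W (t, 1))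
      ((derivative W.num).eval z, (derivative W.denom).eval z) z := by
    have e : (fun t : ℂ => lf W (t, 1)) = fun t => (W.num.eval t, W.denom.eval t) :=
      funext (lf_one W)
    rw [e]
    exact (W.num.hasDerivAt z).prodMk (W.denom.hasDerivAt z)
  rw [ha.deriv, hb.deriv] at h1
  simp only [lf_one, wd] at h1
  rw [eval_sub, eval_mul, eval_mul]
  simp only [mul_zero, mul_one, zero_sub, one_mul] at h1
  rw [h1]
  ring

theorem J_ne (hB : Basics) (h_lf : S_lf) (W : RatFunc ℂ) (hW : 1 ≤ dg W) :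
    (W.num * derivative W.denom - W.denom * derivative W.num) ≠ 0 := by
  intro h0
  obtain ⟨C, hC0, hC⟩ := hB.crit_fin (h_lf W) hW
  have h1 : ∀ z : ℂ, ∃ c ∈ C, wd (z, 1) c = 0 := by
    intro z
    apply hC _ (prod_one_ne z)
    have h2 := jac_eval hB h_lf W z
    rw [h0, eval_zero, mul_zero] at h2
    exact neg_eq_zero.1 h2.symm
  choose f hf1 hf2 using h1
  let g : ℂ → C := fun z => ⟨f z, hf1 z⟩
  obtain ⟨x, y, hxy, hg⟩ := Finite.exists_ne_map_eq_of_infinite g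
  have hfe : f x = f y := congrArg Subtype.val hg
  have h3 : wd (x, 1) (y, 1) = 0 := by
    apply wd_trans (hC0 _ (hf1 x)) (hf2 x)
    rw [hfe]
    exact wd_symm (hf2 y)
  apply hxy
  simp only [wd] at h3
  linear_combination h3

theorem crit_count (hB : Basics) (h_lf : S_lf) (W : RatFunc ℂ) (hW : 1 ≤ dg W) (s : Finset ℂ)
    (hs : ∀ z ∈ s, jac (lf W) (z, 1) = 0) : s.card ≤ 2 * dg W - 1 := by
  classical
  set J : ℂ[X] := W.num * derivative W.denom - W.denom * derivative W.num with hJ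
  have hJ0 : J ≠ 0 := J_ne hB h_lf W hW
  have hsub : s ⊆ J.roots.toFinset := by
    intro z hz
    rw [Multiset.mem_toFinset, mem_roots hJ0, IsRoot.def]
    have h1 := jac_eval hB h_lf W z
    rw [hs z hz, neg_zero, ← hJ] at h1
    have h2 : (dg W : ℂ) ≠ 0 := by
      have : dg W ≠ 0 := by omega
      exact_mod_cast this
    exact (mul_eq_zero.1 h1).resolve_left h2
  have h1 : W.num.natDegree ≤ dg W := le_max_left _ _
  have h2 : W.denom.natDegree ≤ dg W := le_max_right _ _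
  have hdeg : J.natDegree ≤ 2 * dg W - 1 := by
    rw [hJ]
    refine (natDegree_sub_le _ _).trans (max_le ?_ ?_)
    · refine natDegree_mul_le.trans ?_
      have := natDegree_derivative_le W.denom
      omega
    · refine natDegree_mul_le.trans ?_
      have := natDegree_derivative_le W.num
      omega
  calc s.card ≤ J.roots.toFinset.card := Finset.card_le_card hsub
    _ ≤ Multiset.card J.roots := Multiset.toFinset_card_le _
    _ ≤ J.natDegree := J.card_roots'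
    _ ≤ _ := hdeg

theorem dir_count (hB : Basics) (h_lf : S_lf) (W : RatFunc ℂ) (hW : 1 ≤ dg W) (y : ℂ × ℂ)
    (hy : y ≠ 0) (s : Finset ℂ) (hs : ∀ z ∈ s, wd (lf W (z, 1)) y = 0) : s.card ≤ dg W := by
  classical
  obtain ⟨c, hc, ζ, hζ, hprod⟩ := hB.factor (h_lf W) hW hy
  have hsub : s ⊆ Finset.univ.image (fun i => (ζ i).1 / (ζ i).2) := by
    intro z hz
    have h1 := hs z hz
    rw [hprod] at h1
    have h2 := (mul_eq_zero.1 h1).resolve_left hc
    rw [Finset.prod_eq_zero_iff] at h2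
    obtain ⟨i, _, hi⟩ := h2
    rw [Finset.mem_image]
    refine ⟨i, Finset.mem_univ i, ?_⟩
    simp only [wd, one_mul] at hi
    have h3 : (ζ i).2 ≠ 0 := by
      intro h4
      rw [h4, mul_zero, zero_sub, neg_eq_zero] at hi
      have h5 := hζ i
      have h6 : ζ i = 0 := Prod.ext hi h4
      rw [h6, norm_zero] at h5
      exact zero_ne_one h5
    rw [div_eq_iff h3]
    linear_combination -hi
  refine (Finset.card_le_card hsub).trans (Finset.card_image_le.trans ?_)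
  rw [Finset.card_univ, Fintype.card_fin]

theorem lf_X (h : S_GFX) (v : ℂ × ℂ) : lf RatFunc.X v = v := by
  unfold lf
  rw [h.1, RatFunc.num_X, RatFunc.denom_X]
  unfold bf
  apply Prod.ext
  · simp [Finset.sum_range_succ, coeff_X]
  · simp [Finset.sum_range_succ, coeff_one]

theorem dg_it (h_dgcp : S_dgcp) (h : S_GFX) (A : RatFunc ℂ) (hA : 1 ≤ dg A) (m : ℕ) :
    1 ≤ dg (it A m) := by
  induction m with
  | zero =>
    unfold it
    rw [Function.iterate_zero, id, h.1]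
  | succ m ih =>
    have : it A (m + 1) = cp A (it A m) := by
      unfold it
      rw [Function.iterate_succ_apply']
    rw [this, h_dgcp A _ ih]
    exact Nat.mul_pos hA ih

theorem it_succ (A : RatFunc ℂ) (m : ℕ) : it A (m + 1) = cp A (it A m) := by
  unfold it
  rw [Function.iterate_succ_apply']

theorem lf_it (hB : Basics) (h_lf : S_lf) (h_dgcp : S_dgcp) (h_lfcp : S_lfcp) (h : S_GFX)
    (A : RatFunc ℂ) (hA : 1 ≤ dg A) (m : ℕ) :
    ∃ κ : ℂ, κ ≠ 0 ∧ ∀ v, lf (it A m) v = κ • (lf A)^[m] v := by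
  induction m with
  | zero =>
    refine ⟨1, one_ne_zero, fun v => ?_⟩
    have : it A 0 = RatFunc.X := rfl
    rw [this, lf_X h, one_smul, Function.iterate_zero, id]
  | succ m ih =>
    obtain ⟨κ, hκ, hm⟩ := ih
    obtain ⟨c, hc, h1⟩ := h_lfcp A (it A m) (dg_it h_dgcp h A hA m)
    refine ⟨c * κ ^ dg A, mul_ne_zero hc (pow_ne_zero _ hκ), fun v => ?_⟩
    rw [it_succ, h1, hm, hB.smul (h_lf A), smul_smul, Function.iterate_succ_apply']

theorem it_add (h_dgcp : S_dgcp) (h_assoc : S_assoc) (h_idl : S_idl) (h : S_GFX)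
    (A : RatFunc ℂ) (hA : 1 ≤ dg A) (k i : ℕ) : it A (k + i) = cp (it A k) (it A i) := by
  induction k with
  | zero =>
    have : it A 0 = RatFunc.X := rfl
    rw [this, h_idl, zero_add]
  | succ k ih =>
    rw [Nat.succ_add, it_succ, it_succ, ih,
      h_assoc A (it A k) (it A i) (dg_it h_dgcp h A hA k) (dg_it h_dgcp h A hA i)]

theorem main (hBasics : Basics) (h_lf : S_lf) (h_dgcp : S_dgcp) (h_lfcp : S_lfcp) (h_powcrit : S_powcrit) (h_alg : S_cancel ∧ S_assoc ∧ S_idr ∧ S_idl ∧ S_GFX) :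
    S_critpow := by
  classical
  obtain ⟨h_cancel, h_assoc, h_idr, h_idl, h_GFX⟩ := h_alg
  intro A Y T V U W W' E D i k hA hPow hY hT hV hU hW hW' hE hWD e1 e2 e3 hs
  obtain ⟨s, hscard, hsj⟩ := hs
  have hB := hBasics
  -- step 1
  obtain ⟨c, hc, hTW⟩ := jac_cp hB h_lf h_lfcp T W hW
  obtain ⟨c', hc', hWY⟩ := jac_cp hB h_lf h_lfcp W' Y hY
  have hzero : ∀ z ∈ s, jac (lf T) (lf W (z, 1)) * jac (lf W) (z, 1) = 0 := by
    intro z hz
    have h1 := hTW (z, 1)
    rw [e3, hWY, hsj z hz, mul_zero, mul_zero] at h1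
    exact (mul_eq_zero.1 h1.symm).resolve_left hc
  -- step 2, 3
  have hcard1 : (s.filter (fun z => jac (lf W) (z, 1) = 0)).card ≤ 2 * dg W - 1 :=
    crit_count hB h_lf W hW _ (fun z hz => (Finset.mem_filter.1 hz).2)
  have hcard2 := Finset.card_filter_add_card_filter_not (s := s) (fun z => jac (lf W) (z, 1) = 0)
  set s' := s.filter (fun z => ¬ jac (lf W) (z, 1) = 0) with hs'
  have hs'T : ∀ z ∈ s', jac (lf T) (lf W (z, 1)) = 0 := by
    intro z hz
    rw [hs', Finset.mem_filter] at hz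
    exact (mul_eq_zero.1 (hzero z hz.1)).resolve_right hz.2
  have hs'card : 3 * D + 2 ≤ s'.card := by omega
  have hWne : ∀ z : ℂ, lf W (z, 1) ≠ 0 := fun z => (h_lf W).2 _ (prod_one_ne z)
  -- removing directions
  have hrem : ∀ (z₀ : ℂ) (t : Finset ℂ),
      t.card ≤ (t.filter (fun z => ¬ wd (lf W (z, 1)) (lf W (z₀, 1)) = 0)).card + D := by
    intro z₀ t
    have h1 : (t.filter (fun z => wd (lf W (z, 1)) (lf W (z₀, 1)) = 0)).card ≤ dg W :=
      dir_count hB h_lf W hW _ (hWne z₀) _ (fun z hz => (Finset.mem_filter.1 hz).2)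
    have h2 := Finset.card_filter_add_card_filter_not (s := t)
      (fun z => wd (lf W (z, 1)) (lf W (z₀, 1)) = 0)
    omega
  obtain ⟨z₁, hz₁⟩ : s'.Nonempty := Finset.card_pos.1 (by omega)
  have hr1 := hrem z₁ s'
  set s₂ := s'.filter (fun z => ¬ wd (lf W (z, 1)) (lf W (z₁, 1)) = 0) with hs₂
  obtain ⟨z₂, hz₂⟩ : s₂.Nonempty := Finset.card_pos.1 (by omega)
  have hr2 := hrem z₂ s₂
  set s₃ := s₂.filter (fun z => ¬ wd (lf W (z, 1)) (lf W (z₂, 1)) = 0) with hs₃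
  obtain ⟨z₃, hz₃⟩ : s₃.Nonempty := Finset.card_pos.1 (by omega)
  rw [hs₃, Finset.mem_filter] at hz₃
  have hz₃' := hz₃.1
  rw [hs₂, Finset.mem_filter] at hz₂ hz₃'
  have hw21 : wd (lf W (z₂, 1)) (lf W (z₁, 1)) ≠ 0 := hz₂.2
  have hw31 : wd (lf W (z₃, 1)) (lf W (z₁, 1)) ≠ 0 := hz₃'.2
  have hw32 : wd (lf W (z₃, 1)) (lf W (z₂, 1)) ≠ 0 := hz₃.2
  have hj1 := hs'T z₁ hz₁
  have hj2 := hs'T z₂ hz₂.1
  have hj3 := hs'T z₃ hz₃'.1
  -- step 5
  have hIdg : 1 ≤ dg (it A i) := dg_it h_dgcp h_GFX A (by omega) i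
  have hUI : 1 ≤ dg (cp U (it A i)) := by
    rw [h_dgcp U _ hIdg]
    exact Nat.mul_pos hU hIdg
  obtain ⟨c1, hc1, hTV⟩ := jac_cp hB h_lf h_lfcp T V hV
  obtain ⟨c3, hc3, hEU⟩ := jac_cp hB h_lf h_lfcp E (cp U (it A i)) hUI
  obtain ⟨κ, hκ, hit⟩ := lf_it hB h_lf h_dgcp h_lfcp h_GFX A (by omega) (k + i)
  have hEq : it A (k + i) = cp E (cp U (it A i)) := by
    rw [it_add h_dgcp h_assoc h_idl h_GFX A (by omega) k i, ← e2,
      h_assoc E U (it A i) hU hIdg]
  have hV0 : lf V 0 = 0 := by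
    have h1 := hB.smul (h_lf V) 0 0
    rw [zero_smul, zero_pow (by omega), zero_smul] at h1
    exact h1
  have key : ∀ t : ℂ × ℂ, t ≠ 0 → jac (lf T) t = 0 →
      ∃ v, v ≠ 0 ∧ lf V v = t ∧ jac ((lf A)^[k + i]) v = 0 := by
    intro t ht hjt
    obtain ⟨v, hv⟩ := hB.surj (h_lf V) hV t
    refine ⟨v, ?_, hv, ?_⟩
    · intro h0
      rw [h0, hV0] at hv
      exact ht hv.symm
    · have h1 : jac (lf (cp T V)) v = 0 := by
        rw [hTV, hv, hjt, zero_mul, mul_zero]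
      have h2 : jac (lf (it A (k + i))) v = 0 := by
        rw [hEq, hEU, ← e1, h1, mul_zero, mul_zero]
      have h3 : lf (it A (k + i)) = fun v => κ • (lf A)^[k + i] v := funext hit
      rw [h3, jac_smul (hB.diff (hB.iter (h_lf A) (k + i)))] at h2
      exact (mul_eq_zero.1 h2).resolve_left (pow_ne_zero 2 hκ)
  have hprop : ∀ v w : ℂ × ℂ, v ≠ 0 → wd v w = 0 → wd (lf V v) (lf V w) = 0 := by
    intro v w hv h
    obtain ⟨a, rfl⟩ := exists_smul_of_wd hv h
    rw [hB.smul (h_lf V), wd_smul_right, wd_self, mul_zero]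
  obtain ⟨v₁, hv1, hv1', hv1j⟩ := key _ (hWne z₁) hj1
  obtain ⟨v₂, hv2, hv2', hv2j⟩ := key _ (hWne z₂) hj2
  obtain ⟨v₃, hv3, hv3', hv3j⟩ := key _ (hWne z₃) hj3
  have hn21 : wd v₂ v₁ ≠ 0 := fun h => hw21 (by
    have := hprop v₂ v₁ hv2 h
    rwa [hv2', hv1'] at this)
  have hn31 : wd v₃ v₁ ≠ 0 := fun h => hw31 (by
    have := hprop v₃ v₁ hv3 h
    rwa [hv3', hv1'] at this)
  have hn32 : wd v₃ v₂ ≠ 0 := fun h => hw32 (by
    have := hprop v₃ v₂ hv3 h
    rwa [hv3', hv2'] at this)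
  obtain ⟨C, hC2, hC0, hC⟩ := h_powcrit (dg A) (lf A) (h_lf A) hA hPow
  obtain ⟨a1, ha1, hb1⟩ := hC _ v₁ hv1 hv1j
  obtain ⟨a2, ha2, hb2⟩ := hC _ v₂ hv2 hv2j
  obtain ⟨a3, ha3, hb3⟩ := hC _ v₃ hv3 hv3j
  have hne21 : a2 ≠ a1 := by
    rintro rfl
    exact hn21 (wd_trans (hC0 _ ha1) hb2 (wd_symm hb1))
  have hne31 : a3 ≠ a1 := by
    rintro rfl
    exact hn31 (wd_trans (hC0 _ ha1) hb3 (wd_symm hb1))
  have hne32 : a3 ≠ a2 := by
    rintro rfl
    exact hn32 (wd_trans (hC0 _ ha2) hb3 (wd_symm hb2))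
  have hsub : ({a3, a2, a1} : Finset (ℂ × ℂ)) ⊆ C := by
    intro x hx
    simp only [Finset.mem_insert, Finset.mem_singleton] at hx
    rcases hx with rfl | rfl | rfl <;> assumption
  have h3 : ({a3, a2, a1} : Finset (ℂ × ℂ)).card = 3 := by
    rw [Finset.card_eq_three]
    exact ⟨a3, a2, a1, hne32, hne31, hne21, rfl⟩
  have := Finset.card_le_card hsub
  omega

end J_critpow

end Pool.Agent.Lev
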