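import Pool.Agent.Lev.Stm5

set_option autoImplicit false

open Polynomial Metric Set Filter Topology

namespace Pool.Agent.Lev

namespace J_dir

theorem main (hBasics : Basics) :
    S_dir := by
  intro e H hH he c r t g hr hg hg0 hw hne
  rcases Nat.eq_zero_or_pos t with ht | ht
  · rw [ht]; exact Nat.zero_le _
  have hc : c ∈ ball c r := mem_ball_self hr
  have key : ∀ p : Fin t × Fin t, ∀ᶠ x in 𝓝[≠] c, p.1 ≠ p.2 → wd (g p.1 x) (g p.2 x) ≠ 0 := by
    rintro ⟨i, j⟩
    by_cases hij : i = j
    · exact Filter.Eventually.of_forall (fun x h => absurd hij h)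
    have hd : DifferentiableOn ℂ (fun x => wd (g i x) (g j x)) (ball c r) := by
      have h1 := (hg i).fst
      have h2 := (hg i).snd
      have h3 := (hg j).fst
      have h4 := (hg j).snd
      exact (h1.mul h4).sub (h2.mul h3)
    have ha : AnalyticOnNhd ℂ (fun x => wd (g i x) (g j x)) (ball c r) :=
      hd.analyticOnNhd isOpen_ball
    have h5 : ¬ ∃ᶠ x in 𝓝[≠] c, wd (g i x) (g j x) = 0 := by
      intro hf
      have h6 := ha.eqOn_zero_of_preconnected_of_frequently_eq_zero
        (convex_ball c r).isPreconnected hc hf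
      obtain ⟨x, hx, hx'⟩ := hne i j hij
      exact hx' (h6 hx)
    rw [Filter.not_frequently] at h5
    exact h5.mono (fun x hx _ => hx)
  have key2 := (Filter.eventually_all.2 key).and
    (mem_nhdsWithin_of_mem_nhds (isOpen_ball.mem_nhds hc) : ball c r ∈ 𝓝[≠] c)
  obtain ⟨x, hx1, hx2⟩ := key2.exists
  let i0 : Fin t := ⟨0, ht⟩
  have hy : H (g i0 x) ≠ 0 := hH.2 _ (hg0 i0 x hx2)
  obtain ⟨c₀, hc₀, ζ, hζ, hfac⟩ := hBasics.factor hH he hy
  have hl : ∀ i : Fin t, ∃ l : Fin e, wd (g i x) (ζ l) = 0 := by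
    intro i
    have h1 := hfac (g i x)
    rw [hw i i0 x hx2] at h1
    have h2 : ∏ l, wd (g i x) (ζ l) = 0 := by
      rcases mul_eq_zero.1 h1.symm with h | h
      · exact absurd h hc₀
      · exact h
    obtain ⟨l, _, hl⟩ := Finset.prod_eq_zero_iff.1 h2
    exact ⟨l, hl⟩
  choose l hl using hl
  have hinj : Function.Injective l := by
    intro i j hij
    by_contra hne'
    apply hx1 (i, j) hne'
    have hz : ζ (l i) ≠ 0 := by
      intro h0
      have := hζ (l i)
      rw [h0, norm_zero] at this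
      exact zero_ne_one this
    have h1 : wd (ζ (l i)) (g j x) = 0 := by
      rw [hij]; exact wd_symm (hl j)
    exact wd_trans hz (hl i) h1
  have := Fintype.card_le_of_injective l hinj
  simpa using this

end J_dir

end Pool.Agent.Lev
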