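import Pool.Agent.Lev.Stm5

set_option autoImplicit false

open Polynomial Metric Set Filter Topology

namespace Pool.Agent.Lev

namespace J_ell0

theorem ellP (L : PeriodPair) : Ell L.ω₁ L.ω₂ (PeriodPair.weierstrassP L) := by
  refine ⟨L.indep, fun z _ => L.meromorphic_weierstrassP z, ?_, ?_, ?_⟩
  · intro z
    exact L.weierstrassP_add_coe z ⟨L.ω₁, L.ω₁_mem_lattice⟩
  · intro z
    exact L.weierstrassP_add_coe z ⟨L.ω₂, L.ω₂_mem_lattice⟩
  · rintro ⟨c, hc⟩
    have h1 : ∀ᶠ z in 𝓝[≠] (0 : ℂ), PeriodPair.weierstrassP L z = c := by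
      have h0 := mem_codiscrete.1 hc 0
      rw [disjoint_principal_right, compl_compl] at h0
      exact h0
    have h2 := meromorphicOrderAt_congr h1
    classical
    rw [L.order_weierstrassP 0 L.lattice.zero_mem, meromorphicOrderAt_const] at h2
    split_ifs at h2
    · exact absurd h2 (by exact WithTop.coe_ne_top (a := (-2 : ℤ)))
    · have h3 : (-2 : ℤ) = 0 := WithTop.coe_injective h2
      norm_num at h3

theorem main (h_evEll : S_evEll) (h_dgcp : S_dgcp) :
    S_ell0 := by
  rintro F G (⟨f, g, hf, hg, hfg⟩ | h)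
  · let L : PeriodPair := ⟨1, Complex.I, by
      have := Complex.basisOneI.linearIndependent
      rw [Complex.coe_basisOneI] at this
      exact this⟩
    have hE := ellP L
    obtain ⟨h1, h1'⟩ := h_evEll _ _ _ f hE hf
    obtain ⟨h2, h2'⟩ := h_evEll _ _ _ g hE hg
    refine ⟨_, _, _, _, h1, h2, ?_⟩
    filter_upwards [h1' F, h2' G] with z hz1 hz2
    rw [hz1, hz2, hfg]
  · exact h

end J_ell0

end Pool.Agent.Lev
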