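import Pool.Agent.Lev.Stm5

set_option autoImplicit false

open Polynomial Metric Set Filter Topology

namespace Pool.Agent.Lev

namespace J_end

theorem it_succ' (A : RatFunc ℂ) (n : ℕ) : it A (n + 1) = cp A (it A n) := by
  unfold it
  rw [Function.iterate_succ_apply']

theorem it_dg (h_dgcp : S_dgcp) (hX : dg RatFunc.X = 1) {A : RatFunc ℂ} (hA : 1 ≤ dg A) (n : ℕ) :
    dg (it A n) = dg A ^ n := by
  induction n with
  | zero => exact hX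
  | succ n ih =>
    have h1 : 1 ≤ dg (it A n) := by
      rw [ih]
      exact Nat.one_le_pow _ _ (by omega)
    rw [it_succ', h_dgcp A (it A n) h1, ih, pow_succ, mul_comm]

theorem it_dg1 (h_dgcp : S_dgcp) (hX : dg RatFunc.X = 1) {A : RatFunc ℂ} (hA : 1 ≤ dg A) (n : ℕ) :
    1 ≤ dg (it A n) := by
  rw [it_dg h_dgcp hX hA]
  exact Nat.one_le_pow _ _ (by omega)

theorem it_add (h_dgcp : S_dgcp) (hX : dg RatFunc.X = 1) (hassoc : S_assoc) (hidl : S_idl)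
    {A : RatFunc ℂ} (hA : 1 ≤ dg A) (n k : ℕ) : it A (n + k) = cp (it A n) (it A k) := by
  induction n with
  | zero =>
    rw [Nat.zero_add]
    exact (hidl _).symm
  | succ n ih =>
    have h1 : n + 1 + k = (n + k) + 1 := by ring
    rw [h1, it_succ', ih, it_succ', hassoc A _ _ (it_dg1 h_dgcp hX hA n) (it_dg1 h_dgcp hX hA k)]

theorem lf_X' (hX : dg RatFunc.X = 1) (v : ℂ × ℂ) : lf RatFunc.X v = v := by
  unfold lf
  rw [hX, RatFunc.num_X, RatFunc.denom_X]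
  unfold bf
  ext
  · simp [Finset.sum_range_succ, Polynomial.coeff_X]
  · simp [Finset.sum_range_succ, Polynomial.coeff_one]

theorem lf_it (hBasics : Basics) (h_lf : S_lf) (h_dgcp : S_dgcp) (h_lfcp : S_lfcp)
    (hX : dg RatFunc.X = 1) {A : RatFunc ℂ} (hA : 1 ≤ dg A) (n : ℕ) :
    ∃ κ : ℂ, κ ≠ 0 ∧ ∀ v, lf (it A n) v = κ • (lf A)^[n] v := by
  induction n with
  | zero =>
    refine ⟨1, one_ne_zero, fun v => ?_⟩
    rw [one_smul]
    exact lf_X' hX v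
  | succ n ih =>
    obtain ⟨κ, hκ, h⟩ := ih
    obtain ⟨c, hc, h'⟩ := h_lfcp A (it A n) (it_dg1 h_dgcp hX hA n)
    refine ⟨c * κ ^ dg A, mul_ne_zero hc (pow_ne_zero _ hκ), fun v => ?_⟩
    rw [it_succ', h' v, h v, hBasics.smul (h_lf A), smul_smul, Function.iterate_succ_apply']

theorem jac_smul' {F : ℂ × ℂ → ℂ × ℂ} (hF : Differentiable ℂ F) (κ : ℂ) (v : ℂ × ℂ) :
    jac (fun v => κ • F v) v = κ ^ 2 * jac F v := by
  unfold jac
  have h1 : fderiv ℂ (fun v => κ • F v) v = κ • fderiv ℂ F v := fderiv_fun_const_smul (hF v) κ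
  rw [h1]
  show wd (κ • fderiv ℂ F v (1, 0)) (κ • fderiv ℂ F v (0, 1)) = _
  rw [wd_smul_left, wd_smul_right]
  ring

theorem jac_it (hBasics : Basics) (h_lf : S_lf) (h_dgcp : S_dgcp) (h_lfcp : S_lfcp)
    (hX : dg RatFunc.X = 1) {A : RatFunc ℂ} (hA : 1 ≤ dg A) (n : ℕ) (v : ℂ × ℂ)
    (h : jac ((lf A)^[n]) v = 0) : jac (lf (it A n)) v = 0 := by
  obtain ⟨κ, hκ, hk⟩ := lf_it hBasics h_lf h_dgcp h_lfcp hX hA n
  have h1 : lf (it A n) = fun v => κ • (lf A)^[n] v := funext hk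
  rw [h1, jac_smul' (hBasics.diff (hBasics.iter (h_lf A) n)), h, mul_zero]

/-- the data attached to a system at a level -/
theorem level (h_dgcp : S_dgcp) (hX : dg RatFunc.X = 1) (hidl : S_idl)
    {A B : RatFunc ℂ} (hA : 2 ≤ dg A) (hB : 2 ≤ dg B) {n : ℕ → ℕ}
    (hn : ∀ m, Lvl (dg A) (dg B) (n m) m) {D₀ : ℕ} (gen : Set (RatFunc ℂ) → RatFunc ℂ)
    (hgen : ∀ K, IsFld K → (∃ f ∈ K, 1 ≤ dg f) →
      1 ≤ dg (gen K) ∧ ∀ U, U ∈ K ↔ ∃ T, U = cp T (gen K))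
    {𝔽 : Set (Set (RatFunc ℂ))} (hD : ∀ K ∈ 𝔽, dg (gen K) ≤ D₀)
    {M : ℕ} {R : ℕ → RatFunc ℂ → RatFunc ℂ → Prop} (hR : Sys A B n M R)
    (hRF : ∀ m ≤ M, {W | ∃ V, R m V W} ∈ 𝔽) (m : ℕ) (hm : m ≤ M) :
    ∃ V E, 1 ≤ dg (gen {W | ∃ V, R m V W}) ∧ dg (gen {W | ∃ V, R m V W}) ≤ D₀ ∧ 1 ≤ dg V ∧
      dg V ≤ dg A * D₀ ∧ R m V (gen {W | ∃ V, R m V W}) ∧ 1 ≤ dg E ∧
      it B m = cp E (gen {W | ∃ V, R m V W}) ∧ cp E V = it A (n m) ∧
      (∀ U, (∃ V, R m V U) ↔ ∃ T, U = cp T (gen {W | ∃ V, R m V W})) := by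
  have hb1 : 1 ≤ dg (it B m) := it_dg1 h_dgcp hX (by omega) m
  have hbase := hR.base m hm
  have hne : ∃ f ∈ {W | ∃ V, R m V W}, 1 ≤ dg f := ⟨it B m, ⟨_, hbase⟩, hb1⟩
  obtain ⟨hg1, hg2⟩ := hgen _ (hR.fld m hm) hne
  have hgD := hD _ (hRF m hm)
  generalize gen {W | ∃ V, R m V W} = W at *
  have hg2' : ∀ U, (∃ V, R m V U) ↔ ∃ T, U = cp T W := fun U => hg2 U
  obtain ⟨V, hV⟩ : ∃ V, R m V W := (hg2' W).2 ⟨RatFunc.X, (hidl W).symm⟩
  obtain ⟨E, hE⟩ := (hg2' (it B m)).1 ⟨_, hbase⟩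
  have hV1 : 1 ≤ dg V := (hR.nc m hm V W hV).2 hg1
  have hdE : dg E * dg W = dg B ^ m := by
    rw [← h_dgcp E W hg1, ← hE, it_dg h_dgcp hX (by omega)]
  have hE1 : 1 ≤ dg E := by
    rcases Nat.eq_zero_or_pos (dg E) with h | h
    · rw [h, zero_mul] at hdE
      have : 0 < dg B ^ m := Nat.pow_pos (by omega)
      omega
    · exact h
  have hcomp := hR.comp m hm V W E hV hg1
  rw [← hE] at hcomp
  have hEV : cp E V = it A (n m) := hR.uniq m hm _ _ _ hcomp hbase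
  have hdV : dg E * dg V = dg A ^ n m := by
    rw [← h_dgcp E V hV1, hEV, it_dg h_dgcp hX (by omega)]
  refine ⟨V, E, hg1, hgD, hV1, ?_, hV, hE1, hE, hEV, hg2'⟩
  have h2 := (hn m).2
  rw [← hdV, ← hdE] at h2
  have h3 : dg E * dg V ≤ dg E * (dg A * dg W) := by
    calc dg E * dg V ≤ dg A * (dg E * dg W) := h2
      _ = _ := by ring
  have h4 := Nat.le_of_mul_le_mul_left h3 (by omega)
  exact h4.trans (Nat.mul_le_mul_left _ hgD)

theorem main (hBasics : Basics) (h_lf : S_lf) (h_dgcp : S_dgcp) (h_lfcp : S_lfcp) (h_alg : S_cancel ∧ S_assoc ∧ S_idr ∧ S_idl ∧ S_GFX) (h_lur : S_lur) (h_critgrow : S_critgrow) (h_critfin : S_critfin) (h_critpow : S_critpow) :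
    S_end := by
  classical
  obtain ⟨hcancel, hassoc, hidr, hidl, hX, -⟩ := h_alg
  intro A B hA hB hBP n hmono hn 𝔽 hFfin hsys
  have hA1 : 1 ≤ dg A := by omega
  have hB1 : 1 ≤ dg B := by omega
  -- generators
  obtain ⟨gen, hgen⟩ : ∃ gen : Set (RatFunc ℂ) → RatFunc ℂ, ∀ K, IsFld K → (∃ f ∈ K, 1 ≤ dg f) →
      1 ≤ dg (gen K) ∧ ∀ U, U ∈ K ↔ ∃ T, U = cp T (gen K) := by
    refine ⟨fun K => if h : IsFld K ∧ ∃ f ∈ K, 1 ≤ dg f then
      Classical.choose (h_lur K h.1 h.2) else RatFunc.X, fun K hK1 hK2 => ?_⟩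
    have h : IsFld K ∧ ∃ f ∈ K, 1 ≤ dg f := ⟨hK1, hK2⟩
    simp only [dif_pos h]
    exact Classical.choose_spec (h_lur K h.1 h.2)
  obtain ⟨D₀, hD₀⟩ : ∃ D₀, ∀ K ∈ 𝔽, dg (gen K) ≤ D₀ := by
    obtain ⟨D₀, h⟩ := (hFfin.image fun K => dg (gen K)).bddAbove
    exact ⟨D₀, fun K hK => h ⟨K, hK, rfl⟩⟩
  set D := dg A * D₀ with hDdef
  have hD0D : D₀ ≤ D := Nat.le_mul_of_pos_left D₀ (by omega)
  -- shift
  have shift : ∀ (M : ℕ) (R : ℕ → RatFunc ℂ → RatFunc ℂ → Prop), Sys A B n M R →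
      (∀ m ≤ M, {W | ∃ V, R m V W} ∈ 𝔽) → ∀ m j, m + j ≤ M → ∀ V V',
      R m V (gen {W | ∃ V, R m V W}) → R (m + j) V' (gen {W | ∃ V, R (m + j) V W}) →
      ∃ T, 1 ≤ dg T ∧ cp (gen {W | ∃ V, R m V W}) (it B j) =
        cp T (gen {W | ∃ V, R (m + j) V W}) ∧ cp V (it A (n (m + j) - n m)) = cp T V' := by
    intro M R hR hRF m j hmj V V' hV hV'
    obtain ⟨-, -, a1, -, -, -, -, -, -, -, -⟩ :=
      level h_dgcp hX hidl hA hB hn gen hgen hD₀ hR hRF m (by omega)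
    obtain ⟨-, -, b1, -, -, -, -, -, -, -, b9⟩ :=
      level h_dgcp hX hidl hA hB hn gen hgen hD₀ hR hRF (m + j) hmj
    have hs := hR.shift m j hmj V _ hV a1
    obtain ⟨T, hT⟩ := (b9 _).1 ⟨_, hs⟩
    have hc := hR.comp (m + j) hmj V' _ T hV' b1
    rw [← hT] at hc
    refine ⟨T, ?_, hT, hR.uniq _ hmj _ _ _ hs hc⟩
    have h1 : dg (gen {W | ∃ V, R m V W}) * dg (it B j) =
        dg T * dg (gen {W | ∃ V, R (m + j) V W}) := by
      rw [← h_dgcp _ _ (it_dg1 h_dgcp hX hB1 j), hT, h_dgcp _ _ b1]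
    rcases Nat.eq_zero_or_pos (dg T) with h | h
    · rw [h, zero_mul] at h1
      have h2 : 0 < dg (gen {W | ∃ V, R m V W}) * dg (it B j) :=
        Nat.mul_pos (by omega) (it_dg1 h_dgcp hX hB1 j)
      omega
    · exact h
  by_cases hP : PowL (dg A) (lf A)
  · -- Case 2
    exfalso
    obtain ⟨j, hj⟩ := h_critgrow (dg B) (lf B) (h_lf B) hB hBP (5 * D + 1)
    obtain ⟨s, hs1, hs2⟩ := hj j le_rfl
    obtain ⟨R, hR, hRF⟩ := hsys j
    obtain ⟨V0, E0, a1, a2, a3, a4, a5, a6, a7, a8, a9⟩ :=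
      level h_dgcp hX hidl hA hB hn gen hgen hD₀ hR hRF 0 (by omega)
    obtain ⟨Vj, Ej, b1, b2, b3, b4, b5, b6, b7, b8, b9⟩ :=
      level h_dgcp hX hidl hA hB hn gen hgen hD₀ hR hRF j le_rfl
    have hsh := shift j R hR hRF 0 j (by omega) V0
    simp only [Nat.zero_add] at hsh
    obtain ⟨T, hT1, hT2, hT3⟩ := hsh Vj a5 b5
    exact h_critpow A (it B j) T Vj V0 _ _ E0 D (n j - n 0) (n 0) hA hP
      (it_dg1 h_dgcp hX hB1 j) hT1 b3 a3 b1 a1 a6 (b2.trans hD0D) hT3.symm a8 hT2.symm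
      ⟨s, hs1, fun z hz => jac_it hBasics h_lf h_dgcp h_lfcp hX hB1 j _ (hs2 z hz)⟩
  -- Case 1
  obtain ⟨i₀, hi₀⟩ := h_critgrow (dg A) (lf A) (h_lf A) hA hP (4 * D + 1)
  obtain ⟨j, hj⟩ : ∃ j, dg A * dg A ^ i₀ ≤ dg B ^ j := by
    refine ⟨dg A * dg A ^ i₀, ?_⟩
    exact (Nat.lt_pow_self (by omega)).le
  set i₁ := dg A * dg B ^ j with hi₁
  -- the levels grow in a controlled way
  have hlev : ∀ m, i₀ ≤ n (m + j) - n m ∧ n (m + j) - n m ≤ i₁ := by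
    intro m
    have hle : n m ≤ n (m + j) := hmono (Nat.le_add_right m j)
    obtain ⟨l1, l2⟩ := hn m
    obtain ⟨l3, l4⟩ := hn (m + j)
    set i := n (m + j) - n m with hi
    have hsum : n (m + j) = n m + i := by omega
    rw [hsum, pow_add] at l3 l4
    rw [pow_add] at l3 l4
    have hpos : 0 < dg A ^ n m := Nat.pow_pos (by omega)
    have hposb : 0 < dg B ^ m := Nat.pow_pos (by omega)
    constructor
    · have h1 : dg A ^ n m * dg A ^ i₀ ≤ dg A ^ n m * dg A ^ i := by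
        calc dg A ^ n m * dg A ^ i₀ ≤ (dg A * dg B ^ m) * dg A ^ i₀ := Nat.mul_le_mul_right _ l2
          _ = dg B ^ m * (dg A * dg A ^ i₀) := by ring
          _ ≤ dg B ^ m * dg B ^ j := Nat.mul_le_mul_left _ hj
          _ ≤ _ := l3
      have h2 := Nat.le_of_mul_le_mul_left h1 hpos
      exact (Nat.pow_le_pow_iff_right (by omega)).1 h2
    · have h1 : dg A ^ n m * dg A ^ i ≤ dg A ^ n m * i₁ := by
        calc dg A ^ n m * dg A ^ i ≤ dg A * (dg B ^ m * dg B ^ j) := l4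
          _ = dg B ^ m * i₁ := by rw [hi₁]; ring
          _ ≤ dg A ^ n m * i₁ := Nat.mul_le_mul_right _ l1
      have h2 := Nat.le_of_mul_le_mul_left h1 hpos
      exact ((Nat.lt_pow_self (by omega)).le).trans h2
  -- the finite set of right factors
  set 𝒱 : Set (RatFunc ℂ) := ⋃ i ∈ Set.Icc i₀ i₁, ⋃ K ∈ 𝔽, ⋃ K' ∈ 𝔽,
    ⋃ T ∈ {T : RatFunc ℂ | 1 ≤ dg T ∧ 1 ≤ dg (gen K') ∧ cp (gen K) (it B j) = cp T (gen K')},
      {V : RatFunc ℂ | 1 ≤ dg V ∧ dg V ≤ D ∧ ∃ U, 1 ≤ dg U ∧ cp U (it A i) = cp T V} with h𝒱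
  have hVfin : 𝒱.Finite := by
    refine (Set.finite_Icc i₀ i₁).biUnion fun i hi => hFfin.biUnion fun K hK =>
      hFfin.biUnion fun K' hK' => Set.Finite.biUnion ?_ fun T hT => ?_
    · refine Set.Subsingleton.finite ?_
      rintro T ⟨t1, t2, t3⟩ T' ⟨u1, u2, u3⟩
      exact hcancel T T' _ t2 (t3.symm.trans u3)
    · obtain ⟨s, hs1, hs2⟩ := hi₀ i hi.1
      exact h_critfin (it A i) T D (it_dg1 h_dgcp hX hA1 i) hT.1
        ⟨s, hs1, fun z hz => jac_it hBasics h_lf h_dgcp h_lfcp hX hA1 i _ (hs2 z hz)⟩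
  set Pf : Finset (Set (RatFunc ℂ) × RatFunc ℂ) := (hFfin.prod hVfin).toFinset with hPf
  set M := j + Pf.card with hM
  obtain ⟨R, hR, hRF⟩ := hsys M
  have hlevel : ∀ m, m ≤ M → ∃ V E, 1 ≤ dg (gen {W | ∃ V, R m V W}) ∧ dg (gen {W | ∃ V, R m V W}) ≤ D₀ ∧ 1 ≤ dg V ∧
      dg V ≤ dg A * D₀ ∧ R m V (gen {W | ∃ V, R m V W}) ∧ 1 ≤ dg E ∧
      it B m = cp E (gen {W | ∃ V, R m V W}) ∧ cp E V = it A (n m) ∧
      (∀ U, (∃ V, R m V U) ↔ ∃ T, U = cp T (gen {W | ∃ V, R m V W})) := fun m hm =>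
    level h_dgcp hX hidl hA hB hn gen hgen hD₀ hR hRF m hm
  choose! V hV using hlevel
  choose! E hE using hV
  have hVmem : ∀ m, m + j ≤ M → V (m + j) ∈ 𝒱 := by
    intro m hm
    obtain ⟨a1, a2, a3, a4, a5, a6, a7, a8, a9⟩ := hE m (by omega)
    obtain ⟨b1, b2, b3, b4, b5, b6, b7, b8, b9⟩ := hE (m + j) hm
    obtain ⟨T, hT1, hT2, hT3⟩ := shift M R hR hRF m j hm (V m) (V (m + j)) a5 b5
    rw [h𝒱]
    simp only [Set.mem_iUnion]
    exact ⟨n (m + j) - n m, hlev m, _, hRF m (by omega), _, hRF (m + j) hm, T,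
      ⟨hT1, b1, hT2⟩, b3, b4, V m, a3, hT3⟩
  have hmaps : ∀ m ∈ Finset.Icc j M, (({W | ∃ V, R m V W} : Set (RatFunc ℂ)), V m) ∈ Pf := by
    intro m hm
    rw [Finset.mem_Icc] at hm
    rw [hPf, Set.Finite.mem_toFinset]
    refine ⟨hRF m hm.2, ?_⟩
    have := hVmem (m - j) (by omega)
    rwa [Nat.sub_add_cancel hm.1] at this
  have hcard : Pf.card < (Finset.Icc j M).card := by
    rw [Nat.card_Icc]
    omega
  obtain ⟨m₁, hm₁, m₂, hm₂, hne, heq⟩ := Finset.exists_ne_map_eq_of_card_lt_of_maps_to hcard hmaps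
  rw [Finset.mem_Icc] at hm₁ hm₂
  -- conclusion
  have concl : ∀ m m', m ≤ M → m' ≤ M → m < m' →
      (({W | ∃ V, R m V W} : Set (RatFunc ℂ)), V m) = (({W | ∃ V, R m' V W} : Set (RatFunc ℂ)), V m') →
      ∃ k l : ℕ, 1 ≤ k ∧ 1 ≤ l ∧ it A k = it B l := by
    intro m m' hm hm' hlt heq
    have hK : ({W | ∃ V, R m V W} : Set (RatFunc ℂ)) = {W | ∃ V, R m' V W} := (Prod.mk.inj heq).1
    have hVV : V m = V m' := (Prod.mk.inj heq).2
    obtain ⟨a1, a2, a3, a4, a5, a6, a7, a8, a9⟩ := hE m hm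
    obtain ⟨b1, b2, b3, b4, b5, b6, b7, b8, b9⟩ := hE m' hm'
    rw [← hK, ← hVV] at b5
    rw [← hK] at b7 b1
    rw [← hVV] at b8
    have h1 := hR.comp m hm (V m) _ (E m') a5 a1
    rw [b8, ← b7] at h1
    have h2 := hR.comp m hm _ _ (it B (m' - m)) (hR.base m hm) (it_dg1 h_dgcp hX hB1 m)
    rw [← it_add h_dgcp hX hassoc hidl hB1, Nat.sub_add_cancel hlt.le] at h2
    have h3 := hR.uniq m hm _ _ _ h1 h2
    have hnle : n m ≤ n m' := hmono hlt.le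
    have h4 : it A (n m') = cp (it A (n m' - n m)) (it A (n m)) := by
      rw [← it_add h_dgcp hX hassoc hidl hA1, Nat.sub_add_cancel hnle]
    rw [h4] at h3
    have h5 := hcancel _ _ _ (it_dg1 h_dgcp hX hA1 (n m)) h3
    refine ⟨n m' - n m, m' - m, ?_, by omega, h5⟩
    by_contra hcon
    have h6 : n m' - n m = 0 := by omega
    have h7 := congrArg dg h5
    rw [it_dg h_dgcp hX hA1, it_dg h_dgcp hX hB1, h6, pow_zero] at h7
    have h8 : 2 ^ (m' - m) ≤ dg B ^ (m' - m) := Nat.pow_le_pow_left hB _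
    have h9 : 2 ^ 1 ≤ 2 ^ (m' - m) := Nat.pow_le_pow_right (by norm_num) (by omega)
    omega
  rcases lt_or_gt_of_ne hne with h | h
  · exact concl m₁ m₂ hm₁.2 hm₂.2 h heq
  · exact concl m₂ m₁ hm₂.2 hm₁.2 h heq.symm

end J_end

end Pool.Agent.Lev
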