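import Pool.Agent.Lev.Stm5

set_option autoImplicit false

open Polynomial Metric Set Filter Topology

namespace Pool.Agent.Lev

namespace J_evEll

theorem mem_codisc {S : Set ℂ} : S ∈ Filter.codiscrete ℂ ↔ ∀ x : ℂ, S ∈ 𝓝[≠] x := by
  rw [mem_codiscrete]
  constructor
  · intro h x
    have := h x
    rw [disjoint_principal_right, compl_compl] at this
    exact this
  · intro h x
    rw [disjoint_principal_right, compl_compl]
    exact h x

theorem ev_codisc {p : ℂ → Prop} : (∀ᶠ z in Filter.codiscrete ℂ, p z) ↔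
    ∀ x : ℂ, ∀ᶠ z in 𝓝[≠] x, p z := mem_codisc

theorem codisc_false (h : ∀ᶠ _z in Filter.codiscrete ℂ, False) : False := by
  have := ev_codisc.1 h 0
  rw [Filter.eventually_false_iff_eq_bot] at this
  exact (inferInstance : (𝓝[≠] (0 : ℂ)).NeBot).ne this

theorem avoid {ω₁ ω₂ : ℂ} {θ : ℂ → ℂ} (hE : Ell ω₁ ω₂ θ) (t : ℂ) :
    ∀ᶠ z in Filter.codiscrete ℂ, θ z ≠ t := by
  have hm : MeromorphicOn (fun z => θ z - t) Set.univ := fun z hz =>
    (hE.mer z hz).fun_sub (MeromorphicAt.const t z)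
  by_contra hcon
  rw [ev_codisc] at hcon
  push Not at hcon
  obtain ⟨x, hx⟩ := hcon
  have hx0 : meromorphicOrderAt (fun z => θ z - t) x = ⊤ := by
    by_contra hne
    apply hx
    filter_upwards [(meromorphicOrderAt_ne_top_iff_eventually_ne_zero (hm x (mem_univ _))).1 hne]
      with z hz h
    exact hz (by rw [h, sub_self])
  have hall : ∀ y : ℂ, meromorphicOrderAt (fun z => θ z - t) y = ⊤ := by
    intro y
    by_contra hne
    have := (hm.exists_meromorphicOrderAt_ne_top_iff_forall isConnected_univ).1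
      ⟨⟨y, mem_univ _⟩, hne⟩ ⟨x, mem_univ _⟩
    exact this hx0
  apply hE.nc
  refine ⟨t, ev_codisc.2 fun y => ?_⟩
  filter_upwards [meromorphicOrderAt_eq_top_iff.1 (hall y)] with z hz
  exact sub_eq_zero.1 hz

theorem avoid_fin {ω₁ ω₂ : ℂ} {θ : ℂ → ℂ} (hE : Ell ω₁ ω₂ θ) (E : Finset ℂ) :
    ∀ᶠ z in Filter.codiscrete ℂ, θ z ∉ E := by
  have h : ∀ᶠ z in Filter.codiscrete ℂ, ∀ t ∈ E, θ z ≠ t :=
    (Filter.eventually_all_finset E).2 fun t _ => avoid hE t
  filter_upwards [h] with z hz hmem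
  exact hz _ hmem rfl

theorem avoid_poly {ω₁ ω₂ : ℂ} {θ : ℂ → ℂ} (hE : Ell ω₁ ω₂ θ) {p : ℂ[X]} (hp : p ≠ 0) :
    ∀ᶠ z in Filter.codiscrete ℂ, p.eval (θ z) ≠ 0 := by
  filter_upwards [avoid_fin hE p.roots.toFinset] with z hz h
  exact hz (by rw [Multiset.mem_toFinset, mem_roots hp]; exact h)

/-- equality of the values of f with g outside a finite set -/
def Rp (f : RatFunc ℂ) (g : ℂ → ℂ) : Prop := ∃ E : Finset ℂ, ∀ x ∉ E, ev f x = g x

theorem good (f : RatFunc ℂ) : ∃ E : Finset ℂ, ∀ x ∉ E,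
    Polynomial.eval₂ (RingHom.id ℂ) x (RatFunc.denom f) ≠ 0 := by
  refine ⟨(RatFunc.denom f).roots.toFinset, fun x hx h => hx ?_⟩
  rw [Multiset.mem_toFinset, mem_roots (RatFunc.denom_ne_zero f)]
  rw [Polynomial.eval₂_id] at h
  exact h

theorem Rp.add {f f' : RatFunc ℂ} {g g' : ℂ → ℂ} (h : Rp f g) (h' : Rp f' g') :
    Rp (f + f') (fun x => g x + g' x) := by
  classical
  obtain ⟨E, hE⟩ := h
  obtain ⟨E', hE'⟩ := h'
  obtain ⟨E₁, hE₁⟩ := good f
  obtain ⟨E₂, hE₂⟩ := good f'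
  refine ⟨E ∪ E' ∪ E₁ ∪ E₂, fun x hx => ?_⟩
  simp only [Finset.mem_union, not_or] at hx
  obtain ⟨⟨⟨h1, h2⟩, h3⟩, h4⟩ := hx
  unfold ev
  rw [RatFunc.eval_add _ _ (hE₁ x h3) (hE₂ x h4)]
  have a := hE x h1
  have b := hE' x h2
  unfold ev at a b
  rw [a, b]

theorem Rp.mul {f f' : RatFunc ℂ} {g g' : ℂ → ℂ} (h : Rp f g) (h' : Rp f' g') :
    Rp (f * f') (fun x => g x * g' x) := by
  classical
  obtain ⟨E, hE⟩ := h
  obtain ⟨E', hE'⟩ := h'
  obtain ⟨E₁, hE₁⟩ := good f
  obtain ⟨E₂, hE₂⟩ := good f'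
  refine ⟨E ∪ E' ∪ E₁ ∪ E₂, fun x hx => ?_⟩
  simp only [Finset.mem_union, not_or] at hx
  obtain ⟨⟨⟨h1, h2⟩, h3⟩, h4⟩ := hx
  unfold ev
  rw [RatFunc.eval_mul _ _ (hE₁ x h3) (hE₂ x h4)]
  have a := hE x h1
  have b := hE' x h2
  unfold ev at a b
  rw [a, b]

theorem Rp.const (c : ℂ) : Rp (RatFunc.C c) (fun _ => c) :=
  ⟨∅, fun x _ => by unfold ev; rw [RatFunc.eval_C]; rfl⟩

theorem Rp.self (f : RatFunc ℂ) : Rp f (ev f) := ⟨∅, fun _ _ => rfl⟩

theorem Rp.inv {f : RatFunc ℂ} {g : ℂ → ℂ} (h : Rp f g) : Rp f⁻¹ (fun x => (g x)⁻¹) := by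
  classical
  by_cases hf : f = 0
  · obtain ⟨E, hE⟩ := h
    refine ⟨E, fun x hx => ?_⟩
    have := hE x hx
    subst hf
    unfold ev at this ⊢
    rw [RatFunc.eval_zero] at this
    rw [inv_zero, RatFunc.eval_zero]
    simp only []
    rw [← this, inv_zero]
  · obtain ⟨E, hE⟩ := h
    obtain ⟨E', hE'⟩ := (Rp.self f).mul (Rp.self f⁻¹)
    refine ⟨E ∪ E', fun x hx => ?_⟩
    simp only [Finset.mem_union, not_or] at hx
    have h1 := hE' x hx.2
    rw [mul_inv_cancel₀ hf] at h1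
    have h2 : ev (1 : RatFunc ℂ) x = 1 := by unfold ev; rw [RatFunc.eval_one]
    rw [h2] at h1
    have h3 := hE x hx.1
    simp only [] at h1 ⊢
    rw [← h3]
    exact eq_inv_of_mul_eq_one_right h1.symm

theorem Rp.congr {f : RatFunc ℂ} {g g' : ℂ → ℂ} (h : Rp f g) (hg : ∀ x, g x = g' x) : Rp f g' := by
  obtain ⟨E, hE⟩ := h
  exact ⟨E, fun x hx => (hE x hx).trans (hg x)⟩

theorem Rp.aeval (V : RatFunc ℂ) (p : ℂ[X]) : Rp (aeval V p) (fun x => p.eval (ev V x)) := by
  induction p using Polynomial.induction_on' with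
  | add p q hp hq =>
    rw [map_add]
    exact (hp.add hq).congr fun x => by rw [Polynomial.eval_add]
  | monomial n a =>
    induction n with
    | zero =>
      have : (Polynomial.aeval V) (Polynomial.monomial 0 a) = RatFunc.C a := by
        rw [Polynomial.monomial_zero_left, Polynomial.aeval_C, RatFunc.algebraMap_eq_C]
      rw [this]
      exact (Rp.const a).congr fun x => by simp
    | succ n ih =>
      have : (Polynomial.aeval V) (Polynomial.monomial (n + 1) a) =
          (Polynomial.aeval V) (Polynomial.monomial n a) * V := by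
        rw [← Polynomial.monomial_mul_X, map_mul, Polynomial.aeval_X]
      rw [this]
      refine (ih.mul (Rp.self V)).congr fun x => ?_
      rw [Polynomial.eval_monomial, Polynomial.eval_monomial]
      ring

theorem ev_cp (T V : RatFunc ℂ) : Rp (cp T V) (fun x => ev T (ev V x)) := by
  unfold cp
  rw [div_eq_mul_inv]
  refine ((Rp.aeval V _).mul (Rp.aeval V _).inv).congr fun x => ?_
  simp only [ev, RatFunc.eval, Polynomial.eval₂_id]
  exact (div_eq_mul_inv _ _).symm

theorem mer_poly {θ : ℂ → ℂ} (h : MeromorphicOn θ Set.univ) (p : ℂ[X]) :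
    MeromorphicOn (fun z => p.eval (θ z)) Set.univ := by
  intro z hz
  have h1 := h z hz
  induction p using Polynomial.induction_on' with
  | add p q hp hq =>
    simp only [Polynomial.eval_add]
    exact hp.fun_add hq
  | monomial n a =>
    simp only [Polynomial.eval_monomial]
    exact (MeromorphicAt.const a z).fun_mul (h1.fun_pow n)

theorem main (h_dgcp : S_dgcp) :
    S_evEll := by
  intro ω₁ ω₂ θ V hE hV
  refine ⟨⟨hE.lin, ?_, ?_, ?_, ?_⟩, ?_⟩
  · intro z hz
    have h1 := mer_poly hE.mer V.num z hz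
    have h2 := mer_poly hE.mer V.denom z hz
    have : (fun z => ev V (θ z)) = fun z => V.num.eval (θ z) / V.denom.eval (θ z) := by
      funext z
      simp only [ev, RatFunc.eval, Polynomial.eval₂_id]
    rw [this]
    exact h1.fun_div h2
  · intro z
    simp only [hE.per1]
  · intro z
    simp only [hE.per2]
  · rintro ⟨c, hc⟩
    have hne : V.num - Polynomial.C c * V.denom ≠ 0 := by
      intro h0
      have h1 : V.num = Polynomial.C c * V.denom := sub_eq_zero.1 h0
      have hd : algebraMap ℂ[X] (RatFunc ℂ) V.denom ≠ 0 := by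
        rw [Ne, FaithfulSMul.algebraMap_eq_zero_iff]
        exact RatFunc.denom_ne_zero V
      have h2 : V = RatFunc.C c := by
        rw [← RatFunc.num_div_denom V, h1, map_mul, mul_div_assoc, div_self hd, mul_one,
          RatFunc.algebraMap_C]
      rw [h2] at hV
      unfold dg at hV
      rw [RatFunc.num_C, RatFunc.denom_C] at hV
      simp at hV
    apply codisc_false
    filter_upwards [hc, avoid_poly hE (RatFunc.denom_ne_zero V), avoid_poly hE hne] with z h1 h2 h3
    apply h3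
    simp only [ev, RatFunc.eval, Polynomial.eval₂_id] at h1
    rw [Polynomial.eval_sub, Polynomial.eval_mul, Polynomial.eval_C]
    rw [div_eq_iff h2] at h1
    rw [h1, sub_self]
  · intro T
    obtain ⟨E, hE'⟩ := ev_cp T V
    filter_upwards [avoid_fin hE E] with z hz
    exact (hE' _ hz).symm

end J_evEll

end Pool.Agent.Lev
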