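import Pool.Agent.Lev.Stm4

set_option autoImplicit false

open Polynomial Metric Set Filter Topology

namespace Pool.Agent.Lev

namespace J_ext

/-- the derivative of `θ` does not vanish along a section -/
theorem sec_facts {θ s : ℂ → ℂ} {D : Set ℂ} (hD : IsOpen D) (h : Sec θ s D) {x : ℂ} (hx : x ∈ D) :
    deriv θ (s x) ≠ 0 := by
  have hs : DifferentiableAt ℂ s x := h.1.differentiableAt (hD.mem_nhds hx)
  have ht : DifferentiableAt ℂ θ (s x) := (h.2 x hx).1.differentiableAt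
  have h1 : HasDerivAt (θ ∘ s) (deriv θ (s x) * deriv s x) x := ht.hasDerivAt.comp x hs.hasDerivAt
  have h2 : HasDerivAt (θ ∘ s) 1 x := (hasDerivAt_id x).congr_of_eventuallyEq (by
    filter_upwards [hD.mem_nhds hx] with y hy using (h.2 y hy).2)
  have h3 := h1.unique h2
  intro h0
  rw [h0, zero_mul] at h3
  exact zero_ne_one h3

theorem loc_inv {θ : ℂ → ℂ} {z : ℂ} (hz : AnalyticAt ℂ θ z) (hd : deriv θ z ≠ 0) :
    ∃ g : ℂ → ℂ, g (θ z) = z ∧ AnalyticAt ℂ g (θ z) ∧ (∀ᶠ w in 𝓝 z, g (θ w) = w) ∧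
      (∀ᶠ y in 𝓝 (θ z), θ (g y) = y) :=
  ⟨hz.hasStrictDerivAt.localInverse _ _ _ hd,
    HasStrictFDerivAt.localInverse_apply_image .., hz.analyticAt_localInverse hd,
    hz.hasStrictDerivAt.eventually_left_inverse hd, hz.hasStrictDerivAt.eventually_right_inverse hd⟩

theorem loc_sec {θ : ℂ → ℂ} {z : ℂ} (hz : AnalyticAt ℂ θ z) (hd : deriv θ z ≠ 0) :
    ∃ g : ℂ → ℂ, g (θ z) = z ∧ (∀ᶠ w in 𝓝 z, g (θ w) = w) ∧
      ∃ δ > 0, Sec θ g (ball (θ z) δ) := by
  obtain ⟨g, g1, g2, g3, g4⟩ := loc_inv hz hd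
  have hc : Tendsto g (𝓝 (θ z)) (𝓝 z) := by
    have := g2.continuousAt.tendsto
    rwa [g1] at this
  have h1 : ∀ᶠ y in 𝓝 (θ z), AnalyticAt ℂ θ (g y) := hc.eventually hz.eventually_analyticAt
  have h2 : ∀ᶠ y in 𝓝 (θ z), AnalyticAt ℂ g y := g2.eventually_analyticAt
  obtain ⟨δ, hδ, hb⟩ := Metric.eventually_nhds_iff_ball.1 (h1.and (h2.and g4))
  exact ⟨g, g1, g3, δ, hδ, fun y hy => (hb y hy).2.1.differentiableAt.differentiableWithinAt,
    fun y hy => ⟨(hb y hy).1, (hb y hy).2.2⟩⟩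

theorem sec_ev {θ s g : ℂ → ℂ} {D : Set ℂ} (hD : IsOpen D) (hs : Sec θ s D) {x : ℂ} (hx : x ∈ D)
    (g3 : ∀ᶠ w in 𝓝 (s x), g (θ w) = w) : ∀ᶠ y in 𝓝 x, s y = g y := by
  have hcs : Tendsto s (𝓝 x) (𝓝 (s x)) :=
    (hs.1.differentiableAt (hD.mem_nhds hx)).continuousAt
  filter_upwards [hcs.eventually g3, hD.mem_nhds hx] with y hy hyD
  rw [(hs.2 y hyD).2] at hy
  exact hy.symm

theorem sec_eq {θ s t : ℂ → ℂ} {D : Set ℂ} (hD : IsOpen D) (hc : IsPreconnected D)
    (hs : Sec θ s D) (ht : Sec θ t D) {x : ℂ} (hx : x ∈ D) (h : s x = t x) :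
    ∀ y ∈ D, s y = t y := by
  obtain ⟨g, g1, g2, g3, g4⟩ := loc_inv (hs.2 x hx).1 (sec_facts hD hs hx)
  have e1 := sec_ev hD hs hx g3
  rw [h] at g3
  have e2 := sec_ev hD ht hx g3
  have e3 : s =ᶠ[𝓝 x] t := by
    filter_upwards [e1, e2] with y h1 h2
    rw [h1, h2]
  have := (hs.1.analyticOnNhd hD).eqOn_of_preconnected_of_eventuallyEq (ht.1.analyticOnNhd hD)
    hc hx e3
  exact fun y hy => this hy

theorem sec_mono {θ s : ℂ → ℂ} {D D' : Set ℂ} (h : Sec θ s D) (hD : D' ⊆ D) : Sec θ s D' :=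
  ⟨h.1.mono hD, fun x hx => h.2 x (hD hx)⟩

theorem sec_glue {θ : ℂ → ℂ} {ι : Type} (D : ι → Set ℂ) (σ : ι → ℂ → ℂ) (hD : ∀ i, IsOpen (D i))
    (hσ : ∀ i, Sec θ (σ i) (D i)) (hag : ∀ i j, ∀ x ∈ D i, x ∈ D j → σ i x = σ j x) :
    ∃ s, Sec θ s (⋃ i, D i) ∧ ∀ i, ∀ x ∈ D i, s x = σ i x := by
  classical
  let s : ℂ → ℂ := fun x => if h : ∃ i, x ∈ D i then σ h.choose x else 0
  have hs : ∀ i, ∀ x ∈ D i, s x = σ i x := by
    intro i x hx
    have h : ∃ i, x ∈ D i := ⟨i, hx⟩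
    show (if h : ∃ i, x ∈ D i then σ h.choose x else 0) = _
    rw [dif_pos h]
    exact hag _ _ x h.choose_spec hx
  refine ⟨s, ⟨?_, ?_⟩, hs⟩
  · intro x hx
    obtain ⟨i, hi⟩ := mem_iUnion.1 hx
    have h1 : DifferentiableAt ℂ (σ i) x := (hσ i).1.differentiableAt ((hD i).mem_nhds hi)
    refine (h1.congr_of_eventuallyEq ?_).differentiableWithinAt
    filter_upwards [(hD i).mem_nhds hi] with y hy using hs i y hy
  · intro x hx
    obtain ⟨i, hi⟩ := mem_iUnion.1 hx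
    rw [hs i x hi]
    exact (hσ i).2 x hi

theorem clus {θ : ℂ → ℂ} (hnf : MeromorphicNFOn θ Set.univ) {F : Filter ℂ} {x₁ : ℂ}
    (hF : F ≤ 𝓝 x₁) {u : ℂ → ℂ} (hu : ∀ᶠ x in F, AnalyticAt ℂ θ (u x) ∧ θ (u x) = x) {z : ℂ}
    (hz : MapClusterPt z F u) : AnalyticAt ℂ θ z ∧ θ z = x₁ := by
  have hA : AnalyticAt ℂ θ z := by
    by_contra hA
    have ho : meromorphicOrderAt θ z < 0 := by
      by_contra h
      exact hA ((hnf (mem_univ z)).meromorphicOrderAt_nonneg_iff_analyticAt.1 (not_lt.1 h))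
    have ht := tendsto_norm_atTop_iff_cobounded.2 (tendsto_cobounded_of_meromorphicOrderAt_neg ho)
    have h1 : ∀ᶠ w in 𝓝[≠] z, ‖x₁‖ + 1 < ‖θ w‖ := ht.eventually (eventually_gt_atTop _)
    rw [eventually_nhdsWithin_iff] at h1
    have h2 := hz.frequently h1
    have h3 : ∀ᶠ x in F, ‖x‖ < ‖x₁‖ + 1 :=
      hF ((continuous_norm.tendsto x₁).eventually (gt_mem_nhds (lt_add_one ‖x₁‖)))
    obtain ⟨x, hx1, hx2, hx3⟩ := (h2.and_eventually (hu.and h3)).exists
    have hne : u x ≠ z := fun h => hA (h ▸ hx2.1)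
    have := hx1 hne
    rw [hx2.2] at this
    linarith
  refine ⟨hA, ?_⟩
  by_contra hne
  have hpos : 0 < dist (θ z) x₁ := dist_pos.2 hne
  have h1 : ∀ᶠ w in 𝓝 z, dist (θ w) (θ z) < dist (θ z) x₁ / 2 :=
    hA.continuousAt.eventually (Metric.ball_mem_nhds _ (by positivity))
  have h2 := hz.frequently h1
  have h3 : ∀ᶠ x in F, dist x x₁ < dist (θ z) x₁ / 2 :=
    hF (Metric.ball_mem_nhds _ (by positivity))
  obtain ⟨x, hx1, hx2, hx3⟩ := (h2.and_eventually (hu.and h3)).exists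
  rw [hx2.2] at hx1
  have := dist_triangle (θ z) x x₁
  rw [dist_comm] at hx1
  linarith

theorem not_loc_const {ω₁ ω₂ : ℂ} {θ : ℂ → ℂ} (hE : Ell ω₁ ω₂ θ) {z : ℂ}
    (hz : AnalyticAt ℂ θ z) (c : ℂ) : ∀ᶠ w in 𝓝[≠] z, θ w ≠ c := by
  rcases hz.eventually_eq_or_eventually_ne (analyticAt_const (v := c)) with h | h
  · exfalso
    have hm : MeromorphicOn (fun w => θ w - c) Set.univ := fun w hw =>
      (hE.mer w hw).sub (MeromorphicAt.const c w)
    have hz0 : meromorphicOrderAt (fun w => θ w - c) z = ⊤ := by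
      rw [meromorphicOrderAt_eq_top_iff]
      filter_upwards [h.filter_mono nhdsWithin_le_nhds] with w hw
      rw [hw, sub_self]
    have hall : ∀ y, meromorphicOrderAt (fun w => θ w - c) y = ⊤ := by
      intro y
      by_contra hy
      exact MeromorphicOn.meromorphicOrderAt_ne_top_of_isPreconnected hm isPreconnected_univ
        (mem_univ y) (mem_univ z) hy hz0
    refine hE.nc ⟨c, ?_⟩
    show {w | θ w = c} ∈ Filter.codiscrete ℂ
    rw [mem_codiscrete]
    intro y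
    have h1 := meromorphicOrderAt_eq_top_iff.1 (hall y)
    rw [Filter.disjoint_principal_right, compl_compl]
    filter_upwards [h1] with w hw
    exact sub_eq_zero.1 hw
  · exact h

/-- trapping by a circle on which `θ ≠ x₁` -/
theorem trap {θ : ℂ → ℂ} {c x₁ : ℂ} (hA : AnalyticAt ℂ θ c) (hne : ∀ᶠ w in 𝓝[≠] c, θ w ≠ x₁)
    {η : ℝ} (hη : 0 < η) : ∃ η' > 0, η' ≤ η ∧ ∃ δ > 0, ∀ (u : ℂ → ℂ) (W : Set ℂ),
      IsPreconnected W → W ⊆ ball x₁ δ → ContinuousOn u W → (∀ x ∈ W, θ (u x) = x) →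
      (∃ x ∈ W, u x ∈ ball c η') → ∀ y ∈ W, u y ∈ ball c η' := by
  rw [eventually_nhdsWithin_iff] at hne
  obtain ⟨ρ, hρ, hb⟩ := Metric.eventually_nhds_iff_ball.1 (hne.and hA.eventually_analyticAt)
  set η' := min η (ρ / 2) with hη'
  have hη'0 : 0 < η' := lt_min hη (by linarith)
  have hη'ρ : η' < ρ := lt_of_le_of_lt (min_le_right _ _) (by linarith)
  have hsub : sphere c η' ⊆ ball c ρ := fun w hw => by
    rw [mem_sphere] at hw
    rw [mem_ball, hw]
    exact hη'ρ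
  have hK : IsCompact (θ '' sphere c η') := (isCompact_sphere c η').image_of_continuousOn
    fun w hw => (hb w (hsub hw)).2.continuousAt.continuousWithinAt
  have hx₁ : x₁ ∉ θ '' sphere c η' := by
    rintro ⟨w, hw, hw2⟩
    refine (hb w (hsub hw)).1 ?_ hw2
    intro h
    rw [mem_sphere, h, dist_self] at hw
    exact hη'0.ne hw
  obtain ⟨δ, hδ, hδb⟩ := Metric.mem_nhds_iff.1 (hK.isClosed.isOpen_compl.mem_nhds hx₁)
  refine ⟨η', hη'0, min_le_left _ _, δ, hδ, ?_⟩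
  rintro u W hW hWδ hu hθ ⟨x, hxW, hx⟩ y hy
  have hpre : IsPreconnected (u '' W) := hW.image u hu
  have hcov : u '' W ⊆ ball c η' ∪ (closedBall c η')ᶜ := by
    rintro _ ⟨w, hw, rfl⟩
    by_cases h1 : u w ∈ ball c η'
    · exact Or.inl h1
    · right
      intro h2
      have h3 : u w ∈ sphere c η' := by
        rw [mem_closedBall] at h2
        rw [mem_ball, not_lt] at h1
        exact le_antisymm h2 h1
      exact hδb (hWδ hw) ⟨u w, h3, hθ w hw⟩
  have hdis : Disjoint (ball c η') (closedBall c η')ᶜ :=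
    Set.disjoint_left.2 fun w h1 h2 => h2 (ball_subset_closedBall h1)
  have := hpre.subset_left_of_subset_union isOpen_ball isClosed_closedBall.isOpen_compl hdis hcov
    ⟨u x, ⟨x, hxW, rfl⟩, hx⟩
  exact this ⟨y, hy, rfl⟩

theorem lattice {ω₁ ω₂ : ℂ} {θ : ℂ → ℂ} (hE : Ell ω₁ ω₂ θ) :
    ∃ P : Set ℂ, IsCompact P ∧ ∀ z : ℂ, ∃ l : ℂ, Function.Periodic θ l ∧ z - l ∈ P := by
  refine ⟨(fun p : ℝ × ℝ => (p.1 : ℂ) * ω₁ + p.2 * ω₂) '' (Icc 0 1 ×ˢ Icc 0 1),
    (isCompact_Icc.prod isCompact_Icc).image (by fun_prop), ?_⟩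
  intro z
  have hspan : Submodule.span ℝ (Set.range ![ω₁, ω₂]) = ⊤ :=
    hE.lin.span_eq_top_of_card_eq_finrank (by simp [Complex.finrank_real_complex])
  have hz : z ∈ Submodule.span ℝ (Set.range ![ω₁, ω₂]) := by rw [hspan]; trivial
  have hr : Set.range ![ω₁, ω₂] = {ω₁, ω₂} := by
    simp [Matrix.range_cons, Set.pair_comm]
  rw [hr, Submodule.mem_span_pair] at hz
  obtain ⟨a, b, hab⟩ := hz
  refine ⟨(⌊a⌋ : ℂ) * ω₁ + (⌊b⌋ : ℂ) * ω₂, ?_, ?_⟩
  · have h1 : Function.Periodic θ ω₁ := hE.per1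
    have h2 : Function.Periodic θ ω₂ := hE.per2
    exact (h1.int_mul ⌊a⌋).add_period (h2.int_mul ⌊b⌋)
  · refine ⟨(Int.fract a, Int.fract b), ⟨⟨Int.fract_nonneg _, (Int.fract_lt_one _).le⟩,
      ⟨Int.fract_nonneg _, (Int.fract_lt_one _).le⟩⟩, ?_⟩
    simp only
    rw [← hab]
    have h3 : ((Int.fract a : ℝ) : ℂ) = (a : ℂ) - (⌊a⌋ : ℂ) := by
      rw [Int.fract]; push_cast; ring
    have h4 : ((Int.fract b : ℝ) : ℂ) = (b : ℂ) - (⌊b⌋ : ℂ) := by
      rw [Int.fract]; push_cast; ring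
    rw [h3, h4]
    simp only [Complex.real_smul]
    ring

theorem an_per {θ : ℂ → ℂ} {l z : ℂ} (hl : Function.Periodic θ l) (hz : AnalyticAt ℂ θ z) :
    AnalyticAt ℂ θ (z - l) := by
  have h1 : θ = fun w => θ (w + l) := funext fun w => (hl w).symm
  rw [h1]
  have h2 : AnalyticAt ℂ (fun w : ℂ => w + l) (z - l) := analyticAt_id.add analyticAt_const
  exact AnalyticAt.fun_comp (g := θ) (f := fun w => w + l) (by simpa using hz) h2

theorem claim {ω₁ ω₂ : ℂ} {θ : ℂ → ℂ} (hE : Ell ω₁ ω₂ θ) (hnf : MeromorphicNFOn θ Set.univ)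
    {x₀ x₁ : ℂ} {r : ℝ} (hr : 0 < r) (hx₁ : x₁ ∈ sphere x₀ r) {s : ℂ → ℂ}
    (hs : Sec θ s (ball x₀ r)) :
    ∃ c, AnalyticAt ℂ θ c ∧ θ c = x₁ ∧ Tendsto s (𝓝[ball x₀ r] x₁) (𝓝 c) := by
  have hne : (𝓝[ball x₀ r] x₁).NeBot := by
    rw [← mem_closure_iff_nhdsWithin_neBot, closure_ball x₀ hr.ne']
    exact sphere_subset_closedBall hx₁
  have hF : 𝓝[ball x₀ r] x₁ ≤ 𝓝 x₁ := nhdsWithin_le_nhds
  have hin : ∀ᶠ x in 𝓝[ball x₀ r] x₁, x ∈ ball x₀ r := self_mem_nhdsWithin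
  obtain ⟨P, hP, hL⟩ := lattice hE
  choose L hLper hLP using hL
  have hW : ∀ δ > 0, ∀ᶠ x in 𝓝[ball x₀ r] x₁, x ∈ ball x₀ r ∩ ball x₁ δ := fun δ hδ =>
    hin.and (hF (ball_mem_nhds _ hδ))
  have hpre : ∀ δ, IsPreconnected (ball x₀ r ∩ ball x₁ δ) := fun δ =>
    ((convex_ball x₀ r).inter (convex_ball x₁ δ)).isPreconnected
  -- a cluster point modulo the lattice
  obtain ⟨zs, -, hcl⟩ := hP.exists_mapClusterPt_of_frequently
    (l := 𝓝[ball x₀ r] x₁) (f := fun x => s x - L (s x))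
    (Filter.Eventually.of_forall fun x => hLP (s x)).frequently
  have hu : ∀ᶠ x in 𝓝[ball x₀ r] x₁, AnalyticAt ℂ θ (s x - L (s x)) ∧ θ (s x - L (s x)) = x := by
    filter_upwards [hin] with x hx
    refine ⟨an_per (hLper _) (hs.2 x hx).1, ?_⟩
    rw [(hLper (s x)).sub_eq, (hs.2 x hx).2]
  obtain ⟨hA, hv⟩ := clus hnf hF hu hcl
  obtain ⟨η', hη', -, δ, hδ, htrap⟩ := trap hA (not_loc_const hE hA x₁) one_pos
  obtain ⟨x, hx1, hxW⟩ :=
    ((hcl.frequently (ball_mem_nhds zs hη')).and_eventually (hW δ hδ)).exists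
  have hall := htrap (fun y => s y - L (s x)) (ball x₀ r ∩ ball x₁ δ) (hpre δ)
    inter_subset_right ((hs.1.continuousOn.mono inter_subset_left).sub continuousOn_const)
    (fun y hy => by rw [(hLper (s x)).sub_eq, (hs.2 y hy.1).2]) ⟨x, hxW, hx1⟩
  have hcomp : IsCompact (closedBall (zs + L (s x)) η') := isCompact_closedBall _ _
  obtain ⟨c, -, hc⟩ := hcomp.exists_mapClusterPt_of_frequently
    (l := 𝓝[ball x₀ r] x₁) (f := s) (Filter.Eventually.frequently (by
      filter_upwards [hW δ hδ] with y hy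
      have h1 := hall y hy
      rw [mem_ball, dist_eq_norm] at h1
      rw [mem_closedBall, dist_eq_norm]
      have h2 : s y - (zs + L (s x)) = s y - L (s x) - zs := by ring
      rw [h2]
      exact h1.le))
  obtain ⟨hA', hv'⟩ := clus hnf hF (by
    filter_upwards [hin] with x hx using hs.2 x hx) hc
  refine ⟨c, hA', hv', ?_⟩
  rw [Metric.tendsto_nhds]
  intro η hη
  obtain ⟨η₂, hη₂, hle, δ₂, hδ₂, htrap₂⟩ := trap hA' (not_loc_const hE hA' x₁) hη
  obtain ⟨y, hy1, hyW⟩ :=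
    ((hc.frequently (ball_mem_nhds c hη₂)).and_eventually (hW δ₂ hδ₂)).exists
  have hall₂ := htrap₂ s (ball x₀ r ∩ ball x₁ δ₂) (hpre δ₂)
    inter_subset_right (hs.1.continuousOn.mono inter_subset_left)
    (fun y hy => (hs.2 y hy.1).2) ⟨y, hyW, hy1⟩
  filter_upwards [hW δ₂ hδ₂] with w hw
  exact lt_of_lt_of_le (hall₂ w hw) hle

theorem main :
    S_ext := by
  intro ω₁ ω₂ θ hE hnf x₀ R z₀ hR hz hθ hd
  set T : Set ℝ := {r | 0 < r ∧ r ≤ R ∧ ∃ s, Sec θ s (ball x₀ r) ∧ s x₀ = z₀} with hT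
  have hTne : T.Nonempty := by
    obtain ⟨g, g1, -, δ, hδ, hg⟩ := loc_sec hz hd
    rw [hθ] at g1 hg
    exact ⟨min δ R, lt_min hδ hR, min_le_right _ _, g,
      sec_mono hg (ball_subset_ball (min_le_left _ _)), g1⟩
  have hTb : BddAbove T := ⟨R, fun r hr => hr.2.1⟩
  set r := sSup T with hr
  have hrR : r ≤ R := csSup_le hTne fun r hr => hr.2.1
  have hr0 : 0 < r := by
    obtain ⟨t, ht⟩ := hTne
    exact lt_of_lt_of_le ht.1 (le_csSup hTb ht)
  have hsec : ∃ s, Sec θ s (ball x₀ r) ∧ s x₀ = z₀ := by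
    choose σ hσ1 hσ2 using fun t : T => t.2.2.2
    obtain ⟨s, hs1, hs2⟩ := sec_glue (θ := θ) (fun t : T => ball x₀ (t : ℝ)) σ
      (fun _ => isOpen_ball) hσ1 (by
        intro t t' x hx hx'
        have hpos : 0 < min (t : ℝ) t' := lt_min t.2.1 t'.2.1
        refine sec_eq isOpen_ball (convex_ball x₀ (min (t : ℝ) t')).isPreconnected
          (sec_mono (hσ1 t) (ball_subset_ball (min_le_left _ _)))
          (sec_mono (hσ1 t') (ball_subset_ball (min_le_right _ _)))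
          (mem_ball_self hpos) (by rw [hσ2, hσ2]) x ?_
        rw [mem_ball] at hx hx' ⊢
        exact lt_min hx hx')
    have hU : (⋃ t : T, ball x₀ (t : ℝ)) = ball x₀ r := by
      apply Subset.antisymm
      · exact iUnion_subset fun t => ball_subset_ball (le_csSup hTb t.2)
      · intro x hx
        rw [mem_ball] at hx
        obtain ⟨t, ht, hxt⟩ := exists_lt_of_lt_csSup hTne hx
        exact mem_iUnion.2 ⟨⟨t, ht⟩, hxt⟩
    rw [hU] at hs1
    obtain ⟨t, ht⟩ := hTne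
    exact ⟨s, hs1, by rw [hs2 ⟨t, ht⟩ x₀ (mem_ball_self ht.1), hσ2]⟩
  obtain ⟨s, hs, hs0⟩ := hsec
  rcases hrR.eq_or_lt with hrR' | hrR'
  · left
    exact ⟨s, hrR' ▸ hs, hs0⟩
  by_cases hcase : ∀ x₁ : sphere x₀ r, ∃ δ > 0, ∃ σ, Sec θ σ (ball (x₁ : ℂ) δ) ∧
      ∀ x ∈ ball x₀ r, x ∈ ball (x₁ : ℂ) δ → σ x = s x
  · exfalso
    choose δ hδ σ hσ hσs using hcase
    obtain ⟨s', hs'1, hs'2⟩ := sec_glue (θ := θ) (ι := Option (sphere x₀ r))
      (fun i => i.elim (ball x₀ r) fun x₁ => ball (x₁ : ℂ) (δ x₁))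
      (fun i => i.elim s fun x₁ => σ x₁)
      (by rintro (_ | i) <;> exact isOpen_ball)
      (by rintro (_ | i); exacts [hs, hσ i])
      (by
        rintro (_ | a) (_ | b) x hx hx'
        · rfl
        · exact (hσs b x hx hx').symm
        · exact hσs a x hx' hx
        · by_cases hab : a = b
          · rw [hab]
          change x ∈ ball (a : ℂ) (δ a) at hx
          change x ∈ ball (b : ℂ) (δ b) at hx'
          change σ a x = σ b x
          have hab' : (a : ℂ) ≠ b := fun h => hab (Subtype.ext h)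
          have hdist : dist (a : ℂ) b < δ a + δ b := by
            have := dist_triangle (a : ℂ) x b
            rw [mem_ball] at hx hx'
            rw [dist_comm (a : ℂ) x] at this
            linarith
          have hD : 0 < dist (a : ℂ) b := dist_pos.2 hab'
          obtain ⟨t, ht1, ht2⟩ : ∃ t, max 0 (1 - δ b / dist (a : ℂ) b) < t ∧
              t < min 1 (δ a / dist (a : ℂ) b) := by
            apply exists_between
            rw [max_lt_iff, lt_min_iff, lt_min_iff]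
            refine ⟨⟨one_pos, div_pos (hδ a) hD⟩, ?_, ?_⟩
            · have := div_pos (hδ b) hD
              linarith
            · rw [sub_lt_iff_lt_add, ← add_div, lt_div_iff₀ hD]
              linarith
          rw [max_lt_iff] at ht1
          rw [lt_min_iff] at ht2
          have hy0 : (1 - t) • (a : ℂ) + t • (b : ℂ) ∈ ball x₀ r :=
            combo_mem_ball_of_ne (sphere_subset_closedBall a.2) (sphere_subset_closedBall b.2)
              hab' (by linarith) ht1.1 (by ring)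
          have hya : (1 - t) • (a : ℂ) + t • (b : ℂ) ∈ ball (a : ℂ) (δ a) := by
            rw [mem_ball, dist_eq_norm]
            have h1 : (1 - t) • (a : ℂ) + t • (b : ℂ) - a = t • ((b : ℂ) - a) := by
              simp only [Complex.real_smul]; push_cast; ring
            rw [h1, norm_smul, Real.norm_of_nonneg ht1.1.le, ← dist_eq_norm, dist_comm]
            have := ht2.2
            rwa [lt_div_iff₀ hD] at this
          have hyb : (1 - t) • (a : ℂ) + t • (b : ℂ) ∈ ball (b : ℂ) (δ b) := by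
            rw [mem_ball, dist_eq_norm]
            have h1 : (1 - t) • (a : ℂ) + t • (b : ℂ) - b = (1 - t) • ((a : ℂ) - b) := by
              simp only [Complex.real_smul]; push_cast; ring
            rw [h1, norm_smul, Real.norm_of_nonneg (by linarith), ← dist_eq_norm]
            have := ht1.2
            rw [sub_lt_comm, lt_div_iff₀ hD] at this
            exact this
          exact sec_eq (isOpen_ball.inter isOpen_ball)
            ((convex_ball (a : ℂ) (δ a)).inter (convex_ball (b : ℂ) (δ b))).isPreconnected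
            (sec_mono (hσ a) inter_subset_left) (sec_mono (hσ b) inter_subset_right)
            ⟨hya, hyb⟩ (by rw [hσs a _ hy0 hya, hσs b _ hy0 hyb]) x ⟨hx, hx'⟩)
    have hopen : IsOpen (⋃ i : Option (sphere x₀ r),
        (i.elim (ball x₀ r) fun x₁ => ball (x₁ : ℂ) (δ x₁) : Set ℂ)) :=
      isOpen_iUnion (by rintro (_ | i) <;> exact isOpen_ball)
    have hcov : closedBall x₀ r ⊆ ⋃ i : Option (sphere x₀ r),
        (i.elim (ball x₀ r) fun x₁ => ball (x₁ : ℂ) (δ x₁) : Set ℂ) := by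
      intro x hx
      rw [mem_closedBall] at hx
      rcases hx.eq_or_lt with h | h
      · exact mem_iUnion.2 ⟨some ⟨x, h⟩, mem_ball_self (hδ _)⟩
      · exact mem_iUnion.2 ⟨none, h⟩
    obtain ⟨ε, hε, hth⟩ := (isCompact_closedBall x₀ r).exists_thickening_subset_open hopen hcov
    rw [thickening_closedBall hε hr0.le] at hth
    have hmem : min (ε + r) R ∈ T := by
      refine ⟨lt_min (by linarith) hR, min_le_right _ _, s',
        sec_mono hs'1 ((ball_subset_ball (min_le_left _ _)).trans hth), ?_⟩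
      have := hs'2 none x₀ (mem_ball_self hr0)
      rw [this]
      exact hs0
    have h1 : r < min (ε + r) R := lt_min (by linarith) hrR'
    exact absurd (le_csSup hTb hmem) (not_le.2 h1)
  · push Not at hcase
    obtain ⟨x₁, hx₁⟩ := hcase
    obtain ⟨c, hcA, hcx, hct⟩ := claim hE hnf hr0 x₁.2 hs
    right
    refine ⟨r, s, c, hr0, hrR', hs, hs0, hcA, ?_, ?_, ?_⟩
    · by_contra hdc
      obtain ⟨g, g1, g3, δ, hδ, hg⟩ := loc_sec hcA hdc
      rw [hcx] at hg
      have h1 : ∀ᶠ x in 𝓝[ball x₀ r] (x₁ : ℂ), g x = s x := by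
        filter_upwards [hct.eventually g3, self_mem_nhdsWithin] with x hx hxb
        rwa [(hs.2 x hxb).2] at hx
      rw [eventually_nhdsWithin_iff] at h1
      obtain ⟨δ', hδ', hb⟩ := Metric.eventually_nhds_iff_ball.1 h1
      obtain ⟨x, hx1, hx2, hx3⟩ := hx₁ (min δ δ') (lt_min hδ hδ') g
        (sec_mono hg (ball_subset_ball (min_le_left _ _)))
      exact hx3 (hb x (ball_subset_ball (min_le_right _ _) hx2) hx1)
    · rw [hcx, ← dist_eq_norm]
      exact x₁.2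
    · rw [hcx]
      exact hct

end J_ext

end Pool.Agent.Lev
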