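import Pool.Agent.Lev.Stm4

set_option autoImplicit false

open Polynomial Metric Set Filter Topology

namespace Pool.Agent.Lev

namespace J_fib

variable {ω₁ ω₂ : ℂ} {θ : ℂ → ℂ}

theorem fib_mer (h : Ell ω₁ ω₂ θ) (x : ℂ) : MeromorphicOn (fun w => θ w - x) Set.univ :=
  fun z hz => (h.mer z hz).sub (MeromorphicAt.const x z)

theorem fib_ne_top (h : Ell ω₁ ω₂ θ) (x z : ℂ) :
    meromorphicOrderAt (fun w => θ w - x) z ≠ ⊤ := by
  intro hz
  apply h.nc
  have hM : Meromorphic (fun w => θ w - x) := meromorphicOn_univ.1 (fib_mer h x)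
  have hall : ∀ u, meromorphicOrderAt (fun w => θ w - x) u = ⊤ := by
    by_contra hcon
    push Not at hcon
    exact (hM.exists_meromorphicOrderAt_ne_top_iff_forall.1 hcon z) hz
  refine ⟨x, ?_⟩
  change {w | θ w = x} ∈ Filter.codiscreteWithin Set.univ
  rw [mem_codiscreteWithin_iff_forall_mem_nhdsNE]
  intro u _
  filter_upwards [meromorphicOrderAt_eq_top_iff.1 (hall u)] with w hw
  exact Or.inl (sub_eq_zero.1 hw)

theorem fib_pole (h : Ell ω₁ ω₂ θ) (x z : ℂ) (n : ℤ) (hn : n < 0)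
    (hz : meromorphicOrderAt θ z = n) :
    meromorphicOrderAt (fun w => θ w - x) z = n ∧
      meromorphicOrderAt (deriv θ) z = ((n - 1 : ℤ) : WithTop ℤ) := by
  constructor
  · have h1 : MeromorphicAt (fun _ : ℂ => -x) z := MeromorphicAt.const _ z
    have h2 : 0 ≤ meromorphicOrderAt (fun _ : ℂ => -x) z :=
      (analyticAt_const (v := -x)).meromorphicOrderAt_nonneg
    have h3 : meromorphicOrderAt θ z < meromorphicOrderAt (fun _ : ℂ => -x) z := by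
      rw [hz]
      refine lt_of_lt_of_le ?_ h2
      exact_mod_cast hn
    have h4 := meromorphicOrderAt_add_eq_left_of_lt h1 h3
    rw [← hz, ← h4]
    congr 1
  · exact meromorphicOrderAt_deriv_eq_sub_one (by exact_mod_cast hn.ne) hz

theorem fib_nonpole (h : Ell ω₁ ω₂ θ) (x z : ℂ) (hz : 0 ≤ meromorphicOrderAt θ z) :
    0 ≤ meromorphicOrderAt (fun w => θ w - x) z ∧ 0 ≤ meromorphicOrderAt (deriv θ) z := by
  obtain ⟨g, hg, hgθ⟩ := ((h.mer z (Set.mem_univ z)).meromorphicOrderAt_nonneg_iff).1 hz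
  constructor
  · rw [meromorphicOrderAt_congr (f₂ := fun w => g w - x)]
    · exact (hg.sub analyticAt_const).meromorphicOrderAt_nonneg
    · filter_upwards [hgθ] with w hw
      rw [hw]
  · rw [meromorphicOrderAt_congr hgθ.nhdsNE_deriv]
    exact hg.deriv.meromorphicOrderAt_nonneg

/-- at a point which is not a pole some value is attained -/
theorem fib_val (h : Ell ω₁ ω₂ θ) (z : ℂ) (hz : 0 ≤ meromorphicOrderAt θ z) :
    ∃ x, 0 < meromorphicOrderAt (fun w => θ w - x) z := by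
  obtain ⟨g, hg, hgθ⟩ := ((h.mer z (Set.mem_univ z)).meromorphicOrderAt_nonneg_iff).1 hz
  refine ⟨g z, ?_⟩
  rw [← tendsto_zero_iff_meromorphicOrderAt_pos (fib_mer h _ z (Set.mem_univ z))]
  have h1 : Tendsto (fun w => g w - g z) (𝓝[≠] z) (𝓝 0) := by
    have h2 : Tendsto (fun w => g w - g z) (𝓝 z) (𝓝 (g z - g z)) :=
      hg.continuousAt.tendsto.sub_const _
    rw [sub_self] at h2
    exact h2.mono_left nhdsWithin_le_nhds
  refine h1.congr' ?_
  filter_upwards [hgθ] with w hw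
  rw [hw]

theorem fib_int {f : ℂ → ℂ} {z : ℂ} (h : meromorphicOrderAt f z ≠ ⊤) :
    meromorphicOrderAt f z = (ordZ f z : WithTop ℤ) := by
  unfold ordZ
  rw [WithTop.coe_untop₀_of_ne_top h]

theorem fib_deriv_ne_top (h : Ell ω₁ ω₂ θ) (z : ℂ) : meromorphicOrderAt (deriv θ) z ≠ ⊤ := by
  rcases lt_or_ge (meromorphicOrderAt θ z) 0 with hz | hz
  · have h1 : meromorphicOrderAt θ z ≠ ⊤ := hz.ne_top
    have h2 := fib_int h1
    rw [h2] at hz
    have h3 : ordZ θ z < 0 := by exact_mod_cast hz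
    rw [(fib_pole h 0 z _ h3 h2).2]
    exact WithTop.coe_ne_top
  · obtain ⟨x, hx⟩ := fib_val h z hz
    have h1 := fib_ne_top h x z
    have h2 := fib_int h1
    rw [h2] at hx
    have h3 : 0 < ordZ (fun w => θ w - x) z := by exact_mod_cast hx
    have h4 := meromorphicOrderAt_deriv_eq_sub_one (by exact_mod_cast h3.ne') h2
    have h5 : deriv (fun w => θ w - x) = deriv θ := by
      funext w
      exact deriv_sub_const x
    rw [h5] at h4
    rw [h4]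
    exact WithTop.coe_ne_top

theorem fib_sum (S : Set ℂ) (o : ℂ → ℤ) (hfin : {z | z ∈ S ∧ o z ≠ 0}.Finite)
    (hsum : ∑ᶠ z ∈ S, o z = 0) :
    ∑ᶠ z ∈ S, (o z).toNat = ∑ᶠ z ∈ S, (-(o z)).toNat := by
  have hT : (hfin.toFinset : Set ℂ) ⊆ S := by
    intro z hz
    rw [Set.Finite.coe_toFinset] at hz
    exact hz.1
  have e0 : ∑ᶠ z ∈ S, o z = ∑ z ∈ hfin.toFinset, o z := by
    refine finsum_mem_eq_sum_of_subset _ ?_ hT
    rintro z ⟨h1, h2⟩
    rw [Set.Finite.coe_toFinset]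
    exact ⟨h1, h2⟩
  have e1 : ∑ᶠ z ∈ S, (o z).toNat = ∑ z ∈ hfin.toFinset, (o z).toNat := by
    refine finsum_mem_eq_sum_of_subset _ ?_ hT
    rintro z ⟨h1, h2⟩
    rw [Set.Finite.coe_toFinset]
    refine ⟨h1, fun h => h2 ?_⟩
    simp [h]
  have e2 : ∑ᶠ z ∈ S, (-(o z)).toNat = ∑ z ∈ hfin.toFinset, (-(o z)).toNat := by
    refine finsum_mem_eq_sum_of_subset _ ?_ hT
    rintro z ⟨h1, h2⟩
    rw [Set.Finite.coe_toFinset]
    refine ⟨h1, fun h => h2 ?_⟩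
    simp [h]
  rw [e0] at hsum
  rw [e1, e2]
  zify
  rw [← sub_eq_zero, ← Finset.sum_sub_distrib]
  refine Eq.trans (Finset.sum_congr rfl fun z _ => ?_) hsum
  omega

theorem fib_term (S : Set ℂ) (f : ℂ → ℕ) (hfin : {z | z ∈ S ∧ f z ≠ 0}.Finite) (z0 : ℂ)
    (hz0 : z0 ∈ S) : f z0 ≤ ∑ᶠ z ∈ S, f z := by
  have e1 : ∑ᶠ z ∈ S, f z = ∑ z ∈ hfin.toFinset, f z := by
    refine finsum_mem_eq_sum_of_subset _ ?_ ?_
    · rintro z ⟨h1, h2⟩
      rw [Set.Finite.coe_toFinset]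
      exact ⟨h1, h2⟩
    · intro z hz
      rw [Set.Finite.coe_toFinset] at hz
      exact hz.1
  rw [e1]
  by_cases h : f z0 = 0
  · rw [h]; exact Nat.zero_le _
  · exact Finset.single_le_sum (fun _ _ => Nat.zero_le _) (hfin.mem_toFinset.2 ⟨hz0, h⟩)

theorem fib_le (S : Set ℂ) (f g : ℂ → ℕ) (hf : {z | z ∈ S ∧ f z ≠ 0}.Finite)
    (hg : {z | z ∈ S ∧ g z ≠ 0}.Finite) (hfg : ∀ z, f z ≤ 2 * g z) :
    ∑ᶠ z ∈ S, f z ≤ 2 * ∑ᶠ z ∈ S, g z := by
  classical
  have hT : ((hf.toFinset ∪ hg.toFinset : Finset ℂ) : Set ℂ) ⊆ S := by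
    intro z hz
    rw [Finset.coe_union, Set.Finite.coe_toFinset, Set.Finite.coe_toFinset] at hz
    rcases hz with hz | hz <;> exact hz.1
  have e1 : ∑ᶠ z ∈ S, f z = ∑ z ∈ hf.toFinset ∪ hg.toFinset, f z := by
    refine finsum_mem_eq_sum_of_subset _ ?_ hT
    rintro z ⟨h1, h2⟩
    rw [Finset.coe_union, Set.Finite.coe_toFinset, Set.Finite.coe_toFinset]
    exact Or.inl ⟨h1, h2⟩
  have e2 : ∑ᶠ z ∈ S, g z = ∑ z ∈ hf.toFinset ∪ hg.toFinset, g z := by
    refine finsum_mem_eq_sum_of_subset _ ?_ hT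
    rintro z ⟨h1, h2⟩
    rw [Finset.coe_union, Set.Finite.coe_toFinset, Set.Finite.coe_toFinset]
    exact Or.inr ⟨h1, h2⟩
  rw [e1, e2, Finset.mul_sum]
  exact Finset.sum_le_sum fun z _ => hfg z

/-- trichotomy in terms of `ordZ` -/
theorem fib_cases (h : Ell ω₁ ω₂ θ) (x z : ℂ) :
    (ordZ θ z < 0 ∧ ordZ (fun w => θ w - x) z = ordZ θ z ∧ ordZ (deriv θ) z = ordZ θ z - 1) ∨
      (0 ≤ ordZ θ z ∧ 0 ≤ ordZ (fun w => θ w - x) z ∧ 0 ≤ ordZ (deriv θ) z) := by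
  rcases lt_or_ge (meromorphicOrderAt θ z) 0 with hz | hz
  · left
    have h1 : meromorphicOrderAt θ z ≠ ⊤ := hz.ne_top
    have h2 := fib_int h1
    have hz' := hz
    rw [h2] at hz'
    have h3 : ordZ θ z < 0 := by exact_mod_cast hz'
    have h4 := fib_pole h x z _ h3 h2
    refine ⟨h3, ?_, ?_⟩
    · have := h4.1
      rw [fib_int (fib_ne_top h x z)] at this
      exact_mod_cast this
    · have := h4.2
      rw [fib_int (fib_deriv_ne_top h z)] at this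
      exact_mod_cast this
  · right
    have h4 := fib_nonpole h x z hz
    exact ⟨WithTop.untop₀_nonneg.2 hz, WithTop.untop₀_nonneg.2 h4.1,
      WithTop.untop₀_nonneg.2 h4.2⟩

theorem main (h_ord : S_ord) :
    S_fib := by
  intro ω₁ ω₂ θ h
  have hx : ∀ x : ℂ, {z | z ∈ FD ω₁ ω₂ ∧ ordZ (fun w => θ w - x) z ≠ 0}.Finite ∧
      ∑ᶠ z ∈ FD ω₁ ω₂, ordZ (fun w => θ w - x) z = 0 := by
    intro x
    refine h_ord ω₁ ω₂ (fun w => θ w - x) h.lin (fib_mer h x) (fun z => ⟨?_, ?_⟩)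
      ⟨0, fib_ne_top h x 0⟩
    · simp only [h.per1]
    · simp only [h.per2]
  have hd : {z | z ∈ FD ω₁ ω₂ ∧ ordZ (deriv θ) z ≠ 0}.Finite ∧
      ∑ᶠ z ∈ FD ω₁ ω₂, ordZ (deriv θ) z = 0 := by
    refine h_ord ω₁ ω₂ (deriv θ) h.lin (fun z hz => (h.mer z hz).deriv) (fun z => ⟨?_, ?_⟩)
      ⟨0, fib_deriv_ne_top h 0⟩
    · rw [← deriv_comp_add_const]
      congr 1
      funext w
      exact h.per1 w
    · rw [← deriv_comp_add_const]
      congr 1
      funext w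
      exact h.per2 w
  have hdg : ∀ x : ℂ, ∑ᶠ z ∈ FD ω₁ ω₂, (-(ordZ (fun w => θ w - x) z)).toNat = dgE ω₁ ω₂ θ := by
    intro x
    unfold dgE
    congr 1
    funext z
    congr 1
    funext _
    rcases fib_cases h x z with ⟨h1, h2, _⟩ | ⟨h1, h2, _⟩
    · rw [h2]
    · rw [Int.toNat_of_nonpos (by omega), Int.toNat_of_nonpos (by omega)]
  have hsum : ∀ x : ℂ, ∑ᶠ z ∈ FD ω₁ ω₂, (ordZ (fun w => θ w - x) z).toNat = dgE ω₁ ω₂ θ := by
    intro x
    rw [← hdg x]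
    exact fib_sum _ _ (hx x).1 (hx x).2
  have h0 : (0 : ℂ) ∈ FD ω₁ ω₂ := ⟨0, 0, le_rfl, one_pos, le_rfl, one_pos, by simp⟩
  refine ⟨?_, fun x => ⟨(hx x).1, hsum x⟩, hd.1, ?_⟩
  · rcases lt_or_ge (meromorphicOrderAt θ 0) 0 with hz | hz
    · have h1 : meromorphicOrderAt θ 0 ≠ ⊤ := hz.ne_top
      rw [fib_int h1] at hz
      have h3 : ordZ θ 0 < 0 := by exact_mod_cast hz
      rcases fib_cases h 0 0 with ⟨_, h2, _⟩ | ⟨h2, _, _⟩
      · rw [← hdg 0]
        refine le_trans ?_ (fib_term (FD ω₁ ω₂) (fun z => (-(ordZ (fun w => θ w - 0) z)).toNat)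
          ((hx 0).1.subset fun z hz => ⟨hz.1, fun h => hz.2 (by rw [h]; rfl)⟩) 0 h0)
        rw [h2]
        omega
      · omega
    · obtain ⟨x, hxp⟩ := fib_val h 0 hz
      rw [fib_int (fib_ne_top h x 0)] at hxp
      have h3 : 0 < ordZ (fun w => θ w - x) 0 := by exact_mod_cast hxp
      rw [← hsum x]
      refine le_trans ?_ (fib_term (FD ω₁ ω₂) (fun z => (ordZ (fun w => θ w - x) z).toNat)
        ((hx x).1.subset fun z hz => ⟨hz.1, fun h => hz.2 (by rw [h]; rfl)⟩) 0 h0)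
      omega
  · rw [fib_sum _ _ hd.1 hd.2]
    unfold dgE
    refine fib_le _ _ _ (hd.1.subset fun z hz => ⟨hz.1, fun h => hz.2 (by rw [h]; rfl)⟩)
      ((hx 0).1.subset fun z hz => ⟨hz.1, ?_⟩) ?_
    · intro h'
      rcases fib_cases h 0 z with ⟨h1, h2, _⟩ | ⟨h1, _, _⟩
      · rw [h2] at h'
        omega
      · exact hz.2 (Int.toNat_of_nonpos (by omega))
    · intro z
      rcases fib_cases h 0 z with ⟨h1, _, h2⟩ | ⟨h1, _, h2⟩
      · rw [h2]
        omega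
      · omega

end J_fib

end Pool.Agent.Lev
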