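import Pool.Agent.Lev.Stm5

set_option autoImplicit false

open Polynomial Metric Set Filter Topology

namespace Pool.Agent.Lev

namespace J_fin0

theorem one_le_it (h_dgcp : S_dgcp) (A : RatFunc ℂ) (hA : 2 ≤ dg A) (n : ℕ) : 1 ≤ dg (it A n) := by
  induction n with
  | zero =>
    simp [it, dg]
  | succ n ih =>
    have : it A (n + 1) = cp A (it A n) := by
      simp only [it]
      rw [Function.iterate_succ_apply']
    rw [this, h_dgcp A _ ih]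
    nlinarith

theorem KK_eq (h_pol : S_pol) (h_uniq : S_uniq) {ω₁ ω₂ : ℂ} {θ₁ θ₂ : ℂ → ℂ}
    (h1 : Ell ω₁ ω₂ θ₁) (h2 : Ell ω₁ ω₂ θ₂) {P : Polynomial (Polynomial ℂ)}
    (hP : Irreducible P) (hR : PRel P θ₁ θ₂) :
    KK θ₁ θ₂ = {W | ∃ V, P ∣ pol V W} := by
  have key : ∀ Q : Polynomial (Polynomial ℂ), PRel Q θ₁ θ₂ ↔ P ∣ Q := by
    intro Q
    constructor
    · intro hQ
      exact (h_uniq ω₁ ω₂ θ₁ θ₂ h1 h2).1 P Q hP hR hQ
    · rintro ⟨Q', rfl⟩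
      unfold PRel at hR ⊢
      filter_upwards [hR] with z hz
      rw [Polynomial.evalEval_mul, hz, zero_mul]
  ext W
  simp only [KK, Set.mem_setOf_eq]
  constructor
  · rintro ⟨V, hV⟩
    exact ⟨V, (key _).1 ((h_pol.1 ω₁ ω₂ θ₁ θ₂ h1 h2 V W).1 hV)⟩
  · rintro ⟨V, hV⟩
    exact ⟨V, (h_pol.1 ω₁ ω₂ θ₁ θ₂ h1 h2 V W).2 ((key _).2 hV)⟩

theorem main (h_dgcp : S_dgcp) (h_pol : S_pol) (h_uniq : S_uniq) (h_rel : S_rel) (h_level : S_level) :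
    S_fin0 := by
  classical
  intro A B hA hB n m
  have hne : pol (it A n) (it B m) ≠ 0 :=
    (h_pol.2 _ _ (one_le_it h_dgcp A hA n) (one_le_it h_dgcp B hB m)).1
  refine Set.Finite.subset
    ((UniqueFactorizationMonoid.factors (pol (it A n) (it B m))).toFinset.finite_toSet.image
      (fun P : Polynomial (Polynomial ℂ) => {W : RatFunc ℂ | ∃ V, P ∣ pol V W})) ?_
  rintro K ⟨ω₁, ω₂, θ₁, θ₂, h1, h2, hR, rfl⟩
  obtain ⟨P, hP, -, hPR, hdvd, -⟩ := h_level A B hA hB n m ω₁ ω₂ θ₁ θ₂ h1 h2 hR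
  obtain ⟨q, hq, hPq⟩ := UniqueFactorizationMonoid.exists_mem_factors_of_dvd hne hP hdvd
  refine ⟨q, by simpa using hq, ?_⟩
  rw [KK_eq h_pol h_uniq h1 h2 hP hPR]
  ext W
  simp only [Set.mem_setOf_eq]
  constructor
  · rintro ⟨V, hV⟩
    exact ⟨V, hPq.dvd_iff_dvd_left.2 hV⟩
  · rintro ⟨V, hV⟩
    exact ⟨V, hPq.dvd_iff_dvd_left.1 hV⟩

end J_fin0

end Pool.Agent.Lev
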