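import Pool.Agent.Lev.Stm5

set_option autoImplicit false

open Polynomial Metric Set Filter Topology

namespace Pool.Agent.Lev

namespace J_half

theorem it_succ (A : RatFunc ℂ) (k : ℕ) : it A (k + 1) = cp A (it A k) := by
  unfold it
  rw [Function.iterate_succ_apply']

theorem it_zero (A : RatFunc ℂ) : it A 0 = RatFunc.X := rfl

theorem dg_it (h_alg : S_cancel ∧ S_assoc ∧ S_idr ∧ S_idl ∧ S_GFX) (h_dgcp : S_dgcp)
    (A : RatFunc ℂ) (hA : 1 ≤ dg A) (k : ℕ) : dg (it A k) = dg A ^ k := by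
  induction k with
  | zero => rw [it_zero, pow_zero]; exact h_alg.2.2.2.2.1
  | succ k ih =>
    rw [it_succ, h_dgcp, ih, pow_succ']
    rw [ih]
    exact Nat.one_le_pow _ _ hA

theorem one_le_dg_it (h_alg : S_cancel ∧ S_assoc ∧ S_idr ∧ S_idl ∧ S_GFX) (h_dgcp : S_dgcp)
    (A : RatFunc ℂ) (hA : 1 ≤ dg A) (k : ℕ) : 1 ≤ dg (it A k) := by
  rw [dg_it h_alg h_dgcp A hA]
  exact Nat.one_le_pow _ _ hA

theorem it_add (h_alg : S_cancel ∧ S_assoc ∧ S_idr ∧ S_idl ∧ S_GFX) (h_dgcp : S_dgcp)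
    (A : RatFunc ℂ) (hA : 1 ≤ dg A) (k l : ℕ) : cp (it A k) (it A l) = it A (k + l) := by
  induction k with
  | zero => rw [it_zero, Nat.zero_add]; exact h_alg.2.2.2.1 _
  | succ k ih =>
    rw [it_succ, h_alg.2.1 _ _ _ (one_le_dg_it h_alg h_dgcp A hA k)
      (one_le_dg_it h_alg h_dgcp A hA l), ih, Nat.add_right_comm, it_succ]

theorem main (h_ell0 : S_ell0) (h_evEll : S_evEll) (h_rel : S_rel) (h_fin : S_fin) (h_end : S_end) (h_alg : S_cancel ∧ S_assoc ∧ S_idr ∧ S_idl ∧ S_GFX) (h_dgcp : S_dgcp) :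
    S_half := by
  classical
  intro A B hA hB hspec hlow
  have hA1 : 1 ≤ dg A := by omega
  have hB1 : 1 ≤ dg B := by omega
  have hex : ∀ m : ℕ, ∃ n : ℕ, dg B ^ m ≤ dg A ^ n := by
    intro m
    exact ⟨dg B ^ m, (Nat.lt_pow_self hA).le⟩
  let n : ℕ → ℕ := fun m => Nat.find (hex m)
  have hn : ∀ m, dg B ^ m ≤ dg A ^ n m := fun m => Nat.find_spec (hex m)
  have hmin : ∀ m k, dg B ^ m ≤ dg A ^ k → n m ≤ k := fun m k h => Nat.find_min' (hex m) h
  have hmono : Monotone n := by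
    intro m m' hm
    exact hmin m (n m') ((Nat.pow_le_pow_right hB1 hm).trans (hn m'))
  have hlvl : ∀ m, Lvl (dg A) (dg B) (n m) m := by
    intro m
    refine ⟨hn m, ?_⟩
    rcases Nat.eq_zero_or_pos (n m) with h0 | h0
    · rw [h0, pow_zero]
      exact Nat.one_le_iff_ne_zero.2 (Nat.mul_ne_zero (by omega) (pow_ne_zero _ (by omega)))
    · obtain ⟨k, hk⟩ : ∃ k, n m = k + 1 := ⟨n m - 1, by omega⟩
      have h1 : dg A ^ k < dg B ^ m := by
        by_contra hcon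
        push Not at hcon
        have := hmin m k hcon
        omega
      rw [hk, pow_succ']
      exact Nat.mul_le_mul_left _ h1.le
  have hpos : ∀ m, 1 ≤ m → 1 ≤ n m := by
    intro m hm
    by_contra hcon
    have h0 : n m = 0 := by omega
    have h1 := hn m
    rw [h0, pow_zero] at h1
    have h2 : 2 ≤ dg B ^ m := by
      calc 2 ≤ dg B := hB
        _ = dg B ^ 1 := (pow_one _).symm
        _ ≤ dg B ^ m := Nat.pow_le_pow_right hB1 hm
    omega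
  have hpow : ¬ PowL (dg B) (lf B) := fun h => hspec (Or.inr (Or.inl h))
  refine h_end A B hA hB hpow n hmono hlvl _ (h_fin A B hA hB hspec) ?_
  intro M
  obtain ⟨M', hM'⟩ : ∃ M', M' = max M 1 := ⟨_, rfl⟩
  have hMM' : M ≤ M' := by rw [hM']; exact le_max_left _ _
  have h1M' : 1 ≤ M' := by rw [hM']; exact le_max_right _ _
  obtain ⟨ω₁, ω₂, θ₁, θ₂, hE1, hE2, hR⟩ := h_ell0 _ _ (hlow (n M') M' (hpos M' h1M') h1M')
  have dA := one_le_dg_it h_alg h_dgcp A hA1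
  have dB := one_le_dg_it h_alg h_dgcp B hB1
  have aA := it_add h_alg h_dgcp A hA1
  have aB := it_add h_alg h_dgcp B hB1
  let t1 : ℕ → ℂ → ℂ := fun m z => ev (it A (n M' - n m)) (θ₁ z)
  let t2 : ℕ → ℂ → ℂ := fun m z => ev (it B (M' - m)) (θ₂ z)
  have hT1 : ∀ m, Ell ω₁ ω₂ (t1 m) := fun m => (h_evEll ω₁ ω₂ θ₁ _ hE1 (dA _)).1
  have hT2 : ∀ m, Ell ω₁ ω₂ (t2 m) := fun m => (h_evEll ω₁ ω₂ θ₂ _ hE2 (dB _)).1
  have hbase : ∀ m ≤ M, Rel (t1 m) (t2 m) (it A (n m)) (it B m) := by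
    intro m hm
    have e1 := (h_evEll ω₁ ω₂ θ₁ (it A (n M' - n m)) hE1 (dA _)).2 (it A (n m))
    have e2 := (h_evEll ω₁ ω₂ θ₂ (it B (M' - m)) hE2 (dB _)).2 (it B m)
    have hnm : n m ≤ n M' := hmono (hm.trans hMM')
    rw [aA, Nat.add_sub_cancel' hnm] at e1
    rw [aB, Nat.add_sub_cancel' (hm.trans hMM')] at e2
    unfold Rel at hR ⊢
    filter_upwards [e1, e2, hR] with z h1 h2 h3
    change ev (it A (n m)) (ev (it A (n M' - n m)) (θ₁ z)) = ev (it B m) (ev (it B (M' - m)) (θ₂ z))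
    rw [h1, h2, h3]
  refine ⟨fun m V W => Rel (t1 m) (t2 m) V W, ⟨?_, ?_, ?_, hbase, ?_, ?_⟩, ?_⟩
  · intro m _ V W h
    exact (h_rel ω₁ ω₂ _ _ (hT1 m) (hT2 m)).2.1 V W h
  · intro m _ V W T h hW
    exact (h_rel ω₁ ω₂ _ _ (hT1 m) (hT2 m)).2.2.1 V W T h hW
  · intro m _ V V' W h h'
    exact (h_rel ω₁ ω₂ _ _ (hT1 m) (hT2 m)).2.2.2 V V' W h h'
  · intro m j hmj V W h hW
    have hnm : n m ≤ n (m + j) := hmono (by omega)
    have hnM : n (m + j) ≤ n M' := hmono (hmj.trans hMM')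
    have e1 := (h_evEll ω₁ ω₂ (t1 (m + j)) (it A (n (m + j) - n m)) (hT1 _) (dA _)).2 V
    have e1' := (h_evEll ω₁ ω₂ θ₁ (it A (n M' - n (m + j))) hE1 (dA _)).2 (it A (n (m + j) - n m))
    have e2 := (h_evEll ω₁ ω₂ (t2 (m + j)) (it B j) (hT2 _) (dB _)).2 W
    have e2' := (h_evEll ω₁ ω₂ θ₂ (it B (M' - (m + j))) hE2 (dB _)).2 (it B j)
    rw [aA, show n (m + j) - n m + (n M' - n (m + j)) = n M' - n m by omega] at e1'
    rw [aB, show j + (M' - (m + j)) = M' - m by omega] at e2'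
    change Rel (t1 (m + j)) (t2 (m + j)) _ _
    change Rel (t1 m) (t2 m) V W at h
    unfold Rel at h ⊢
    filter_upwards [e1, e1', e2, e2', h] with z h1 h1' h2 h2' h3
    rw [← h1, ← h2]
    change ev V (ev (it A (n (m + j) - n m)) (ev (it A (n M' - n (m + j))) (θ₁ z))) =
      ev W (ev (it B j) (ev (it B (M' - (m + j))) (θ₂ z)))
    rw [h1', h2']
    exact h3
  · intro m _
    exact (h_rel ω₁ ω₂ _ _ (hT1 m) (hT2 m)).1
  · intro m hm
    exact ⟨n m, m, hlvl m, ω₁, ω₂, t1 m, t2 m, hT1 m, hT2 m, hbase m hm, rfl⟩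

end J_half

end Pool.Agent.Lev
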