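import Pool.Agent.Lev.Stm4

set_option autoImplicit false

open Polynomial Metric Set Filter Topology

namespace Pool.Agent.Lev

namespace J_irr

/-- clearing denominators -/
theorem clr (K : Type) [Field K] [Algebra ℂ[X] K] [IsFractionRing ℂ[X] K] (E : Polynomial K) : ∃ (r : ℂ[X]) (D1 : Polynomial (Polynomial ℂ)),
    r ≠ 0 ∧ D1.map (algebraMap ℂ[X] K) =
      C (algebraMap ℂ[X] K r) * E := by
  obtain ⟨b, hb, h⟩ := IsLocalization.integerNormalization_spec (nonZeroDivisors ℂ[X]) E
  refine ⟨b, _, nonZeroDivisors.ne_zero hb, h.trans ?_⟩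
  rw [algebra_compatible_smul K b E, smul_eq_C_mul]

theorem inj (K : Type) [Field K] [Algebra ℂ[X] K] [IsFractionRing ℂ[X] K] : Function.Injective (Polynomial.map (algebraMap ℂ[X] K)) :=
  Polynomial.map_injective _ (IsFractionRing.injective _ _)

theorem main_aux (K : Type) [Field K] [Algebra ℂ[X] K] [IsFractionRing ℂ[X] K] (P : Polynomial (Polynomial ℂ)) (hP : Irreducible P) (hP1 : 1 ≤ P.natDegree) :
    ∀ (n : ℕ) (D : Polynomial (Polynomial ℂ)), D.natDegree < n → D ≠ 0 →
    (∃ S : Finset ℂ, ∀ x, x ∉ S → ∀ y, D.evalEval x y = 0 → P.evalEval x y = 0) →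
    ∃ (k : ℕ) (u v : ℂ[X]), u ≠ 0 ∧ v ≠ 0 ∧ C u * D = C v * P ^ k := by
  classical
  have hprim : P.IsPrimitive := hP.isPrimitive (by omega)
  have hP' : Irreducible (P.map (algebraMap ℂ[X] K)) :=
    (hprim.irreducible_iff_irreducible_map_fraction_map
      (K := K)).1 hP
  intro n
  induction n with
  | zero => intro D h; exact absurd h (Nat.not_lt_zero _)
  | succ n ih =>
    rintro D hDn hD0 ⟨S, hS⟩
    by_cases hd0 : D.natDegree = 0
    · refine ⟨0, 1, D.coeff 0, one_ne_zero, ?_, ?_⟩
      · intro h
        apply hD0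
        rw [eq_C_of_natDegree_eq_zero hd0, h, C_0]
      · rw [C_1, one_mul, pow_zero, mul_one]
        exact eq_C_of_natDegree_eq_zero hd0
    by_cases hdvd : P.map (algebraMap ℂ[X] K) ∣
        D.map (algebraMap ℂ[X] K)
    · obtain ⟨E, hE⟩ := hdvd
      obtain ⟨r, D1, hr, hD1⟩ := clr K E
      have hmul : C r * D = P * D1 := by
        apply inj K
        rw [Polynomial.map_mul, Polynomial.map_mul, hD1, hE, Polynomial.map_C]
        ring
      have hCr : (C r : Polynomial (Polynomial ℂ)) ≠ 0 := C_ne_zero.2 hr
      have hD10 : D1 ≠ 0 := by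
        intro h
        rw [h, mul_zero] at hmul
        exact mul_ne_zero hCr hD0 hmul
      have hdeg : D.natDegree = P.natDegree + D1.natDegree := by
        have h1 := congrArg natDegree hmul
        rw [natDegree_mul hCr hD0, natDegree_C, zero_add, natDegree_mul hP.ne_zero hD10] at h1
        exact h1
      obtain ⟨k, u, v, hu, hv, huv⟩ := ih D1 (by omega) hD10 ⟨S ∪ r.roots.toFinset, by
        intro x hx y hy
        rw [Finset.mem_union, not_or] at hx
        have hrx : r.eval x ≠ 0 := by
          intro h
          apply hx.2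
          rw [Multiset.mem_toFinset, mem_roots hr]
          exact h
        have h1 := congrArg (evalEval x y) hmul
        rw [evalEval_mul, evalEval_mul, evalEval_C, hy, mul_zero] at h1
        exact hS x hx.1 y ((mul_eq_zero.1 h1).resolve_left hrx)⟩
      refine ⟨k + 1, u * r, v, mul_ne_zero hu hr, hv, ?_⟩
      calc C (u * r) * D = C u * (C r * D) := by rw [C_mul, mul_assoc]
        _ = P * (C u * D1) := by rw [hmul]; ring
        _ = C v * P ^ (k + 1) := by rw [huv]; ring
    · exfalso
      obtain ⟨a, b, hab⟩ := (hP'.coprime_iff_not_dvd).2 hdvd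
      obtain ⟨ra, A, hra, hA⟩ := clr K a
      obtain ⟨rb, B, hrb, hB⟩ := clr K b
      have hAB : C rb * A * P + C ra * B * D = C (ra * rb) := by
        apply inj K
        rw [Polynomial.map_add, Polynomial.map_mul, Polynomial.map_mul, Polynomial.map_mul,
          Polynomial.map_mul, hA, hB, Polynomial.map_C, Polynomial.map_C, Polynomial.map_C,
          map_mul, C_mul]
        calc _ = C (algebraMap ℂ[X] K ra) *
              C (algebraMap ℂ[X] K rb) *
              (a * P.map (algebraMap ℂ[X] K) +
                b * D.map (algebraMap ℂ[X] K)) := by ring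
          _ = _ := by rw [hab, mul_one]
      have hw : ra * rb ≠ 0 := mul_ne_zero hra hrb
      have hlc : D.leadingCoeff ≠ 0 := leadingCoeff_ne_zero.2 hD0
      obtain ⟨x, hx⟩ := Infinite.exists_notMem_finset
        (S ∪ ((ra * rb).roots.toFinset ∪ D.leadingCoeff.roots.toFinset))
      rw [Finset.mem_union, Finset.mem_union, not_or, not_or] at hx
      obtain ⟨hxS, hxw, hxl⟩ := hx
      have hwx : (ra * rb).eval x ≠ 0 := by
        intro h
        apply hxw
        rw [Multiset.mem_toFinset, mem_roots hw]
        exact h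
      have hlx : D.leadingCoeff.eval x ≠ 0 := by
        intro h
        apply hxl
        rw [Multiset.mem_toFinset, mem_roots hlc]
        exact h
      have hnd : (D.map (evalRingHom x)).natDegree = D.natDegree :=
        natDegree_map_of_leadingCoeff_ne_zero _ hlx
      obtain ⟨y, hy⟩ := IsAlgClosed.exists_root (D.map (evalRingHom x)) (by
        intro h
        have h9 : (D.map (evalRingHom x)).natDegree = 0 :=
          natDegree_eq_zero_iff_degree_le_zero.2 h.le
        omega)
      have hDy : D.evalEval x y = 0 := by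
        rw [← map_evalRingHom_eval]
        exact hy
      have hPy := hS x hxS y hDy
      have h1 := congrArg (evalEval x y) hAB
      simp only [evalEval_add, evalEval_mul, hDy, hPy, mul_zero, add_zero] at h1
      rw [evalEval_C] at h1
      exact hwx h1.symm

theorem main :
    S_irr := by
  intro P D hP hP1 hD hS
  exact main_aux (FractionRing ℂ[X]) P hP hP1 (D.natDegree + 1) D (Nat.lt_succ_self _) hD hS

end J_irr

end Pool.Agent.Lev
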