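import Pool.Agent.Lev.Stm5

set_option autoImplicit false

open Polynomial Metric Set Filter Topology

namespace Pool.Agent.Lev

namespace J_level

theorem dgX : dg (RatFunc.X : RatFunc ℂ) = 1 := by
  unfold dg
  rw [RatFunc.num_X, RatFunc.denom_X]
  simp

theorem bf_smul (d : ℕ) (p : ℂ[X]) (μ : ℂ) (v : ℂ × ℂ) : bf d p (μ • v) = μ ^ d * bf d p v := by
  unfold bf
  rw [Finset.mul_sum]
  refine Finset.sum_congr rfl fun i hi => ?_
  have hi' : i ≤ d := Nat.lt_succ_iff.1 (Finset.mem_range.1 hi)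
  simp only [Prod.smul_fst, Prod.smul_snd, smul_eq_mul, mul_pow]
  have : μ ^ d = μ ^ i * μ ^ (d - i) := by rw [← pow_add, Nat.add_sub_cancel' hi']
  rw [this]
  ring

theorem lfX (v : ℂ × ℂ) : lf (RatFunc.X : RatFunc ℂ) v = v := by
  unfold lf
  rw [dgX, RatFunc.num_X, RatFunc.denom_X]
  unfold bf
  simp [Finset.sum_range_succ, Polynomial.coeff_X, Polynomial.coeff_one]

theorem it_succ (A : RatFunc ℂ) (n : ℕ) : it A (n + 1) = cp A (it A n) := by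
  unfold it
  rw [Function.iterate_succ_apply']

theorem dg_it (h_dgcp : S_dgcp) (A : RatFunc ℂ) (hA : 2 ≤ dg A) (n : ℕ) :
    dg (it A n) = dg A ^ n ∧ 1 ≤ dg (it A n) := by
  induction n with
  | zero =>
    have : it A 0 = RatFunc.X := rfl
    rw [this, dgX]
    simp
  | succ n ih =>
    have h1 : dg (it A (n + 1)) = dg A ^ (n + 1) := by
      rw [it_succ, h_dgcp _ _ ih.2, ih.1, pow_succ, mul_comm]
    refine ⟨h1, ?_⟩
    rw [h1]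
    exact Nat.one_le_pow _ _ (by omega)

theorem lf_it (hBasics : Basics) (h_lf : S_lf) (h_dgcp : S_dgcp) (h_lfcp : S_lfcp)
    (A : RatFunc ℂ) (hA : 2 ≤ dg A) (n : ℕ) :
    ∃ κ : ℂ, κ ≠ 0 ∧ ∀ v, lf (it A n) v = κ • (lf A)^[n] v := by
  induction n with
  | zero =>
    refine ⟨1, one_ne_zero, fun v => ?_⟩
    have : it A 0 = RatFunc.X := rfl
    rw [this, lfX, one_smul]
    rfl
  | succ n ih =>
    obtain ⟨κ, hκ, h⟩ := ih
    obtain ⟨c, hc, h'⟩ := h_lfcp A (it A n) (dg_it h_dgcp A hA n).2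
    refine ⟨c * κ ^ dg A, mul_ne_zero hc (pow_ne_zero _ hκ), fun v => ?_⟩
    rw [it_succ, h', h, hBasics.smul (h_lf A), smul_smul, Function.iterate_succ_apply']

theorem main (hBasics : Basics) (h_lf : S_lf) (h_dgcp : S_dgcp) (h_lfcp : S_lfcp) (h_ST : S_ST) (h_uniq : S_uniq) (h_pol : S_pol) (h_norm : S_norm) (h_rel : S_rel) :
    S_level := by
  intro A B hA hB n m ω₁ ω₂ θ₁ θ₂ e1 e2 hR
  obtain ⟨hdA, hdA1⟩ := dg_it h_dgcp A hA n
  obtain ⟨hdB, hdB1⟩ := dg_it h_dgcp B hB m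
  obtain ⟨κA, hκA, hlA⟩ := lf_it hBasics h_lf h_dgcp h_lfcp A hA n
  obtain ⟨κB, hκB, hlB⟩ := lf_it hBasics h_lf h_dgcp h_lfcp B hB m
  have hP := (h_pol.1 ω₁ ω₂ θ₁ θ₂ e1 e2 (it A n) (it B m)).1 hR
  obtain ⟨hne, hwd⟩ := h_pol.2 (it A n) (it B m) hdA1 hdB1
  obtain ⟨P, hPi, hPd, hPdvd, hPrel⟩ := (h_uniq ω₁ ω₂ θ₁ θ₂ e1 e2).2.1 _ hne hP
  refine ⟨P, hPi, hPd, hPrel, hPdvd, ?_⟩
  intro M c ρ hρ hM hdis
  obtain ⟨s, t, g, ht1, ht2, hgd, hg, hgn⟩ :=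
    h_ST ω₁ ω₂ θ₁ θ₂ e1 e2 P hPi hPd hPrel M c ρ hρ hM hdis
  have hw : ∀ i, ∀ x ∈ ball (c s) (ρ / 2), g i x ≠ 0 ∧
      wd ((lf A)^[n] (x, 1)) ((lf B)^[m] (g i x)) = 0 := by
    intro i x hx
    refine ⟨(hg i x hx).1, ?_⟩
    have h1 := hwd P hPdvd x (g i x) (hg i x hx).2 (hg i x hx).1
    rw [hlA, hlB, wd_smul_left, wd_smul_right] at h1
    have h2 := (mul_eq_zero.1 h1).resolve_left hκA
    exact (mul_eq_zero.1 h2).resolve_left hκB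
  have hB1 : 1 ≤ dg B ^ m := by rw [← hdB]; exact hdB1
  have hex := fun i => h_norm _ _ ((lf A)^[n]) ((lf B)^[m]) (hBasics.iter (h_lf A) n)
    (hBasics.iter (h_lf B) m) hB1 (g i) (c s) (ρ / 2) (hgd i) (hw i)
  choose g' hg'd hg' using hex
  refine ⟨s, t, g', ht1, ht2, hg'd, ?_, ?_⟩
  · intro i x hx
    obtain ⟨h1, h2, h3⟩ := hg' i x hx
    refine ⟨h1, h3, ?_⟩
    obtain ⟨μ, hμ⟩ := exists_smul_of_wd (hg i x hx).1 h2
    rw [hμ, bf_smul, (hg i x hx).2, mul_zero]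
  · intro i j hij
    obtain ⟨x, hx, hxn⟩ := hgn i j hij
    refine ⟨x, hx, fun h0 => hxn ?_⟩
    obtain ⟨h1, h2, -⟩ := hg' i x hx
    obtain ⟨h1', h2', -⟩ := hg' j x hx
    exact wd_trans h1' (wd_trans h1 h2 h0) (wd_symm h2')

end J_level

end Pool.Agent.Lev
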