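import Pool.Agent.Lev.Stm5

set_option autoImplicit false

open Polynomial Metric Set Filter Topology

namespace Pool.Agent.Lev

namespace J_lim

theorem iter_inv {a : ℕ} {F : ℂ × ℂ → ℂ × ℂ} {G : ℂ × ℂ → ℝ} (hF : IsLift a F)
    (hG : Inv G a F) (n : ℕ) : ∀ v, v ≠ 0 → F^[n] v ≠ 0 ∧ G (F^[n] v) = (a : ℝ) ^ n * G v := by
  induction n with
  | zero => intro v hv; simp [hv]
  | succ n ih =>
    intro v hv
    have h1 := ih (F v) (hF.2 v hv)
    rw [Function.iterate_succ_apply]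
    refine ⟨h1.1, ?_⟩
    rw [h1.2, hG v hv, pow_succ]
    ring

theorem main (hBasics : Basics) :
    S_lim := by
  intro a b F GA GB hF ha hb hGA hGB hInv n m hL hm
  obtain ⟨CA, hCA0, hCA⟩ := hBasics.gbound hGA
  obtain ⟨CB, hCB0, hCB⟩ := hBasics.gbound hGB
  have hAB : ∀ v, v ≠ 0 → |GB v - GA v| ≤ CA + CB := by
    intro v hv
    have h1 := abs_le.1 (hCA v hv)
    have h2 := abs_le.1 (hCB v hv)
    rw [abs_le]
    constructor <;> linarith [h1.1, h1.2, h2.1, h2.2]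
  have ha0 : (0:ℝ) < a := by exact_mod_cast (by omega : 0 < a)
  have hb1 : (1:ℝ) < b := by exact_mod_cast (by omega : 1 < b)
  have hb0 : (0:ℝ) < b := by linarith
  have hγ : ∀ k, (a : ℝ) ^ (n k) / (b : ℝ) ^ (m k) ∈ Icc (1:ℝ) a := by
    intro k
    obtain ⟨l1, l2⟩ := hL k
    have hp : (0:ℝ) < (b : ℝ) ^ (m k) := by positivity
    have l1' : (b : ℝ) ^ (m k) ≤ (a : ℝ) ^ (n k) := by exact_mod_cast l1
    have l2' : (a : ℝ) ^ (n k) ≤ a * (b : ℝ) ^ (m k) := by exact_mod_cast l2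
    exact ⟨(one_le_div hp).2 l1', (div_le_iff₀ hp).2 l2'⟩
  obtain ⟨γ, hγm, φ, hφ, hlim⟩ := isCompact_Icc.tendsto_subseq hγ
  have hbnd : ∀ R : ℝ, ∀ x ∈ ball (0:ℂ) R, |GA (x, 1)| ≤ Real.log (max R 1) + CA := by
    intro R x hx
    have h1 := abs_le.1 (hCA (x, 1) (prod_one_ne x))
    have hn : ‖((x, 1) : ℂ × ℂ)‖ = max ‖x‖ 1 := by simp [Prod.norm_def]
    have h2 : 0 ≤ Real.log ‖((x, 1) : ℂ × ℂ)‖ := by
      rw [hn]; exact Real.log_nonneg (le_max_right _ _)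
    have h3 : Real.log ‖((x, 1) : ℂ × ℂ)‖ ≤ Real.log (max R 1) := by
      rw [hn]
      refine Real.log_le_log (by positivity) (max_le_max ?_ le_rfl)
      rw [mem_ball, dist_zero_right] at hx
      exact hx.le
    rw [abs_le]
    constructor <;> linarith [h1.1, h1.2]
  have hC2 : ∀ R : ℝ, 0 ≤ Real.log (max R 1) + CA := fun R =>
    add_nonneg (Real.log_nonneg (le_max_right _ _)) hCA0
  have hdec : ∀ k, ∀ x : ℂ, GB (F^[n (φ k)] (x, 1)) / (b : ℝ) ^ (m (φ k)) =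
      (GB (F^[n (φ k)] (x, 1)) - GA (F^[n (φ k)] (x, 1))) / (b : ℝ) ^ (m (φ k))
        + (a : ℝ) ^ (n (φ k)) / (b : ℝ) ^ (m (φ k)) * GA (x, 1) := by
    intro k x
    rw [(iter_inv hF hInv (n (φ k)) (x, 1) (prod_one_ne x)).2]
    ring
  have herr : ∀ k, ∀ x : ℂ,
      |(GB (F^[n (φ k)] (x, 1)) - GA (F^[n (φ k)] (x, 1))) / (b : ℝ) ^ (m (φ k))|
        ≤ (CA + CB) / (b : ℝ) ^ (m (φ k)) := by
    intro k x
    have hp : (0:ℝ) < (b : ℝ) ^ (m (φ k)) := by positivity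
    rw [abs_div, abs_of_pos hp]
    gcongr
    exact hAB _ (iter_inv hF hInv (n (φ k)) (x, 1) (prod_one_ne x)).1
  refine ⟨φ, hφ, γ, hγm.1, fun R => ⟨?_, ?_⟩⟩
  · rw [Metric.tendstoUniformlyOn_iff]
    intro ε hε
    have t1 : Tendsto (fun k => |(a : ℝ) ^ (n (φ k)) / (b : ℝ) ^ (m (φ k)) - γ|
        * (Real.log (max R 1) + CA)) atTop (𝓝 0) := by
      have : Tendsto (fun k => (a : ℝ) ^ (n (φ k)) / (b : ℝ) ^ (m (φ k)) - γ) atTop (𝓝 (γ - γ)) :=
        hlim.sub_const γ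
      rw [sub_self] at this
      have h2 := this.abs.mul_const (Real.log (max R 1) + CA)
      simpa using h2
    have t2 : Tendsto (fun k => (CA + CB) / (b : ℝ) ^ (m (φ k))) atTop (𝓝 0) := by
      have h1 : Tendsto (fun k => (b : ℝ) ^ (m (φ k))) atTop atTop :=
        (tendsto_pow_atTop_atTop_of_one_lt hb1).comp (hm.comp hφ.tendsto_atTop)
      exact h1.const_div_atTop _
    have t3 := t1.add t2
    rw [add_zero] at t3
    filter_upwards [t3.eventually (gt_mem_nhds hε)] with k hk x hx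
    refine lt_of_le_of_lt ?_ hk
    rw [dist_comm, Real.dist_eq, hdec k x]
    have e : (GB (F^[n (φ k)] (x, 1)) - GA (F^[n (φ k)] (x, 1))) / (b : ℝ) ^ (m (φ k))
        + (a : ℝ) ^ (n (φ k)) / (b : ℝ) ^ (m (φ k)) * GA (x, 1) - γ * GA (x, 1) =
        ((a : ℝ) ^ (n (φ k)) / (b : ℝ) ^ (m (φ k)) - γ) * GA (x, 1)
        + (GB (F^[n (φ k)] (x, 1)) - GA (F^[n (φ k)] (x, 1))) / (b : ℝ) ^ (m (φ k)) := by ring
    rw [e]
    refine (abs_add_le _ _).trans (add_le_add ?_ (herr k x))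
    rw [abs_mul]
    gcongr
    exact hbnd R x hx
  · refine ⟨(CA + CB) + a * (Real.log (max R 1) + CA), fun k x hx => ?_⟩
    rw [hdec k x]
    refine (abs_add_le _ _).trans (add_le_add ((herr k x).trans ?_) ?_)
    · refine div_le_self (by positivity) (one_le_pow₀ hb1.le)
    · have hγk := hγ (φ k)
      rw [abs_mul, abs_of_nonneg (zero_le_one.trans hγk.1)]
      have := hC2 R
      gcongr
      · exact hγk.2
      · exact hbnd R x hx

end J_lim

end Pool.Agent.Lev
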