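import Pool.Agent.Lev.Stm4

set_option autoImplicit false

open Polynomial Metric Set Filter Topology

namespace Pool.Agent.Lev

namespace J_locsec

/-- finite order of `θ - x` everywhere -/
theorem ord_ne_top (h_fib : S_fib) (ω₁ ω₂ : ℂ) (θ : ℂ → ℂ) (hE : Ell ω₁ ω₂ θ) (x z : ℂ) :
    meromorphicOrderAt (fun w => θ w - x) z ≠ ⊤ := by
  have hm : MeromorphicOn (fun w => θ w - x) Set.univ := by
    intro w _
    exact (hE.mer w (Set.mem_univ w)).sub (MeromorphicAt.const x w)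
  obtain ⟨h1, h2, -⟩ := h_fib ω₁ ω₂ θ hE
  obtain ⟨-, hsum⟩ := h2 x
  have hex : ∃ u : ℂ, meromorphicOrderAt (fun w => θ w - x) u ≠ ⊤ := by
    by_contra hcon
    push Not at hcon
    have h0 : ∀ u, ordZ (fun w => θ w - x) u = 0 := by
      intro u
      unfold ordZ
      rw [hcon u]
      rfl
    have h3 : ∑ᶠ z ∈ FD ω₁ ω₂, (ordZ (fun w => θ w - x) z).toNat = 0 := by
      simp [h0]
    omega
  obtain ⟨u, hu⟩ := hex
  exact hm.meromorphicOrderAt_ne_top_of_isPreconnected isPreconnected_univ (Set.mem_univ u) (Set.mem_univ z) hu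

theorem ord_pos_of_sol (h_fib : S_fib) (ω₁ ω₂ : ℂ) (θ : ℂ → ℂ) (hE : Ell ω₁ ω₂ θ) (x z : ℂ)
    (ha : AnalyticAt ℂ θ z) (hx : θ z = x) : 1 ≤ (ordZ (fun w => θ w - x) z).toNat := by
  have hne := ord_ne_top h_fib ω₁ ω₂ θ hE x z
  have ha' : AnalyticAt ℂ (fun w => θ w - x) z := ha.sub analyticAt_const
  have h0 : analyticOrderAt (fun w => θ w - x) z ≠ 0 := by
    rw [ha'.analyticOrderAt_ne_zero]
    rw [hx, sub_self]
  unfold ordZ
  rw [ha'.meromorphicOrderAt_eq] at hne ⊢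
  cases h : analyticOrderAt (fun w => θ w - x) z with
  | top => rw [h] at hne; exact absurd rfl hne
  | coe n =>
    rw [h] at h0
    have hn : n ≠ 0 := by
      rintro rfl
      exact h0 rfl
    have : ((n : ℕ∞).map (fun m : ℕ => (m : ℤ))) = ((n : ℤ) : WithTop ℤ) := rfl
    show 1 ≤ (WithTop.untop₀ ((n : ℤ) : WithTop ℤ)).toNat
    rw [WithTop.untop₀_coe, Int.toNat_natCast]
    omega

theorem ord_one_of_sol (θ : ℂ → ℂ) (x z : ℂ)
    (ha : AnalyticAt ℂ θ z) (hx : θ z = x) (hd : deriv θ z ≠ 0) : (ordZ (fun w => θ w - x) z).toNat = 1 := by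
  have ha' : AnalyticAt ℂ (fun w => θ w - x) z := ha.sub analyticAt_const
  have h0 : analyticOrderAt (fun w => θ w - x) z = 1 := by
    rw [← hx]
    exact ha.analyticOrderAt_sub_eq_one_of_deriv_ne_zero hd
  unfold ordZ
  rw [ha'.meromorphicOrderAt_eq, h0]
  rfl

theorem sol_of_ord (ω₁ ω₂ : ℂ) (θ : ℂ → ℂ) (hE : Ell ω₁ ω₂ θ) (hN : MeromorphicNFOn θ Set.univ) (x z : ℂ)
    (h : (ordZ (fun w => θ w - x) z).toNat ≠ 0) : AnalyticAt ℂ θ z ∧ θ z = x := by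
  have hm : MeromorphicAt θ z := hE.mer z (Set.mem_univ z)
  have hpos : 0 < ordZ (fun w => θ w - x) z := by
    by_contra hc
    push Not at hc
    exact h (Int.toNat_of_nonpos hc)
  have hpos' : 0 < meromorphicOrderAt (fun w => θ w - x) z := by
    unfold ordZ at hpos
    cases h' : meromorphicOrderAt (fun w => θ w - x) z with
    | top => exact WithTop.coe_lt_top 0
    | coe n =>
      rw [h'] at hpos
      rw [WithTop.untop₀_coe] at hpos
      exact_mod_cast hpos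
  have ha : AnalyticAt ℂ θ z := by
    rw [← (hN (Set.mem_univ z)).meromorphicOrderAt_nonneg_iff_analyticAt]
    by_contra hc
    push Not at hc
    have hcst : 0 ≤ meromorphicOrderAt (fun _ : ℂ => -x) z := (analyticAt_const).meromorphicOrderAt_nonneg
    have h2 := meromorphicOrderAt_add_eq_left_of_lt (MeromorphicAt.const (-x) z) (lt_of_lt_of_le hc hcst)
    have h3 : (θ + fun _ : ℂ => -x) = fun w => θ w - x := by
      funext w
      simp [sub_eq_add_neg]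
    rw [h3] at h2
    rw [h2] at hpos'
    exact absurd hc (not_lt.mpr hpos'.le)
  have ha' : AnalyticAt ℂ (fun w => θ w - x) z := ha.sub analyticAt_const
  refine ⟨ha, ?_⟩
  have h0 : analyticOrderAt (fun w => θ w - x) z ≠ 0 := by
    intro h0
    rw [ha'.meromorphicOrderAt_eq, h0] at hpos'
    exact absurd hpos' (lt_irrefl _)
  rw [ha'.analyticOrderAt_ne_zero] at h0
  exact sub_eq_zero.mp h0

theorem coords (ω₁ ω₂ : ℂ) (h : LinearIndependent ℝ ![ω₁, ω₂]) : ∃ c₁ c₂ : ℂ →L[ℝ] ℝ,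
    (∀ z : ℂ, z = (c₁ z : ℂ) * ω₁ + (c₂ z : ℂ) * ω₂) ∧ c₁ ω₁ = 1 ∧ c₁ ω₂ = 0 ∧ c₂ ω₁ = 0 ∧ c₂ ω₂ = 1 := by
  let b := basisOfLinearIndependentOfCardEqFinrank h (by simp [Complex.finrank_real_complex])
  have hb0 : b 0 = ω₁ := by simp [b]
  have hb1 : b 1 = ω₂ := by simp [b]
  refine ⟨LinearMap.toContinuousLinearMap (b.coord 0), LinearMap.toContinuousLinearMap (b.coord 1), ?_, ?_, ?_, ?_, ?_⟩
  · intro z
    have h1 := b.sum_repr z
    rw [Fin.sum_univ_two, hb0, hb1] at h1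
    simp only [Complex.real_smul] at h1
    exact h1.symm
  · show b.coord 0 ω₁ = 1
    rw [← hb0]; simp
  · show b.coord 0 ω₂ = 0
    rw [← hb1]; simp
  · show b.coord 1 ω₁ = 0
    rw [← hb0]; simp
  · show b.coord 1 ω₂ = 1
    rw [← hb1]; simp

/-- congruence modulo the lattice -/
def Cg (ω₁ ω₂ z w : ℂ) : Prop := ∃ m n : ℤ, z = w + (m : ℂ) * ω₁ + (n : ℂ) * ω₂

theorem Cg.symm {ω₁ ω₂ z w : ℂ} (h : Cg ω₁ ω₂ z w) : Cg ω₁ ω₂ w z := by
  obtain ⟨m, n, rfl⟩ := h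
  exact ⟨-m, -n, by push_cast; ring⟩

theorem Cg.trans {ω₁ ω₂ z w u : ℂ} (h : Cg ω₁ ω₂ z w) (h' : Cg ω₁ ω₂ w u) : Cg ω₁ ω₂ z u := by
  obtain ⟨m, n, rfl⟩ := h
  obtain ⟨m', n', rfl⟩ := h'
  exact ⟨m' + m, n' + n, by push_cast; ring⟩

theorem FD_rep (ω₁ ω₂ : ℂ) (h : LinearIndependent ℝ ![ω₁, ω₂]) (z : ℂ) : ∃ w ∈ FD ω₁ ω₂, Cg ω₁ ω₂ z w := by
  obtain ⟨c₁, c₂, hz, -⟩ := coords ω₁ ω₂ h
  refine ⟨(Int.fract (c₁ z) : ℝ) * ω₁ + (Int.fract (c₂ z) : ℝ) * ω₂,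
    ⟨Int.fract (c₁ z), Int.fract (c₂ z), Int.fract_nonneg _, Int.fract_lt_one _, Int.fract_nonneg _,
      Int.fract_lt_one _, rfl⟩, ⌊c₁ z⌋, ⌊c₂ z⌋, ?_⟩
  have h1 : (c₁ z : ℂ) = (Int.fract (c₁ z) : ℝ) + ((⌊c₁ z⌋ : ℤ) : ℂ) := by
    have := Int.fract_add_floor (c₁ z)
    exact_mod_cast this.symm
  have h2 : (c₂ z : ℂ) = (Int.fract (c₂ z) : ℝ) + ((⌊c₂ z⌋ : ℤ) : ℂ) := by
    have := Int.fract_add_floor (c₂ z)
    exact_mod_cast this.symm
  calc z = (c₁ z : ℂ) * ω₁ + (c₂ z : ℂ) * ω₂ := hz z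
    _ = _ := by rw [h1, h2]; ring_nf

theorem FD_open (ω₁ ω₂ : ℂ) (h : LinearIndependent ℝ ![ω₁, ω₂]) : ∃ U : Set ℂ, IsOpen U ∧
    (∀ z ∈ FD ω₁ ω₂, ∀ w ∈ FD ω₁ ω₂, z ≠ w → z - w ∈ U) ∧ ∀ m n : ℤ, (m : ℂ) * ω₁ + (n : ℂ) * ω₂ ∉ U := by
  obtain ⟨c₁, c₂, hz, h11, h12, h21, h22⟩ := coords ω₁ ω₂ h
  have hc1 : ∀ s t : ℝ, c₁ ((s : ℂ) * ω₁ + (t : ℂ) * ω₂) = s := by
    intro s t
    rw [map_add, ← Complex.real_smul, ← Complex.real_smul, map_smul, map_smul, h11, h12]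
    simp
  have hc2 : ∀ s t : ℝ, c₂ ((s : ℂ) * ω₁ + (t : ℂ) * ω₂) = t := by
    intro s t
    rw [map_add, ← Complex.real_smul, ← Complex.real_smul, map_smul, map_smul, h21, h22]
    simp
  refine ⟨{u | |c₁ u| < 1 ∧ |c₂ u| < 1 ∧ u ≠ 0}, ?_, ?_, ?_⟩
  · apply IsOpen.inter
    · exact isOpen_lt (c₁.continuous.abs) continuous_const
    · apply IsOpen.inter
      · exact isOpen_lt (c₂.continuous.abs) continuous_const
      · exact isOpen_ne
  · rintro z ⟨s, t, hs0, hs1, ht0, ht1, rfl⟩ w ⟨s', t', hs0', hs1', ht0', ht1', rfl⟩ hne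
    refine ⟨?_, ?_, sub_ne_zero.mpr hne⟩
    · rw [map_sub, hc1, hc1, abs_lt]
      constructor <;> linarith
    · rw [map_sub, hc2, hc2, abs_lt]
      constructor <;> linarith
  · rintro m n ⟨h1, h2, h3⟩
    have e1 := hc1 (m : ℝ) (n : ℝ)
    have e2 := hc2 (m : ℝ) (n : ℝ)
    push_cast at e1 e2
    rw [e1] at h1
    rw [e2] at h2
    have hm : m = 0 := by
      rw [← Int.abs_lt_one_iff]
      exact_mod_cast h1
    have hn : n = 0 := by
      rw [← Int.abs_lt_one_iff]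
      exact_mod_cast h2
    apply h3
    rw [hm, hn]
    simp

theorem per_Cg {ω₁ ω₂ : ℂ} {θ : ℂ → ℂ} (hE : Ell ω₁ ω₂ θ) {z w : ℂ} (h : Cg ω₁ ω₂ z w) :
    θ z = θ w ∧ (AnalyticAt ℂ θ w → AnalyticAt ℂ θ z) := by
  obtain ⟨m, n, rfl⟩ := h
  have h1 : Function.Periodic θ ω₁ := hE.per1
  have h2 : Function.Periodic θ ω₂ := hE.per2
  have h3 : ∀ w, θ (w + (m : ℂ) * ω₁ + (n : ℂ) * ω₂) = θ w := by
    intro w
    rw [(h2.int_mul n) _, (h1.int_mul m) _]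
  refine ⟨h3 w, fun ha => ?_⟩
  have h4 : θ = fun u => θ (u - ((m : ℂ) * ω₁ + (n : ℂ) * ω₂)) := by
    funext u
    rw [← h3 (u - ((m : ℂ) * ω₁ + (n : ℂ) * ω₂))]
    congr 1
    ring
  rw [h4]
  have h5 : AnalyticAt ℂ (fun u : ℂ => u - ((m : ℂ) * ω₁ + (n : ℂ) * ω₂)) (w + (m : ℂ) * ω₁ + (n : ℂ) * ω₂) :=
    analyticAt_id.sub analyticAt_const
  have h6 : AnalyticAt ℂ θ ((w + (m : ℂ) * ω₁ + (n : ℂ) * ω₂) - ((m : ℂ) * ω₁ + (n : ℂ) * ω₂)) := by
    have : (w + (m : ℂ) * ω₁ + (n : ℂ) * ω₂) - ((m : ℂ) * ω₁ + (n : ℂ) * ω₂) = w := by ring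
    rw [this]
    exact ha
  exact AnalyticAt.fun_comp h6 h5

/-- local inverse -/
theorem loc_inv (θ : ℂ → ℂ) (z x : ℂ) (ha : AnalyticAt ℂ θ z) (hx : θ z = x) (hd : deriv θ z ≠ 0) :
    ∃ s : ℂ → ℂ, s x = z ∧ ContinuousAt s x ∧
      ∀ᶠ y in 𝓝 x, DifferentiableAt ℂ s y ∧ AnalyticAt ℂ θ (s y) ∧ θ (s y) = y := by
  subst hx
  have hcd : ContDiffAt ℂ 1 θ z := ha.contDiffAt
  have hsd : HasStrictDerivAt θ (deriv θ z) z := ha.hasStrictDerivAt
  have hfd := hsd.hasStrictFDerivAt_equiv hd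
  have hf' : HasFDerivAt θ ((ContinuousLinearEquiv.unitsEquivAut ℂ (Units.mk0 (deriv θ z) hd) : ℂ ≃L[ℂ] ℂ) : ℂ →L[ℂ] ℂ) z :=
    hfd.hasFDerivAt
  have hne : (1 : WithTop ℕ∞) ≠ 0 := one_ne_zero
  refine ⟨hcd.localInverse hf' hne, hcd.localInverse_apply_image hf' hne, ?_, ?_⟩
  · exact (hcd.to_localInverse hf' hne).continuousAt
  · have h1 := hcd.to_localInverse hf' hne
    have hd1 : ∀ᶠ y in 𝓝 (θ z), DifferentiableAt ℂ (hcd.localInverse hf' hne) y := by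
      have h2 := h1.eventually (by simp)
      filter_upwards [h2] with y hy
      exact hy.differentiableAt one_ne_zero
    have hc1 : ContinuousAt (hcd.localInverse hf' hne) (θ z) := h1.continuousAt
    have han : ∀ᶠ y in 𝓝 (θ z), AnalyticAt ℂ θ (hcd.localInverse hf' hne y) := by
      have h3 := ha.eventually_analyticAt
      have h4 : Tendsto (hcd.localInverse hf' hne) (𝓝 (θ z)) (𝓝 z) := by
        have := hc1.tendsto
        rwa [hcd.localInverse_apply_image hf' hne] at this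
      exact h4.eventually h3
    have hri : ∀ᶠ y in 𝓝 (θ z), θ (hcd.localInverse hf' hne y) = y :=
      (hcd.hasStrictFDerivAt' hf' hne).eventually_right_inverse
    filter_upwards [hd1, han, hri] with y a b c
    exact ⟨a, b, c⟩

/-- the fibre over `x` as a finset -/
theorem fibre (h_fib : S_fib) (ω₁ ω₂ : ℂ) (θ : ℂ → ℂ) (hE : Ell ω₁ ω₂ θ) (hN : MeromorphicNFOn θ Set.univ) (x : ℂ) :
    ∃ t : Finset ℂ, (∀ z ∈ t, z ∈ FD ω₁ ω₂ ∧ AnalyticAt ℂ θ z ∧ θ z = x) ∧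
      (∀ z ∈ FD ω₁ ω₂, AnalyticAt ℂ θ z → θ z = x → z ∈ t) ∧
      ∑ z ∈ t, (ordZ (fun w => θ w - x) z).toNat = dgE ω₁ ω₂ θ := by
  classical
  obtain ⟨hp1, hfib, -⟩ := h_fib ω₁ ω₂ θ hE
  obtain ⟨hf, hsum⟩ := hfib x
  have hmem : ∀ z, z ∈ hf.toFinset.filter (fun z => (ordZ (fun w => θ w - x) z).toNat ≠ 0) ↔
      z ∈ FD ω₁ ω₂ ∧ (ordZ (fun w => θ w - x) z).toNat ≠ 0 := by
    intro z
    rw [Finset.mem_filter, Set.Finite.mem_toFinset]
    constructor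
    · rintro ⟨⟨h1, _⟩, h2⟩
      exact ⟨h1, h2⟩
    · rintro ⟨h1, h2⟩
      refine ⟨⟨h1, fun h3 => h2 ?_⟩, h2⟩
      rw [h3]
      rfl
  refine ⟨hf.toFinset.filter (fun z => (ordZ (fun w => θ w - x) z).toNat ≠ 0), ?_, ?_, ?_⟩
  · intro z hz
    rw [hmem] at hz
    exact ⟨hz.1, sol_of_ord ω₁ ω₂ θ hE hN x z hz.2⟩
  · intro z hz ha hx
    rw [hmem]
    have := ord_pos_of_sol h_fib ω₁ ω₂ θ hE x z ha hx
    exact ⟨hz, by omega⟩
  · rw [← hsum]
    symm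
    apply finsum_mem_eq_sum_of_inter_support_eq
    ext z
    simp only [Set.mem_inter_iff, Function.mem_support, Finset.mem_coe, hmem]
    tauto

theorem main (h_fib : S_fib) :
    S_locsec := by
  classical
  intro ω₁ ω₂ θ hE hN x₁ hcrit
  obtain ⟨t, ht1, ht2, ht3⟩ := fibre h_fib ω₁ ω₂ θ hE hN x₁
  have hcard : t.card = dgE ω₁ ω₂ θ := by
    rw [← ht3, Finset.card_eq_sum_ones]
    apply Finset.sum_congr rfl
    intro z hz
    obtain ⟨-, ha, hx⟩ := ht1 z hz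
    exact (ord_one_of_sol θ x₁ z ha hx (hcrit z ha hx)).symm
  let e := t.equivFinOfCardEq hcard
  obtain ⟨U, hU, hU1, hU2⟩ := FD_open ω₁ ω₂ hE.lin
  have hloc : ∀ i : Fin (dgE ω₁ ω₂ θ), ∃ s : ℂ → ℂ, s x₁ = (e.symm i).1 ∧ ContinuousAt s x₁ ∧
      ∀ᶠ y in 𝓝 x₁, DifferentiableAt ℂ s y ∧ AnalyticAt ℂ θ (s y) ∧ θ (s y) = y := by
    intro i
    obtain ⟨-, ha, hx⟩ := ht1 (e.symm i).1 (e.symm i).2
    exact loc_inv θ _ x₁ ha hx (hcrit _ ha hx)
  choose s hs0 hsc hse using hloc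
  have hev1 : ∀ᶠ y in 𝓝 x₁, ∀ i, DifferentiableAt ℂ (s i) y ∧ AnalyticAt ℂ θ (s i y) ∧ θ (s i y) = y :=
    Filter.eventually_all.mpr hse
  have hev2 : ∀ᶠ y in 𝓝 x₁, ∀ i j, i ≠ j → s i y - s j y ∈ U := by
    rw [Filter.eventually_all]
    intro i
    rw [Filter.eventually_all]
    intro j
    by_cases hij : i = j
    · exact Filter.Eventually.of_forall fun y h => absurd hij h
    · have h1 : s i x₁ - s j x₁ ∈ U := by
        rw [hs0, hs0]
        apply hU1 _ (ht1 _ (e.symm i).2).1 _ (ht1 _ (e.symm j).2).1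
        intro h
        exact hij (e.symm.injective (Subtype.ext h))
      have h2 := ((hsc i).sub (hsc j)).eventually (hU.mem_nhds h1)
      filter_upwards [h2] with y hy _
      exact hy
  obtain ⟨r, hr, hball⟩ := Metric.eventually_nhds_iff_ball.mp (hev1.and hev2)
  refine ⟨r, hr, s, ?_, ?_⟩
  · intro i
    refine ⟨fun y hy => ((hball y hy).1 i).1.differentiableWithinAt, fun y hy => ((hball y hy).1 i).2⟩
  · intro x hx z hza hzx
    obtain ⟨hb1, hb2⟩ := hball x hx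
    have hinc : ∀ i j, Cg ω₁ ω₂ (s i x) (s j x) → i = j := by
      intro i j hij
      by_contra hne
      obtain ⟨m, n, hmn⟩ := hij
      apply hU2 m n
      have := hb2 i j hne
      have h3 : s i x - s j x = (m : ℂ) * ω₁ + (n : ℂ) * ω₂ := by rw [hmn]; ring
      rwa [h3] at this
    obtain ⟨t', ht1', ht2', ht3'⟩ := fibre h_fib ω₁ ω₂ θ hE hN x
    have hrep : ∀ i, ∃ w ∈ FD ω₁ ω₂, Cg ω₁ ω₂ (s i x) w := fun i => FD_rep ω₁ ω₂ hE.lin (s i x)
    choose y hyF hyC using hrep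
    have hyinj : Function.Injective y := by
      intro i j hij
      apply hinc
      have h1 := hyC i
      rw [hij] at h1
      exact h1.trans (hyC j).symm
    have hyt : ∀ i, y i ∈ t' := by
      intro i
      obtain ⟨h1, h2⟩ := per_Cg hE (hyC i).symm
      exact ht2' _ (hyF i) (h2 (hb1 i).2.1) (h1.trans (hb1 i).2.2)
    obtain ⟨z', hz'F, hz'C⟩ := FD_rep ω₁ ω₂ hE.lin z
    have hz't : z' ∈ t' := by
      obtain ⟨h1, h2⟩ := per_Cg hE hz'C.symm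
      exact ht2' _ hz'F (h2 hza) (h1.trans hzx)
    have hle : t'.card ≤ dgE ω₁ ω₂ θ := by
      rw [← ht3', Finset.card_eq_sum_ones]
      apply Finset.sum_le_sum
      intro w hw
      obtain ⟨-, h1, h2⟩ := ht1' w hw
      exact ord_pos_of_sol h_fib ω₁ ω₂ θ hE x w h1 h2
    have hex : ∃ i, y i = z' := by
      by_contra hcon
      push Not at hcon
      have h1 : insert z' (Finset.univ.image y) ⊆ t' := by
        intro w hw
        rw [Finset.mem_insert, Finset.mem_image] at hw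
        rcases hw with rfl | ⟨i, _, rfl⟩
        · exact hz't
        · exact hyt i
      have h2 : z' ∉ Finset.univ.image y := by
        rw [Finset.mem_image]
        rintro ⟨i, _, hi⟩
        exact hcon i hi
      have h3 := Finset.card_le_card h1
      rw [Finset.card_insert_of_notMem h2, Finset.card_image_of_injective _ hyinj, Finset.card_univ,
        Fintype.card_fin] at h3
      omega
    obtain ⟨i, hi⟩ := hex
    have hzi : Cg ω₁ ω₂ z (s i x) := by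
      rw [← hi] at hz'C
      exact hz'C.trans (hyC i).symm
    refine ⟨i, hzi, fun j hj => ?_⟩
    have hj' : Cg ω₁ ω₂ z (s j x) := hj
    exact hinc j i (hj'.symm.trans hzi)

end J_locsec

end Pool.Agent.Lev
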