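import Pool.Agent.Lev.Stm5

set_option autoImplicit false

open Polynomial Metric Set Filter Topology

namespace Pool.Agent.Lev

namespace J_lur

theorem main :
    S_lur := by
  intro S hS hf
  obtain ⟨h1, h2, h3, h4⟩ := hS
  let E : IntermediateField ℂ (RatFunc ℂ) :=
    { carrier := S
      mul_mem' := fun {a b} ha hb => h3 a ha b hb
      one_mem' := by
        have := h1 1
        rwa [map_one] at this
      add_mem' := fun {a b} ha hb => h2 a ha b hb
      zero_mem' := by
        have := h1 0
        rwa [map_zero] at this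
      algebraMap_mem' := fun c => by
        have := h1 c
        rwa [← RatFunc.algebraMap_eq_C] at this
      inv_mem' := fun a ha => h4 a ha }
  have hE : E ≠ ⊥ := by
    intro hE
    obtain ⟨f, hfS, hfd⟩ := hf
    have h5 : f ∈ E := hfS
    rw [hE, IntermediateField.mem_bot] at h5
    obtain ⟨c, hc⟩ := h5
    have h6 : ∃ c, f = RatFunc.C c := ⟨c, by rw [← hc, RatFunc.algebraMap_eq_C]⟩
    rw [RatFunc.eq_C_iff] at h6
    have h7 : dg f = 0 := by
      unfold dg
      rw [h6.1, h6.2]; rfl
    omega
  refine ⟨RatFunc.Luroth.generator E, ?_, ?_⟩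
  · by_contra hcon
    have h7 : dg (RatFunc.Luroth.generator E) = 0 := by omega
    unfold dg at h7
    exact RatFunc.Luroth.generator_ne_C hE ((RatFunc.eq_C_iff _).mpr (Nat.max_eq_zero_iff.mp h7))
  · intro U
    constructor
    · intro hU
      have hU' : U ∈ E := hU
      refine ⟨(RatFunc.Luroth.algEquiv hE).symm ⟨U, hU'⟩, ?_⟩
      have h8 := RatFunc.Luroth.algEquiv_apply hE ((RatFunc.Luroth.algEquiv hE).symm ⟨U, hU'⟩)
      rw [AlgEquiv.apply_symm_apply] at h8
      exact h8
    · rintro ⟨T, rfl⟩
      have h8 := RatFunc.Luroth.algEquiv_apply hE T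
      show cp T (RatFunc.Luroth.generator E) ∈ E
      unfold cp
      rw [← h8]
      exact SetLike.coe_mem _

end J_lur

end Pool.Agent.Lev
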