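import Pool.Agent.Lev.Stm5

set_option autoImplicit false

open Polynomial Metric Set Filter Topology

namespace Pool.Agent.Lev

namespace J_main5

theorem lowGenus_symm {F G : RatFunc ℂ} (h : LowGenus F G) : LowGenus G F := by
  rcases h with ⟨f, g, hf, hg, h⟩ | ⟨ω₁, ω₂, θ₁, θ₂, h1, h2, h⟩
  · exact Or.inl ⟨g, f, hg, hf, h.symm⟩
  · exact Or.inr ⟨ω₁, ω₂, θ₂, θ₁, h2, h1, Filter.Eventually.mono h (fun _ hz => hz.symm)⟩

theorem special_of_specL (h_specLat : S_specLat) (h_specPow : S_specPow)
    (h_specCheb : S_specCheb) {f : RatFunc ℂ} (hf : 2 ≤ dg f) (h : SpecL (dg f) (lf f)) :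
    Special f := by
  rcases h with h | h | h
  · first
      | exact h_specPow f hf h
      | exact h_specCheb f hf h
      | exact h_specLat f hf h
  · first
      | exact h_specPow f hf h
      | exact h_specCheb f hf h
      | exact h_specLat f hf h
  · first
      | exact h_specPow f hf h
      | exact h_specCheb f hf h
      | exact h_specLat f hf h

theorem main (h_half : S_half) (h_specLat : S_specLat) (h_specPow : S_specPow) (h_specCheb : S_specCheb) :
    S_main5 := by
  intro A B hA hB hlow
  by_cases hSB : Special B
  · by_cases hSA : Special A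
    · exact Or.inl ⟨hSA, hSB⟩
    · right
      obtain ⟨k, l, hk, hl, h⟩ := h_half B A hB hA
        (fun h => hSA (special_of_specL h_specLat h_specPow h_specCheb hA h))
        (fun n m hn hm => lowGenus_symm (hlow m n hm hn))
      exact ⟨l, k, hl, hk, h.symm⟩
  · right
    exact h_half A B hA hB
      (fun h => hSB (special_of_specL h_specLat h_specPow h_specCheb hB h)) hlow

end J_main5

end Pool.Agent.Lev
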