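import Pool.Agent.Lev.Stm5

set_option autoImplicit false

open Polynomial Metric Set Filter Topology

namespace Pool.Agent.Lev

namespace J_many

theorem julia_infinite (hBasics : Basics) (G : ℂ × ℂ → ℝ) (hG : IsG G) :
    {z : ℂ | ∀ ρ > 0, ¬ RH (fun w => G (w, 1)) (ball z ρ)}.Infinite := by
  intro hfin
  obtain ⟨z₁, hz₁⟩ := hBasics.jc_exists hG
  have hcl : IsClosed ({z : ℂ | ∀ ρ > 0, ¬ RH (fun w => G (w, 1)) (ball z ρ)} \ {z₁}) :=
    (hfin.subset Set.sdiff_subset).isClosed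
  have hop := hcl.isOpen_compl
  have hmem : z₁ ∈ ({z : ℂ | ∀ ρ > 0, ¬ RH (fun w => G (w, 1)) (ball z ρ)} \ {z₁})ᶜ := by
    intro h
    exact h.2 rfl
  obtain ⟨ε, hε, hball⟩ := Metric.isOpen_iff.1 hop z₁ hmem
  refine hz₁ ε hε (hBasics.rh_remov hε ?_ ?_)
  · have hc : Continuous (fun w : ℂ => ((w, 1) : ℂ × ℂ)) := by fun_prop
    exact (hG.1.comp_continuous hc (fun w => prod_one_ne w)).continuousOn
  · intro z hz hne
    by_contra hcon
    apply hball hz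
    refine ⟨?_, hne⟩
    intro ρ hρ hRH
    exact hcon ⟨ρ, hρ, hRH⟩

theorem main (hBasics : Basics) :
    S_many := by
  intro G hG M
  have hinf := julia_infinite hBasics G hG
  obtain ⟨c, hc⟩ : ∃ c : Fin M → ℂ, Function.Injective c ∧
      ∀ i, ∀ ρ > 0, ¬ RH (fun w => G (w, 1)) (ball (c i) ρ) := by
    have e := hinf.natEmbedding
    refine ⟨fun i => (e i.1 : ℂ), ?_, fun i => (e i.1).2⟩
    intro i j hij
    apply Fin.ext
    exact e.injective (Subtype.ext hij)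
  obtain ⟨hinj, hJ⟩ := hc
  have hev : ∀ᶠ ρ : ℝ in 𝓝[>] 0, ∀ p : Fin M × Fin M, p.1 ≠ p.2 →
      ρ + ρ ≤ dist (c p.1) (c p.2) := by
    rw [eventually_all]
    intro p
    by_cases hp : p.1 = p.2
    · exact Eventually.of_forall fun ρ h => absurd hp h
    · have hpos : 0 < dist (c p.1) (c p.2) := dist_pos.2 fun h => hp (hinj h)
      have h1 : ∀ᶠ ρ : ℝ in 𝓝 0, ρ < dist (c p.1) (c p.2) / 2 :=
        gt_mem_nhds (by linarith)
      filter_upwards [nhdsWithin_le_nhds h1] with ρ hρ _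
      linarith
  have hev2 : ∀ᶠ ρ : ℝ in 𝓝[>] 0, 0 < ρ := self_mem_nhdsWithin
  obtain ⟨ρ, h1, hρ⟩ := (hev.and hev2).exists
  refine ⟨ρ, hρ, c, ?_, ?_⟩
  · intro i j hij
    exact ball_disjoint_ball (h1 (i, j) hij)
  · intro i
    exact hJ i (ρ / 4) (by positivity)

end J_many

end Pool.Agent.Lev
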