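import Pool.Agent.Lev.Stm4

set_option autoImplicit false

open Polynomial Metric Set Filter Topology

namespace Pool.Agent.Lev

namespace J_mlift

theorem main :
    S_mlift := by
  intro h x₀ R R' hR' hRR hm
  have hsub : closedBall x₀ R' ⊆ ball x₀ R := closedBall_subset_ball hRR
  have hTfin : ({x | x ∈ closedBall x₀ R' ∧ ¬ AnalyticAt ℂ h x} : Set ℂ).Finite := by
    have hc : IsCompact (closedBall x₀ R') := isCompact_closedBall x₀ R'
    have hU : ∀ x ∈ closedBall x₀ R', {w | w ≠ x → AnalyticAt ℂ h w} ∈ 𝓝 x := by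
      intro x hx
      have h1 := (hm x (hsub hx)).eventually_analyticAt
      rw [eventually_nhdsWithin_iff] at h1
      exact h1
    obtain ⟨s, hs, hcov⟩ := hc.elim_nhds_subcover _ hU
    apply s.finite_toSet.subset
    intro x hx
    obtain ⟨y, hy, hxy⟩ := mem_iUnion₂.1 (hcov hx.1)
    by_contra hxs
    apply hx.2
    apply hxy
    rintro rfl
    exact hxs hy
  set T : Set ℂ := {x | x ∈ closedBall x₀ R' ∧ ¬ AnalyticAt ℂ h x} with hT
  classical
  let S : Finset ℂ := hTfin.toFinset
  let n : ℂ → ℕ := fun t => (-(meromorphicOrderAt h t).untop₀).toNat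
  let P : ℂ → ℂ := fun z => ∏ t ∈ S, (z - t) ^ n t
  have hPd : Differentiable ℂ P := by
    intro z
    exact DifferentiableAt.fun_finset_prod fun t _ =>
      ((differentiableAt_id.sub_const t).pow (n t))
  have hPa : ∀ x, AnalyticAt ℂ P x := fun x => hPd.analyticAt x
  have hPz : ∀ x, P x = 0 → x ∈ T ∧ n x ≠ 0 := by
    intro x hx
    obtain ⟨t, ht, h0⟩ := Finset.prod_eq_zero_iff.1 hx
    have hn : n t ≠ 0 := by
      intro h; rw [h, pow_zero] at h0; exact one_ne_zero h0
    have h1 : x - t = 0 := (pow_eq_zero_iff hn).1 h0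
    have h2 : x = t := sub_eq_zero.1 h1
    subst h2
    exact ⟨hTfin.mem_toFinset.1 ht, hn⟩
  have key : ∀ x ∈ T, meromorphicOrderAt (P * h) x =
      ((n x : ℤ) : WithTop ℤ) + meromorphicOrderAt h x := by
    intro x hx
    have hxm : MeromorphicAt h x := hm x (hsub hx.1)
    let Q : ℂ → ℂ := fun z => ∏ t ∈ S.erase x, (z - t) ^ n t
    have hQd : Differentiable ℂ Q := by
      intro z
      exact DifferentiableAt.fun_finset_prod fun t _ =>
        ((differentiableAt_id.sub_const t).pow (n t))
    have hQa : AnalyticAt ℂ Q x := hQd.analyticAt x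
    have hQ0 : Q x ≠ 0 := by
      refine Finset.prod_ne_zero_iff.2 fun t ht => pow_ne_zero _ (sub_ne_zero.2 ?_)
      exact (Finset.ne_of_mem_erase ht).symm
    have hPQ : P * h = (fun z => (z - x) ^ n x) * (Q * h) := by
      ext z
      have h1 : P z = (z - x) ^ n x * Q z :=
        (Finset.mul_prod_erase S (fun t => (z - t) ^ n t) (hTfin.mem_toFinset.2 hx)).symm
      simp only [Pi.mul_apply, h1]; ring
    have hpow : MeromorphicAt (fun z => (z - x) ^ n x) x := by fun_prop
    rw [hPQ, meromorphicOrderAt_mul hpow (hQa.meromorphicAt.mul hxm),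
      meromorphicOrderAt_mul_of_ne_zero hQa hQ0, fun_meromorphicOrderAt_pow_id_sub_const]
    rfl
  have hord : ∀ x ∈ closedBall x₀ R', 0 ≤ meromorphicOrderAt (P * h) x := by
    intro x hx
    by_cases ha : AnalyticAt ℂ h x
    · exact ((hPa x).mul ha).meromorphicOrderAt_nonneg
    · rw [key x ⟨hx, ha⟩]
      rcases eq_or_ne (meromorphicOrderAt h x) ⊤ with ht | ht
      · rw [ht]; simp
      · lift meromorphicOrderAt h x to ℤ using ht with k hk
        have h1 : (n x : ℤ) = ((-k).toNat : ℤ) := by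
          simp only [n, ← hk, WithTop.untop₀_coe]
        rw [h1]
        norm_cast
        omega
  have hord0 : ∀ x, P x = 0 → meromorphicOrderAt (P * h) x = 0 := by
    intro x hPx
    obtain ⟨hx, hn⟩ := hPz x hPx
    rw [key x hx]
    rcases eq_or_ne (meromorphicOrderAt h x) ⊤ with ht | ht
    · exfalso; apply hn; simp only [n, ht]; simp
    · lift meromorphicOrderAt h x to ℤ using ht with k hk
      have h1 : n x = (-k).toNat := by
        simp only [n, ← hk, WithTop.untop₀_coe]
      rw [h1] at hn ⊢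
      norm_cast
      omega
  have hf : MeromorphicOn (P * h) (ball x₀ R) :=
    fun x hx => (hPa x).meromorphicAt.mul (hm x hx)
  let F := toMeromorphicNFOn (P * h) (ball x₀ R)
  have hFN : ∀ x ∈ ball x₀ R, MeromorphicNFAt F x := fun x hx =>
    meromorphicNFOn_toMeromorphicNFOn (P * h) (ball x₀ R) hx
  have hFe : ∀ x ∈ ball x₀ R, F =ᶠ[𝓝[≠] x] P * h := fun x hx =>
    (hf.toMeromorphicNFOn_eq_self_on_nhdsNE hx)
  have hFo : ∀ x ∈ ball x₀ R, meromorphicOrderAt F x = meromorphicOrderAt (P * h) x :=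
    fun x hx => meromorphicOrderAt_congr (hFe x hx)
  have hFa : ∀ x ∈ ball x₀ R', AnalyticAt ℂ F x := fun x hx =>
    (hFN x (hsub (ball_subset_closedBall hx))).meromorphicOrderAt_nonneg_iff_analyticAt.1
      (by rw [hFo x (hsub (ball_subset_closedBall hx))]; exact hord x (ball_subset_closedBall hx))
  refine ⟨fun x => (F x, P x), ?_, ?_, ?_, ?_⟩
  · intro x hx
    exact ((hFa x hx).differentiableAt.prodMk (hPd x)).differentiableWithinAt
  · intro x hx h0
    have h1 : F x = 0 := congrArg Prod.fst h0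
    have h2 : P x = 0 := congrArg Prod.snd h0
    have h3 := (hFN x (hsub (ball_subset_closedBall hx))).meromorphicOrderAt_eq_zero_iff.1
      (by rw [hFo x (hsub (ball_subset_closedBall hx))]; exact hord0 x h2)
    exact h3 h1
  · intro x hx ha
    have h1 : F =ᶠ[𝓝[≠] x] P * h := hFe x (hsub (ball_subset_closedBall hx))
    have h2 : Tendsto F (𝓝[≠] x) (𝓝 (F x)) :=
      (hFa x hx).continuousAt.tendsto.mono_left nhdsWithin_le_nhds
    have h3 : Tendsto (P * h) (𝓝[≠] x) (𝓝 ((P * h) x)) :=
      ((hPa x).mul ha).continuousAt.tendsto.mono_left nhdsWithin_le_nhds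
    have h4 : F x = (P * h) x := tendsto_nhds_unique h2 (h3.congr' h1.symm)
    simp only [wd]
    rw [h4, Pi.mul_apply]; ring
  · exact hTfin.subset fun x hx => ⟨ball_subset_closedBall hx.1, hx.2⟩

end J_mlift

end Pool.Agent.Lev
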