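import Pool.Agent.Lev.Stm4

set_option autoImplicit false

open Polynomial Metric Set Filter Topology

namespace Pool.Agent.Lev

namespace J_nf

theorem per {θ θ' : ℂ → ℂ} (hNF : MeromorphicNFOn θ' Set.univ)
    (hnear : ∀ x, θ' =ᶠ[nhdsWithin x {x}ᶜ] θ) (ω : ℂ) (hω : ∀ z, θ (z + ω) = θ z) (z : ℂ) :
    θ' (z + ω) = θ' z := by
  have h1 : MeromorphicNFAt (θ' ∘ (· + ω)) z :=
    meromorphicNFAt_comp_add_const_iff_meromorphicNFAt.2 (hNF (Set.mem_univ _))
  have h2 : MeromorphicNFAt θ' z := hNF (Set.mem_univ _)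
  have ht : Filter.Tendsto (· + ω) (nhdsWithin z {z}ᶜ) (nhdsWithin (z + ω) {z + ω}ᶜ) := by
    refine tendsto_nhdsWithin_of_tendsto_nhds_of_eventually_within _ ?_ ?_
    · exact ((continuous_id.add continuous_const).tendsto z).mono_left nhdsWithin_le_nhds
    · filter_upwards [self_mem_nhdsWithin] with w hw
      intro h
      exact hw (add_right_cancel h)
  have h3 : (θ' ∘ (· + ω)) =ᶠ[nhdsWithin z {z}ᶜ] θ' := by
    filter_upwards [ht.eventually (hnear (z + ω)), hnear z] with w hw1 hw2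
    rw [Function.comp_apply, hw1, hw2, hω]
  exact ((h1.eventuallyEq_nhdsNE_iff_eventuallyEq_nhds h2).1 h3).eq_of_nhds

theorem main :
    S_nf := by
  intro ω₁ ω₂ θ hE
  have hNF := meromorphicNFOn_toMeromorphicNFOn θ Set.univ
  have hcod : toMeromorphicNFOn θ Set.univ =ᶠ[Filter.codiscrete ℂ] θ :=
    (toMeromorphicNFOn_eqOn_codiscrete hE.mer).symm
  have hnear : ∀ x, toMeromorphicNFOn θ Set.univ =ᶠ[nhdsWithin x {x}ᶜ] θ := fun x =>
    hE.mer.toMeromorphicNFOn_eq_self_on_nhdsNE (Set.mem_univ x)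
  refine ⟨toMeromorphicNFOn θ Set.univ, ⟨hE.lin, hNF.meromorphicOn, per hNF hnear ω₁ hE.per1,
    per hNF hnear ω₂ hE.per2, ?_⟩, hNF, hcod⟩
  rintro ⟨c, hc⟩
  refine hE.nc ⟨c, ?_⟩
  filter_upwards [hc, hcod] with z h1 h2
  rw [← h2, h1]

end J_nf

end Pool.Agent.Lev
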