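import Pool.Agent.Lev.Stm5

set_option autoImplicit false

open Polynomial Metric Set Filter Topology

namespace Pool.Agent.Lev

namespace J_norm

theorem root {u : ℂ → ℂ} {c : ℂ} {r : ℝ} (hr : 0 < r) (hu : DifferentiableOn ℂ u (ball c r))
    (hu0 : ∀ z ∈ ball c r, u z ≠ 0) (e : ℕ) (he : 1 ≤ e) :
    ∃ v : ℂ → ℂ, DifferentiableOn ℂ v (ball c r) ∧ ∀ z ∈ ball c r, v z ≠ 0 ∧ v z ^ e = u z := by
  have hu' : DifferentiableOn ℂ (deriv u) (ball c r) := hu.deriv isOpen_ball
  have hf : DifferentiableOn ℂ (fun z => deriv u z / u z) (ball c r) := hu'.div hu hu0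
  obtain ⟨L, hL0, hL⟩ := hf.isExactOn_ball.with_val_at c (Complex.log (u c))
  have hc : c ∈ ball c r := mem_ball_self hr
  have hLd : DifferentiableOn ℂ L (ball c r) := fun z hz =>
    (hL z hz).differentiableAt.differentiableWithinAt
  have hE : DifferentiableOn ℂ (fun z => u z * Complex.exp (-(L z))) (ball c r) :=
    hu.mul hLd.neg.cexp
  have hE0 : (ball c r).EqOn (deriv (fun z => u z * Complex.exp (-(L z)))) 0 := by
    intro z hz
    have h1 : HasDerivAt u (deriv u z) z :=
      (hu.differentiableAt (isOpen_ball.mem_nhds hz)).hasDerivAt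
    have h2 : HasDerivAt (fun z => Complex.exp (-(L z)))
        (Complex.exp (-(L z)) * (-(deriv u z / u z))) z := (hL z hz).neg.cexp
    have h3 := (h1.mul h2).deriv
    have h4 : (fun z => u z * Complex.exp (-(L z))) = u * fun z => Complex.exp (-(L z)) := rfl
    rw [h4, h3]
    have := hu0 z hz
    simp only [Pi.zero_apply]
    field_simp
    ring
  have hconst : ∀ z ∈ ball c r, u z = Complex.exp (L z) := by
    intro z hz
    have h1 := isOpen_ball.is_const_of_deriv_eq_zero (convex_ball c r).isPreconnected hE hE0 hz hc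
    simp only [hL0, Complex.exp_neg, Complex.exp_log (hu0 c hc), mul_inv_cancel₀ (hu0 c hc)] at h1
    field_simp at h1
    exact h1
  refine ⟨fun z => Complex.exp (L z / e), (hLd.div_const _).cexp, fun z hz => ?_⟩
  refine ⟨Complex.exp_ne_zero _, ?_⟩
  have he0 : (e : ℂ) ≠ 0 := by
    have : e ≠ 0 := by omega
    exact_mod_cast this
  simp only
  rw [← Complex.exp_nat_mul, mul_div_cancel₀ _ he0, hconst z hz]

theorem main (hBasics : Basics) :
    S_norm := by
  intro d e F H hF hH he g c r hg h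
  rcases le_or_gt r 0 with hr | hr
  · refine ⟨g, hg, fun x hx => ?_⟩
    rw [ball_eq_empty.2 hr] at hx
    exact absurd hx (Set.notMem_empty x)
  · have ha : DifferentiableOn ℂ (fun z => H (g z)) (ball c r) :=
      (hBasics.diff hH).comp_differentiableOn hg
    have hb : DifferentiableOn ℂ (fun z : ℂ => F (z, 1)) (ball c r) :=
      ((hBasics.diff hF).comp (differentiable_id.prodMk (differentiable_const _))).differentiableOn
    have ha0 : ∀ z ∈ ball c r, H (g z) ≠ 0 := fun z hz => hH.2 _ (h z hz).1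
    have hb0 : ∀ z ∈ ball c r, F (z, 1) ≠ 0 := fun z hz => hF.2 _ (prod_one_ne z)
    obtain ⟨u, hud, hu0, hu⟩ := hBasics.unit isOpen_ball ha hb ha0 hb0
      (fun z hz => wd_symm (h z hz).2)
    obtain ⟨v, hvd, hv⟩ := root hr hud hu0 e he
    refine ⟨fun z => v z • g z, hvd.smul hg, fun x hx => ?_⟩
    obtain ⟨hv0, hve⟩ := hv x hx
    refine ⟨smul_ne_zero hv0 (h x hx).1, ?_, ?_⟩
    · rw [wd_smul_right, wd_self, mul_zero]
    · show H (v x • g x) = F (x, 1)
      rw [hBasics.smul hH, hve]
      exact (hu x hx).symm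

end J_norm

end Pool.Agent.Lev
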