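import Pool.Agent.Lev.Stm5

set_option autoImplicit false

open Polynomial Metric Set Filter Topology

namespace Pool.Agent.Lev

namespace J_pol

theorem ell_ne {ω₁ ω₂ : ℂ} {θ : ℂ → ℂ} (h : Ell ω₁ ω₂ θ) (t : ℂ) :
    ∀ᶠ z in Filter.codiscrete ℂ, θ z ≠ t := by
  have hm : MeromorphicOn (fun z => θ z - t) Set.univ := fun z hz =>
    (h.mer z hz).sub (MeromorphicAt.const t z)
  have hE : ∀ z : ℂ, ∀ᶠ w in 𝓝[≠] z, θ w - t ≠ 0 := by
    by_contra hcon
    push Not at hcon
    obtain ⟨z, hz⟩ := hcon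
    have h0 : meromorphicOrderAt (fun z => θ z - t) z = ⊤ := by
      rw [meromorphicOrderAt_eq_top_iff]
      rcases (hm z (mem_univ _)).eventually_eq_zero_or_eventually_ne_zero with h1 | h1
      · exact h1
      · exact absurd h1 (by simpa using hz)
    refine h.nc ⟨t, ?_⟩
    change {z | θ z = t} ∈ codiscreteWithin univ
    rw [mem_codiscreteWithin_iff_forall_mem_nhdsNE]
    intro x _
    have h1 : meromorphicOrderAt (fun z => θ z - t) x = ⊤ := by
      by_contra hx
      exact hm.meromorphicOrderAt_ne_top_of_isPreconnected isPreconnected_univ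
        (mem_univ x) (mem_univ z) hx h0
    rw [meromorphicOrderAt_eq_top_iff] at h1
    filter_upwards [h1] with w hw
    exact Or.inl (sub_eq_zero.1 hw)
  change {z | θ z ≠ t} ∈ codiscreteWithin univ
  rw [mem_codiscreteWithin_iff_forall_mem_nhdsNE]
  intro x _
  filter_upwards [hE x] with w hw
  exact Or.inl (sub_ne_zero.1 hw)

theorem ell_eval_ne {ω₁ ω₂ : ℂ} {θ : ℂ → ℂ} (h : Ell ω₁ ω₂ θ) (p : ℂ[X]) (hp : p ≠ 0) :
    ∀ᶠ z in Filter.codiscrete ℂ, p.eval (θ z) ≠ 0 := by
  have h1 : ∀ᶠ z in Filter.codiscrete ℂ, ∀ t ∈ p.roots.toFinset, θ z ≠ t :=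
    (Filter.eventually_all_finset _).2 fun t _ => ell_ne h t
  filter_upwards [h1] with z hz h0
  exact hz (θ z) (by simp [hp, h0]) rfl

theorem ee_pol (V W : RatFunc ℂ) (x y : ℂ) : (pol V W).evalEval x y =
    V.num.eval x * W.denom.eval y - V.denom.eval x * W.num.eval y := by
  rw [pol, evalEval_sub, evalEval_mul, evalEval_mul, evalEval_C, evalEval_C, evalEval_map_C,
    evalEval_map_C]

theorem ev_eq (V : RatFunc ℂ) (x : ℂ) : ev V x = V.num.eval x / V.denom.eval x := by
  simp [ev, RatFunc.eval, Polynomial.eval₂_id]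

theorem bf_ne {m : ℕ} {A : ℂ[X]} (hA : A.natDegree ≤ m) {v : ℂ × ℂ} (hv : v.2 ≠ 0) :
    bf m A v = v.2 ^ m * A.eval (v.1 / v.2) := by
  rw [bf, eval_eq_sum_range' (Nat.lt_succ_of_le hA), Finset.mul_sum]
  refine Finset.sum_congr rfl fun i hi => ?_
  have him : i ≤ m := Nat.lt_succ_iff.1 (Finset.mem_range.1 hi)
  obtain ⟨j, rfl⟩ := Nat.exists_eq_add_of_le him
  rw [Nat.add_sub_cancel_left, div_pow, pow_add]
  field_simp

theorem bf_zero {m : ℕ} {A : ℂ[X]} {v : ℂ × ℂ} (hv : v.2 = 0) :
    bf m A v = A.coeff m * v.1 ^ m := by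
  rw [bf, Finset.sum_range_succ, Finset.sum_eq_zero]
  · simp
  · intro i hi
    have : m - i ≠ 0 := by
      have := Finset.mem_range.1 hi
      omega
    rw [hv, zero_pow this, mul_zero]

theorem bf_mul {m n : ℕ} {A B : ℂ[X]} (hA : A.natDegree ≤ m) (hB : B.natDegree ≤ n)
    (v : ℂ × ℂ) : bf (m + n) (A * B) v = bf m A v * bf n B v := by
  by_cases hv : v.2 = 0
  · rw [bf_zero hv, bf_zero hv, bf_zero hv, coeff_mul_add_eq_of_natDegree_le hA hB, pow_add]
    ring
  · rw [bf_ne (natDegree_mul_le.trans (add_le_add hA hB)) hv, bf_ne hA hv, bf_ne hB hv, eval_mul,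
      pow_add]
    ring

theorem bf_comb (m : ℕ) (a b : ℂ) (A B : ℂ[X]) (v : ℂ × ℂ) :
    bf m (C a * A - C b * B) v = a * bf m A v - b * bf m B v := by
  simp only [bf, coeff_sub, coeff_C_mul, Finset.mul_sum]
  rw [← Finset.sum_sub_distrib]
  refine Finset.sum_congr rfl fun i _ => ?_
  ring

theorem bf_one {m : ℕ} {A : ℂ[X]} (hA : A.natDegree ≤ m) (x : ℂ) : bf m A (x, 1) = A.eval x := by
  rw [bf_ne hA (by simp)]
  simp

theorem pol_coeff (V W : RatFunc ℂ) (i : ℕ) : (pol V W).coeff i =
    V.num * C (W.denom.coeff i) - V.denom * C (W.num.coeff i) := by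
  rw [pol, coeff_sub, coeff_C_mul, coeff_C_mul, coeff_map, coeff_map]

theorem pol_top (V W : RatFunc ℂ) (hV : 1 ≤ dg V) (hW : 1 ≤ dg W) :
    (pol V W).coeff (dg W) ≠ 0 := by
  rw [pol_coeff]
  intro h0
  have hco := V.isCoprime_num_denom
  have hd := V.denom_ne_zero
  have hWd := W.denom_ne_zero
  have hne : W.denom.coeff (dg W) ≠ 0 ∨ W.num.coeff (dg W) ≠ 0 := by
    rcases le_total W.num.natDegree W.denom.natDegree with h1 | h1
    · left
      rw [dg, max_eq_right h1]
      simpa using hWd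
    · right
      have e : dg W = W.num.natDegree := max_eq_left h1
      rw [e, coeff_natDegree, Ne, leadingCoeff_eq_zero]
      intro h2
      rw [e, h2] at hW
      simp at hW
  have h1 : V.num * C (W.denom.coeff (dg W)) = V.denom * C (W.num.coeff (dg W)) := sub_eq_zero.1 h0
  by_cases hα : W.denom.coeff (dg W) = 0
  · have hβ := hne.resolve_left (by simpa using hα)
    rw [hα, C_0, mul_zero] at h1
    rcases mul_eq_zero.1 h1.symm with h2 | h2
    · exact hd h2
    · exact hβ (C_eq_zero.1 h2)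
  · have hu : IsUnit (C (W.denom.coeff (dg W)) : ℂ[X]) := isUnit_C.2 (isUnit_iff_ne_zero.2 hα)
    have hdvd : V.denom ∣ V.num := by
      have : V.denom ∣ V.num * C (W.denom.coeff (dg W)) := ⟨_, h1⟩
      exact (hu.dvd_mul_right).1 this
    have hunit : IsUnit V.denom := by
      obtain ⟨a, b, hab⟩ := hco
      refine isUnit_of_dvd_one ?_
      rw [← hab]
      exact dvd_add (hdvd.mul_left a) (dvd_mul_left _ _)
    have hdd : V.denom.natDegree = 0 := natDegree_eq_zero_of_isUnit hunit
    have hnd : V.num.natDegree = 0 := by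
      have h2 : (V.num * C (W.denom.coeff (dg W))).natDegree = V.num.natDegree :=
        natDegree_mul_C hα
      rw [← h2, h1]
      refine Nat.le_zero.1 ((natDegree_mul_C_le _ _).trans hdd.le)
    rw [dg, hdd, hnd] at hV
    simp at hV

theorem pol_natDegree (V W : RatFunc ℂ) (hV : 1 ≤ dg V) (hW : 1 ≤ dg W) :
    (pol V W).natDegree = dg W := by
  refine le_antisymm ?_ (le_natDegree_of_ne_zero (pol_top V W hV hW))
  rw [natDegree_le_iff_coeff_eq_zero]
  intro N hN
  have h1 : W.denom.natDegree < N := lt_of_le_of_lt (le_max_right _ _) hN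
  have h2 : W.num.natDegree < N := lt_of_le_of_lt (le_max_left _ _) hN
  rw [pol_coeff, coeff_eq_zero_of_natDegree_lt h1, coeff_eq_zero_of_natDegree_lt h2]
  simp

theorem pol_map (V W : RatFunc ℂ) (x : ℂ) : (pol V W).map (evalRingHom x) =
    C (V.num.eval x) * W.denom - C (V.denom.eval x) * W.num := by
  have hc : (evalRingHom x).comp (C : ℂ →+* ℂ[X]) = RingHom.id ℂ := by
    ext; simp
  rw [pol, Polynomial.map_sub, Polynomial.map_mul, Polynomial.map_mul, map_C, map_C,
    Polynomial.map_map, Polynomial.map_map, hc, Polynomial.map_id, Polynomial.map_id]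
  simp

theorem main (h_lf : S_lf) :
    S_pol := by
  refine ⟨?_, ?_⟩
  · intro ω₁ ω₂ θ₁ θ₂ h1 h2 V W
    have a1 := ell_eval_ne h1 V.denom V.denom_ne_zero
    have a2 := ell_eval_ne h2 W.denom W.denom_ne_zero
    have key : ∀ᶠ z in Filter.codiscrete ℂ, (ev V (θ₁ z) = ev W (θ₂ z) ↔
        (pol V W).evalEval (θ₁ z) (θ₂ z) = 0) := by
      filter_upwards [a1, a2] with z b1 b2
      rw [ev_eq, ev_eq, ee_pol, div_eq_div_iff b1 b2, sub_eq_zero]
      constructor
      · intro h; linear_combination h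
      · intro h; linear_combination h
    constructor
    · intro h
      unfold Rel at h
      unfold PRel
      filter_upwards [h, key] with z c1 c2
      exact c2.1 c1
    · intro h
      unfold PRel at h
      unfold Rel
      filter_upwards [h, key] with z c1 c2
      exact c2.2 c1
  · intro V W hV hW
    have htop := pol_top V W hV hW
    have hne : pol V W ≠ 0 := by
      intro h; rw [h, coeff_zero] at htop; exact htop rfl
    refine ⟨hne, ?_⟩
    rintro P ⟨P', hPP⟩ x v hv -
    have hdeg := pol_natDegree V W hV hW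
    have hP : P ≠ 0 := by rintro rfl; rw [zero_mul] at hPP; exact hne hPP
    have hP' : P' ≠ 0 := by rintro rfl; rw [mul_zero] at hPP; exact hne hPP
    have hsum : P.natDegree + P'.natDegree = dg W := by
      rw [← natDegree_mul hP hP', ← hPP, hdeg]
    have h1 : bf (dg W) ((pol V W).map (evalRingHom x)) v = 0 := by
      rw [hPP, Polynomial.map_mul, ← hsum, bf_mul natDegree_map_le natDegree_map_le, hv, zero_mul]
    rw [pol_map, bf_comb] at h1
    simp only [wd, lf]
    have g1 : V.num.natDegree ≤ dg V := le_max_left _ _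
    have g2 : V.denom.natDegree ≤ dg V := le_max_right _ _
    rw [bf_one g1, bf_one g2]
    exact h1

end J_pol

end Pool.Agent.Lev
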