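import Pool.Agent.Lev.Stm5

set_option autoImplicit false

open Polynomial Metric Set Filter Topology

namespace Pool.Agent.Lev

namespace J_powcrit

theorem key (hB : Basics) {d : ℕ} {F : ℂ × ℂ → ℂ × ℂ} (hF : IsLift d F) (hd : 2 ≤ d)
    {α β : ℂ → ℂ × ℂ} (hα : Differentiable ℂ α) (hβ : Differentiable ℂ β) (hα0 : ∀ z, α z ≠ 0)
    (hβ0 : ∀ z, β z ≠ 0) (hw : ∀ z, wd (F (α z)) (β z) = 0) (z : ℂ) {β' : ℂ × ℂ}
    (hβ' : HasDerivAt β β' z) (hne : wd (β z) β' ≠ 0) :
    jac F (α z) ≠ 0 ∧ ∃ c : ℂ, c ≠ 0 ∧ F (α z) = c • β z := by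
  have hFd : Differentiable ℂ F := hB.diff hF
  have hFα : Differentiable ℂ (fun t => F (α t)) := hFd.comp hα
  obtain ⟨μ, hμd, hμ0, hμ⟩ := hB.unit (a := β) (b := fun t => F (α t)) (s := Set.univ) isOpen_univ
    hβ.differentiableOn hFα.differentiableOn (fun z _ => hβ0 z) (fun z _ => hF.2 _ (hα0 z))
    (fun z _ => wd_symm (hw z))
  have hfun : (fun t => F (α t)) = fun t => μ t • β t := by
    funext t
    exact hμ t (Set.mem_univ t)
  have hμz : HasDerivAt μ (deriv μ z) z :=
    ((hμd z (Set.mem_univ z)).differentiableAt Filter.univ_mem).hasDerivAt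
  have hder : deriv (fun t => F (α t)) z = μ z • β' + deriv μ z • β z := by
    rw [hfun]
    exact (hμz.smul hβ').deriv
  have hmz : μ z ≠ 0 := hμ0 z (Set.mem_univ z)
  have hFz : F (α z) = μ z • β z := hμ z (Set.mem_univ z)
  refine ⟨?_, μ z, hmz, hFz⟩
  intro h0
  have h1 := hB.jac_curve hF (a := α) (z := z) hα.differentiableAt
  rw [h0, zero_mul, hder, hFz] at h1
  have h2 : wd (μ z • β z) (μ z • β' + deriv μ z • β z) = μ z ^ 2 * wd (β z) β' := by
    simp only [wd, Prod.smul_fst, Prod.smul_snd, smul_eq_mul, Prod.fst_add, Prod.snd_add]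
    ring
  rw [h2] at h1
  have hdc : (d : ℂ) ≠ 0 := by
    have : d ≠ 0 := by omega
    exact_mod_cast this
  exact (mul_ne_zero hdc (mul_ne_zero (pow_ne_zero 2 hmz) hne)) h1

theorem wd_lin (a b c e : ℂ) (u w : ℂ × ℂ) :
    wd (lin a b c e u) (lin a b c e w) = (a * e - b * c) * wd u w := by
  simp only [wd, lin]; ring

theorem lin_ne {a b c e : ℂ} (h : a * e - b * c ≠ 0) {u : ℂ × ℂ} (hu : u ≠ 0) :
    lin a b c e u ≠ 0 := by
  intro h0
  apply hu
  have h1 : a * u.1 + b * u.2 = 0 := congrArg Prod.fst h0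
  have h2 : c * u.1 + e * u.2 = 0 := congrArg Prod.snd h0
  have h3 : (a * e - b * c) * u.1 = 0 := by linear_combination e * h1 - b * h2
  have h4 : (a * e - b * c) * u.2 = 0 := by linear_combination a * h2 - c * h1
  exact Prod.ext ((mul_eq_zero.mp h3).resolve_left h) ((mul_eq_zero.mp h4).resolve_left h)

theorem lin_smul (a b c e k : ℂ) (u : ℂ × ℂ) : lin a b c e (k • u) = k • lin a b c e u := by
  simp only [lin, Prod.smul_fst, Prod.smul_snd, smul_eq_mul]
  ext
  · simp; ring
  · simp; ring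

theorem claim (hB : Basics) {d : ℕ} {F : ℂ × ℂ → ℂ × ℂ} (hF : IsLift d F) (hd : 2 ≤ d)
    {a b c e : ℂ} (hdet : a * e - b * c ≠ 0)
    (h : (∀ w : ℂ, wd (F (lin a b c e (w, 1))) (lin a b c e (w ^ d, 1)) = 0) ∨
     (∀ w : ℂ, wd (F (lin a b c e (w, 1))) (lin a b c e (1, w ^ d)) = 0))
    (u : ℂ × ℂ) (h1 : u.1 ≠ 0) (h2 : u.2 ≠ 0) :
    jac F (lin a b c e u) ≠ 0 ∧ ∃ u' : ℂ × ℂ, u'.1 ≠ 0 ∧ u'.2 ≠ 0 ∧
      F (lin a b c e u) = lin a b c e u' := by
  obtain ⟨u₁, u₂⟩ := u
  simp only at h1 h2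
  have hd0 : d ≠ 0 := by omega
  have hdc : (d : ℂ) ≠ 0 := by exact_mod_cast hd0
  have hne2 : ∀ t : ℂ, ((t, u₂) : ℂ × ℂ) ≠ 0 := by
    intro t h; exact h2 (congrArg Prod.snd h)
  have hαd : Differentiable ℂ (fun t : ℂ => lin a b c e (t, u₂)) := by
    unfold lin
    fun_prop
  have hFα : ∀ t : ℂ, F (lin a b c e (t, u₂)) = u₂ ^ d • F (lin a b c e (t / u₂, 1)) := by
    intro t
    rw [← hB.smul hF, ← lin_smul]
    congr 2
    ext
    · simp; field_simp
    · simp
  rcases h with h | h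
  · -- case A
    have hw : ∀ t : ℂ, wd (F (lin a b c e (t, u₂))) (lin a b c e (t ^ d, u₂ ^ d)) = 0 := by
      intro t
      have e1 : lin a b c e (t ^ d, u₂ ^ d) = u₂ ^ d • lin a b c e ((t / u₂) ^ d, 1) := by
        rw [← lin_smul]
        congr 1
        ext
        · simp; rw [div_pow]; field_simp
        · simp
      rw [hFα, e1, wd_smul_left, wd_smul_right, h, mul_zero, mul_zero]
    have hβd : Differentiable ℂ (fun t : ℂ => lin a b c e (t ^ d, u₂ ^ d)) := by
      unfold lin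
      fun_prop
    have hβ' : HasDerivAt (fun t : ℂ => lin a b c e (t ^ d, u₂ ^ d))
        (lin a b c e ((d : ℂ) * u₁ ^ (d - 1), 0)) u₁ := by
      have g1 : HasDerivAt (fun t : ℂ => a * t ^ d + b * u₂ ^ d) (a * ((d : ℂ) * u₁ ^ (d - 1)) + b * 0) u₁ := by
        have := ((hasDerivAt_pow d u₁).const_mul a).add_const (b * u₂ ^ d)
        simpa using this
      have g2 : HasDerivAt (fun t : ℂ => c * t ^ d + e * u₂ ^ d) (c * ((d : ℂ) * u₁ ^ (d - 1)) + e * 0) u₁ := by
        have := ((hasDerivAt_pow d u₁).const_mul c).add_const (e * u₂ ^ d)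
        simpa using this
      exact g1.prodMk g2
    have hk := key hB hF hd hαd hβd (fun t => lin_ne hdet (hne2 t))
      (fun t => lin_ne hdet (by
        intro h; exact (pow_ne_zero d h2) (congrArg Prod.snd h))) hw u₁ hβ' (by
        rw [wd_lin]
        refine mul_ne_zero hdet ?_
        simp only [wd]
        rw [mul_zero, zero_sub]
        exact neg_ne_zero.mpr (mul_ne_zero (pow_ne_zero d h2) (mul_ne_zero hdc (pow_ne_zero _ h1))))
    obtain ⟨hk1, k, hk0, hk2⟩ := hk
    refine ⟨hk1, k • (u₁ ^ d, u₂ ^ d), ?_, ?_, ?_⟩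
    · simp only [Prod.smul_fst, smul_eq_mul]
      exact mul_ne_zero hk0 (pow_ne_zero d h1)
    · simp only [Prod.smul_snd, smul_eq_mul]
      exact mul_ne_zero hk0 (pow_ne_zero d h2)
    · rw [hk2, lin_smul]
  · -- case B
    have hw : ∀ t : ℂ, wd (F (lin a b c e (t, u₂))) (lin a b c e (u₂ ^ d, t ^ d)) = 0 := by
      intro t
      have e1 : lin a b c e (u₂ ^ d, t ^ d) = u₂ ^ d • lin a b c e (1, (t / u₂) ^ d) := by
        rw [← lin_smul]
        congr 1
        ext
        · simp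
        · simp; rw [div_pow]; field_simp
      rw [hFα, e1, wd_smul_left, wd_smul_right, h, mul_zero, mul_zero]
    have hβd : Differentiable ℂ (fun t : ℂ => lin a b c e (u₂ ^ d, t ^ d)) := by
      unfold lin
      fun_prop
    have hβ' : HasDerivAt (fun t : ℂ => lin a b c e (u₂ ^ d, t ^ d))
        (lin a b c e (0, (d : ℂ) * u₁ ^ (d - 1))) u₁ := by
      have g1 : HasDerivAt (fun t : ℂ => a * u₂ ^ d + b * t ^ d) (a * 0 + b * ((d : ℂ) * u₁ ^ (d - 1))) u₁ := by
        have := ((hasDerivAt_pow d u₁).const_mul b).const_add (a * u₂ ^ d)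
        simpa using this
      have g2 : HasDerivAt (fun t : ℂ => c * u₂ ^ d + e * t ^ d) (c * 0 + e * ((d : ℂ) * u₁ ^ (d - 1))) u₁ := by
        have := ((hasDerivAt_pow d u₁).const_mul e).const_add (c * u₂ ^ d)
        simpa using this
      exact g1.prodMk g2
    have hk := key hB hF hd hαd hβd (fun t => lin_ne hdet (hne2 t))
      (fun t => lin_ne hdet (by
        intro h; exact (pow_ne_zero d h2) (congrArg Prod.fst h))) hw u₁ hβ' (by
        rw [wd_lin]
        refine mul_ne_zero hdet ?_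
        simp only [wd]
        rw [mul_zero, sub_zero]
        exact (mul_ne_zero (pow_ne_zero d h2) (mul_ne_zero hdc (pow_ne_zero _ h1))))
    obtain ⟨hk1, k, hk0, hk2⟩ := hk
    refine ⟨hk1, k • (u₂ ^ d, u₁ ^ d), ?_, ?_, ?_⟩
    · simp only [Prod.smul_fst, smul_eq_mul]
      exact mul_ne_zero hk0 (pow_ne_zero d h2)
    · simp only [Prod.smul_snd, smul_eq_mul]
      exact mul_ne_zero hk0 (pow_ne_zero d h1)
    · rw [hk2, lin_smul]

theorem main (hBasics : Basics) :
    S_powcrit := by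
  classical
  intro d F hF hd ⟨a, b, c, e, hdet, h⟩
  have hcl := claim hBasics hF hd hdet h
  have hFd : Differentiable ℂ F := hBasics.diff hF
  have hit : ∀ i : ℕ, ∀ u : ℂ × ℂ, u.1 ≠ 0 → u.2 ≠ 0 → jac (F^[i]) (lin a b c e u) ≠ 0 := by
    intro i
    induction i with
    | zero =>
      intro u _ _
      have : (F^[0]) = fun v => v := rfl
      rw [this]
      simp [jac, wd]
    | succ i ih =>
      intro u h1 h2
      have e1 : (F^[i + 1]) = fun v => F^[i] (F v) := by
        funext v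
        exact Function.iterate_succ_apply F i v
      have hdi : Differentiable ℂ (F^[i]) := hBasics.diff (hBasics.iter hF i)
      rw [e1, hBasics.jac_comp hdi hFd]
      obtain ⟨hk1, u', h1', h2', hk2⟩ := hcl u h1 h2
      rw [hk2]
      exact mul_ne_zero (ih u' h1' h2') hk1
  refine ⟨{lin a b c e (1, 0), lin a b c e (0, 1)}, Finset.card_le_two, ?_, ?_⟩
  · intro v hv
    simp only [Finset.mem_insert, Finset.mem_singleton] at hv
    rcases hv with rfl | rfl
    · exact lin_ne hdet (by simp)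
    · exact lin_ne hdet (by simp)
  · intro i v hv hj
    set u : ℂ × ℂ := ((e * v.1 - b * v.2) / (a * e - b * c), (a * v.2 - c * v.1) / (a * e - b * c)) with hu
    have hvu : v = lin a b c e u := by
      simp only [lin, hu]
      ext
      · simp only
        rw [← mul_div_assoc, ← mul_div_assoc, ← add_div, eq_div_iff hdet]
        ring
      · simp only
        rw [← mul_div_assoc, ← mul_div_assoc, ← add_div, eq_div_iff hdet]
        ring
    by_cases h1 : u.1 = 0
    · refine ⟨lin a b c e (0, 1), by simp, ?_⟩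
      rw [hvu, wd_lin]
      simp [wd, h1]
    · by_cases h2 : u.2 = 0
      · refine ⟨lin a b c e (1, 0), by simp, ?_⟩
        rw [hvu, wd_lin]
        simp [wd, h2]
      · exfalso
        rw [hvu] at hj
        exact hit i u h1 h2 hj

end J_powcrit

end Pool.Agent.Lev
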