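import Pool.Agent.Lev.Stm4

set_option autoImplicit false

open Polynomial Metric Set Filter Topology

namespace Pool.Agent.Lev

namespace J_rat

/-- polynomial growth -/
def PG (g : ℂ → ℝ) : Prop := ∃ (C : ℝ) (K : ℕ), 0 ≤ C ∧ ∀ x, g x ≤ C * (1 + ‖x‖) ^ K

theorem PG_const (c : ℝ) (hc : 0 ≤ c) : PG (fun _ => c) := ⟨c, 0, hc, fun x => by simp⟩

theorem PG_mono {f g : ℂ → ℝ} (hg : PG g) (h : ∀ x, f x ≤ g x) : PG f := by
  obtain ⟨C, K, hC, h1⟩ := hg
  exact ⟨C, K, hC, fun x => (h x).trans (h1 x)⟩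

theorem PG_add {f g : ℂ → ℝ} (hf : PG f) (hg : PG g) : PG (fun x => f x + g x) := by
  obtain ⟨C, K, hC, h1⟩ := hf
  obtain ⟨C', K', hC', h2⟩ := hg
  refine ⟨C + C', max K K', by positivity, fun x => ?_⟩
  have h1x : 1 ≤ 1 + ‖x‖ := by linarith [norm_nonneg x]
  have h3 : (1 + ‖x‖) ^ K ≤ (1 + ‖x‖) ^ (max K K') := pow_le_pow_right₀ h1x (le_max_left _ _)
  have h4 : (1 + ‖x‖) ^ K' ≤ (1 + ‖x‖) ^ (max K K') := pow_le_pow_right₀ h1x (le_max_right _ _)
  have h5 := mul_le_mul_of_nonneg_left h3 hC
  have h6 := mul_le_mul_of_nonneg_left h4 hC'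
  have h7 := h1 x
  have h8 := h2 x
  rw [add_mul]
  linarith

theorem PG_mul {f g : ℂ → ℝ} (hf : PG f) (hg : PG g) (hf0 : ∀ x, 0 ≤ f x) (hg0 : ∀ x, 0 ≤ g x) :
    PG (fun x => f x * g x) := by
  obtain ⟨C, K, hC, h1⟩ := hf
  obtain ⟨C', K', hC', h2⟩ := hg
  refine ⟨C * C', K + K', by positivity, fun x => ?_⟩
  have h3 : f x * g x ≤ (C * (1 + ‖x‖) ^ K) * (C' * (1 + ‖x‖) ^ K') :=
    mul_le_mul (h1 x) (h2 x) (hg0 x) ((hf0 x).trans (h1 x))
  refine h3.trans (le_of_eq ?_)
  rw [pow_add]
  ring

theorem PG_pow {f : ℂ → ℝ} (hf : PG f) (hf0 : ∀ x, 0 ≤ f x) (n : ℕ) : PG (fun x => f x ^ n) := by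
  induction n with
  | zero =>
    simp only [pow_zero]
    exact PG_const 1 zero_le_one
  | succ n ih =>
    have := PG_mul ih hf (fun x => pow_nonneg (hf0 x) n) hf0
    simpa only [pow_succ] using this

theorem PG_sum {ι : Type*} (t : Finset ι) (f : ι → ℂ → ℝ) (h : ∀ i ∈ t, PG (f i)) :
    PG (fun x => ∑ i ∈ t, f i x) := by
  classical
  induction t using Finset.induction_on with
  | empty =>
    simp only [Finset.sum_empty]
    exact PG_const 0 le_rfl
  | insert i t hi ih =>
    simp only [Finset.sum_insert hi]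
    exact PG_add (h i (Finset.mem_insert_self i t))
      (ih (fun j hj => h j (Finset.mem_insert_of_mem hj)))

theorem PG_eval (P : ℂ[X]) : PG (fun x => ‖P.eval x‖) := by
  induction P using Polynomial.induction_on' with
  | add P Q hP hQ =>
    refine PG_mono (PG_add hP hQ) fun x => ?_
    rw [eval_add]
    exact norm_add_le _ _
  | monomial n a =>
    refine ⟨‖a‖, n, norm_nonneg a, fun x => ?_⟩
    show ‖eval x ((monomial n) a)‖ ≤ _
    rw [eval_monomial, norm_mul, norm_pow]
    apply mul_le_mul_of_nonneg_left _ (norm_nonneg a)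
    apply pow_le_pow_left₀ (norm_nonneg x)
    linarith

/-- Liouville theorem for polynomial growth -/
theorem liou (K : ℕ) : ∀ (F : ℂ → ℂ) (C : ℝ), Differentiable ℂ F →
    (∀ x, ‖F x‖ ≤ C * (1 + ‖x‖) ^ K) → ∃ P : ℂ[X], ∀ x, F x = P.eval x := by
  induction K with
  | zero =>
    intro F C hF h
    have hb : Bornology.IsBounded (Set.range F) := by
      rw [isBounded_iff_forall_norm_le]
      refine ⟨C, ?_⟩
      rintro _ ⟨x, rfl⟩
      have := h x
      rwa [pow_zero, mul_one] at this
    obtain ⟨c, hc⟩ := hF.exists_const_forall_eq_of_bounded hb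
    exact ⟨Polynomial.C c, fun x => by rw [eval_C]; exact hc x⟩
  | succ K ih =>
    intro F C hF h
    have hG : Differentiable ℂ (dslope F 0) := by
      rw [← differentiableOn_univ, Complex.differentiableOn_dslope Filter.univ_mem]
      exact hF.differentiableOn
    obtain ⟨M, hM⟩ := (isCompact_closedBall (0 : ℂ) 1).exists_bound_of_continuousOn
      hG.continuous.continuousOn
    have hb : ∀ x, ‖dslope F 0 x‖ ≤ (|M| + 2 * (|C| + ‖F 0‖)) * (1 + ‖x‖) ^ K := by
      intro x
      have hx1 : 1 ≤ 1 + ‖x‖ := by linarith [norm_nonneg x]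
      have hxK : 1 ≤ (1 + ‖x‖) ^ K := one_le_pow₀ hx1
      have hnn : 0 ≤ 2 * (|C| + ‖F 0‖) := by positivity
      rcases le_or_gt ‖x‖ 1 with hx | hx
      · have h1 := hM x (by rwa [mem_closedBall, dist_zero_right])
        calc ‖dslope F 0 x‖ ≤ M := h1
          _ ≤ |M| := le_abs_self M
          _ ≤ |M| + 2 * (|C| + ‖F 0‖) := by linarith
          _ = (|M| + 2 * (|C| + ‖F 0‖)) * 1 := by ring
          _ ≤ _ := mul_le_mul_of_nonneg_left hxK (by positivity)
      · have h1 : x * dslope F 0 x = F x - F 0 := by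
          have := sub_smul_dslope F 0 x
          rwa [sub_zero, smul_eq_mul] at this
        have h2 : ‖x‖ * ‖dslope F 0 x‖ ≤ (|C| + ‖F 0‖) * (1 + ‖x‖) ^ (K + 1) := by
          rw [← norm_mul, h1]
          have h3 := h x
          have h4 : C * (1 + ‖x‖) ^ (K + 1) ≤ |C| * (1 + ‖x‖) ^ (K + 1) :=
            mul_le_mul_of_nonneg_right (le_abs_self C) (by positivity)
          have h5 : ‖F 0‖ * 1 ≤ ‖F 0‖ * (1 + ‖x‖) ^ (K + 1) :=
            mul_le_mul_of_nonneg_left (one_le_pow₀ hx1) (norm_nonneg _)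
          have h6 := norm_sub_le (F x) (F 0)
          rw [add_mul]
          linarith
        have hx0 : 0 < ‖x‖ := by linarith
        have h3 : ‖x‖ * ‖dslope F 0 x‖ ≤ ‖x‖ * ((2 * (|C| + ‖F 0‖)) * (1 + ‖x‖) ^ K) := by
          refine h2.trans ?_
          rw [pow_succ]
          have h4 : 0 ≤ (|C| + ‖F 0‖) * (1 + ‖x‖) ^ K := by positivity
          nlinarith
        have h4 := le_of_mul_le_mul_left h3 hx0
        refine h4.trans ?_
        apply mul_le_mul_of_nonneg_right _ (by positivity)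
        linarith [abs_nonneg M]
    obtain ⟨P, hP⟩ := ih _ _ hG hb
    refine ⟨Polynomial.C (F 0) + X * P, fun x => ?_⟩
    have h1 : x * dslope F 0 x = F x - F 0 := by
      have := sub_smul_dslope F 0 x
      rwa [sub_zero, smul_eq_mul] at this
    rw [eval_add, eval_C, eval_mul, eval_X, ← hP, h1]
    ring

/-- removing finitely many singularities -/
theorem ext_entire (S : Finset ℂ) : ∀ (Z : Finset ℂ) (f : ℂ → ℂ) (C : ℝ) (K : ℕ), 0 ≤ C →
    (∀ x, x ∉ S → DifferentiableAt ℂ f x) → (∀ x, x ∉ Z → ‖f x‖ ≤ C * (1 + ‖x‖) ^ K) →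
    ∃ F : ℂ → ℂ, Differentiable ℂ F ∧ ∀ x, x ∉ S → F x = f x := by
  classical
  induction S using Finset.induction_on with
  | empty =>
    intro Z f C K _ hf _
    exact ⟨f, fun x => hf x (Finset.notMem_empty x), fun _ _ => rfl⟩
  | insert c S hc ih =>
    intro Z f C K hC hf hb
    have hs : ((S : Set ℂ)ᶜ ∩ ((Z.erase c : Finset ℂ) : Set ℂ)ᶜ) ∩ ball c 1 ∈ 𝓝 c := by
      apply Filter.inter_mem (Filter.inter_mem _ _) (ball_mem_nhds c one_pos)
      · exact (S.finite_toSet.isClosed.isOpen_compl).mem_nhds (by simpa using hc)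
      · exact ((Z.erase c).finite_toSet.isClosed.isOpen_compl).mem_nhds (by simp)
    set s : Set ℂ := ((S : Set ℂ)ᶜ ∩ ((Z.erase c : Finset ℂ) : Set ℂ)ᶜ) ∩ ball c 1 with hsdef
    have hd : DifferentiableOn ℂ f (s \ {c}) := by
      intro x hx
      apply DifferentiableAt.differentiableWithinAt
      apply hf
      rw [Finset.mem_insert]
      rintro (h | h)
      · exact hx.2 h
      · exact hx.1.1.1 h
    have hbd : BddAbove (norm ∘ f '' (s \ {c})) := by
      refine ⟨C * (1 + (‖c‖ + 1)) ^ K, ?_⟩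
      rintro _ ⟨x, hx, rfl⟩
      have hxZ : x ∉ Z := by
        intro h
        apply hx.1.1.2
        rw [Finset.mem_coe, Finset.mem_erase]
        exact ⟨hx.2, h⟩
      refine (hb x hxZ).trans ?_
      apply mul_le_mul_of_nonneg_left _ hC
      apply pow_le_pow_left₀ (by positivity)
      have h1 : ‖x - c‖ < 1 := by
        have := hx.1.2
        rwa [mem_ball, dist_eq_norm] at this
      have h2 : ‖x‖ ≤ ‖x - c‖ + ‖c‖ := by
        have := norm_add_le (x - c) c
        rwa [sub_add_cancel] at this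
      linarith
    have h1 := Complex.differentiableOn_update_limUnder_of_bddAbove hs hd hbd
    set f1 : ℂ → ℂ := Function.update f c (limUnder (𝓝[≠] c) f) with hf1
    have hf1d : ∀ x, x ∉ S → DifferentiableAt ℂ f1 x := by
      intro x hx
      by_cases hxc : x = c
      · rw [hxc]
        exact h1.differentiableAt hs
      · have h2 : f1 =ᶠ[𝓝 x] f := by
          filter_upwards [isOpen_ne.mem_nhds hxc] with y hy
          exact Function.update_of_ne hy _ _
        refine DifferentiableAt.congr_of_eventuallyEq (hf x ?_) h2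
        rw [Finset.mem_insert]
        rintro (h | h)
        · exact hxc h
        · exact hx h
    obtain ⟨F, hF, hFf⟩ := ih (insert c Z) f1 C K hC hf1d (by
      intro x hx
      rw [Finset.mem_insert, not_or] at hx
      rw [hf1, Function.update_of_ne hx.1]
      exact hb x hx.2)
    refine ⟨F, hF, fun x hx => ?_⟩
    rw [Finset.mem_insert, not_or] at hx
    rw [hFf x hx.2, hf1, Function.update_of_ne hx.1]

/-- a function holomorphic off a finite set with polynomial growth is a polynomial -/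
theorem poly_of_growth (S Z : Finset ℂ) (f : ℂ → ℂ) (g : ℂ → ℝ) (hg : PG g)
    (hf : ∀ x, x ∉ S → DifferentiableAt ℂ f x) (hb : ∀ x, x ∉ Z → ‖f x‖ ≤ g x) :
    ∃ P : ℂ[X], ∀ x, x ∉ S → f x = P.eval x := by
  classical
  obtain ⟨C, K, hC, hgC⟩ := hg
  have hb' : ∀ x, x ∉ Z → ‖f x‖ ≤ C * (1 + ‖x‖) ^ K := fun x hx => (hb x hx).trans (hgC x)
  obtain ⟨F, hF, hFf⟩ := ext_entire S Z f C K hC hf hb'
  have hall : ∀ x, ‖F x‖ ≤ C * (1 + ‖x‖) ^ K := by
    have hcl : IsClosed {x : ℂ | ‖F x‖ ≤ C * (1 + ‖x‖) ^ K} := by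
      apply isClosed_le hF.continuous.norm
      fun_prop
    have hdense : Dense (((S ∪ Z : Finset ℂ) : Set ℂ)ᶜ) :=
      (Finset.countable_toSet _).dense_compl ℂ
    have hsub : (((S ∪ Z : Finset ℂ) : Set ℂ)ᶜ) ⊆ {x : ℂ | ‖F x‖ ≤ C * (1 + ‖x‖) ^ K} := by
      intro x hx
      rw [Set.mem_compl_iff, Finset.mem_coe, Finset.mem_union, not_or] at hx
      rw [Set.mem_ofPred_eq, hFf x hx.1]
      exact hb' x hx.2
    intro x
    exact (hcl.closure_subset_iff.mpr hsub) (hdense x)
  obtain ⟨P, hP⟩ := liou K F C hF hall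
  exact ⟨P, fun x hx => by rw [← hFf x hx, hP]⟩

theorem coeff_diff {ι : Type*} (t : Finset ι) (h : ι → ℂ → ℂ) (x : ℂ)
    (hh : ∀ i ∈ t, DifferentiableAt ℂ (h i) x) : ∀ l : ℕ,
    DifferentiableAt ℂ (fun z => (∏ i ∈ t, (X - C (h i z))).coeff l) x := by
  classical
  induction t using Finset.induction_on with
  | empty =>
    intro l
    simp only [Finset.prod_empty]
    exact differentiableAt_const _
  | insert i t hi ih =>
    intro l
    have h1 := hh i (Finset.mem_insert_self i t)
    have h2 := ih (fun j hj => hh j (Finset.mem_insert_of_mem hj))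
    simp only [Finset.prod_insert hi, sub_mul, coeff_sub, coeff_C_mul]
    cases l with
    | zero =>
      simp only [coeff_X_mul_zero]
      exact (differentiableAt_const _).sub (h1.mul (h2 0))
    | succ l =>
      simp only [coeff_X_mul]
      exact (h2 l).sub (h1.mul (h2 (l + 1)))

theorem coeff_bound {ι : Type*} (t : Finset ι) (a : ℂ) (b : ι → ℂ) (B : ℝ) (hB : 0 ≤ B)
    (hb : ∀ i ∈ t, ‖b i‖ ≤ B) : ∀ l : ℕ,
    ‖(∏ i ∈ t, (C a * X - C (b i))).coeff l‖ ≤ (‖a‖ + B) ^ t.card := by
  classical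
  induction t using Finset.induction_on with
  | empty =>
    intro l
    rw [Finset.prod_empty, Finset.card_empty, pow_zero, coeff_one]
    split_ifs
    · rw [norm_one]
    · rw [norm_zero]
      exact zero_le_one
  | insert i t hi ih =>
    intro l
    have h1 := hb i (Finset.mem_insert_self i t)
    have h2 := ih (fun j hj => hb j (Finset.mem_insert_of_mem hj))
    rw [Finset.prod_insert hi, Finset.card_insert_of_notMem hi, sub_mul, coeff_sub, coeff_C_mul,
      mul_assoc, coeff_C_mul, pow_succ]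
    have hnn : 0 ≤ (‖a‖ + B) ^ t.card := by positivity
    have h3 : ‖(X * ∏ i ∈ t, (C a * X - C (b i))).coeff l‖ ≤ (‖a‖ + B) ^ t.card := by
      cases l with
      | zero =>
        rw [coeff_X_mul_zero, norm_zero]
        exact hnn
      | succ l =>
        rw [coeff_X_mul]
        exact h2 l
    refine (norm_sub_le _ _).trans ?_
    rw [norm_mul, norm_mul]
    have h4 := mul_le_mul_of_nonneg_left h3 (norm_nonneg a)
    have h5 := mul_le_mul h1 (h2 l) (norm_nonneg _) hB
    nlinarith

theorem root_bound (Q : Polynomial (Polynomial ℂ)) (x y : ℂ)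
    (hq : Q.leadingCoeff.eval x ≠ 0) (h : Q.evalEval x y = 0) :
    ‖Q.leadingCoeff.eval x * y‖ ≤
      ‖Q.leadingCoeff.eval x‖ + ∑ j ∈ Finset.range Q.natDegree, ‖(Q.coeff j).eval x‖ := by
  have hsum0 : 0 ≤ ∑ j ∈ Finset.range Q.natDegree, ‖(Q.coeff j).eval x‖ :=
    Finset.sum_nonneg fun _ _ => norm_nonneg _
  rcases le_or_gt ‖y‖ 1 with hy | hy
  · rw [norm_mul]
    have := mul_le_mul_of_nonneg_left hy (norm_nonneg (Q.leadingCoeff.eval x))
    linarith
  · have h1 : ∑ j ∈ Finset.range (Q.natDegree + 1), (Q.coeff j).eval x * y ^ j = 0 := by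
      rw [← h]
      unfold Polynomial.evalEval
      rw [eval_eq_sum_range (p := Q), eval_finsetSum]
      apply Finset.sum_congr rfl
      intro j _
      rw [eval_mul, eval_pow, eval_C]
    rw [Finset.sum_range_succ] at h1
    change _ + Q.leadingCoeff.eval x * y ^ Q.natDegree = 0 at h1
    cases hN : Q.natDegree with
    | zero =>
      exfalso
      rw [hN] at h1
      simp at h1
      exact hq h1
    | succ n =>
      rw [hN] at h1
      have h2 : Q.leadingCoeff.eval x * y ^ (n + 1) =
          -∑ j ∈ Finset.range (n + 1), (Q.coeff j).eval x * y ^ j := by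
        linear_combination h1
      have h3 : ‖Q.leadingCoeff.eval x * y‖ * ‖y‖ ^ n ≤
          (∑ j ∈ Finset.range (n + 1), ‖(Q.coeff j).eval x‖) * ‖y‖ ^ n := by
        rw [← norm_pow, ← norm_mul, mul_assoc, ← pow_succ', h2, norm_neg, Finset.sum_mul]
        refine (norm_sum_le _ _).trans (Finset.sum_le_sum ?_)
        intro j hj
        rw [norm_mul, norm_pow, norm_pow]
        apply mul_le_mul_of_nonneg_left _ (norm_nonneg _)
        apply pow_le_pow_right₀ hy.le
        have := Finset.mem_range.mp hj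
        omega
      have h4 := le_of_mul_le_mul_right h3 (pow_pos (by linarith) n)
      have h5 := norm_nonneg (Q.leadingCoeff.eval x)
      linarith

theorem main :
    S_rat := by
  classical
  intro S p χ Q hQ hloc hroot
  set qN : ℂ[X] := Q.leadingCoeff with hqNdef
  have hqN : qN ≠ 0 := leadingCoeff_ne_zero.mpr hQ
  set Z : Finset ℂ := S ∪ qN.roots.toFinset with hZ
  set b : ℂ → ℝ := fun x => ‖qN.eval x‖ + ∑ j ∈ Finset.range Q.natDegree, ‖(Q.coeff j).eval x‖
    with hbdef
  have hb0 : ∀ x, 0 ≤ b x := fun x =>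
    add_nonneg (norm_nonneg _) (Finset.sum_nonneg fun _ _ => norm_nonneg _)
  have hbPG : PG b := PG_add (PG_eval qN) (PG_sum _ _ fun j _ => PG_eval (Q.coeff j))
  have hgPG : PG (fun x => (‖qN.eval x‖ + b x) ^ p) :=
    PG_pow (PG_add (PG_eval qN) hbPG) (fun x => add_nonneg (norm_nonneg _) (hb0 x)) p
  have hf : ∀ l : ℕ, ∃ P : ℂ[X], ∀ x, x ∉ S → (qN.eval x) ^ p * (χ x).coeff l = P.eval x := by
    intro l
    apply poly_of_growth S Z _ _ hgPG
    · intro x hx
      obtain ⟨r, hr, h, hh, hχ⟩ := hloc x hx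
      have h1 : DifferentiableAt ℂ (fun z => (∏ i, (X - C (h i z))).coeff l) x :=
        coeff_diff Finset.univ h x
          (fun i _ => (hh i).differentiableAt (ball_mem_nhds x hr)) l
      have h2 : (fun z => (χ z).coeff l) =ᶠ[𝓝 x] (fun z => (∏ i, (X - C (h i z))).coeff l) := by
        have hS : ((S : Set ℂ)ᶜ) ∈ 𝓝 x :=
          (S.finite_toSet.isClosed.isOpen_compl).mem_nhds (by simpa using hx)
        filter_upwards [ball_mem_nhds x hr, hS] with z hz hzS
        rw [hχ z hz (by simpa using hzS)]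
      have h3 : DifferentiableAt ℂ (fun z => (χ z).coeff l) x := h1.congr_of_eventuallyEq h2
      exact (((Polynomial.differentiable qN) x).pow p).mul h3
    · intro x hx
      rw [hZ, Finset.mem_union, not_or] at hx
      obtain ⟨hxS, hxq⟩ := hx
      have hq : qN.eval x ≠ 0 := by
        intro h0
        apply hxq
        rw [Multiset.mem_toFinset, mem_roots hqN]
        exact h0
      obtain ⟨r, hr, h, hh, hχ⟩ := hloc x hxS
      have hχx := hχ x (mem_ball_self hr) hxS
      have h1 : (qN.eval x) ^ p * (χ x).coeff l =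
          (∏ i : Fin p, (C (qN.eval x) * X - C (qN.eval x * h i x))).coeff l := by
        have h2 : (∏ i : Fin p, (C (qN.eval x) * X - C (qN.eval x * h i x))) =
            C ((qN.eval x) ^ p) * χ x := by
          rw [hχx]
          have h3 : ∀ i : Fin p, (C (qN.eval x) * X - C (qN.eval x * h i x)) =
              C (qN.eval x) * (X - C (h i x)) := by
            intro i
            rw [C_mul]
            ring
          rw [Finset.prod_congr rfl (fun i _ => h3 i), Finset.prod_mul_distrib,
            Finset.prod_const, Finset.card_univ, Fintype.card_fin, C_pow]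
        rw [h2, coeff_C_mul]
      rw [h1]
      have h2 := coeff_bound (Finset.univ : Finset (Fin p)) (qN.eval x)
        (fun i => qN.eval x * h i x) (b x) (hb0 x) (by
          intro i _
          apply root_bound Q x (h i x) hq
          apply hroot x hxS
          rw [hχx, eval_prod]
          apply Finset.prod_eq_zero (Finset.mem_univ i)
          rw [eval_sub, eval_X, eval_C, sub_self]) l
      rw [Finset.card_univ, Fintype.card_fin] at h2
      exact h2
  choose P hP using hf
  refine ⟨qN ^ p, pow_ne_zero _ hqN, ∑ l ∈ Finset.range (p + 1), monomial l (P l), ?_⟩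
  intro x hx
  ext l
  rw [coeff_C_mul, coeff_map, finsetSum_coeff, eval_pow, hP l x hx]
  simp only [coeff_monomial]
  rw [Finset.sum_ite_eq' (Finset.range (p + 1)) l (fun l => P l)]
  split_ifs with hl
  · rfl
  · rw [map_zero, ← hP l x hx]
    rw [Finset.mem_range, not_lt] at hl
    obtain ⟨r, hr, h, hh, hχ⟩ := hloc x hx
    have hχx := hχ x (mem_ball_self hr) hx
    have hdeg : (χ x).natDegree ≤ p := by
      rw [hχx]
      refine (natDegree_prod_le _ _).trans ?_
      refine (Finset.sum_le_sum (fun i _ => (natDegree_X_sub_C_le (h i x)))).trans ?_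
      simp
    rw [coeff_eq_zero_of_natDegree_lt (by omega), mul_zero]

end J_rat

end Pool.Agent.Lev
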