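import Pool.Agent.Lev.Stm5

set_option autoImplicit false

open Polynomial Metric Set Filter Topology

namespace Pool.Agent.Lev

namespace J_rel

theorem ev_cod {P : ℂ → Prop} :
    (∀ᶠ z in Filter.codiscrete ℂ, P z) ↔ ∀ x, ∀ᶠ z in 𝓝[≠] x, P z := by
  rw [Filter.Eventually, mem_codiscrete]
  refine forall_congr' fun x => ?_
  rw [Filter.disjoint_principal_right, compl_compl]
  rfl

theorem cod_false (h : ∀ᶠ _z in Filter.codiscrete ℂ, False) : False := by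
  obtain ⟨z, hz⟩ := (ev_cod.1 h 0).exists
  exact hz

theorem avoid {ω₁ ω₂ : ℂ} {θ : ℂ → ℂ} (h : Ell ω₁ ω₂ θ) (t : ℂ) :
    ∀ᶠ z in Filter.codiscrete ℂ, θ z ≠ t := by
  rw [ev_cod]
  have hm : MeromorphicOn (fun z => θ z - t) univ := h.mer.sub (MeromorphicOn.const t)
  by_cases hex : ∃ u ∈ (univ : Set ℂ), meromorphicOrderAt (fun z => θ z - t) u ≠ ⊤
  · have hall := (hm.exists_meromorphicOrderAt_ne_top_iff_forall_mem isConnected_univ).1 hex
    intro x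
    have h1 := (meromorphicOrderAt_ne_top_iff_eventually_ne_zero (hm x trivial)).1
      (hall x trivial)
    filter_upwards [h1] with z hz h2
    exact hz (sub_eq_zero.2 h2)
  · exfalso
    push Not at hex
    apply h.nc
    refine ⟨t, ?_⟩
    rw [ev_cod]
    intro x
    have h1 := meromorphicOrderAt_eq_top_iff.1 (hex x trivial)
    filter_upwards [h1] with z hz
    exact sub_eq_zero.1 hz

theorem avoid_poly {ω₁ ω₂ : ℂ} {θ : ℂ → ℂ} (h : Ell ω₁ ω₂ θ) (p : ℂ[X]) (hp : p ≠ 0) :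
    ∀ᶠ z in Filter.codiscrete ℂ, Polynomial.eval₂ (RingHom.id ℂ) (θ z) p ≠ 0 := by
  have h1 : ∀ᶠ z in Filter.codiscrete ℂ, ∀ t ∈ p.roots.toFinset, θ z ≠ t := by
    rw [Filter.eventually_all_finset]
    intro t _
    exact avoid h t
  filter_upwards [h1] with z hz h2
  refine hz (θ z) ?_ rfl
  rw [Multiset.mem_toFinset, Polynomial.mem_roots hp, Polynomial.IsRoot.def]
  rwa [Polynomial.eval₂_id] at h2

theorem ev_add' {ω₁ ω₂ : ℂ} {θ : ℂ → ℂ} (h : Ell ω₁ ω₂ θ) (V V' : RatFunc ℂ) :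
    ∀ᶠ z in Filter.codiscrete ℂ, ev (V + V') (θ z) = ev V (θ z) + ev V' (θ z) := by
  filter_upwards [avoid_poly h V.denom V.denom_ne_zero, avoid_poly h V'.denom V'.denom_ne_zero]
    with z h1 h2
  exact RatFunc.eval_add _ _ h1 h2

theorem ev_mul' {ω₁ ω₂ : ℂ} {θ : ℂ → ℂ} (h : Ell ω₁ ω₂ θ) (V V' : RatFunc ℂ) :
    ∀ᶠ z in Filter.codiscrete ℂ, ev (V * V') (θ z) = ev V (θ z) * ev V' (θ z) := by
  filter_upwards [avoid_poly h V.denom V.denom_ne_zero, avoid_poly h V'.denom V'.denom_ne_zero]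
    with z h1 h2
  exact RatFunc.eval_mul _ _ h1 h2

theorem ev_inv' {ω₁ ω₂ : ℂ} {θ : ℂ → ℂ} (h : Ell ω₁ ω₂ θ) (V : RatFunc ℂ) :
    ∀ᶠ z in Filter.codiscrete ℂ, ev V⁻¹ (θ z) = (ev V (θ z))⁻¹ := by
  by_cases hV : V = 0
  · refine Filter.Eventually.of_forall fun z => ?_
    have h0 : ev 0 (θ z) = 0 := RatFunc.eval_zero _ _
    rw [hV, inv_zero, h0, inv_zero]
  · filter_upwards [ev_mul' h V V⁻¹] with z hz
    have h1 : ev 1 (θ z) = 1 := RatFunc.eval_one _ _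
    rw [mul_inv_cancel₀ hV, h1] at hz
    exact eq_inv_of_mul_eq_one_right hz.symm

theorem ev_const {V : RatFunc ℂ} (h : ¬ 1 ≤ dg V) : ∃ c : ℂ, ∀ x, ev V x = c := by
  unfold dg at h
  have h1 : V.num.natDegree = 0 := by
    have := le_max_left V.num.natDegree V.denom.natDegree
    omega
  have h2 : V.denom.natDegree = 0 := by
    have := le_max_right V.num.natDegree V.denom.natDegree
    omega
  obtain ⟨a, ha⟩ := Polynomial.natDegree_eq_zero.1 h1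
  obtain ⟨b, hb⟩ := Polynomial.natDegree_eq_zero.1 h2
  refine ⟨a / b, fun x => ?_⟩
  unfold ev RatFunc.eval
  rw [← ha, ← hb, Polynomial.eval₂_C, Polynomial.eval₂_C]
  rfl

theorem rel_dg (h_evEll : S_evEll) {ω₁ ω₂ : ℂ} {θ₁ θ₂ : ℂ → ℂ} (h1 : Ell ω₁ ω₂ θ₁)
    (h2 : Ell ω₁ ω₂ θ₂) {V W : RatFunc ℂ} (h : Rel θ₁ θ₂ V W) : 1 ≤ dg V ↔ 1 ≤ dg W := by
  constructor
  · intro hV
    by_contra hW
    obtain ⟨c, hc⟩ := ev_const hW
    refine (h_evEll ω₁ ω₂ θ₁ V h1 hV).1.nc ⟨c, ?_⟩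
    filter_upwards [h] with z hz
    rw [hz, hc]
  · intro hW
    by_contra hV
    obtain ⟨c, hc⟩ := ev_const hV
    refine (h_evEll ω₁ ω₂ θ₂ W h2 hW).1.nc ⟨c, ?_⟩
    filter_upwards [h] with z hz
    rw [← hz, hc]

theorem main (h_evEll : S_evEll) (h_dgcp : S_dgcp) :
    S_rel := by
  intro ω₁ ω₂ θ₁ θ₂ h1 h2
  refine ⟨⟨?_, ?_, ?_, ?_⟩, ?_, ?_, ?_⟩
  · intro c
    refine ⟨RatFunc.C c, Filter.Eventually.of_forall fun z => ?_⟩
    unfold ev
    rw [RatFunc.eval_C, RatFunc.eval_C]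
  · rintro f ⟨V, hV⟩ g ⟨V', hV'⟩
    refine ⟨V + V', ?_⟩
    unfold Rel at hV hV' ⊢
    filter_upwards [hV, hV', ev_add' h1 V V', ev_add' h2 f g] with z e1 e2 e3 e4
    rw [e3, e4, e1, e2]
  · rintro f ⟨V, hV⟩ g ⟨V', hV'⟩
    refine ⟨V * V', ?_⟩
    unfold Rel at hV hV' ⊢
    filter_upwards [hV, hV', ev_mul' h1 V V', ev_mul' h2 f g] with z e1 e2 e3 e4
    rw [e3, e4, e1, e2]
  · rintro f ⟨V, hV⟩
    refine ⟨V⁻¹, ?_⟩
    unfold Rel at hV ⊢
    filter_upwards [hV, ev_inv' h1 V, ev_inv' h2 f] with z e1 e2 e3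
    rw [e2, e3, e1]
  · intro V W h
    exact rel_dg h_evEll h1 h2 h
  · intro V W T h hW
    have hV := (rel_dg h_evEll h1 h2 h).2 hW
    unfold Rel at h ⊢
    filter_upwards [h, (h_evEll ω₁ ω₂ θ₁ V h1 hV).2 T, (h_evEll ω₁ ω₂ θ₂ W h2 hW).2 T]
      with z e1 e2 e3
    rw [← e2, ← e3, e1]
  · intro V V' W hV hV'
    by_contra hne
    have hD : V - V' ≠ 0 := sub_ne_zero.2 hne
    apply cod_false
    unfold Rel at hV hV'
    filter_upwards [hV, hV', ev_add' h1 (V - V') V', avoid_poly h1 _ (RatFunc.num_ne_zero hD),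
      avoid_poly h1 _ (V - V').denom_ne_zero] with z e1 e2 e3 e4 e5
    rw [sub_add_cancel, e1, e2] at e3
    have e6 : ev (V - V') (θ₁ z) = 0 := by linear_combination -e3
    unfold ev RatFunc.eval at e6
    rcases div_eq_zero_iff.1 e6 with e7 | e7
    · exact e4 e7
    · exact e5 e7

end J_rel

end Pool.Agent.Lev
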