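import Pool.Agent.Lev.Stm4

set_option autoImplicit false

open Polynomial Metric Set Filter Topology

namespace Pool.Agent.Lev

namespace J_sep

theorem main :
    S_sep := by
  classical
  intro P hP hdeg
  have hprim : P.IsPrimitive := hP.isPrimitive (by omega)
  let K := FractionRing ℂ[X]
  have hirr : Irreducible (P.map (algebraMap ℂ[X] K)) :=
    (hprim.irreducible_iff_irreducible_map_fraction_map (K := K)).1 hP
  have hsep : (P.map (algebraMap ℂ[X] K)).Separable := hirr.separable
  obtain ⟨a, b, hab⟩ := hsep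
  obtain ⟨ca, hcam, hca⟩ := IsLocalization.integerNormalization_spec (nonZeroDivisors ℂ[X]) a
  obtain ⟨cb, hcbm, hcb⟩ := IsLocalization.integerNormalization_spec (nonZeroDivisors ℂ[X]) b
  set A := IsLocalization.integerNormalization (nonZeroDivisors ℂ[X]) a with hA
  set B := IsLocalization.integerNormalization (nonZeroDivisors ℂ[X]) b with hB
  have hca0 : ca ≠ 0 := nonZeroDivisors.ne_zero hcam
  have hcb0 : cb ≠ 0 := nonZeroDivisors.ne_zero hcbm
  have key : C cb * A * P + C ca * B * derivative P = C (ca * cb) := by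
    apply Polynomial.map_injective (algebraMap ℂ[X] K) (IsFractionRing.injective ℂ[X] K)
    have e1 : ∀ (c : ℂ[X]) (p : Polynomial K), c • p = C (algebraMap ℂ[X] K c) * p := by
      intro c p
      rw [← Polynomial.smul_eq_C_mul, algebraMap_smul]
    rw [e1] at hca hcb
    simp only [Polynomial.map_add, Polynomial.map_mul, Polynomial.map_C, hca, hcb,
      ← Polynomial.derivative_map, map_mul]
    have : (C ((algebraMap ℂ[X] K) ca) * C ((algebraMap ℂ[X] K) cb) : Polynomial K) =
        C ((algebraMap ℂ[X] K) ca) * C ((algebraMap ℂ[X] K) cb) *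
          (a * P.map (algebraMap ℂ[X] K) + b * derivative (P.map (algebraMap ℂ[X] K))) := by
      rw [hab, mul_one]
    rw [this]
    ring
  have hP0 : P ≠ 0 := hP.ne_zero
  have hlc : P.leadingCoeff ≠ 0 := Polynomial.leadingCoeff_ne_zero.2 hP0
  have hw : ca * cb ≠ 0 := mul_ne_zero hca0 hcb0
  refine ⟨P.leadingCoeff.roots.toFinset ∪ (ca * cb).roots.toFinset, ?_⟩
  intro x hx
  rw [Finset.mem_union, not_or, Multiset.mem_toFinset, Multiset.mem_toFinset,
    Polynomial.mem_roots hlc, Polynomial.mem_roots hw] at hx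
  refine ⟨?_, ?_⟩
  · apply Polynomial.natDegree_map_of_leadingCoeff_ne_zero
    exact hx.1
  · apply Polynomial.nodup_roots
    have h1 := congrArg (Polynomial.map (evalRingHom x)) key
    simp only [Polynomial.map_add, Polynomial.map_mul, Polynomial.map_C,
      ← Polynomial.derivative_map] at h1
    set c := (evalRingHom x) (ca * cb) with hc
    have hc0 : c ≠ 0 := hx.2
    refine ⟨C c⁻¹ * (C ((evalRingHom x) cb) * A.map (evalRingHom x)),
      C c⁻¹ * (C ((evalRingHom x) ca) * B.map (evalRingHom x)), ?_⟩
    have : C c⁻¹ * (C ((evalRingHom x) cb) * A.map (evalRingHom x)) * P.map (evalRingHom x) +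
        C c⁻¹ * (C ((evalRingHom x) ca) * B.map (evalRingHom x)) *
          derivative (P.map (evalRingHom x)) = C c⁻¹ * C c := by
      rw [← h1]
      ring
    rw [this, ← C_mul, inv_mul_cancel₀ hc0, C_1]

end J_sep

end Pool.Agent.Lev
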