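import Pool.Agent.Lev.Stm4

set_option autoImplicit false

open Polynomial Metric Set Filter Topology

namespace Pool.Agent.Lev

namespace J_sheet

theorem ord_simple {θ : ℂ → ℂ} {z x₀ : ℂ} (ha : AnalyticAt ℂ θ z) (hx : θ z = x₀)
    (hd : deriv θ z ≠ 0) : ordZ (fun w => θ w - x₀) z = 1 := by
  have h1 : analyticOrderAt (fun w => θ w - x₀) z = 1 := by
    have := ha.analyticOrderAt_sub_eq_one_of_deriv_ne_zero hd
    rwa [hx] at this
  have h2 : AnalyticAt ℂ (fun w => θ w - x₀) z := ha.sub analyticAt_const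
  rw [ordZ, h2.meromorphicOrderAt_eq, h1]
  rfl

theorem ord_pos {θ : ℂ → ℂ} {z x₀ : ℂ} (hNF : MeromorphicNFAt θ z)
    (h : (ordZ (fun w => θ w - x₀) z).toNat ≠ 0) : AnalyticAt ℂ θ z ∧ θ z = x₀ := by
  have h1 : 0 < ordZ (fun w => θ w - x₀) z := by omega
  have hm : MeromorphicAt (fun w => θ w - x₀) z :=
    hNF.meromorphicAt.sub (MeromorphicAt.const x₀ z)
  have hpos : 0 < meromorphicOrderAt (fun w => θ w - x₀) z := by
    unfold ordZ at h1
    cases hk : meromorphicOrderAt (fun w => θ w - x₀) z with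
    | top => exact WithTop.coe_lt_top 0
    | coe k =>
      rw [hk] at h1
      simp only [WithTop.untop₀_coe] at h1
      exact_mod_cast h1
  have hθ : 0 ≤ meromorphicOrderAt θ z := by
    have h2 := meromorphicOrderAt_add hm (MeromorphicAt.const x₀ z)
    have h3 : (fun w => θ w - x₀) + (fun _ => x₀) = θ := by
      funext w; simp
    rw [h3] at h2
    refine le_trans (le_min hpos.le ?_) h2
    exact AnalyticAt.meromorphicOrderAt_nonneg analyticAt_const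
  have ha := hNF.meromorphicOrderAt_nonneg_iff_analyticAt.1 hθ
  refine ⟨ha, ?_⟩
  by_contra hne
  have h4 : AnalyticAt ℂ (fun w => θ w - x₀) z := ha.sub analyticAt_const
  have h5 : analyticOrderAt (fun w => θ w - x₀) z = 0 :=
    h4.analyticOrderAt_eq_zero.2 (sub_ne_zero.2 hne)
  rw [h4.meromorphicOrderAt_eq, h5] at hpos
  exact lt_irrefl _ hpos

theorem per_int {ω₁ ω₂ : ℂ} {θ : ℂ → ℂ} (hE : Ell ω₁ ω₂ θ) (m n : ℤ) (z : ℂ) :
    θ (z + (m * ω₁ + n * ω₂)) = θ z := by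
  have h1 : Function.Periodic θ ω₁ := hE.per1
  have h2 : Function.Periodic θ ω₂ := hE.per2
  rw [← add_assoc, (h2.int_mul n), (h1.int_mul m)]

theorem lat_exists {ω₁ ω₂ : ℂ} (h : LinearIndependent ℝ ![ω₁, ω₂]) (c : ℂ) :
    ∃ m n : ℤ, c - (m * ω₁ + n * ω₂) ∈ FD ω₁ ω₂ := by
  let b := basisOfLinearIndependentOfCardEqFinrank h (by simp [Complex.finrank_real_complex])
  have hb0 : b 0 = ω₁ := by simp [b]
  have hb1 : b 1 = ω₂ := by simp [b]
  have hc := b.sum_repr c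
  rw [Fin.sum_univ_two, hb0, hb1, Complex.real_smul, Complex.real_smul] at hc
  refine ⟨⌊b.repr c 0⌋, ⌊b.repr c 1⌋, Int.fract (b.repr c 0), Int.fract (b.repr c 1),
    Int.fract_nonneg _, Int.fract_lt_one _, Int.fract_nonneg _, Int.fract_lt_one _, ?_⟩
  unfold Int.fract
  push_cast
  linear_combination -hc

theorem lat_unique {ω₁ ω₂ : ℂ} (h : LinearIndependent ℝ ![ω₁, ω₂]) {z z' : ℂ}
    (hz : z ∈ FD ω₁ ω₂) (hz' : z' ∈ FD ω₁ ω₂) (m n : ℤ) (he : z - z' = m * ω₁ + n * ω₂) :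
    z = z' := by
  obtain ⟨s, t, hs0, hs1, ht0, ht1, rfl⟩ := hz
  obtain ⟨s', t', hs0', hs1', ht0', ht1', rfl⟩ := hz'
  rw [LinearIndependent.pair_iff] at h
  obtain ⟨h1, h2⟩ := h (s - s' - m) (t - t' - n) (by
    rw [Complex.real_smul, Complex.real_smul]
    push_cast
    linear_combination he)
  have hm : m = 0 := by
    have h3 : ((m : ℤ) : ℝ) < 1 := by linarith
    have h4 : (-1 : ℝ) < ((m : ℤ) : ℝ) := by linarith
    have h5 : m < 1 := by exact_mod_cast h3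
    have h6 : -1 < m := by exact_mod_cast h4
    omega
  have hn : n = 0 := by
    have h3 : ((n : ℤ) : ℝ) < 1 := by linarith
    have h4 : (-1 : ℝ) < ((n : ℤ) : ℝ) := by linarith
    have h5 : n < 1 := by exact_mod_cast h3
    have h6 : -1 < n := by exact_mod_cast h4
    omega
  subst hm hn
  push_cast at h1 h2
  have e1 : s = s' := by linarith
  have e2 : t = t' := by linarith
  rw [e1, e2]

theorem deriv_ne_top (h_fib : S_fib) {ω₁ ω₂ : ℂ} {θ : ℂ → ℂ} (hE : Ell ω₁ ω₂ θ) {c : ℂ}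
    (hc : AnalyticAt ℂ θ c) : analyticOrderAt (deriv θ) c ≠ ⊤ := by
  obtain ⟨hdeg, hval, -, -⟩ := h_fib ω₁ ω₂ θ hE
  obtain ⟨-, hsum⟩ := hval (θ c)
  have hne : ∑ᶠ z ∈ FD ω₁ ω₂, (ordZ (fun w => θ w - θ c) z).toNat ≠ 0 := by
    rw [hsum]; omega
  obtain ⟨z, -, hz⟩ := exists_ne_zero_of_finsum_mem_ne_zero hne
  have hz1 : meromorphicOrderAt (fun w => θ w - θ c) z ≠ ⊤ := by
    intro h
    apply hz
    rw [ordZ, h]
    rfl
  have hmer : MeromorphicOn (fun w => θ w - θ c) Set.univ := fun w hw =>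
    (hE.mer w hw).sub (MeromorphicAt.const _ w)
  have h2 := hmer.meromorphicOrderAt_ne_top_of_isPreconnected isPreconnected_univ
    (Set.mem_univ z) (Set.mem_univ c) hz1
  have h3 : AnalyticAt ℂ (fun w => θ w - θ c) c := hc.sub analyticAt_const
  rw [h3.meromorphicOrderAt_eq, ← hc.analyticOrderAt_deriv_add_one] at h2
  intro h4
  rw [h4] at h2
  exact h2 rfl

theorem deriv_mero_ne_top (h_fib : S_fib) {ω₁ ω₂ : ℂ} {θ : ℂ → ℂ} (hE : Ell ω₁ ω₂ θ) {c : ℂ}
    (hc : AnalyticAt ℂ θ c) : meromorphicOrderAt (deriv θ) c ≠ ⊤ := by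
  have h1 := deriv_ne_top h_fib hE hc
  rw [hc.deriv.meromorphicOrderAt_eq]
  intro h2
  apply h1
  cases hk : analyticOrderAt (deriv θ) c with
  | top => rfl
  | coe k =>
    rw [hk] at h2
    exact absurd h2 (WithTop.coe_ne_top)

theorem deriv_ord_pos (h_fib : S_fib) {ω₁ ω₂ : ℂ} {θ : ℂ → ℂ} (hE : Ell ω₁ ω₂ θ) {c : ℂ}
    (hc : AnalyticAt ℂ θ c) (hd : deriv θ c = 0) : 1 ≤ ordZ (deriv θ) c := by
  have h1 := deriv_ne_top h_fib hE hc
  have h2 : analyticOrderAt (deriv θ) c ≠ 0 := fun h =>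
    (hc.deriv.analyticOrderAt_eq_zero.1 h) hd
  rw [ordZ, hc.deriv.meromorphicOrderAt_eq]
  cases hk : analyticOrderAt (deriv θ) c with
  | top => exact absurd hk h1
  | coe k =>
    rw [hk] at h2
    have h3 : k ≠ 0 := fun h => h2 (by rw [h]; rfl)
    show (1 : ℤ) ≤ (k : ℤ)
    omega

/-- data for the bad points of the fibre -/
theorem bad_data (h_ext : S_ext) {ω₁ ω₂ : ℂ} {θ : ℂ → ℂ} (hE : Ell ω₁ ω₂ θ)
    (hNF : MeromorphicNFOn θ Set.univ) {x₀ : ℂ} {R : ℝ} (hR : 0 < R) {z : ℂ}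
    (hz1 : AnalyticAt ℂ θ z) (hz2 : θ z = x₀) (hz3 : deriv θ z ≠ 0)
    (hbad : ¬ ∃ s, Sec θ s (ball x₀ R) ∧ s x₀ = z) :
    ∃ (c : ℂ) (s : ℂ → ℂ) (m n : ℤ), c ∈ FD ω₁ ω₂ ∧ AnalyticAt ℂ θ c ∧ deriv θ c = 0 ∧
      0 < ‖θ c - x₀‖ ∧ ‖θ c - x₀‖ < R ∧ Sec θ s (ball x₀ ‖θ c - x₀‖) ∧
      Tendsto s (𝓝[ball x₀ ‖θ c - x₀‖] (θ c)) (𝓝 c) ∧ s x₀ = z - (m * ω₁ + n * ω₂) := by
  rcases h_ext ω₁ ω₂ θ hE hNF x₀ R z hR hz1 hz2 hz3 with h | ⟨r, s, c, hr0, hrR, hs, hsz, hc, hdc, hrc, ht⟩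
  · exact absurd h hbad
  · obtain ⟨m, n, hmn⟩ := lat_exists hE.lin c
    set lam : ℂ := m * ω₁ + n * ω₂ with hlam
    have hper : (fun w => θ (w + lam)) = θ := by
      funext w
      rw [hlam]
      exact per_int hE m n w
    have hper' : ∀ w, θ (w - lam) = θ w := by
      intro w
      have := congrFun hper (w - lam)
      simp only [sub_add_cancel] at this
      exact this.symm
    have han : ∀ w, AnalyticAt ℂ θ w → AnalyticAt ℂ θ (w - lam) := by
      intro w hw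
      have h1 : AnalyticAt ℂ (fun y => θ (y + lam)) (w - lam) := by
        have h2 : AnalyticAt ℂ θ ((w - lam) + lam) := by rwa [sub_add_cancel]
        exact AnalyticAt.comp (g := θ) (f := fun y => y + lam) h2
          (analyticAt_id.add analyticAt_const)
      rwa [hper] at h1
    have hθc : θ (c - lam) = θ c := hper' c
    have hder : deriv θ (c - lam) = 0 := by
      have h1 : deriv (fun y => θ (y + lam)) (c - lam) = deriv θ (c - lam + lam) :=
        deriv_comp_add_const θ lam (c - lam)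
      rw [hper, sub_add_cancel] at h1
      rw [h1, hdc]
    refine ⟨c - lam, fun x => s x - lam, m, n, hmn, han c hc, hder, ?_, ?_, ?_, ?_, ?_⟩
    · rw [hθc, hrc]; exact hr0
    · rw [hθc, hrc]; exact hrR
    · rw [hθc, hrc]
      refine ⟨hs.1.sub_const lam, fun x hx => ?_⟩
      obtain ⟨h1, h2⟩ := hs.2 x hx
      exact ⟨han _ h1, (hper' _).trans h2⟩
    · rw [hθc, hrc]
      exact ht.sub_const lam
    · show s x₀ - lam = z - lam
      rw [hsz]

theorem main (h_fib : S_fib) (h_ext : S_ext) (h_cnt : S_cnt) :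
    S_sheet := by
  classical
  intro ω₁ ω₂ θ hE hNF x₀ R hR hcrit
  obtain ⟨hdeg, hval, hfinD, -⟩ := h_fib ω₁ ω₂ θ hE
  obtain ⟨hfin0, hsum0⟩ := hval x₀
  have hΦfin : {z | z ∈ FD ω₁ ω₂ ∧ AnalyticAt ℂ θ z ∧ θ z = x₀}.Finite :=
    hfin0.subset (fun z hz => ⟨hz.1, by
      rw [ord_simple hz.2.1 hz.2.2 (hcrit z hz.2.1 hz.2.2)]; norm_num⟩)
  set Φ := hΦfin.toFinset with hΦdef
  have hΦmem : ∀ z, z ∈ Φ ↔ z ∈ FD ω₁ ω₂ ∧ AnalyticAt ℂ θ z ∧ θ z = x₀ := fun z => by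
    rw [hΦdef, Set.Finite.mem_toFinset]; rfl
  have hcard : dgE ω₁ ω₂ θ = Φ.card := by
    rw [← hsum0, finsum_mem_eq_sum_of_inter_support_eq (t := Φ)]
    · rw [Finset.card_eq_sum_ones]
      refine Finset.sum_congr rfl fun z hz => ?_
      obtain ⟨-, h1, h2⟩ := (hΦmem z).1 hz
      rw [ord_simple h1 h2 (hcrit z h1 h2)]
      rfl
    · ext z
      simp only [Set.mem_inter_iff, Function.mem_support, Finset.mem_coe]
      constructor
      · rintro ⟨h1, h2⟩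
        exact ⟨(hΦmem z).2 ⟨h1, ord_pos (hNF (Set.mem_univ z)) h2⟩, h2⟩
      · rintro ⟨h1, h2⟩
        exact ⟨((hΦmem z).1 h1).1, h2⟩
  let P : ℂ → Prop := fun z => ∃ s, Sec θ s (ball x₀ R) ∧ s x₀ = z
  set Bad := Φ.filter (fun z => ¬ P z) with hBad
  have hdata : ∀ z, z ∈ Bad → ∃ (c : ℂ) (s : ℂ → ℂ) (m n : ℤ), c ∈ FD ω₁ ω₂ ∧
      AnalyticAt ℂ θ c ∧ deriv θ c = 0 ∧
      0 < ‖θ c - x₀‖ ∧ ‖θ c - x₀‖ < R ∧ Sec θ s (ball x₀ ‖θ c - x₀‖) ∧
      Tendsto s (𝓝[ball x₀ ‖θ c - x₀‖] (θ c)) (𝓝 c) ∧ s x₀ = z - (m * ω₁ + n * ω₂) := by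
    intro z hz
    rw [hBad, Finset.mem_filter] at hz
    obtain ⟨-, h1, h2⟩ := (hΦmem z).1 hz.1
    exact bad_data h_ext hE hNF hR h1 h2 (hcrit z h1 h2) hz.2
  choose! C σ m n hC1 hC2 hC3 hC4 hC5 hC6 hC7 hC8 using hdata
  -- the count for one critical point
  have hone : ∀ c ∈ Bad.image C, (Bad.filter (fun z => C z = c)).card ≤
      2 * (ordZ (deriv θ) c).toNat := by
    intro c hc
    obtain ⟨z₀, hz₀, rfl⟩ := Finset.mem_image.1 hc
    set B := Bad.filter (fun z => C z = C z₀) with hB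
    have hBm : ∀ z ∈ B, z ∈ Bad ∧ C z = C z₀ := fun z hz => Finset.mem_filter.1 hz
    have h1 := h_cnt θ (C z₀) x₀ ‖θ (C z₀) - x₀‖ (hC2 z₀ hz₀)
      (deriv_mero_ne_top h_fib hE (hC2 z₀ hz₀)) (hC4 z₀ hz₀) rfl B.card
      (fun i => σ (B.equivFin.symm i).1)
      (fun i => by
        obtain ⟨ha, hb⟩ := hBm _ (B.equivFin.symm i).2
        have := hC6 _ ha
        rwa [hb] at this)
      (fun i => by
        obtain ⟨ha, hb⟩ := hBm _ (B.equivFin.symm i).2
        have := hC7 _ ha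
        rwa [hb] at this)
      (fun i j hij heq => by
        obtain ⟨ha, -⟩ := hBm _ (B.equivFin.symm i).2
        obtain ⟨ha', -⟩ := hBm _ (B.equivFin.symm j).2
        rw [hC8 _ ha, hC8 _ ha'] at heq
        have hzi := ((hΦmem _).1 (Finset.mem_filter.1 ha).1).1
        have hzj := ((hΦmem _).1 (Finset.mem_filter.1 ha').1).1
        have := lat_unique hE.lin hzi hzj
          (m (B.equivFin.symm i).1 - m (B.equivFin.symm j).1)
          (n (B.equivFin.symm i).1 - n (B.equivFin.symm j).1) (by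
            push_cast
            linear_combination heq)
        exact hij (B.equivFin.symm.injective (Subtype.ext this)))
    have h2 := deriv_ord_pos h_fib hE (hC2 z₀ hz₀) (hC3 z₀ hz₀)
    omega
  have hKsum : ∑ c ∈ Bad.image C, (ordZ (deriv θ) c).toNat ≤
      ∑ᶠ z ∈ {z | z ∈ FD ω₁ ω₂ ∧ AnalyticAt ℂ θ z ∧ θ z ∈ ball x₀ R},
        (ordZ (deriv θ) z).toNat := by
    rw [finsum_mem_eq_sum_of_inter_support_eq (t := hfinD.toFinset.filter
      (fun z => AnalyticAt ℂ θ z ∧ θ z ∈ ball x₀ R))]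
    · refine Finset.sum_le_sum_of_subset ?_
      intro c hc
      obtain ⟨z, hz, rfl⟩ := Finset.mem_image.1 hc
      rw [Finset.mem_filter, Set.Finite.mem_toFinset]
      have h2 := deriv_ord_pos h_fib hE (hC2 z hz) (hC3 z hz)
      refine ⟨⟨hC1 z hz, by omega⟩, hC2 z hz, ?_⟩
      rw [mem_ball, dist_eq_norm]
      exact hC5 z hz
    · ext z
      simp only [Set.mem_inter_iff, Function.mem_support, Finset.coe_filter,
        Set.Finite.mem_toFinset]
      constructor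
      · rintro ⟨⟨h1, h2, h3⟩, h4⟩
        refine ⟨⟨⟨h1, ?_⟩, h2, h3⟩, h4⟩
        intro h5
        apply h4
        rw [h5]; rfl
      · rintro ⟨⟨⟨h1, -⟩, h2, h3⟩, h4⟩
        exact ⟨⟨h1, h2, h3⟩, h4⟩
  refine ⟨Φ.filter P, ?_, ?_, ?_, ?_⟩
  · intro z hz
    have hz' : z ∈ Φ.filter P := hz
    exact ((hΦmem z).1 (Finset.mem_filter.1 hz').1).1
  · intro z hz
    exact ((hΦmem z).1 (Finset.mem_filter.1 hz).1).2
  · have h1 : (Φ.filter P).card + Bad.card = Φ.card :=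
      Finset.card_filter_add_card_filter_not P
    have h2 : Bad.card = ∑ c ∈ Bad.image C, (Bad.filter (fun z => C z = c)).card :=
      Finset.card_eq_sum_card_image C Bad
    have h3 : Bad.card ≤ 2 * ∑ c ∈ Bad.image C, (ordZ (deriv θ) c).toNat := by
      rw [h2, Finset.mul_sum]
      exact Finset.sum_le_sum hone
    rw [hcard, ← h1]
    have h4 := Nat.mul_le_mul_left 2 hKsum
    omega
  · intro z hz
    exact (Finset.mem_filter.1 hz).2

end J_sheet

end Pool.Agent.Lev
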