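import Pool.Agent.Lev.Stm5

set_option autoImplicit false

open Polynomial Metric Set Filter Topology

namespace Pool.Agent.Lev

namespace J_trans2


theorem cc_of_tlu {E : Type} [PseudoMetricSpace E] {F : ℕ → ℂ → E} {f : ℂ → E} {s : Set ℂ}
    (hf : ContinuousOn f s) (h : TendstoLocallyUniformlyOn F f atTop s) {x : ℂ} (hx : x ∈ s) :
    Tendsto (fun q : ℕ × ℂ => F q.1 q.2) (atTop ×ˢ 𝓝[s] x) (𝓝 (f x)) := by
  rw [Metric.tendsto_nhds]
  intro ε hε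
  obtain ⟨t, ht, hev⟩ := (Metric.tendstoLocallyUniformlyOn_iff.mp h) (ε / 2) (half_pos hε) x hx
  have h2 : ∀ᶠ y in 𝓝[s] x, dist (f y) (f x) < ε / 2 :=
    (Metric.tendsto_nhds.mp (hf x hx)) (ε / 2) (half_pos hε)
  have h3 : ∀ᶠ y in 𝓝[s] x, y ∈ t ∧ dist (f y) (f x) < ε / 2 := by
    filter_upwards [ht, h2] with y hy1 hy2
    exact ⟨hy1, hy2⟩
  have h4 : ∀ᶠ q : ℕ × ℂ in atTop ×ˢ 𝓝[s] x, (∀ y ∈ t, dist (f y) (F q.1 y) < ε / 2) ∧
      (q.2 ∈ t ∧ dist (f q.2) (f x) < ε / 2) := hev.prod_mk h3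
  filter_upwards [h4] with q hq
  calc dist (F q.1 q.2) (f x) ≤ dist (F q.1 q.2) (f q.2) + dist (f q.2) (f x) :=
        dist_triangle _ _ _
    _ < ε / 2 + ε / 2 := by
        rw [dist_comm (F q.1 q.2)]
        exact add_lt_add (hq.1 _ hq.2.1) hq.2.2
    _ = ε := add_halves ε

theorem tlu_of_cc {E : Type} [PseudoMetricSpace E] {F : ℕ → ℂ → E} {f : ℂ → E} {s : Set ℂ}
    (hf : ContinuousOn f s)
    (h : ∀ x ∈ s, Tendsto (fun q : ℕ × ℂ => F q.1 q.2) (atTop ×ˢ 𝓝[s] x) (𝓝 (f x))) :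
    TendstoLocallyUniformlyOn F f atTop s := by
  rw [Metric.tendstoLocallyUniformlyOn_iff]
  intro ε hε x hx
  have h1 := (Metric.tendsto_nhds.mp (h x hx)) (ε / 2) (half_pos hε)
  have h2 : ∀ᶠ y in 𝓝[s] x, dist (f y) (f x) < ε / 2 :=
    (Metric.tendsto_nhds.mp (hf x hx)) (ε / 2) (half_pos hε)
  obtain ⟨pa, hpa, pb, hpb, hh⟩ := Filter.eventually_prod_iff.mp h1
  refine ⟨{y | pb y ∧ dist (f y) (f x) < ε / 2}, ?_, ?_⟩
  · filter_upwards [hpb, h2] with y hy1 hy2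
    exact ⟨hy1, hy2⟩
  · filter_upwards [hpa] with n hn y hy
    have h5 := hh hn hy.1
    calc dist (f y) (F n y) ≤ dist (f y) (f x) + dist (F n y) (f x) := dist_triangle_right _ _ _
      _ < ε / 2 + ε / 2 := add_lt_add hy.2 h5
      _ = ε := add_halves ε

theorem wd_diff {X Y : ℂ → ℂ × ℂ} {s : Set ℂ} (hX : DifferentiableOn ℂ X s)
    (hY : DifferentiableOn ℂ Y s) : DifferentiableOn ℂ (fun z => wd (X z) (Y z)) s := by
  unfold wd
  exact (hX.fst.mul hY.snd).sub (hX.snd.mul hY.fst)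

theorem main (hBasics : Basics) (h_rigid : S_rigid) (h_LI2 : S_LI2) (h_jpt : S_jpt) :
    S_trans2 := by
  intro d F G hF hd hG hInv hSp c r p g h hr hgd hhd hgne hhne hconv hGeq hnRH
  by_cases hp : Nonempty (Fin p)
  swap
  · exact ⟨0, fun k _ l _ D X _ _ i => (hp ⟨i⟩).elim⟩
  obtain ⟨i₀⟩ := hp
  obtain ⟨z₁, hz₁, hwd, hnf⟩ := h_jpt G (h i₀) c r hG hr (hhd i₀) (hhne i₀) (hnRH i₀)
  obtain ⟨ρ, hρ, hρsub⟩ := Metric.isOpen_iff.mp isOpen_ball z₁ hz₁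
  have hcontH : ∀ i, ContinuousOn (h i) (ball c r) := fun i => (hhd i).continuousOn
  obtain ⟨ρ₁, hρ₁, hρ₁le, k₁, τ, hτd, hτm, hτu, hτw⟩ := h_LI2 (fun _ => h i₀) (fun k => g k i₀)
    (h i₀) z₁ ρ hρ (fun _ => (hhd i₀).mono hρsub) (fun k => (hgd k i₀).mono hρsub)
    ((hhd i₀).mono hρsub)
    (by
      rw [Metric.tendstoLocallyUniformlyOn_iff]
      intro ε hε x _
      exact ⟨univ, univ_mem, Eventually.of_forall fun n y _ => by rw [dist_self]; exact hε⟩)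
    ((hconv i₀).mono hρsub) hwd
  set B := ball z₁ ρ₁ with hB
  have hBsub : B ⊆ ball c r := (ball_subset_ball hρ₁le).trans hρsub
  have hτc : ∀ k, MapsTo (τ k) B (ball c r) := fun k x hx => hρsub (hτm k hx)
  -- units
  have hunit : ∀ k, ∃ u : ℂ → ℂ, DifferentiableOn ℂ u B ∧ (∀ z ∈ B, u z ≠ 0) ∧
      ∀ z ∈ B, h i₀ z = u z • g (k + k₁) i₀ (τ (k + k₁) z) := by
    intro k
    have hd1 : DifferentiableOn ℂ (fun z => g (k + k₁) i₀ (τ (k + k₁) z)) B :=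
      (hgd (k + k₁) i₀).comp (hτd (k + k₁)) (hτc (k + k₁))
    exact hBasics.unit isOpen_ball hd1 ((hhd i₀).mono hBsub)
      (fun z hz => hgne _ _ _ (hτc _ hz)) (fun z hz => hhne _ _ (hBsub hz))
      (fun z hz => hτw (k + k₁) (Nat.le_add_left _ _) z hz)
  choose u hud hune hueq using hunit
  -- continuous convergence of the composed branches
  have hτcc : ∀ x ∈ B, Tendsto (fun q : ℕ × ℂ => τ (q.1 + k₁) q.2) (atTop ×ˢ 𝓝[B] x) (𝓝 x) := by
    intro x hx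
    have h1 := cc_of_tlu continuousOn_id hτu.tendstoLocallyUniformlyOn hx
    have h2 : Tendsto (fun q : ℕ × ℂ => (q.1 + k₁, q.2)) (atTop ×ˢ 𝓝[B] x) (atTop ×ˢ 𝓝[B] x) :=
      ((tendsto_add_atTop_nat k₁).comp tendsto_fst).prodMk tendsto_snd
    exact h1.comp h2
  have hwcc : ∀ i, ∀ x ∈ B, Tendsto (fun q : ℕ × ℂ => g (q.1 + k₁) i (τ (q.1 + k₁) q.2))
      (atTop ×ˢ 𝓝[B] x) (𝓝 (h i x)) := by
    intro i x hx
    have h1 := cc_of_tlu (hcontH i) (hconv i) (hBsub hx)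
    rw [isOpen_ball.nhdsWithin_eq (hBsub hx)] at h1
    have h2 : Tendsto (fun q : ℕ × ℂ => (q.1 + k₁, τ (q.1 + k₁) q.2)) (atTop ×ˢ 𝓝[B] x)
        (atTop ×ˢ 𝓝 x) :=
      ((tendsto_add_atTop_nat k₁).comp tendsto_fst).prodMk (hτcc x hx)
    exact h1.comp h2
  have hucc : ∀ x ∈ B, Tendsto (fun q : ℕ × ℂ => u q.1 q.2) (atTop ×ˢ 𝓝[B] x) (𝓝 1) := by
    intro x hx
    rw [tendsto_iff_norm_sub_tendsto_zero]
    have hw := hwcc i₀ x hx
    have hh : Tendsto (fun q : ℕ × ℂ => h i₀ q.2) (atTop ×ˢ 𝓝[B] x) (𝓝 (h i₀ x)) :=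
      (((hcontH i₀).mono hBsub) x hx).tendsto.comp tendsto_snd
    have hne : ‖h i₀ x‖ ≠ 0 := norm_ne_zero_iff.mpr (hhne i₀ x (hBsub hx))
    have h3 : Tendsto (fun q : ℕ × ℂ => ‖h i₀ q.2 - g (q.1 + k₁) i₀ (τ (q.1 + k₁) q.2)‖ /
        ‖g (q.1 + k₁) i₀ (τ (q.1 + k₁) q.2)‖) (atTop ×ˢ 𝓝[B] x)
        (𝓝 (‖h i₀ x - h i₀ x‖ / ‖h i₀ x‖)) := ((hh.sub hw).norm).div hw.norm hne
    rw [sub_self, norm_zero, zero_div] at h3
    refine h3.congr' ?_
    have hmem : ∀ᶠ q : ℕ × ℂ in atTop ×ˢ 𝓝[B] x, q.2 ∈ B :=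
      tendsto_snd.eventually (eventually_mem_nhdsWithin)
    filter_upwards [hmem] with q hq
    have e1 := hueq q.1 q.2 hq
    have hgn : g (q.1 + k₁) i₀ (τ (q.1 + k₁) q.2) ≠ 0 := hgne _ _ _ (hτc _ hq)
    have e2 : h i₀ q.2 - g (q.1 + k₁) i₀ (τ (q.1 + k₁) q.2)
        = (u q.1 q.2 - 1) • g (q.1 + k₁) i₀ (τ (q.1 + k₁) q.2) := by
      rw [sub_smul, one_smul, ← e1]
    rw [e2, norm_smul, mul_div_assoc, div_self (norm_ne_zero_iff.mpr hgn), mul_one]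
  -- the normalised branches
  obtain ⟨H, hH⟩ : ∃ H : ℕ → Fin p → ℂ → ℂ × ℂ,
      H = fun k i x => u k x • g (k + k₁) i (τ (k + k₁) x) := ⟨_, rfl⟩
  have hHcc : ∀ i, ∀ x ∈ B, Tendsto (fun q : ℕ × ℂ => H q.1 i q.2) (atTop ×ˢ 𝓝[B] x)
      (𝓝 (h i x)) := by
    intro i x hx
    have h1 := (hucc x hx).smul (hwcc i x hx)
    rw [one_smul] at h1
    rw [hH]
    exact h1
  have hHne : ∀ k i, ∀ x ∈ B, H k i x ≠ 0 := by
    intro k i x hx
    rw [hH]
    exact smul_ne_zero (hune k x hx) (hgne _ _ _ (hτc _ hx))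
  have hHd : ∀ k i, DifferentiableOn ℂ (H k i) B := by
    intro k i
    rw [hH]
    exact (hud k).smul ((hgd (k + k₁) i).comp (hτd (k + k₁)) (hτc (k + k₁)))
  have hHG : ∀ k i, ∀ x ∈ B, G (H k i x) = G (h i₀ x) := by
    intro k i x hx
    have e1 : G (H k i x) = Real.log ‖u k x‖ + G (g (k + k₁) i (τ (k + k₁) x)) := by
      rw [hH]
      exact hG.2 _ _ (hune k x hx) (hgne _ _ _ (hτc _ hx))
    have e2 : G (h i₀ x) = Real.log ‖u k x‖ + G (g (k + k₁) i₀ (τ (k + k₁) x)) := by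
      rw [hueq k x hx]
      exact hG.2 _ _ (hune k x hx) (hgne _ _ _ (hτc _ hx))
    rw [e1, e2, hGeq (k + k₁) i i₀ _ (hτc _ hx)]
  have hGlim : ∀ i, ∀ x ∈ B, G (h i x) = G (h i₀ x) := by
    intro i x hx
    have hcon : ContinuousAt G (h i x) :=
      hG.1.continuousAt (isOpen_compl_singleton.mem_nhds (hhne i x (hBsub hx)))
    have h1 : Tendsto (fun k : ℕ => H k i x) atTop (𝓝 (h i x)) := by
      have h2 : Tendsto (fun k : ℕ => (k, x)) atTop (atTop ×ˢ 𝓝[B] x) :=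
        tendsto_id.prodMk (tendsto_nhdsWithin_iff.mpr ⟨tendsto_const_nhds, Eventually.of_forall fun _ => hx⟩)
      exact (hHcc i x hx).comp h2
    have h3 : Tendsto (fun k : ℕ => G (H k i x)) atTop (𝓝 (G (h i x))) := hcon.tendsto.comp h1
    have h4 : (fun k : ℕ => G (H k i x)) = fun _ => G (h i₀ x) := by
      funext k
      exact hHG k i x hx
    rw [h4] at h3
    exact tendsto_nhds_unique h3 tendsto_const_nhds
  have hnRHB : ∀ i, ¬ RH (fun x => G (h i x)) B := by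
    intro i hRH
    apply hnf
    apply hBasics.fat_of_curve hG hρ₁ ((hhd i₀).mono hBsub) (fun z hz => hhne i₀ z (hBsub hz)) hwd
    exact hRH.congr fun z hz => (hGlim i z hz).symm
  -- rigidity
  have hclaim : ∀ i, ∃ K : ℕ, ∀ k ≥ K, ∀ l ≥ K, ∀ x ∈ B, wd (H k i x) (H l i x) = 0 := by
    intro i
    by_contra hcon
    push Not at hcon
    choose kk hkk ll hll xx hxx hne using hcon
    have hkt : Tendsto kk atTop atTop := tendsto_atTop_mono hkk tendsto_id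
    have hlt : Tendsto ll atTop atTop := tendsto_atTop_mono hll tendsto_id
    have hsub : ∀ m : ℕ → ℕ, Tendsto m atTop atTop →
        TendstoLocallyUniformlyOn (fun n => H (m n) i) (h i) atTop B := by
      intro m hm
      apply tlu_of_cc ((hcontH i).mono hBsub)
      intro x hx
      have h2 : Tendsto (fun q : ℕ × ℂ => (m q.1, q.2)) (atTop ×ˢ 𝓝[B] x) (atTop ×ˢ 𝓝[B] x) :=
        (hm.comp tendsto_fst).prodMk tendsto_snd
      exact (hHcc i x hx).comp h2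
    obtain ⟨n, hn⟩ := h_rigid d F G hF hd hG hInv hSp (fun n => H (kk n) i) (fun n => H (ll n) i)
      (h i) z₁ ρ₁ hρ₁ (fun n => hHd _ _) (fun n => hHd _ _) ((hhd i).mono hBsub)
      (fun n z hz => ⟨hHne _ _ z hz, hHne _ _ z hz⟩) (fun z hz => hhne i z (hBsub hz))
      (hsub kk hkt) (hsub ll hlt)
      (fun n z hz => (hHG _ _ z hz).trans (hHG _ _ z hz).symm) (hnRHB i)
    exact hne n (hn _ (hxx n))
  choose K hK using hclaim
  -- the maps τ are not constant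
  obtain ⟨K₂, hK₂⟩ := Filter.eventually_atTop.mp
    ((Metric.tendstoUniformlyOn_iff.mp hτu) (ρ₁ / 4) (by positivity))
  set K₀ := max (Finset.univ.sup K) K₂ with hK₀
  refine ⟨K₀ + k₁, ?_⟩
  intro k' hk' l' hl' D X hX hXw i j
  obtain ⟨k, rfl⟩ : ∃ k, k' = k + k₁ := ⟨k' - k₁, by omega⟩
  obtain ⟨l, rfl⟩ : ∃ l, l' = l + k₁ := ⟨l' - k₁, by omega⟩
  have hkK : K₀ ≤ k := by omega
  have hlK : K₀ ≤ l := by omega
  have hKi : ∀ i, K i ≤ K₀ := fun i => (Finset.le_sup (Finset.mem_univ i)).trans (le_max_left _ _)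
  have hXs := fun (c : ℂ) (v : ℂ × ℂ) => hBasics.smul hX c v
  have hval : ∀ x ∈ B, wd (X (g (l + k₁) i (τ (l + k₁) x))) (X (g (l + k₁) j (τ (l + k₁) x)))
      = 0 := by
    intro x hx
    have e1 : wd (X (H k i x)) (X (H k j x)) = 0 := by
      rw [hH]
      show wd (X (u k x • g (k + k₁) i (τ (k + k₁) x))) (X (u k x • g (k + k₁) j (τ (k + k₁) x)))
        = 0
      rw [hXs, hXs, wd_smul_left, wd_smul_right, hXw i j _ (hτc _ hx), mul_zero, mul_zero]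
    obtain ⟨ci, hci⟩ := exists_smul_of_wd (hHne k i x hx)
      (hK i k ((hKi i).trans hkK) l ((hKi i).trans hlK) x hx)
    obtain ⟨cj, hcj⟩ := exists_smul_of_wd (hHne k j x hx)
      (hK j k ((hKi j).trans hkK) l ((hKi j).trans hlK) x hx)
    have e2 : wd (X (H l i x)) (X (H l j x)) = 0 := by
      rw [hci, hcj, hXs, hXs, wd_smul_left, wd_smul_right, e1, mul_zero, mul_zero]
    have e3 : wd (X (H l i x)) (X (H l j x)) = u l x ^ D * (u l x ^ D *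
        wd (X (g (l + k₁) i (τ (l + k₁) x))) (X (g (l + k₁) j (τ (l + k₁) x)))) := by
      rw [hH]
      show wd (X (u l x • g (l + k₁) i (τ (l + k₁) x))) (X (u l x • g (l + k₁) j (τ (l + k₁) x)))
        = _
      rw [hXs, hXs, wd_smul_left, wd_smul_right]
    rw [e3] at e2
    have hu0 : u l x ^ D ≠ 0 := pow_ne_zero _ (hune l x hx)
    exact (mul_eq_zero.mp ((mul_eq_zero.mp e2).resolve_left hu0)).resolve_left hu0
  -- open image
  have hlK₂ : K₂ ≤ l + k₁ := by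
    have : K₂ ≤ K₀ := le_max_right _ _
    omega
  have hτan : AnalyticOnNhd ℂ (τ (l + k₁)) B := (hτd (l + k₁)).analyticOnNhd isOpen_ball
  have hz₁B : z₁ ∈ B := mem_ball_self hρ₁
  have hopen : IsOpen (τ (l + k₁) '' B) := by
    rcases hτan.is_constant_or_isOpen (convex_ball z₁ ρ₁).isPreconnected with ⟨w, hw⟩ | ho
    · exfalso
      have hz₂B : z₁ + ((ρ₁ / 2 : ℝ) : ℂ) ∈ B := by
        rw [hB, mem_ball, dist_eq_norm, add_sub_cancel_left, Complex.norm_real, Real.norm_eq_abs,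
          abs_of_pos (by positivity)]
        linarith
      have d1 := hK₂ (l + k₁) hlK₂ z₁ hz₁B
      have d2 := hK₂ (l + k₁) hlK₂ _ hz₂B
      rw [hw z₁ hz₁B] at d1
      rw [hw _ hz₂B] at d2
      simp only [id] at d1 d2
      have d3 : dist (z₁ + ((ρ₁ / 2 : ℝ) : ℂ)) z₁ = ρ₁ / 2 := by
        rw [dist_eq_norm, add_sub_cancel_left, Complex.norm_real, Real.norm_eq_abs,
          abs_of_pos (by positivity)]
      have d4 := dist_triangle_right (z₁ + ((ρ₁ / 2 : ℝ) : ℂ)) z₁ w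
      linarith
    · exact ho B Subset.rfl isOpen_ball
  obtain ⟨ρ', hρ', hρ'sub⟩ := Metric.isOpen_iff.mp hopen (τ (l + k₁) z₁) ⟨z₁, hz₁B, rfl⟩
  have hfd : DifferentiableOn ℂ (fun y => wd (X (g (l + k₁) i y)) (X (g (l + k₁) j y)))
      (ball c r) :=
    wd_diff ((hBasics.diff hX).comp_differentiableOn (hgd (l + k₁) i))
      ((hBasics.diff hX).comp_differentiableOn (hgd (l + k₁) j))
  refine hBasics.ident (c' := τ (l + k₁) z₁) hρ' ?_ hfd ?_
  · intro y hy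
    obtain ⟨x, hx, rfl⟩ := hρ'sub hy
    exact hτc _ hx
  · intro y hy
    obtain ⟨x, hx, rfl⟩ := hρ'sub hy
    exact hval x hx


end J_trans2

end Pool.Agent.Lev
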