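import Pool.Agent.Lev.Stm4

set_option autoImplicit false

open Polynomial Metric Set Filter Topology

namespace Pool.Agent.Lev

namespace J_uniq

theorem cod_neBot : (codiscrete ℂ).NeBot := by
  constructor
  intro h
  have h1 : (∅ : Set ℂ) ∈ codiscrete ℂ := by rw [h]; exact Filter.mem_bot
  rw [mem_codiscrete] at h1
  have h2 := h1 0
  rw [Set.compl_empty, Filter.principal_univ, disjoint_top] at h2
  exact (NeBot.ne inferInstance : 𝓝[≠] (0:ℂ) ≠ ⊥) h2

/-- codiscrete zero-one law -/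
theorem zo {h : ℂ → ℂ} (hm : MeromorphicOn h Set.univ) :
    (∀ᶠ z in codiscrete ℂ, h z = 0) ∨ (∀ᶠ z in codiscrete ℂ, h z ≠ 0) := by
  by_cases hex : ∃ u ∈ (Set.univ : Set ℂ), meromorphicOrderAt h u ≠ ⊤
  · right
    have h1 := (hm.exists_meromorphicOrderAt_ne_top_iff_forall_mem
      (isConnected_univ)).1 hex
    exact hm.eventually_codiscreteWithin_apply_ne_zero h1
  · left
    push Not at hex
    have : {z | h z = 0} ∈ codiscrete ℂ := by
      rw [mem_codiscrete]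
      intro x
      rw [disjoint_principal_right, compl_compl]
      exact meromorphicOrderAt_eq_top_iff.1 (hex x (Set.mem_univ _))
    exact this

theorem mer_eval {θ : ℂ → ℂ} (h : MeromorphicOn θ Set.univ) (p : ℂ[X]) :
    MeromorphicOn (fun z => p.eval (θ z)) Set.univ := by
  have : (fun z => p.eval (θ z)) = fun z => ∑ i ∈ Finset.range (p.natDegree + 1), p.coeff i * θ z ^ i := by
    funext z
    rw [Polynomial.eval_eq_sum_range]
  rw [this]
  apply MeromorphicOn.fun_sum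
  intro i
  intro z hz
  exact (MeromorphicAt.const _ _).fun_mul ((h z hz).fun_pow i)

theorem mer_evalEval {θ₁ θ₂ : ℂ → ℂ} (h1 : MeromorphicOn θ₁ Set.univ)
    (h2 : MeromorphicOn θ₂ Set.univ) (P : Polynomial (Polynomial ℂ)) :
    MeromorphicOn (fun z => P.evalEval (θ₁ z) (θ₂ z)) Set.univ := by
  have : (fun z => P.evalEval (θ₁ z) (θ₂ z)) =
      fun z => ∑ i ∈ Finset.range (P.natDegree + 1), (P.coeff i).eval (θ₁ z) * θ₂ z ^ i := by
    funext z
    have e : P.eval (Polynomial.C (θ₂ z)) = ∑ i ∈ Finset.range (P.natDegree + 1),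
        P.coeff i * (Polynomial.C (θ₂ z)) ^ i := Polynomial.eval_eq_sum_range _
    rw [Polynomial.evalEval, e, Polynomial.eval_finsetSum]
    apply Finset.sum_congr rfl
    intro i _
    rw [Polynomial.eval_mul, Polynomial.eval_pow, Polynomial.eval_C]
  rw [this]
  apply MeromorphicOn.fun_sum
  intro i
  intro z hz
  exact (mer_eval h1 (P.coeff i) z hz).fun_mul ((h2 z hz).fun_pow i)

theorem nz {ω₁ ω₂ : ℂ} {θ : ℂ → ℂ} (h : Ell ω₁ ω₂ θ) {p : ℂ[X]} (hp : p ≠ 0) :
    ∀ᶠ z in codiscrete ℂ, p.eval (θ z) ≠ 0 := by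
  have hr : ∀ r : ℂ, ∀ᶠ z in codiscrete ℂ, θ z ≠ r := by
    intro r
    have hm : MeromorphicOn (fun z => θ z - r) Set.univ := by
      intro z hz
      exact (h.mer z hz).fun_sub (MeromorphicAt.const _ _)
    rcases zo hm with h0 | h0
    · exfalso
      apply h.nc
      refine ⟨r, ?_⟩
      filter_upwards [h0] with z hz
      exact sub_eq_zero.1 hz
    · filter_upwards [h0] with z hz
      exact sub_ne_zero.1 hz
  have h3 : ∀ᶠ z in codiscrete ℂ, ∀ r ∈ p.roots.toFinset, θ z ≠ r := by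
    rw [Filter.eventually_all_finset]
    intro r _
    exact hr r
  filter_upwards [h3] with z hz h0
  refine hz (θ z) ?_ rfl
  rw [Multiset.mem_toFinset, Polynomial.mem_roots hp]
  exact h0

theorem deg_pos {ω₁ ω₂ : ℂ} {θ₁ θ₂ : ℂ → ℂ} (h : Ell ω₁ ω₂ θ₁) {P : Polynomial (Polynomial ℂ)}
    (hP : P ≠ 0) (hr : PRel P θ₁ θ₂) : 1 ≤ P.natDegree := by
  by_contra hd
  have hd0 : P.natDegree = 0 := by omega
  obtain ⟨p, rfl⟩ := Polynomial.natDegree_eq_zero.1 hd0
  have hp : p ≠ 0 := by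
    rintro rfl
    exact hP (by simp)
  haveI := cod_neBot
  obtain ⟨z, hz1, hz2⟩ := ((nz h hp).and hr).exists
  apply hz1
  rw [Polynomial.evalEval_C] at hz2
  exact hz2

theorem dvd_of {ω₁ ω₂ : ℂ} {θ₁ θ₂ : ℂ → ℂ} (h : Ell ω₁ ω₂ θ₁) {P Q : Polynomial (Polynomial ℂ)}
    (hP : Irreducible P) (hrP : PRel P θ₁ θ₂) (hrQ : PRel Q θ₁ θ₂) : P ∣ Q := by
  have hd := deg_pos h hP.ne_zero hrP
  have hprim : P.IsPrimitive := hP.isPrimitive (by omega)
  by_contra hnd
  have hirr := (hprim.irreducible_iff_irreducible_map_fraction_map (K := FractionRing ℂ[X])).1 hP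
  have hnd' : ¬ P.map (algebraMap ℂ[X] (FractionRing ℂ[X])) ∣
      Q.map (algebraMap ℂ[X] (FractionRing ℂ[X])) := by
    intro hdv
    exact hnd (hprim.dvd_of_fraction_map_dvd_fraction_map hdv)
  obtain ⟨a, b, hab⟩ := hirr.coprime_iff_not_dvd.2 hnd'
  obtain ⟨s, hs⟩ := IsLocalization.integerNormalization_map_to_map (nonZeroDivisors ℂ[X]) a
  obtain ⟨t, ht⟩ := IsLocalization.integerNormalization_map_to_map (nonZeroDivisors ℂ[X]) b
  set A := IsLocalization.integerNormalization (nonZeroDivisors ℂ[X]) a with hA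
  set B := IsLocalization.integerNormalization (nonZeroDivisors ℂ[X]) b with hB
  have hs0 : (s : ℂ[X]) ≠ 0 := nonZeroDivisors.ne_zero s.2
  have ht0 : (t : ℂ[X]) ≠ 0 := nonZeroDivisors.ne_zero t.2
  have hkey : Polynomial.C (t : ℂ[X]) * A * P + Polynomial.C (s : ℂ[X]) * B * Q =
      Polynomial.C ((s : ℂ[X]) * t) := by
    apply Polynomial.map_injective (algebraMap ℂ[X] (FractionRing ℂ[X]))
      (FaithfulSMul.algebraMap_injective _ _)
    rw [Polynomial.map_add, Polynomial.map_mul, Polynomial.map_mul, Polynomial.map_mul,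
      Polynomial.map_mul, Polynomial.map_C, Polynomial.map_C, Polynomial.map_C, hs, ht, map_mul,
      Polynomial.C_mul]
    have e1 : (s : ℂ[X]) • a = Polynomial.C (algebraMap ℂ[X] (FractionRing ℂ[X]) s) * a := by
      rw [← Polynomial.smul_eq_C_mul, algebraMap_smul]
    have e2 : (t : ℂ[X]) • b = Polynomial.C (algebraMap ℂ[X] (FractionRing ℂ[X]) t) * b := by
      rw [← Polynomial.smul_eq_C_mul, algebraMap_smul]
    rw [e1, e2]
    linear_combination (Polynomial.C (algebraMap ℂ[X] (FractionRing ℂ[X]) s) *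
      Polynomial.C (algebraMap ℂ[X] (FractionRing ℂ[X]) t)) * hab
  haveI := cod_neBot
  obtain ⟨z, ⟨hz1, hz2⟩, hz3⟩ := (((nz h (mul_ne_zero hs0 ht0)).and hrP).and hrQ).exists
  apply hz1
  have := congrArg (Polynomial.evalEval (θ₁ z) (θ₂ z)) hkey
  rw [Polynomial.evalEval_add, Polynomial.evalEval_mul, Polynomial.evalEval_mul _ _ _ Q, hz2, hz3,
    mul_zero, mul_zero, add_zero, Polynomial.evalEval_C] at this
  exact this.symm

theorem ex_irr {ω₁ ω₂ : ℂ} {θ₁ θ₂ : ℂ → ℂ} (h : Ell ω₁ ω₂ θ₁) (h' : Ell ω₁ ω₂ θ₂)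
    (Q : Polynomial (Polynomial ℂ)) : Q ≠ 0 → PRel Q θ₁ θ₂ →
      ∃ P, Irreducible P ∧ P ∣ Q ∧ PRel P θ₁ θ₂ := by
  induction Q using WfDvdMonoid.induction_on_irreducible with
  | zero => intro h0; exact absurd rfl h0
  | unit u hu =>
    intro _ hr
    exfalso
    obtain ⟨v, hv⟩ := hu.exists_right_inv
    haveI := cod_neBot
    obtain ⟨z, hz⟩ := Filter.Eventually.exists hr
    have := congrArg (Polynomial.evalEval (θ₁ z) (θ₂ z)) hv
    rw [Polynomial.evalEval_mul, hz, zero_mul, Polynomial.evalEval_one] at this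
    exact zero_ne_one this
  | mul a i ha hi ih =>
    intro _ hr
    rcases zo (mer_evalEval h.mer h'.mer i) with h0 | h0
    · exact ⟨i, hi, dvd_mul_right _ _, h0⟩
    · have hra : PRel a θ₁ θ₂ := by
        have hr' : ∀ᶠ z in Filter.codiscrete ℂ, (i * a).evalEval (θ₁ z) (θ₂ z) = 0 := hr
        show ∀ᶠ z in Filter.codiscrete ℂ, a.evalEval (θ₁ z) (θ₂ z) = 0
        filter_upwards [h0, hr'] with z hz1 hz2
        rw [Polynomial.evalEval_mul] at hz2
        exact (mul_eq_zero.1 hz2).resolve_left hz1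
      obtain ⟨P, hP, hPd, hPr⟩ := ih ha hra
      exact ⟨P, hP, hPd.mul_left _, hPr⟩

theorem main :
    S_uniq := by
  intro ω₁ ω₂ θ₁ θ₂ h1 h2
  refine ⟨?_, ?_, ?_⟩
  · intro P Q hP hrP hrQ
    exact dvd_of h1 hP hrP hrQ
  · intro Q hQ hr
    obtain ⟨P, hP, hd, hPr⟩ := ex_irr h1 h2 Q hQ hr
    exact ⟨P, hP, deg_pos h1 hP.ne_zero hPr, hd, hPr⟩
  · intro P hP hr
    exact deg_pos h1 hP.ne_zero hr

end J_uniq

end Pool.Agent.Lev
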