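import Pool.Agent.Lev.J_ord
import Pool.Agent.Lev.J_fib
import Pool.Agent.Lev.J_nf
import Pool.Agent.Lev.J_ext
import Pool.Agent.Lev.J_cnt
import Pool.Agent.Lev.J_sheet
import Pool.Agent.Lev.J_locsec
import Pool.Agent.Lev.J_rat
import Pool.Agent.Lev.J_irr
import Pool.Agent.Lev.J_sep
import Pool.Agent.Lev.J_uniq
import Pool.Agent.Lev.J_char
import Pool.Agent.Lev.J_mlift
import Pool.Agent.Lev.J_ST
import Pool.Agent.Lev.J_inv
import Pool.Agent.Lev.J_LI2
import Pool.Agent.Lev.J_jpt
import Pool.Agent.Lev.J_hit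
import Pool.Agent.Lev.J_linj
import Pool.Agent.Lev.J_notNT
import Pool.Agent.Lev.J_rigid
import Pool.Agent.Lev.J_C
import Pool.Agent.Lev.J_trans2
import Pool.Agent.Lev.J_many
import Pool.Agent.Lev.J_lim
import Pool.Agent.Lev.J_norm
import Pool.Agent.Lev.J_dir
import Pool.Agent.Lev.J_evEll
import Pool.Agent.Lev.J_ell0
import Pool.Agent.Lev.J_rel
import Pool.Agent.Lev.J_pol
import Pool.Agent.Lev.J_KK
import Pool.Agent.Lev.J_level
import Pool.Agent.Lev.J_bdd
import Pool.Agent.Lev.J_fin0
import Pool.Agent.Lev.J_fin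
import Pool.Agent.Lev.J_lur
import Pool.Agent.Lev.J_critgrow
import Pool.Agent.Lev.J_powcrit
import Pool.Agent.Lev.J_critfin
import Pool.Agent.Lev.J_critpow
import Pool.Agent.Lev.J_end
import Pool.Agent.Lev.J_half
import Pool.Agent.Lev.J_main5
import Pool.Agent.Lev.All2
import Pool.Agent.Lev.Stm5

set_option autoImplicit false

open Polynomial Metric Set Filter Topology

namespace Pool.Agent.Lev

theorem t_ord : S_ord := J_ord.main 
theorem t_fib : S_fib := J_fib.main t_ord
theorem t_nf : S_nf := J_nf.main 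
theorem t_ext : S_ext := J_ext.main 
theorem t_cnt : S_cnt := J_cnt.main 
theorem t_sheet : S_sheet := J_sheet.main t_fib t_ext t_cnt
theorem t_locsec : S_locsec := J_locsec.main t_fib
theorem t_rat : S_rat := J_rat.main 
theorem t_irr : S_irr := J_irr.main 
theorem t_sep : S_sep := J_sep.main 
theorem t_uniq : S_uniq := J_uniq.main 
theorem t_char : S_char := J_char.main t_fib t_locsec t_rat t_irr t_sep
theorem t_mlift : S_mlift := J_mlift.main 
theorem t_ST : S_ST := J_ST.main t_nf t_fib t_sheet t_char t_mlift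
theorem t_inv : S_inv := J_inv.main 
theorem t_LI2 : S_LI2 := J_LI2.main t_LI t_inv
theorem t_jpt : S_jpt := J_jpt.main basics
theorem t_hit : S_hit := J_hit.main basics t_LC t_jpt
theorem t_linj : S_linj := J_linj.main basics
theorem t_notNT : S_notNT := J_notNT.main basics t_UD t_ZI t_N t_F2 t_F3 t_F6 t_F7a t_F7b t_F7c t_F7L
theorem t_rigid : S_rigid := J_rigid.main basics t_HS t_LD t_notNT t_inv t_LI t_hit t_linj
theorem t_C : S_C := J_C.main basics t_rigid
theorem t_trans2 : S_trans2 := J_trans2.main basics t_rigid t_LI2 t_jpt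
theorem t_many : S_many := J_many.main basics
theorem t_lim : S_lim := J_lim.main basics
theorem t_norm : S_norm := J_norm.main basics
theorem t_dir : S_dir := J_dir.main basics
theorem t_evEll : S_evEll := J_evEll.main (t_dgcp.1)
theorem t_ell0 : S_ell0 := J_ell0.main t_evEll (t_dgcp.1)
theorem t_rel : S_rel := J_rel.main t_evEll (t_dgcp.1)
theorem t_pol : S_pol := J_pol.main t_lf
theorem t_KK : S_KK := J_KK.main basics t_lf t_pol t_uniq t_sep t_rel
theorem t_level : S_level := J_level.main basics t_lf (t_dgcp.1) (t_dgcp.2) t_ST t_uniq t_pol t_norm t_rel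
theorem t_bdd : S_bdd := J_bdd.main basics t_lf t_level t_uniq t_many t_lim t_dir t_C
theorem t_fin0 : S_fin0 := J_fin0.main (t_dgcp.1) t_pol t_uniq t_rel t_level
theorem t_fin : S_fin := J_fin.main basics t_lf t_level t_uniq t_bdd t_fin0 t_many t_lim t_trans2 t_KK
theorem t_lur : S_lur := J_lur.main 
theorem t_critgrow : S_critgrow := J_critgrow.main basics t_TR t_exctwo
theorem t_powcrit : S_powcrit := J_powcrit.main basics
theorem t_critfin : S_critfin := J_critfin.main basics t_lf (t_dgcp.1) (t_dgcp.2) t_lfinj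
theorem t_critpow : S_critpow := J_critpow.main basics t_lf (t_dgcp.1) (t_dgcp.2) t_powcrit t_alg
theorem t_end : S_end := J_end.main basics t_lf (t_dgcp.1) (t_dgcp.2) t_alg t_lur t_critgrow t_critfin t_critpow
theorem t_half : S_half := J_half.main t_ell0 t_evEll t_rel t_fin t_end t_alg (t_dgcp.1)
theorem t_main5 : S_main5 := J_main5.main t_half t_specLat t_specPow t_specCheb

end Pool.Agent.Lev
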