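import Pool.Agent.Lev.Stm5

set_option autoImplicit false

open Polynomial Metric Set Filter Topology

namespace Pool.Agent.Lev

namespace J_fin

theorem main_iter {b : ℕ} {H : ℂ × ℂ → ℂ × ℂ} {GB : ℂ × ℂ → ℝ} (hlift : IsLift b H)
    (hInv : Inv GB b H) (m : ℕ) (v : ℂ × ℂ) (hv : v ≠ 0) :
    H^[m] v ≠ 0 ∧ GB (H^[m] v) = (b : ℝ) ^ m * GB v := by
  induction m with
  | zero => exact ⟨hv, by simp⟩
  | succ m ih =>
    rw [Function.iterate_succ_apply']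
    refine ⟨hlift.2 _ ih.1, ?_⟩
    rw [hInv _ ih.1, ih.2, pow_succ]
    ring

theorem main_low {α : Type*} (a b : ℕ) (ha : 2 ≤ a) (hb : 2 ≤ b) (D : ℕ → ℕ → α → Prop)
    (hfin : ∀ n m, {K | D n m K}.Finite) (L : ℕ) :
    {K | ∃ n m, m ≤ L ∧ Lvl a b n m ∧ D n m K}.Finite := by
  have h1 : (⋃ n ∈ Finset.range (a * b ^ L + 1), ⋃ m ∈ Finset.range (L + 1),
      {K | D n m K}).Finite :=
    Set.Finite.biUnion (Finset.finite_toSet _) fun n _ =>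
      Set.Finite.biUnion (Finset.finite_toSet _) fun m _ => hfin n m
  refine h1.subset ?_
  rintro K ⟨n, m, hm, hl, hK⟩
  refine mem_biUnion (x := n) ?_ (mem_biUnion (x := m) ?_ hK)
  · rw [Finset.mem_coe, Finset.mem_range, Nat.lt_succ_iff]
    calc n ≤ a ^ n := (Nat.lt_pow_self (by omega)).le
      _ ≤ a * b ^ m := hl.2
      _ ≤ a * b ^ L := Nat.mul_le_mul_left _ (Nat.pow_le_pow_right (by omega) hm)
  · rw [Finset.mem_coe, Finset.mem_range]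
    omega

theorem main_seq {α : Type*} (a b : ℕ) (ha : 2 ≤ a) (hb : 2 ≤ b) (D : ℕ → ℕ → α → Prop)
    (hfin : ∀ n m, {K | D n m K}.Finite)
    (hinf : {K | ∃ n m, Lvl a b n m ∧ D n m K}.Infinite) :
    ∃ (K : ℕ → α) (n m : ℕ → ℕ), (∀ k, Lvl a b (n k) (m k) ∧ D (n k) (m k) (K k)) ∧
      StrictMono m ∧ ∀ k l, k < l → K k ≠ K l := by
  classical
  obtain ⟨f, hf1, hf2⟩ := exists_seq_of_forall_finset_exists
    (P := fun x : α × ℕ => ∃ n, Lvl a b n x.2 ∧ D n x.2 x.1)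
    (r := fun x y : α × ℕ => x.1 ≠ y.1 ∧ x.2 < y.2) (by
      intro s _
      have h1 := main_low a b ha hb D hfin (s.sup Prod.snd)
      have h2 : ((s.image Prod.fst : Finset α) : Set α).Finite := Finset.finite_toSet _
      obtain ⟨K, ⟨n, m, hl, hK⟩, hKn⟩ := (hinf.sdiff (h1.union h2)).nonempty
      rw [mem_union, not_or] at hKn
      refine ⟨(K, m), ⟨n, hl, hK⟩, fun x hx => ⟨?_, ?_⟩⟩
      · rintro rfl
        exact hKn.2 (Finset.mem_coe.2 (Finset.mem_image_of_mem _ hx))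
      · by_contra hcon
        push Not at hcon
        exact hKn.1 ⟨n, m, le_trans hcon (Finset.le_sup (f := Prod.snd) hx), hl, hK⟩)
  choose n hn using hf1
  exact ⟨fun k => (f k).1, n, fun k => (f k).2, hn,
    strictMono_nat_of_lt_succ fun k => (hf2 k (k + 1) (Nat.lt_succ_self k)).2,
    fun k l hkl => (hf2 k l hkl).1⟩

theorem main_sub {β : Type*} [UniformSpace β] {F : ℕ → ℂ → β} {f : ℂ → β} {s : Set ℂ}
    (h : TendstoLocallyUniformlyOn F f atTop s) {φ : ℕ → ℕ} (hφ : StrictMono φ) :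
    TendstoLocallyUniformlyOn (fun k => F (φ k)) f atTop s := by
  intro u hu x hx
  obtain ⟨t, ht, h1⟩ := h u hu x hx
  exact ⟨t, ht, hφ.tendsto_atTop.eventually h1⟩

theorem main_montel (hB : Basics) {G : ℂ × ℂ → ℝ} (hG : IsG G) {p : ℕ}
    {g : ℕ → Fin p → ℂ → ℂ × ℂ} {c : ℂ} {r M : ℝ} (hr : 0 < r)
    (hd : ∀ k i, DifferentiableOn ℂ (g k i) (ball c r))
    (hb : ∀ k i, ∀ z ∈ ball c r, g k i z ≠ 0 ∧ |G (g k i z)| ≤ M) (s : Finset (Fin p)) :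
    ∃ φ : ℕ → ℕ, StrictMono φ ∧ ∃ h : Fin p → ℂ → ℂ × ℂ, ∀ i ∈ s,
      DifferentiableOn ℂ (h i) (ball c r) ∧ (∀ z ∈ ball c r, h i z ≠ 0) ∧
      TendstoLocallyUniformlyOn (fun k => g (φ k) i) (h i) atTop (ball c r) ∧
      TendstoLocallyUniformlyOn (fun k z => G (g (φ k) i z)) (fun z => G (h i z)) atTop
        (ball c r) := by
  classical
  induction s using Finset.induction_on with
  | empty => exact ⟨id, strictMono_id, fun _ _ => 0, by simp⟩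
  | insert i s hi ih =>
    obtain ⟨φ, hφ, h, hh⟩ := ih
    obtain ⟨φ', hφ', A, hA1, hA2, hA3, hA4⟩ := hB.gmontel hG (a := fun k => g (φ k) i) hr
      (fun k => hd _ _) (fun k => hb _ _)
    refine ⟨fun k => φ (φ' k), hφ.comp hφ', Function.update h i A, fun j hj => ?_⟩
    by_cases hij : j = i
    · subst hij
      rw [Function.update_self]
      exact ⟨hA1, hA2, hA3, hA4⟩
    · rw [Function.update_of_ne hij]
      have hjs : j ∈ s := (Finset.mem_insert.1 hj).resolve_left hij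
      obtain ⟨b1, b2, b3, b4⟩ := hh j hjs
      exact ⟨b1, b2, main_sub b3 hφ', main_sub b4 hφ'⟩

theorem main_level (h_level : S_level) (h_KK : S_KK) (A B : RatFunc ℂ) (ha : 2 ≤ dg A)
    (hb : 2 ≤ dg B) (N : ℕ) (n m : ℕ) (ω₁ ω₂ : ℂ) (θ₁ θ₂ : ℂ → ℂ) (hE1 : Ell ω₁ ω₂ θ₁)
    (hE2 : Ell ω₁ ω₂ θ₂) (hrel : Rel θ₁ θ₂ (it A n) (it B m))
    (hN : ∀ P : Polynomial (Polynomial ℂ), Irreducible P → PRel P θ₁ θ₂ → P.natDegree ≤ N)
    (c : Fin (4 * N + 1) → ℂ) (ρ : ℝ) (hρ : 0 < ρ)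
    (hc : ∀ i j, i ≠ j → Disjoint (ball (c i) ρ) (ball (c j) ρ)) :
    ∃ (sp : Fin (4 * N + 1) × Fin (N + 1)) (g : Fin (sp.2 : ℕ) → ℂ → ℂ × ℂ),
      (∀ i, DifferentiableOn ℂ (g i) (ball (c sp.1) (ρ / 2))) ∧
      (∀ i, ∀ x ∈ ball (c sp.1) (ρ / 2), g i x ≠ 0 ∧
        (lf B)^[m] (g i x) = (lf A)^[n] (x, 1)) ∧
      ∀ W : RatFunc ℂ, W ∈ KK θ₁ θ₂ ↔
        ∀ i j, ∀ x ∈ ball (c sp.1) (ρ / 2), wd (lf W (g i x)) (lf W (g j x)) = 0 := by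
  obtain ⟨P, hP1, hP2, hP3, -, hP5⟩ := h_level A B ha hb n m ω₁ ω₂ θ₁ θ₂ hE1 hE2 hrel
  obtain ⟨s, t, g, g1, g2, g3, g4, g5⟩ := hP5 (4 * N + 1) c ρ hρ (by omega) hc
  have hPN := hN P hP1 hP3
  have ht : t = P.natDegree := by
    by_contra hne
    have hlt : t + 1 ≤ P.natDegree := by omega
    obtain ⟨N', rfl⟩ : ∃ N', N = N' + 1 := ⟨N - 1, by omega⟩
    have e1 : 4 * (N' + 1) + 1 - 4 = 4 * N' + 1 := by omega
    rw [e1] at g1
    nlinarith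
  subst ht
  have hKK := h_KK ω₁ ω₂ θ₁ θ₂ hE1 hE2 P hP1 hP2 hP3 (c s) (ρ / 2) g (by positivity) g3
    (fun i x hx => ⟨(g4 i x hx).1, (g4 i x hx).2.2⟩) g5
  exact ⟨(s, ⟨P.natDegree, by omega⟩), g, g3, fun i x hx => ⟨(g4 i x hx).1, (g4 i x hx).2.1⟩, hKK⟩

theorem main_pigeon {α : Type*} [Finite α] (Q : ℕ → α → Prop) (h : ∀ k, ∃ x, Q k x) :
    ∃ x, ∃ φ : ℕ → ℕ, StrictMono φ ∧ ∀ k, Q (φ k) x := by
  by_contra hcon
  push Not at hcon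
  have h1 : ∀ x, ∀ᶠ k in atTop, ¬ Q k x := by
    intro x
    by_contra h2
    obtain ⟨φ, hφ, h3⟩ := Filter.extraction_of_frequently_atTop
      (P := fun k => Q k x) (by rw [Filter.Frequently]; exact h2)
    obtain ⟨k, hk⟩ := hcon x φ hφ
    exact hk (h3 k)
  obtain ⟨k, hk⟩ := (Filter.eventually_all.2 h1).exists
  obtain ⟨x, hx⟩ := h k
  exact hk x hx

theorem main (hBasics : Basics) (h_lf : S_lf) (h_level : S_level) (h_uniq : S_uniq) (h_bdd : S_bdd) (h_fin0 : S_fin0) (h_many : S_many) (h_lim : S_lim) (h_trans2 : S_trans2) (h_KK : S_KK) :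
    S_fin := by
  intro A B ha hb hspec
  by_contra hinf
  have hinf' : {K : Set (RatFunc ℂ) | ∃ n m : ℕ, Lvl (dg A) (dg B) n m ∧
    ∃ (ω₁ ω₂ : ℂ) (θ₁ θ₂ : ℂ → ℂ), Ell ω₁ ω₂ θ₁ ∧ Ell ω₁ ω₂ θ₂ ∧
      Rel θ₁ θ₂ (it A n) (it B m) ∧ K = KK θ₁ θ₂}.Infinite := hinf
  obtain ⟨N, hN⟩ := h_bdd A B ha hb hspec
  obtain ⟨GA, hGA, hGAi⟩ := hBasics.green (h_lf A) ha
  obtain ⟨GB, hGB, hGBi⟩ := hBasics.green (h_lf B) hb
  obtain ⟨ρ, hρ, c, hc, hcR⟩ := h_many GA hGA (4 * N + 1)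
  obtain ⟨K, n, m, hKl, hm, hKne⟩ := main_seq (dg A) (dg B) ha hb
    (fun n m (K : Set (RatFunc ℂ)) => ∃ (ω₁ ω₂ : ℂ) (θ₁ θ₂ : ℂ → ℂ), Ell ω₁ ω₂ θ₁ ∧
      Ell ω₁ ω₂ θ₂ ∧ Rel θ₁ θ₂ (it A n) (it B m) ∧ K = KK θ₁ θ₂) (h_fin0 A B ha hb) hinf'
  -- level data
  have hlev : ∀ k, ∃ (sp : Fin (4 * N + 1) × Fin (N + 1)), ∃ (g : Fin (sp.2 : ℕ) → ℂ → ℂ × ℂ),
      (∀ i, DifferentiableOn ℂ (g i) (ball (c sp.1) (ρ / 2))) ∧
      (∀ i, ∀ x ∈ ball (c sp.1) (ρ / 2), g i x ≠ 0 ∧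
        (lf B)^[m k] (g i x) = (lf A)^[n k] (x, 1)) ∧
      ∀ W : RatFunc ℂ, W ∈ K k ↔
        ∀ i j, ∀ x ∈ ball (c sp.1) (ρ / 2), wd (lf W (g i x)) (lf W (g j x)) = 0 := by
    intro k
    obtain ⟨hl, ω₁, ω₂, θ₁, θ₂, hE1, hE2, hrel, hK⟩ := hKl k
    rw [hK]
    exact main_level h_level h_KK A B ha hb N (n k) (m k) ω₁ ω₂ θ₁ θ₂ hE1 hE2 hrel
      (fun P h1 h2 => hN (n k) (m k) hl ω₁ ω₂ θ₁ θ₂ hE1 hE2 hrel P h1 h2) c ρ hρ hc
  obtain ⟨⟨s, p⟩, ψ, hψ, hlev2⟩ := main_pigeon _ hlev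
  choose g g1 g2 g3 using hlev2
  obtain ⟨φ, hφ, γ, hγ, hlim⟩ := h_lim (dg A) (dg B) (lf A) GA GB (h_lf A) ha hb hGA hGB hGAi
    (fun k => n (ψ k)) (fun k => m (ψ k)) (fun k => (hKl (ψ k)).1)
    ((hm.comp hψ).tendsto_atTop)
  obtain ⟨hlim1, C, hC⟩ := hlim (‖c s‖ + ρ)
  have hsub : ∀ x ∈ ball (c s) (ρ / 2), x ∈ ball (0 : ℂ) (‖c s‖ + ρ) := by
    intro x hx
    rw [mem_ball_zero_iff]
    rw [mem_ball, dist_eq_norm] at hx
    have h1 : ‖x‖ ≤ ‖x - c s‖ + ‖c s‖ := by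
      have := norm_add_le (x - c s) (c s)
      rwa [sub_add_cancel] at this
    linarith
  have hb0 : (dg B : ℝ) ≠ 0 := by
    have : (0 : ℝ) < (dg B : ℝ) := by exact_mod_cast (by omega : 0 < dg B)
    exact this.ne'
  -- values of the potential
  have hval : ∀ k i, ∀ x ∈ ball (c s) (ρ / 2), GB (g k i x) =
      GB ((lf A)^[n (ψ k)] (x, 1)) / (dg B : ℝ) ^ (m (ψ k)) := by
    intro k i x hx
    obtain ⟨h1, h2⟩ := g2 k i x hx
    rw [← h2, (main_iter (h_lf B) hGBi (m (ψ k)) _ h1).2]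
    field_simp
  obtain ⟨χ, hχ, h, hh⟩ := main_montel hBasics hGB (g := fun k => g (φ k)) (c := c s)
    (r := ρ / 2) (M := C) (by positivity) (fun k i => g1 (φ k) i)
    (fun k i z hz => ⟨(g2 (φ k) i z hz).1, by
      rw [hval (φ k) i z hz]
      exact hC k z (hsub z hz)⟩) Finset.univ
  have hhval : ∀ i, ∀ x ∈ ball (c s) (ρ / 2), GB (h i x) = γ * GA (x, 1) := by
    intro i x hx
    have h1 : Tendsto (fun k => GB (g (φ (χ k)) i x)) atTop (𝓝 (GB (h i x))) :=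
      (hh i (Finset.mem_univ i)).2.2.2.tendsto_at hx
    have h2 : Tendsto (fun k => GB (g (φ (χ k)) i x)) atTop (𝓝 (γ * GA (x, 1))) := by
      have h3 := (hlim1.tendsto_at (hsub x hx)).comp hχ.tendsto_atTop
      refine h3.congr fun k => ?_
      exact (hval (φ (χ k)) i x hx).symm
    exact tendsto_nhds_unique h1 h2
  have hγ0 : γ ≠ 0 := by linarith
  have hnRH : ∀ i, ¬ RH (fun x => GB (h i x)) (ball (c s) (ρ / 2)) := by
    intro i hR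
    apply hcR s
    refine ((hR.const_mul γ⁻¹).congr (v := fun z => GA (z, 1)) ?_).mono
      (ball_subset_ball (by linarith))
    intro z hz
    show GA (z, 1) = γ⁻¹ * GB (h i z)
    rw [hhval i z hz, ← mul_assoc, inv_mul_cancel₀ hγ0, one_mul]
  obtain ⟨k₀, hk₀⟩ := h_trans2 (dg B) (lf B) GB (h_lf B) hb hGB hGBi hspec (c s) (ρ / 2) p
    (fun k => g (φ (χ k))) h (by positivity) (fun k i => g1 _ i)
    (fun i => (hh i (Finset.mem_univ i)).1) (fun k i x hx => (g2 _ i x hx).1)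
    (fun i => (hh i (Finset.mem_univ i)).2.1) (fun i => (hh i (Finset.mem_univ i)).2.2.1)
    (fun k i j x hx => by rw [hval _ i x hx, hval _ j x hx]) hnRH
  refine hKne (ψ (φ (χ k₀))) (ψ (φ (χ (k₀ + 1))))
    (hψ (hφ (hχ (Nat.lt_succ_self k₀)))) ?_
  ext W
  rw [g3, g3]
  exact ⟨hk₀ k₀ le_rfl (k₀ + 1) (Nat.le_succ k₀) (dg W) (lf W) (h_lf W),
    hk₀ (k₀ + 1) (Nat.le_succ k₀) k₀ le_rfl (dg W) (lf W) (h_lf W)⟩

end J_fin

end Pool.Agent.Lev
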