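import Pool.Agent.Lev.Stm4

set_option autoImplicit false

open Polynomial Metric Set Filter Topology

namespace Pool.Agent.Lev

namespace J_ord

open Complex in
noncomputable def ee (z : ℂ) : ℂ := Complex.exp (2 * (Real.pi : ℂ) * Complex.I * z)

noncomputable def K (u z : ℂ) : ℂ := 2 * (Real.pi : ℂ) * Complex.I * ee z / (ee z - ee u)

theorem ee_norm (z : ℂ) : ‖ee z‖ = Real.exp (-(2 * Real.pi * z.im)) := by
  unfold ee
  rw [Complex.norm_exp]
  congr 1
  simp [Complex.mul_re, Complex.mul_im]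

theorem ee_ne (z : ℂ) : ee z ≠ 0 := Complex.exp_ne_zero _

theorem ee_add (z w : ℂ) : ee (z + w) = ee z * ee w := by
  unfold ee; rw [mul_add, Complex.exp_add]

theorem ee_one : ee 1 = 1 := by
  unfold ee; rw [mul_one]; exact Complex.exp_two_pi_mul_I

theorem ee_int (n : ℤ) : ee (n : ℂ) = 1 := by
  unfold ee
  rw [mul_comm]
  exact Complex.exp_int_mul_two_pi_mul_I n

theorem ee_eq_iff (z w : ℂ) : ee z = ee w ↔ ∃ n : ℤ, z = w + n := by
  unfold ee
  rw [Complex.exp_eq_exp_iff_exists_int]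
  have h : (2 * (Real.pi : ℂ) * Complex.I) ≠ 0 := Complex.two_pi_I_ne_zero
  constructor
  · rintro ⟨n, hn⟩
    refine ⟨n, ?_⟩
    apply mul_left_cancel₀ h
    rw [hn]; ring
  · rintro ⟨n, hn⟩
    refine ⟨n, ?_⟩
    rw [hn]; ring

theorem kcirc (u : ℂ) (y : ℝ) : ∫ x in (0:ℝ)..1, K u (x + y * Complex.I) =
    ∮ w in C(0, Real.exp (-(2 * Real.pi * y))), (w - ee u)⁻¹ := by
  unfold circleIntegral
  set R := Real.exp (-(2 * Real.pi * y)) with hR
  let F : ℝ → ℂ := fun θ => deriv (circleMap 0 R) θ • (circleMap 0 R θ - ee u)⁻¹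
  have h2 : ∀ x : ℝ, circleMap 0 R (2 * Real.pi * x) = ee (x + y * Complex.I) := by
    intro x
    unfold circleMap ee
    rw [zero_add, hR, Complex.ofReal_exp, ← Complex.exp_add]
    congr 1
    push_cast
    ring_nf
    rw [Complex.I_sq]
    ring
  have h1 : ∀ x : ℝ, K u (x + y * Complex.I) = (2 * Real.pi : ℝ) • F (2 * Real.pi * x) := by
    intro x
    simp only [F]
    rw [deriv_circleMap, h2, K, Complex.real_smul, smul_eq_mul]
    push_cast
    rw [div_eq_mul_inv]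
    ring
  have h3 : (∫ x in (0:ℝ)..1, K u (x + y * Complex.I)) =
      ∫ x in (0:ℝ)..1, (2 * Real.pi : ℝ) • F (2 * Real.pi * x) :=
    intervalIntegral.integral_congr (fun x _ => h1 x)
  rw [h3, intervalIntegral.integral_smul, intervalIntegral.integral_comp_mul_left F (by positivity)]
  rw [smul_smul, mul_inv_cancel₀ (by positivity), one_smul, mul_zero, mul_one]

theorem kint_below (u : ℂ) (y : ℝ) (h : y < u.im) :
    ∫ x in (0:ℝ)..1, K u (x + y * Complex.I) = 2 * (Real.pi : ℂ) * Complex.I := by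
  rw [kcirc, circleIntegral.integral_sub_inv_of_mem_ball]
  rw [mem_ball_zero_iff, ee_norm]
  apply Real.exp_lt_exp.2
  nlinarith [Real.pi_pos]

theorem kint_above (u : ℂ) (y : ℝ) (h : u.im < y) :
    ∫ x in (0:ℝ)..1, K u (x + y * Complex.I) = 0 := by
  rw [kcirc]
  have hne : ∀ w ∈ closedBall (0:ℂ) (Real.exp (-(2 * Real.pi * y))), w - ee u ≠ 0 := by
    intro w hw h0
    rw [mem_closedBall_zero_iff, sub_eq_zero.1 h0, ee_norm] at hw
    have := Real.exp_le_exp.1 hw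
    nlinarith [Real.pi_pos]
  refine DiffContOnCl.circleIntegral_eq_zero (Real.exp_pos _).le ?_
  refine DifferentiableOn.diffContOnCl ?_
  rw [closure_ball _ (Real.exp_pos _).ne']
  intro w hw
  have hd : DifferentiableAt ℂ (fun w : ℂ => w - ee u) w := by fun_prop
  exact (hd.inv (hne w hw)).differentiableWithinAt


/-! periodicity lemmas -/

theorem per_analytic {h : ℂ → ℂ} {ω : ℂ} (hp : ∀ z, h (z + ω) = h z) {z : ℂ}
    (ha : AnalyticAt ℂ h z) : AnalyticAt ℂ h (z + ω) := by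
  have h1 : h = fun w => h (w - ω) := by
    funext w
    have := hp (w - ω)
    rw [sub_add_cancel] at this
    exact this
  rw [h1]
  have h2 : AnalyticAt ℂ (fun w : ℂ => w - ω) (z + ω) := by fun_prop
  have ha' : AnalyticAt ℂ h ((fun w : ℂ => w - ω) (z + ω)) := by
    simpa using ha
  exact AnalyticAt.comp (g := h) (f := fun w : ℂ => w - ω) ha' h2

theorem per_order {h : ℂ → ℂ} {ω : ℂ} (hp : ∀ z, h (z + ω) = h z) (z : ℂ) :
    meromorphicOrderAt h (z + ω) = meromorphicOrderAt h z := by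
  rw [← meromorphicOrderAt_comp_add_const_eq_meromorphicOrderAt]
  congr 1
  funext w
  exact hp w

theorem per_int {h : ℂ → ℂ} {ω : ℂ} (hp : ∀ z, h (z + ω) = h z) (n : ℤ) (z : ℂ) :
    h (z + n * ω) = h z := by
  have h1 : Function.Periodic h ω := hp
  exact h1.int_mul n z

/-- good points -/
def Gd (h : ℂ → ℂ) (z : ℂ) : Prop := AnalyticAt ℂ h z ∧ h z ≠ 0

theorem Gd.per {h : ℂ → ℂ} {ω : ℂ} (hp : ∀ z, h (z + ω) = h z) {z : ℂ} (hg : Gd h z) :
    Gd h (z + ω) := ⟨per_analytic hp hg.1, by rw [hp]; exact hg.2⟩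

theorem Gd.ord {h : ℂ → ℂ} {z : ℂ} (hg : Gd h z) : meromorphicOrderAt h z = 0 :=
  (hg.1.meromorphicNFAt).meromorphicOrderAt_eq_zero_iff.2 hg.2

theorem loc_fin {h : ℂ → ℂ} (hm : MeromorphicOn h univ) (hne : ∀ z, meromorphicOrderAt h z ≠ ⊤)
    (z : ℂ) : ∀ᶠ w in 𝓝[≠] z, Gd h w := by
  have h1 := (hm z (mem_univ z)).eventually_analyticAt
  have h2 := (meromorphicOrderAt_ne_top_iff_eventually_ne_zero (hm z (mem_univ z))).1 (hne z)
  filter_upwards [h1, h2] with w hw1 hw2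
  exact ⟨hw1, hw2⟩

theorem bad_finite {h : ℂ → ℂ} (hm : MeromorphicOn h univ)
    (hne : ∀ z, meromorphicOrderAt h z ≠ ⊤) {C : Set ℂ} (hC : IsCompact C) :
    {z | z ∈ C ∧ ¬ Gd h z}.Finite := by
  have h1 : ∀ z ∈ C, ∃ U ∈ 𝓝 z, ∀ w ∈ U, ¬ Gd h w → w = z := by
    intro z _
    have := loc_fin hm hne z
    rw [eventually_nhdsWithin_iff] at this
    refine ⟨{w | w ∈ ({z} : Set ℂ)ᶜ → Gd h w}, this, ?_⟩
    intro w hw hb
    by_contra hcon
    exact hb (hw hcon)
  choose! U hU hU2 using h1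
  obtain ⟨t, htC, htU⟩ := hC.elim_nhds_subcover U hU
  refine (t.finite_toSet).subset ?_
  rintro z ⟨hzC, hzb⟩
  obtain ⟨x, hx, hzx⟩ := mem_iUnion₂.1 (htU hzC)
  have := hU2 x (htC x hx) z hzx hzb
  rw [this]
  exact hx


theorem ee_analytic (z : ℂ) : AnalyticAt ℂ ee z := by
  unfold ee; fun_prop

theorem ee_deriv (z : ℂ) : deriv ee z = 2 * (Real.pi : ℂ) * Complex.I * ee z := by
  have h1 : HasDerivAt (fun z : ℂ => 2 * (Real.pi : ℂ) * Complex.I * z)
      (2 * (Real.pi : ℂ) * Complex.I) z := by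
    simpa using (hasDerivAt_id z).const_mul (2 * (Real.pi : ℂ) * Complex.I)
  have h2 := h1.cexp
  have h3 : ee = fun z => Complex.exp (2 * (Real.pi : ℂ) * Complex.I * z) := rfl
  rw [h3, h2.deriv]
  ring

theorem ee_ord (u z : ℂ) [Decidable (ee z = ee u)] :
    meromorphicOrderAt (fun w => ee w - ee u) z = if ee z = ee u then 1 else 0 := by
  split_ifs with h
  · have hd : deriv ee z ≠ 0 := by
      rw [ee_deriv]
      exact mul_ne_zero Complex.two_pi_I_ne_zero (ee_ne z)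
    have h1 := (ee_analytic z).analyticOrderAt_sub_eq_one_of_deriv_ne_zero hd
    rw [h] at h1
    have h2 : AnalyticAt ℂ (fun w => ee w - ee u) z := (ee_analytic z).sub analyticAt_const
    rw [h2.meromorphicOrderAt_eq, h1]
    rfl
  · exact Gd.ord ⟨(ee_analytic z).sub analyticAt_const, sub_ne_zero.2 h⟩

theorem ee_logDeriv (u z : ℂ) : logDeriv (fun w => ee w - ee u) z = K u z := by
  rw [logDeriv_apply, deriv_sub_const, ee_deriv, K]

/-- coordinates -/
noncomputable def tc (τ z : ℂ) : ℝ := z.im / τ.im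
noncomputable def sc (τ z : ℂ) : ℝ := z.re - tc τ z * τ.re

theorem coords {τ : ℂ} (hτ : τ.im ≠ 0) (z : ℂ) : z = (sc τ z : ℂ) + (tc τ z : ℂ) * τ := by
  apply Complex.ext
  · simp [sc]
  · simp only [Complex.add_im, Complex.ofReal_im, Complex.mul_im, Complex.ofReal_re, tc]
    field_simp
    ring

theorem tc_add_int (τ z : ℂ) (n : ℤ) : tc τ (z + n) = tc τ z := by simp [tc]

theorem sc_add_int (τ z : ℂ) (n : ℤ) : sc τ (z + n) = sc τ z + n := by
  simp only [sc, tc_add_int]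
  simp
  ring

theorem mem_FD {τ : ℂ} (hτ : τ.im ≠ 0) (z : ℂ) :
    z ∈ FD 1 τ ↔ 0 ≤ sc τ z ∧ sc τ z < 1 ∧ 0 ≤ tc τ z ∧ tc τ z < 1 := by
  constructor
  · rintro ⟨s, t, h1, h2, h3, h4, h5⟩
    have e1 : tc τ z = t := by
      rw [h5]; simp [tc]; field_simp
    have e2 : sc τ z = s := by
      rw [sc, e1, h5]; simp
    rw [e1, e2]
    exact ⟨h1, h2, h3, h4⟩
  · rintro ⟨h1, h2, h3, h4⟩
    refine ⟨sc τ z, tc τ z, h1, h2, h3, h4, ?_⟩
    rw [mul_one]
    exact coords hτ z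

def Cs (τ : ℂ) : Set ℂ := {z | 0 ≤ sc τ z ∧ sc τ z ≤ 1 ∧ -1 ≤ tc τ z ∧ tc τ z ≤ 1}

theorem Cs_compact {τ : ℂ} (hτ : τ.im ≠ 0) : IsCompact (Cs τ) := by
  have h1 : IsCompact ((fun p : ℝ × ℝ => (p.1 : ℂ) + (p.2 : ℂ) * τ) '' (Icc 0 1 ×ˢ Icc (-1) 1)) := by
    refine (isCompact_Icc.prod isCompact_Icc).image ?_
    fun_prop
  refine h1.of_isClosed_subset ?_ ?_
  · have hs : Continuous (sc τ) := by unfold sc tc; fun_prop
    have ht : Continuous (tc τ) := by unfold tc; fun_prop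
    have e : Cs τ = (sc τ) ⁻¹' (Icc 0 1) ∩ (tc τ) ⁻¹' (Icc (-1) 1) := by
      ext z; simp only [Cs, mem_ofPred_eq, mem_inter_iff, mem_preimage, mem_Icc]; tauto
    rw [e]
    exact (isClosed_Icc.preimage hs).inter (isClosed_Icc.preimage ht)
  · rintro z ⟨h1, h2, h3, h4⟩
    exact ⟨(sc τ z, tc τ z), ⟨⟨h1, h2⟩, ⟨h3, h4⟩⟩, (coords hτ z).symm⟩

theorem red (τ z : ℂ) : 0 ≤ sc τ (z + ((-⌊sc τ z⌋ : ℤ) : ℂ)) ∧ sc τ (z + ((-⌊sc τ z⌋ : ℤ) : ℂ)) < 1 ∧
    tc τ (z + ((-⌊sc τ z⌋ : ℤ) : ℂ)) = tc τ z := by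
  refine ⟨?_, ?_, tc_add_int _ _ _⟩
  · rw [sc_add_int]; push_cast
    have := Int.floor_le (sc τ z); linarith
  · rw [sc_add_int]; push_cast
    have := Int.lt_floor_add_one (sc τ z); linarith

theorem Gd.int {h : ℂ → ℂ} (h1 : ∀ z, h (z + 1) = h z) {z : ℂ} (n : ℤ) :
    Gd h (z + n) ↔ Gd h z := by
  have hp : ∀ m : ℤ, ∀ w, h (w + m) = h w := by
    intro m w
    have := per_int h1 m w
    rwa [mul_one] at this
  constructor
  · intro hg
    have := hg.per (hp (-n))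
    have e : z + (n : ℂ) + ((-n : ℤ) : ℂ) = z := by push_cast; ring
    rwa [e] at this
  · intro hg
    exact hg.per (hp n)

theorem exists_delta {τ : ℂ} (hτ : τ.im ≠ 0) {h : ℂ → ℂ} (hm : MeromorphicOn h univ)
    (h1 : ∀ z, h (z + 1) = h z) (hne : ∀ z, meromorphicOrderAt h z ≠ ⊤) :
    ∃ δ : ℝ, 0 < δ ∧ δ < 1 ∧ ∀ z, -δ ≤ tc τ z → tc τ z < 0 → Gd h z := by
  have hA := bad_finite hm hne (Cs_compact hτ)
  have hB : ((tc τ '' {z | z ∈ Cs τ ∧ ¬ Gd h z}) \ {0}).Finite := (hA.image _).subset sdiff_subset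
  have hC : ((tc τ '' {z | z ∈ Cs τ ∧ ¬ Gd h z}) \ {0})ᶜ ∈ 𝓝 (0:ℝ) :=
    hB.isClosed.isOpen_compl.mem_nhds (by simp)
  obtain ⟨ε, hε, hball⟩ := Metric.mem_nhds_iff.1 hC
  refine ⟨min (ε / 2) (1 / 2), by positivity, (min_le_right _ _).trans_lt (by norm_num), ?_⟩
  intro z hz1 hz2
  by_contra hbad
  obtain ⟨r1, r2, r3⟩ := red τ z
  set z' := z + ((-⌊sc τ z⌋ : ℤ) : ℂ) with hz'
  have hb' : ¬ Gd h z' := fun hg => hbad ((Gd.int h1 _).1 hg)
  have hd1 : min (ε / 2) (1 / 2) ≤ ε / 2 := min_le_left _ _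
  have hd2 : min (ε / 2) (1 / 2) ≤ 1 / 2 := min_le_right _ _
  have hC' : z' ∈ Cs τ := ⟨r1, r2.le, by rw [r3]; linarith, by rw [r3]; linarith⟩
  have hmem : tc τ z ∈ ball (0:ℝ) ε := by
    rw [mem_ball_zero_iff, Real.norm_eq_abs, abs_lt]
    constructor <;> linarith
  refine hball hmem ⟨⟨z', ⟨hC', hb'⟩, r3⟩, ?_⟩
  intro h0
  rw [mem_singleton_iff] at h0
  linarith


/-- the auxiliary function -/
noncomputable def g0 (h : ℂ → ℂ) (S : Finset ℂ) (z : ℂ) : ℂ :=
  h z * ∏ u ∈ S, (ee z - ee u) ^ (-(ordZ h u))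

theorem g0_mer {h : ℂ → ℂ} (hm : MeromorphicOn h univ) (S : Finset ℂ) (z : ℂ) :
    MeromorphicAt (g0 h S) z := by
  unfold g0
  refine (hm z (mem_univ z)).mul ?_
  refine MeromorphicAt.fun_prod (fun u _ => ?_)
  exact MeromorphicAt.fun_zpow (((ee_analytic z).sub analyticAt_const).meromorphicAt) _

theorem g0_ord {h : ℂ → ℂ} (hm : MeromorphicOn h univ) (S : Finset ℂ) (z : ℂ) :
    meromorphicOrderAt (g0 h S) z = meromorphicOrderAt h z +
      ∑ u ∈ S, (((-(ordZ h u) : ℤ) : WithTop ℤ) * meromorphicOrderAt (fun w => ee w - ee u) z) := by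
  have hz : ∀ u, MeromorphicAt (fun w => ee w - ee u) z := fun u =>
    ((ee_analytic z).sub analyticAt_const).meromorphicAt
  have h1 : MeromorphicAt (fun w => ∏ u ∈ S, (ee w - ee u) ^ (-(ordZ h u))) z :=
    MeromorphicAt.fun_prod (fun u _ => (hz u).fun_zpow _)
  have h2 : g0 h S = fun w => h w * ∏ u ∈ S, (ee w - ee u) ^ (-(ordZ h u)) := rfl
  rw [h2, fun_meromorphicOrderAt_mul (hm z (mem_univ z)) h1,
    meromorphicOrderAt_fun_prod (fun u _ => (hz u).fun_zpow _)]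
  congr 1
  refine Finset.sum_congr rfl (fun u _ => ?_)
  rw [fun_meromorphicOrderAt_zpow (hz u)]

theorem g0_per {h : ℂ → ℂ} (h1 : ∀ z, h (z + 1) = h z) (S : Finset ℂ) (z : ℂ) :
    g0 h S (z + 1) = g0 h S z := by
  unfold g0
  rw [h1]
  have : ee (z + 1) = ee z := by rw [ee_add, ee_one, mul_one]
  rw [this]

/-- the regularized function -/
noncomputable def gg (h : ℂ → ℂ) (S : Finset ℂ) : ℂ → ℂ := toMeromorphicNFOn (g0 h S) univ

theorem gg_nf {h : ℂ → ℂ} (S : Finset ℂ) (z : ℂ) :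
    MeromorphicNFAt (gg h S) z := meromorphicNFOn_toMeromorphicNFOn (g0 h S) univ (mem_univ z)

theorem gg_eq {h : ℂ → ℂ} (hm : MeromorphicOn h univ) (S : Finset ℂ) (z : ℂ) :
    gg h S =ᶠ[𝓝[≠] z] g0 h S :=
  MeromorphicOn.toMeromorphicNFOn_eq_self_on_nhdsNE (fun z _ => g0_mer hm S z) (mem_univ z)

theorem gg_per {h : ℂ → ℂ} (hm : MeromorphicOn h univ) (h1 : ∀ z, h (z + 1) = h z)
    (S : Finset ℂ) (z : ℂ) : gg h S (z + 1) = gg h S z := by
  have hA : MeromorphicNFAt (gg h S ∘ (· + (1:ℂ))) z :=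
    meromorphicNFAt_comp_add_const_iff_meromorphicNFAt.2 (gg_nf S (z + 1))
  have hB := gg_nf (h := h) S z
  have hE : (gg h S ∘ (· + (1:ℂ))) =ᶠ[𝓝[≠] z] gg h S := by
    have e1 : (gg h S ∘ (· + (1:ℂ))) =ᶠ[𝓝[≠] z] (g0 h S ∘ (· + (1:ℂ))) := by
      have h2 := gg_eq hm S (z + 1)
      have h3 : Tendsto (· + (1:ℂ)) (𝓝[≠] z) (𝓝[≠] (z + 1)) := by
        refine tendsto_nhdsWithin_of_tendsto_nhds_of_eventually_within _ ?_ ?_
        · have : Continuous (· + (1:ℂ)) := by fun_prop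
          exact (this.tendsto z).mono_left nhdsWithin_le_nhds
        · filter_upwards [self_mem_nhdsWithin] with w hw
          intro hcon
          exact hw (add_right_cancel hcon)
      exact h3.eventually h2
    have e2 : (g0 h S ∘ (· + (1:ℂ))) = g0 h S := by
      funext w; exact g0_per h1 S w
    rw [e2] at e1
    exact e1.trans (gg_eq hm S z).symm
  have := (hA.eventuallyEq_nhdsNE_iff_eventuallyEq_nhds hB).1 hE
  exact this.eq_of_nhds

theorem gg_good {h : ℂ → ℂ} (hm : MeromorphicOn h univ) (S : Finset ℂ) {z : ℂ}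
    (ho : meromorphicOrderAt (g0 h S) z = 0) : Gd (gg h S) z := by
  have h1 : meromorphicOrderAt (gg h S) z = 0 := by
    rw [← ho]; exact meromorphicOrderAt_congr (gg_eq hm S z)
  exact ⟨(gg_nf S z).meromorphicOrderAt_nonneg_iff_analyticAt.1 h1.ge,
    (gg_nf S z).meromorphicOrderAt_eq_zero_iff.1 h1⟩

theorem gg_log {h : ℂ → ℂ} (hm : MeromorphicOn h univ) (S : Finset ℂ) {z : ℂ}
    (hg : Gd h z) (hS : ∀ u ∈ S, ee z ≠ ee u) :
    logDeriv (gg h S) z = logDeriv h z - ∑ u ∈ S, (ordZ h u : ℂ) * K u z := by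
  have hne : ∀ u ∈ S, ee z - ee u ≠ 0 := fun u hu => sub_ne_zero.2 (hS u hu)
  have hda : ∀ u, AnalyticAt ℂ (fun w => ee w - ee u) z := fun u =>
    (ee_analytic z).sub analyticAt_const
  have hzp : ∀ u ∈ S, AnalyticAt ℂ (fun w => (ee w - ee u) ^ (-(ordZ h u))) z := fun u hu =>
    (hda u).fun_zpow (hne u hu)
  have hprod : AnalyticAt ℂ (fun w => ∏ u ∈ S, (ee w - ee u) ^ (-(ordZ h u))) z :=
    Finset.analyticAt_fun_prod S hzp
  have hg0 : AnalyticAt ℂ (g0 h S) z := hg.1.mul hprod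
  have hEq : gg h S =ᶠ[𝓝 z] g0 h S :=
    ((gg_nf S z).eventuallyEq_nhdsNE_iff_eventuallyEq_nhds hg0.meromorphicNFAt).1 (gg_eq hm S z)
  have hL : logDeriv (gg h S) z = logDeriv (g0 h S) z := by
    rw [logDeriv_apply, logDeriv_apply, hEq.deriv_eq, hEq.eq_of_nhds]
  rw [hL]
  have h2 : g0 h S = fun w => h w * ∏ u ∈ S, (ee w - ee u) ^ (-(ordZ h u)) := rfl
  have h3 : logDeriv (fun w => ∏ u ∈ S, (ee w - ee u) ^ (-(ordZ h u))) z =
      ∑ u ∈ S, logDeriv (fun w => (ee w - ee u) ^ (-(ordZ h u))) z :=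
    logDeriv_prod (f := fun u w => (ee w - ee u) ^ (-(ordZ h u)))
      (fun u hu => zpow_ne_zero _ (hne u hu)) (fun u hu => (hzp u hu).differentiableAt)
  rw [h2, logDeriv_mul z hg.2 (Finset.prod_ne_zero_iff.2 (fun u hu => zpow_ne_zero _ (hne u hu)))
    hg.1.differentiableAt hprod.differentiableAt, h3, sub_eq_add_neg,
      ← Finset.sum_neg_distrib]
  congr 1
  refine Finset.sum_congr rfl (fun u hu => ?_)
  rw [logDeriv_fun_zpow (hda u).differentiableAt, ee_logDeriv]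
  push_cast
  ring


/-- Cauchy: equality of the integrals over two horizontal segments -/
theorem rect {g : ℂ → ℂ} (hp : ∀ z, g (z + 1) = g z) (a b : ℝ)
    (hg : ∀ z : ℂ, z.im ∈ uIcc a b → Gd g z) :
    ∫ x in (0:ℝ)..1, logDeriv g (x + a * Complex.I) =
      ∫ x in (0:ℝ)..1, logDeriv g (x + b * Complex.I) := by
  have hlp : ∀ z, logDeriv g (z + 1) = logDeriv g z := by
    intro z
    rw [logDeriv_apply, logDeriv_apply, hp]
    congr 1
    have : (fun z => g (z + 1)) = g := by funext z; exact hp z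
    conv_rhs => rw [← this]
    rw [deriv_comp_add_const]
  have hd : ∀ z : ℂ, z.im ∈ uIcc a b → DifferentiableAt ℂ (logDeriv g) z := by
    intro z hz
    have h1 : DifferentiableAt ℂ (fun w => deriv g w / g w) z :=
      ((hg z hz).1.deriv.differentiableAt).div (hg z hz).1.differentiableAt (hg z hz).2
    exact h1
  have H := Complex.integral_boundary_rect_eq_zero_of_differentiableOn (logDeriv g)
    (a * Complex.I) (1 + b * Complex.I) (by
      intro z hz
      refine (hd z ?_).differentiableWithinAt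
      have := hz.2
      simpa using this)
  have e1 : ((a * Complex.I : ℂ)).re = 0 := by simp
  have e2 : ((a * Complex.I : ℂ)).im = a := by simp
  have e3 : ((1 + b * Complex.I : ℂ)).re = 1 := by simp
  have e4 : ((1 + b * Complex.I : ℂ)).im = b := by simp
  rw [e1, e2, e3, e4] at H
  have e5 : (∫ y : ℝ in a..b, logDeriv g (((1:ℝ) : ℂ) + y * Complex.I)) =
      ∫ y : ℝ in a..b, logDeriv g (((0:ℝ) : ℂ) + y * Complex.I) := by
    refine intervalIntegral.integral_congr (fun y _ => ?_)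
    show logDeriv g (((1:ℝ) : ℂ) + y * Complex.I) = logDeriv g (((0:ℝ) : ℂ) + y * Complex.I)
    rw [← hlp (((0:ℝ) : ℂ) + y * Complex.I)]
    congr 1
    push_cast
    ring
  rw [e5] at H
  linear_combination H


theorem ord_int {h : ℂ → ℂ} (h1 : ∀ z, h (z + 1) = h z) (n : ℤ) (z : ℂ) :
    meromorphicOrderAt h (z + n) = meromorphicOrderAt h z := by
  refine per_order (fun w => ?_) z
  have := per_int h1 n w
  rwa [mul_one] at this

theorem ordZ_eq_zero {h : ℂ → ℂ} {z : ℂ} (hne : meromorphicOrderAt h z ≠ ⊤) (h0 : ordZ h z = 0) :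
    meromorphicOrderAt h z = 0 := by
  unfold ordZ at h0
  lift meromorphicOrderAt h z to ℤ using hne with n hn
  simp at h0
  rw [h0]; rfl

theorem g0_ord_zero {τ : ℂ} (hτ : τ.im ≠ 0) {h : ℂ → ℂ} (hm : MeromorphicOn h univ)
    (h1 : ∀ z, h (z + 1) = h z) (hne : ∀ z, meromorphicOrderAt h z ≠ ⊤)
    {δ : ℝ} (hδ0 : 0 < δ) (hδ : ∀ z, -δ ≤ tc τ z → tc τ z < 0 → Gd h z)
    (S : Finset ℂ) (hS : ∀ z, z ∈ S ↔ z ∈ FD 1 τ ∧ ordZ h z ≠ 0) {z : ℂ}
    (hz1 : -δ ≤ tc τ z) (hz2 : tc τ z ≤ 1 - δ) : meromorphicOrderAt (g0 h S) z = 0 := by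
  classical
  rw [g0_ord hm S z]
  simp only [ee_ord]
  by_cases hex : ∃ u ∈ S, ee z = ee u
  · obtain ⟨u, huS, hu⟩ := hex
    obtain ⟨n, hn⟩ := (ee_eq_iff z u).1 hu
    have hsum : ∑ v ∈ S, (((-(ordZ h v) : ℤ) : WithTop ℤ) * (if ee z = ee v then 1 else 0)) =
        ((-(ordZ h u) : ℤ) : WithTop ℤ) := by
      rw [Finset.sum_eq_single u]
      · rw [if_pos hu, mul_one]
      · intro v hv hvu
        rw [if_neg, mul_zero]
        intro hev
        apply hvu
        -- uniqueness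
        obtain ⟨m, hm'⟩ := (ee_eq_iff v u).1 (hev.symm.trans hu)
        have a1 := (mem_FD hτ v).1 ((hS v).1 hv).1
        have a2 := (mem_FD hτ u).1 ((hS u).1 huS).1
        rw [hm', sc_add_int] at a1
        have b1 : (-1 : ℝ) < m := by linarith
        have b2 : (m : ℝ) < 1 := by linarith
        have b1' : (-1 : ℤ) < m := by exact_mod_cast b1
        have b2' : m < (1 : ℤ) := by exact_mod_cast b2
        have b3 : m = 0 := by omega
        rw [hm', b3]; simp
      · intro h; exact absurd huS h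
    rw [hsum, hn, ord_int h1]
    have hu' := hne u
    unfold ordZ
    lift meromorphicOrderAt h u to ℤ using hu' with k hk
    rw [WithTop.untop₀_coe, ← WithTop.coe_add]
    simp
  · push Not at hex
    have hsum : ∑ v ∈ S, (((-(ordZ h v) : ℤ) : WithTop ℤ) * (if ee z = ee v then 1 else 0)) = 0 := by
      refine Finset.sum_eq_zero (fun v hv => ?_)
      rw [if_neg (hex v hv), mul_zero]
    rw [hsum, add_zero]
    rcases lt_or_ge (tc τ z) 0 with hlt | hge
    · exact (hδ z hz1 hlt).ord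
    · obtain ⟨r1, r2, r3⟩ := red τ z
      set z' := z + ((-⌊sc τ z⌋ : ℤ) : ℂ) with hz'
      have hFD : z' ∈ FD 1 τ := (mem_FD hτ z').2 ⟨r1, r2, by rw [r3]; exact hge,
        by rw [r3]; linarith⟩
      have h0 : ordZ h z' = 0 := by
        by_contra hcon
        refine hex z' ((hS z').2 ⟨hFD, hcon⟩) ?_
        rw [hz', ee_add, ee_int, mul_one]
      have := ordZ_eq_zero (hne z') h0
      rw [hz', ord_int h1] at this
      exact this

theorem norm_case {τ : ℂ} (hτ : τ.im ≠ 0) {h : ℂ → ℂ} (hm : MeromorphicOn h univ)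
    (h1 : ∀ z, h (z + 1) = h z) (h2 : ∀ z, h (z + τ) = h z)
    (hne : ∀ z, meromorphicOrderAt h z ≠ ⊤) :
    {z | z ∈ FD 1 τ ∧ ordZ h z ≠ 0}.Finite ∧ ∑ᶠ z ∈ FD 1 τ, ordZ h z = 0 := by
  classical
  have hfin : {z | z ∈ FD 1 τ ∧ ordZ h z ≠ 0}.Finite := by
    refine (bad_finite hm hne (Cs_compact hτ)).subset ?_
    rintro z ⟨hz, hz0⟩
    obtain ⟨a1, a2, a3, a4⟩ := (mem_FD hτ z).1 hz
    refine ⟨⟨a1, a2.le, by linarith, a4.le⟩, fun hg => hz0 ?_⟩
    unfold ordZ
    rw [hg.ord]; rfl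
  refine ⟨hfin, ?_⟩
  obtain ⟨δ, hδ0, hδ1, hδ⟩ := exists_delta hτ hm h1 hne
  let S : Finset ℂ := hfin.toFinset
  have hS : ∀ z, z ∈ S ↔ z ∈ FD 1 τ ∧ ordZ h z ≠ 0 := fun z => by simp [S]
  have hsumS : ∑ᶠ z ∈ FD 1 τ, ordZ h z = ∑ u ∈ S, ordZ h u := by
    rw [← finsum_mem_inter_support]
    have hf : (FD 1 τ ∩ Function.support (ordZ h)).Finite := by
      refine hfin.subset ?_
      rintro z ⟨ha, hb⟩; exact ⟨ha, hb⟩
    rw [finsum_mem_eq_finite_toFinset_sum _ hf]
    refine Finset.sum_congr ?_ (fun _ _ => rfl)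
    ext z
    simp only [Set.Finite.mem_toFinset, S]
    rfl
  rw [hsumS]
  -- the two lines
  set a : ℝ := -δ * τ.im with ha
  set b : ℝ := (1 - δ) * τ.im with hb
  have tca : ∀ z : ℂ, z.im = a → tc τ z = -δ := by
    intro z hz; rw [tc, hz, ha]; field_simp
  have tcb : ∀ z : ℂ, z.im = b → tc τ z = 1 - δ := by
    intro z hz; rw [tc, hz, hb]; field_simp
  have hgood_a : ∀ z : ℂ, z.im = a → Gd h z := by
    intro z hz
    refine hδ z ?_ ?_
    · rw [tca z hz]
    · rw [tca z hz]; linarith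
  have hgood_b : ∀ z : ℂ, z.im = b → Gd h z := by
    intro z hz
    have h3 : Gd h (z - τ) := by
      refine hgood_a _ ?_
      rw [Complex.sub_im, hz, ha, hb]; ring
    have := h3.per h2
    rwa [sub_add_cancel] at this
  have htu : ∀ u ∈ S, 0 ≤ tc τ u ∧ tc τ u < 1 - δ := by
    intro u hu
    have h3 := (hS u).1 hu
    obtain ⟨a1, a2, a3, a4⟩ := (mem_FD hτ u).1 h3.1
    refine ⟨a3, ?_⟩
    by_contra hcon
    push Not at hcon
    have h4 : Gd h (u - τ) := by
      have e : tc τ (u - τ) = tc τ u - 1 := by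
        simp only [tc, Complex.sub_im]; field_simp
      refine hδ _ ?_ ?_
      · rw [e]; linarith
      · rw [e]; linarith
    have h5 := h4.per h2
    rw [sub_add_cancel] at h5
    apply h3.2
    unfold ordZ
    rw [h5.ord]; rfl
  have hee : ∀ z : ℂ, (z.im = a ∨ z.im = b) → ∀ u ∈ S, ee z ≠ ee u := by
    intro z hz u hu he
    obtain ⟨n, hn⟩ := (ee_eq_iff z u).1 he
    have e1 : tc τ z = tc τ u := by rw [hn, tc_add_int]
    have e2 := htu u hu
    rcases hz with hz | hz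
    · have := tca z hz; linarith [e2.1]
    · have := tcb z hz; linarith [e2.2]
  have hper := gg_per hm h1 S
  have hmid : ∀ z : ℂ, z.im ∈ uIcc a b → Gd (gg h S) z := by
    intro z hz
    have h3 : -δ ≤ tc τ z ∧ tc τ z ≤ 1 - δ := by
      have e : z.im = tc τ z * τ.im := by rw [tc]; field_simp
      rw [mem_uIcc, ha, hb, e] at hz
      rcases lt_or_gt_of_ne hτ with hneg | hpos
      · rcases hz with ⟨h4, h5⟩ | ⟨h4, h5⟩
        · exfalso
          have : -δ * τ.im ≤ (1 - δ) * τ.im := h4.trans h5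
          nlinarith
        · constructor <;> nlinarith
      · rcases hz with ⟨h4, h5⟩ | ⟨h4, h5⟩
        · constructor <;> nlinarith
        · exfalso
          have : (1 - δ) * τ.im ≤ -δ * τ.im := h4.trans h5
          nlinarith
    exact gg_good hm S (g0_ord_zero hτ hm h1 hne hδ0 hδ S hS h3.1 h3.2)
  have hrect := rect hper a b hmid
  -- computing both integrals
  have him : ∀ (x y : ℝ), ((x : ℂ) + y * Complex.I).im = y := by intro x y; simp
  have hsplit : ∀ y : ℝ, (y = a ∨ y = b) →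
      ∫ x in (0:ℝ)..1, logDeriv (gg h S) (x + y * Complex.I) =
      (∫ x in (0:ℝ)..1, logDeriv h (x + y * Complex.I)) -
        ∑ u ∈ S, (ordZ h u : ℂ) * ∫ x in (0:ℝ)..1, K u (x + y * Complex.I) := by
    intro y hy
    have hgd : ∀ x : ℝ, Gd h (x + y * Complex.I) := by
      intro x
      rcases hy with hy | hy
      · exact hgood_a _ (by rw [him, hy])
      · exact hgood_b _ (by rw [him, hy])
    have heu : ∀ x : ℝ, ∀ u ∈ S, ee (x + y * Complex.I) ≠ ee u := by
      intro x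
      refine hee _ ?_
      rw [him]; exact hy
    have hline : Continuous (fun x : ℝ => ((x : ℂ) + y * Complex.I)) := by fun_prop
    have hc1 : Continuous (fun x : ℝ => logDeriv h ((x : ℂ) + y * Complex.I)) := by
      rw [continuous_iff_continuousAt]
      intro x
      have h3 : ContinuousAt (fun w => deriv h w / h w) ((x : ℂ) + y * Complex.I) :=
        (hgd x).1.deriv.continuousAt.div (hgd x).1.continuousAt (hgd x).2
      exact ContinuousAt.comp (g := fun w => deriv h w / h w) h3 hline.continuousAt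
    have hc2 : ∀ u ∈ S, Continuous (fun x : ℝ => K u ((x : ℂ) + y * Complex.I)) := by
      intro u hu
      unfold K
      have hce : Continuous ee := by unfold ee; fun_prop
      exact (continuous_const.mul (hce.comp hline)).div ((hce.comp hline).sub continuous_const)
        (fun x => sub_ne_zero.2 (heu x u hu))
    have e1 : ∫ x in (0:ℝ)..1, logDeriv (gg h S) (x + y * Complex.I) =
        ∫ x in (0:ℝ)..1, (logDeriv h (x + y * Complex.I) -
          ∑ u ∈ S, (ordZ h u : ℂ) * K u (x + y * Complex.I)) :=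
      intervalIntegral.integral_congr (fun x _ => gg_log hm S (hgd x) (heu x))
    have hc3 : ∀ u ∈ S, Continuous (fun x : ℝ => (ordZ h u : ℂ) * K u ((x : ℂ) + y * Complex.I)) :=
      fun u hu => continuous_const.mul (hc2 u hu)
    have hc4 : Continuous (fun x : ℝ => ∑ u ∈ S, (ordZ h u : ℂ) * K u ((x : ℂ) + y * Complex.I)) :=
      continuous_finsetSum S hc3
    rw [e1, intervalIntegral.integral_sub (hc1.intervalIntegrable _ _)
      (hc4.intervalIntegrable _ _),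
      intervalIntegral.integral_finsetSum
        (fun u hu => (hc3 u hu).intervalIntegrable _ _)]
    congr 1
    refine Finset.sum_congr rfl (fun u _ => ?_)
    rw [intervalIntegral.integral_const_mul]
  rw [hsplit a (Or.inl rfl), hsplit b (Or.inr rfl)] at hrect
  have hsame : ∫ x in (0:ℝ)..1, logDeriv h (x + b * Complex.I) =
      ∫ x in (0:ℝ)..1, logDeriv h (x + a * Complex.I) := by
    have hld : ∀ ω : ℂ, (∀ z, h (z + ω) = h z) → ∀ z, logDeriv h (z + ω) = logDeriv h z := by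
      intro ω hω z
      rw [logDeriv_apply, logDeriv_apply, hω]
      congr 1
      have : (fun z => h (z + ω)) = h := by funext z; exact hω z
      conv_rhs => rw [← this]
      rw [deriv_comp_add_const]
    let F : ℝ → ℂ := fun x => logDeriv h (x + a * Complex.I)
    have hF : Function.Periodic F 1 := by
      intro x
      show logDeriv h (((x + 1 : ℝ) : ℂ) + a * Complex.I) = logDeriv h ((x : ℂ) + a * Complex.I)
      rw [← hld 1 h1 ((x : ℂ) + a * Complex.I)]
      congr 1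
      push_cast
      ring
    have e1 : ∀ x : ℝ, logDeriv h ((x : ℂ) + b * Complex.I) = F (x - τ.re) := by
      intro x
      show _ = logDeriv h (((x - τ.re : ℝ) : ℂ) + a * Complex.I)
      rw [← hld τ h2 (((x - τ.re : ℝ) : ℂ) + a * Complex.I)]
      congr 1
      apply Complex.ext
      · simp
      · simp [ha, hb]; ring
    have e2 : ∫ x in (0:ℝ)..1, logDeriv h (x + b * Complex.I) = ∫ x in (0:ℝ)..1, F (x - τ.re) :=
      intervalIntegral.integral_congr (fun x _ => e1 x)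
    rw [e2, intervalIntegral.integral_comp_sub_right F τ.re]
    have e3 := hF.intervalIntegral_add_eq (0 - τ.re) 0
    have e4 : (1 : ℝ) - τ.re = 0 - τ.re + 1 := by ring
    rw [e4, e3, zero_add]
  rw [hsame] at hrect
  have hkey : ∑ u ∈ S, (ordZ h u : ℂ) * ((∫ x in (0:ℝ)..1, K u (x + a * Complex.I)) -
      ∫ x in (0:ℝ)..1, K u (x + b * Complex.I)) = 0 := by
    simp only [mul_sub]
    rw [Finset.sum_sub_distrib]
    linear_combination -hrect
  have hpi : 2 * (Real.pi : ℂ) * Complex.I ≠ 0 := Complex.two_pi_I_ne_zero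
  have hfinal : (∑ u ∈ S, (ordZ h u : ℂ)) = 0 := by
    rcases lt_or_gt_of_ne hτ with hneg | hpos
    · have h3 : ∀ u ∈ S, (ordZ h u : ℂ) * ((∫ x in (0:ℝ)..1, K u (x + a * Complex.I)) -
          ∫ x in (0:ℝ)..1, K u (x + b * Complex.I)) = (ordZ h u : ℂ) * (-(2 * (Real.pi : ℂ) * Complex.I)) := by
        intro u hu
        have hu' := htu u hu
        have e : u.im = tc τ u * τ.im := by rw [tc]; field_simp
        rw [kint_above u a (by rw [e, ha]; nlinarith [hu'.1]),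
          kint_below u b (by rw [e, hb]; nlinarith [hu'.2])]
        ring
      rw [Finset.sum_congr rfl h3, ← Finset.sum_mul] at hkey
      exact (mul_eq_zero.1 hkey).resolve_right (neg_ne_zero.2 hpi)
    · have h3 : ∀ u ∈ S, (ordZ h u : ℂ) * ((∫ x in (0:ℝ)..1, K u (x + a * Complex.I)) -
          ∫ x in (0:ℝ)..1, K u (x + b * Complex.I)) = (ordZ h u : ℂ) * (2 * (Real.pi : ℂ) * Complex.I) := by
        intro u hu
        have hu' := htu u hu
        have e : u.im = tc τ u * τ.im := by rw [tc]; field_simp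
        rw [kint_below u a (by rw [e, ha]; nlinarith [hu'.1]),
          kint_above u b (by rw [e, hb]; nlinarith [hu'.2])]
        ring
      rw [Finset.sum_congr rfl h3, ← Finset.sum_mul] at hkey
      exact (mul_eq_zero.1 hkey).resolve_right hpi
  exact_mod_cast hfinal

theorem li_im {ω₁ ω₂ : ℂ} (hl : LinearIndependent ℝ ![ω₁, ω₂]) :
    ω₁ ≠ 0 ∧ (ω₂ / ω₁).im ≠ 0 := by
  have h1 : ω₁ ≠ 0 := by
    have := hl.ne_zero 0
    simpa using this
  refine ⟨h1, fun h0 => ?_⟩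
  rw [LinearIndependent.pair_iff] at hl
  have h2 : ω₂ = ((ω₂ / ω₁).re : ℂ) * ω₁ := by
    have h3 : ω₂ / ω₁ = ((ω₂ / ω₁).re : ℂ) := by
      apply Complex.ext
      · simp
      · rw [h0]; simp
    rw [← h3, div_mul_cancel₀ _ h1]
  have h4 := hl (-(ω₂ / ω₁).re) 1 (by
    rw [Complex.real_smul, Complex.real_smul]
    push_cast
    linear_combination h2)
  exact one_ne_zero h4.2

theorem main' (ω₁ ω₂ : ℂ) (h : ℂ → ℂ) (hl : LinearIndependent ℝ ![ω₁, ω₂])
    (hm : MeromorphicOn h Set.univ) (hp : ∀ z, h (z + ω₁) = h z ∧ h (z + ω₂) = h z)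
    (hex : ∃ z, meromorphicOrderAt h z ≠ ⊤) :
    {z | z ∈ FD ω₁ ω₂ ∧ ordZ h z ≠ 0}.Finite ∧ ∑ᶠ z ∈ FD ω₁ ω₂, ordZ h z = 0 := by
  obtain ⟨hω, hτ⟩ := li_im hl
  set τ := ω₂ / ω₁ with hτd
  have hτm : ω₁ * τ = ω₂ := by rw [hτd]; field_simp
  let k : ℂ → ℂ := fun z => h (ω₁ * z)
  have han : ∀ z, AnalyticAt ℂ (fun z : ℂ => ω₁ * z) z := fun z => by fun_prop
  have hder : ∀ z, deriv (fun z : ℂ => ω₁ * z) z ≠ 0 := by
    intro z
    have h1 : HasDerivAt (fun z : ℂ => ω₁ * z) ω₁ z := by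
      simpa using (hasDerivAt_id z).const_mul ω₁
    rw [h1.deriv]; exact hω
  have hkm : MeromorphicOn k univ := fun z _ =>
    (hm (ω₁ * z) (mem_univ _)).comp_analyticAt (han z)
  have hk1 : ∀ z, k (z + 1) = k z := by
    intro z
    show h (ω₁ * (z + 1)) = h (ω₁ * z)
    rw [mul_add, mul_one, (hp _).1]
  have hk2 : ∀ z, k (z + τ) = k z := by
    intro z
    show h (ω₁ * (z + τ)) = h (ω₁ * z)
    rw [mul_add, hτm, (hp _).2]
  have hord : ∀ z, meromorphicOrderAt k z = meromorphicOrderAt h (ω₁ * z) := fun z =>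
    meromorphicOrderAt_comp_of_deriv_ne_zero (f := h) (han z) (hder z)
  have hall : ∀ z, meromorphicOrderAt h z ≠ ⊤ := by
    obtain ⟨z0, hz0⟩ := hex
    intro z
    exact hm.meromorphicOrderAt_ne_top_of_isPreconnected isPreconnected_univ (mem_univ z0)
      (mem_univ z) hz0
  have hkne : ∀ z, meromorphicOrderAt k z ≠ ⊤ := fun z => by rw [hord]; exact hall _
  obtain ⟨hf, hs⟩ := norm_case hτ hkm hk1 hk2 hkne
  have hoz : ∀ z, ordZ k z = ordZ h (ω₁ * z) := fun z => by unfold ordZ; rw [hord]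
  have hFD : FD ω₁ ω₂ = (fun z => ω₁ * z) '' FD 1 τ := by
    ext z
    constructor
    · rintro ⟨s, t, a1, a2, a3, a4, a5⟩
      refine ⟨s * 1 + t * τ, ⟨s, t, a1, a2, a3, a4, rfl⟩, ?_⟩
      show ω₁ * (s * 1 + t * τ) = z
      rw [a5, ← hτm]; ring
    · rintro ⟨w, ⟨s, t, a1, a2, a3, a4, a5⟩, rfl⟩
      refine ⟨s, t, a1, a2, a3, a4, ?_⟩
      show ω₁ * w = s * ω₁ + t * ω₂
      rw [a5, ← hτm]; ring
  constructor
  · refine (hf.image (fun z => ω₁ * z)).subset ?_
    rintro z ⟨hz, hz0⟩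
    rw [hFD] at hz
    obtain ⟨w, hw, rfl⟩ := hz
    exact ⟨w, ⟨hw, by rw [hoz]; exact hz0⟩, rfl⟩
  · rw [hFD, finsum_mem_image (fun x _ y _ hxy => mul_left_cancel₀ hω hxy), ← hs]
    refine finsum_mem_congr rfl (fun z _ => ?_)
    rw [hoz]

theorem main :
    S_ord := by
  intro ω₁ ω₂ h hl hm hp hex
  exact main' ω₁ ω₂ h hl hm hp hex

end J_ord

end Pool.Agent.Lev
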